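import Pool.Agent.Q14.Mono

/-!
Binomial edge ideals: kernels of monomial maps `x_v ↦ s_{c v} u_v`, `y_v ↦ u_v`.
-/

set_option autoImplicit false
set_option linter.unusedSectionVars false

namespace Q14.Bei

open MvPolynomial

variable {V L K : Type*} [Fintype V] [DecidableEq V] [DecidableEq L] [Field K]

/-- The `2`-minor `x_u y_v - x_v y_u`; the variables `x_v`, `y_v` are `X (v, false)`,
`X (v, true)`. -/
noncomputable def minor (K : Type*) [Field K] (u v : V) : MvPolynomial (V × Bool) K :=
  X (u, false) * X (v, true) - X (v, false) * X (u, true)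

/-- The binomial edge ideal. -/
noncomputable def beIdeal (K : Type*) [Field K] (G : SimpleGraph V) :
    Ideal (MvPolynomial (V × Bool) K) :=
  Ideal.span {f | ∃ u v, G.Adj u v ∧ f = minor K u v}

/-- The ideal `P_T(G)`: generated by the variables `x_v, y_v` with `v ∈ T` and the minors of pairs of
vertices in the same connected component of `G - T`. -/
noncomputable def primeT (K : Type*) [Field K] (G : SimpleGraph V) (T : Set V) :
    Ideal (MvPolynomial (V × Bool) K) :=
  Ideal.span ({f | ∃ v ∈ T, f = X (v, false) ∨ f = X (v, true)} ∪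
    {f | ∃ (u v : V) (hu : u ∈ Tᶜ) (hv : v ∈ Tᶜ),
      (G.induce Tᶜ).Reachable ⟨u, hu⟩ ⟨v, hv⟩ ∧ f = minor K u v})

/-- Exponent of the image of a variable. -/
noncomputable def wt (c : V → L) (p : V × Bool) : (L ⊕ V) →₀ ℕ :=
  (if p.2 then 0 else Finsupp.single (Sum.inl (c p.1)) 1) + Finsupp.single (Sum.inr p.1) 1

/-- Exponent of the image of a monomial. -/
noncomputable def ka (c : V → L) (m : (V × Bool) →₀ ℕ) : (L ⊕ V) →₀ ℕ := m.sum fun p k => k • wt c p

/-- The map `x_v ↦ s_{c v} u_v`, `y_v ↦ u_v`. -/
noncomputable def ph (K : Type*) [Field K] (c : V → L) :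
    MvPolynomial (V × Bool) K →ₐ[K] MvPolynomial (L ⊕ V) K :=
  aeval fun p => monomial (wt c p) (1 : K)

lemma ph_monomial (c : V → L) (m : (V × Bool) →₀ ℕ) (a : K) :
    ph K c (monomial m a) = monomial (ka c m) a := by
  unfold ph ka
  rw [aeval_monomial]
  have h1 : (m.prod fun i k => (monomial (wt c i) (1 : K)) ^ k) =
      monomial (m.sum fun p k => k • wt c p) 1 := by
    rw [Finsupp.prod, Finsupp.sum, monomial_sum_one]
    refine Finset.prod_congr rfl fun p _ => ?_
    rw [monomial_pow, one_pow]
  rw [h1, algebraMap_eq, C_mul_monomial, mul_one]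

lemma ka_inr (c : V → L) (m : (V × Bool) →₀ ℕ) (v : V) :
    ka c m (Sum.inr v) = m (v, false) + m (v, true) := by
  unfold ka
  rw [Finsupp.sum_fintype _ _ (by simp), Finsupp.finsetSum_apply, Fintype.sum_prod_type]
  rw [Finset.sum_eq_single v]
  · rw [Fintype.sum_bool]
    simp [wt, add_comm]
  · intro u _ huv
    rw [Fintype.sum_bool]
    simp [wt, huv]
  · intro h; exact absurd (Finset.mem_univ _) h

lemma ka_inl (c : V → L) (m : (V × Bool) →₀ ℕ) (l : L) :
    ka c m (Sum.inl l) = ∑ v, if c v = l then m (v, false) else 0 := by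
  unfold ka
  rw [Finsupp.sum_fintype _ _ (by simp), Finsupp.finsetSum_apply, Fintype.sum_prod_type]
  refine Finset.sum_congr rfl fun v _ => ?_
  rw [Fintype.sum_bool]
  simp only [wt, if_true, zero_add, Finsupp.smul_apply, Finsupp.single_apply, smul_eq_mul,
    Bool.false_eq_true, if_false, Finsupp.add_apply]
  simp

lemma ka_eq_iff (c : V → L) (m m' : (V × Bool) →₀ ℕ) :
    ka c m = ka c m' ↔ (∀ v, m (v, false) + m (v, true) = m' (v, false) + m' (v, true)) ∧
      ∀ l, (∑ v, if c v = l then m (v, false) else 0) = ∑ v, if c v = l then m' (v, false) else 0 := by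
  constructor
  · intro h
    refine ⟨fun v => ?_, fun l => ?_⟩
    · rw [← ka_inr c, ← ka_inr c, h]
    · rw [← ka_inl, ← ka_inl, h]
  · rintro ⟨h1, h2⟩
    ext x
    rcases x with l | v
    · rw [ka_inl, ka_inl, h2]
    · rw [ka_inr, ka_inr, h1]

lemma coeff_ph (c : V → L) (f : MvPolynomial (V × Bool) K) (k : (L ⊕ V) →₀ ℕ) :
    coeff k (ph K c f) = ∑ m ∈ f.support, if ka c m = k then coeff m f else 0 := by
  conv_lhs => rw [← support_sum_monomial_coeff f]
  rw [map_sum, coeff_sum]
  refine Finset.sum_congr rfl fun m _ => ?_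
  rw [ph_monomial, coeff_monomial]

lemma ph_minor (c : V → L) (u v : V) :
    ph K c (minor K u v) = (X (Sum.inl (c u)) - X (Sum.inl (c v))) * X (Sum.inr u) * X (Sum.inr v) := by
  have h1 : ∀ p : V × Bool, ph K c (X p) = monomial (wt c p) 1 := fun p => by
    unfold ph; rw [aeval_X]
  have h2 : ∀ v : V, ph K c (X (v, true)) = X (Sum.inr v) := fun v => by
    rw [h1]; unfold wt; simp [X]
  have h3 : ∀ v : V, ph K c (X (v, false)) = X (Sum.inl (c v)) * X (Sum.inr v) := fun v => by
    rw [h1]; unfold wt; simp [X, monomial_mul]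
  unfold minor
  rw [map_sub, map_mul, map_mul, h2, h2, h3, h3]
  ring

/-- Swapping. -/
theorem mono_sub_mem (c : V → L) (J : Ideal (MvPolynomial (V × Bool) K))
    (D : ((V × Bool) →₀ ℕ) → Prop)
    (hD : ∀ m m' : (V × Bool) →₀ ℕ,
      (∀ v, m (v, false) + m (v, true) = m' (v, false) + m' (v, true)) → D m → D m')
    (hsw : ∀ (m : (V × Bool) →₀ ℕ) (u v : V),
      D (m + Finsupp.single (u, false) 1 + Finsupp.single (v, true) 1) → u ≠ v → c u = c v →
        monomial m 1 * minor K u v ∈ J)
    (m m' : (V × Bool) →₀ ℕ) (hm : D m) (h : ka c m = ka c m') :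
    (monomial m (1 : K)) - monomial m' 1 ∈ J := by
  induction hN : ∑ v, (m (v, false) - m' (v, false)) using Nat.strong_induction_on generalizing m with
  | _ N ih =>
    have h' := (ka_eq_iff c m m').mp h
    by_cases hex : ∃ u, m' (u, false) < m (u, false)
    · obtain ⟨u, hu⟩ := hex
      have hv : ∃ v, c v = c u ∧ m (v, false) < m' (v, false) := by
        by_contra hcon
        push Not at hcon
        have h1 := h'.2 (c u)
        have h2 : (∑ v, if c v = c u then m' (v, false) else 0) <
            ∑ v, if c v = c u then m (v, false) else 0 := by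
          refine Finset.sum_lt_sum (fun v _ => ?_) ⟨u, Finset.mem_univ _, by simpa using hu⟩
          split_ifs with h3
          · exact hcon v h3
          · exact le_rfl
        omega
      obtain ⟨v, hcv, hv⟩ := hv
      have huv : u ≠ v := by
        rintro rfl
        omega
      have hvt : 0 < m (v, true) := by
        have := h'.1 v
        omega
      -- decompose `m`
      obtain ⟨m0, hm0⟩ : ∃ m0, m = m0 + Finsupp.single (u, false) 1 + Finsupp.single (v, true) 1 := by
        have hle : Finsupp.single (u, false) 1 + Finsupp.single (v, true) 1 ≤ m := by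
          intro p
          rw [Finsupp.add_apply, Finsupp.single_apply, Finsupp.single_apply]
          by_cases h1 : (u, false) = p
          · subst h1
            rw [if_pos rfl, if_neg (by simp)]
            omega
          · rw [if_neg h1, zero_add]
            split_ifs with h2
            · subst h2; omega
            · exact Nat.zero_le _
        obtain ⟨z, hz⟩ := exists_add_of_le hle
        exact ⟨z, by rw [hz, add_comm, ← add_assoc]⟩
      set m1 := m0 + Finsupp.single (v, false) 1 + Finsupp.single (u, true) 1 with hm1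
      have hcol : ∀ w, m (w, false) + m (w, true) = m1 (w, false) + m1 (w, true) := by
        intro w
        rw [hm0, hm1]
        simp only [Finsupp.add_apply, Finsupp.single_apply, Prod.mk.injEq]
        by_cases h1 : u = w
        · by_cases h2 : v = w
          · exact absurd (h1.trans h2.symm) huv
          · simp [h1, h2]; omega
        · by_cases h2 : v = w
          · simp [h1, h2]; omega
          · simp [h1, h2]
      have hlab : ∀ l, (∑ w, if c w = l then m (w, false) else 0) =
          ∑ w, if c w = l then m1 (w, false) else 0 := by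
        intro l
        have e1 : ∀ w, (if c w = l then m (w, false) else 0) =
            (if c w = l then m0 (w, false) else 0) + if w = u then (if c u = l then 1 else 0) else 0 := by
          intro w
          rw [hm0]
          simp only [Finsupp.add_apply, Finsupp.single_apply, Prod.mk.injEq]
          by_cases h1 : w = u
          · subst h1; by_cases h2 : c w = l <;> simp [h2]
          · have h1' : ¬ u = w := fun h => h1 h.symm
            by_cases h2 : c w = l <;> simp [h2, h1, h1']
        have e2 : ∀ w, (if c w = l then m1 (w, false) else 0) =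
            (if c w = l then m0 (w, false) else 0) + if w = v then (if c v = l then 1 else 0) else 0 := by
          intro w
          rw [hm1]
          simp only [Finsupp.add_apply, Finsupp.single_apply, Prod.mk.injEq]
          by_cases h1 : w = v
          · subst h1; by_cases h2 : c w = l <;> simp [h2]
          · have h1' : ¬ v = w := fun h => h1 h.symm
            by_cases h2 : c w = l <;> simp [h2, h1, h1']
        rw [Finset.sum_congr rfl fun w _ => e1 w, Finset.sum_congr rfl fun w _ => e2 w,
          Finset.sum_add_distrib, Finset.sum_add_distrib]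
        simp [hcv]
      have hka : ka c m1 = ka c m' := by
        rw [← h, ka_eq_iff]
        exact ⟨fun w => (hcol w).symm, fun l => (hlab l).symm⟩
      have hlt : ∑ w, (m1 (w, false) - m' (w, false)) < N := by
        rw [← hN]
        refine Finset.sum_lt_sum (fun w _ => ?_) ⟨u, Finset.mem_univ _, ?_⟩
        · rw [hm0, hm1]
          simp only [Finsupp.add_apply, Finsupp.single_apply, Prod.mk.injEq]
          by_cases h2 : v = w
          · subst h2
            rw [hm0] at hv
            simp only [Finsupp.add_apply, Finsupp.single_apply, Prod.mk.injEq] at hv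
            have : ¬ u = v := huv
            simp [this] at hv ⊢
            omega
          · simp [h2]
            split_ifs <;> omega
        · rw [hm1]
          rw [hm0] at hu ⊢
          simp only [Finsupp.add_apply, Finsupp.single_apply, Prod.mk.injEq] at hu ⊢
          have : ¬ v = u := fun h => huv h.symm
          simp [this] at hu ⊢
          omega
      have h1 := ih _ hlt m1 (hD m m1 hcol hm) hka rfl
      have h2 : (monomial m (1 : K)) - monomial m1 1 = monomial m0 1 * minor K u v := by
        unfold minor
        rw [hm0, hm1]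
        simp only [X, mul_sub, monomial_mul, mul_one, add_assoc]
      have h3 := hsw m0 u v (by rw [← hm0]; exact hm) huv hcv.symm
      rw [← h2] at h3
      have h4 := J.add_mem h3 h1
      rwa [sub_add_sub_cancel] at h4
    · push Not at hex
      have heq : ∀ v, m (v, false) = m' (v, false) := by
        intro v
        by_contra hne
        have h1 := h'.2 (c v)
        have h2 : (∑ w, if c w = c v then m (w, false) else 0) <
            ∑ w, if c w = c v then m' (w, false) else 0 := by
          refine Finset.sum_lt_sum (fun w _ => ?_) ⟨v, Finset.mem_univ _, ?_⟩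
          · split_ifs
            · exact hex w
            · exact le_rfl
          · rw [if_pos rfl, if_pos rfl]
            have := hex v
            omega
        omega
      have : m = m' := by
        ext ⟨v, b⟩
        cases b
        · exact heq v
        · have h1 := h'.1 v
          have h2 := heq v
          omega
      rw [this, sub_self]
      exact J.zero_mem

/-- Elements of the kernel of `ph` belong to an ideal containing the relevant swaps. -/
theorem mem_of_ph_eq_zero (c : V → L) (J : Ideal (MvPolynomial (V × Bool) K))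
    (D : ((V × Bool) →₀ ℕ) → Prop)
    (hD : ∀ m m' : (V × Bool) →₀ ℕ,
      (∀ v, m (v, false) + m (v, true) = m' (v, false) + m' (v, true)) → D m → D m')
    (hsw : ∀ (m : (V × Bool) →₀ ℕ) (u v : V),
      D (m + Finsupp.single (u, false) 1 + Finsupp.single (v, true) 1) → u ≠ v → c u = c v →
        monomial m 1 * minor K u v ∈ J)
    (f : MvPolynomial (V × Bool) K) (hf : ph K c f = 0) (hfD : ∀ m ∈ f.support, D m) : f ∈ J := by
  classical
  have h1 : f = ∑ k ∈ f.support.image (ka c), ∑ m ∈ f.support.filter (fun m => ka c m = k),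
      monomial m (coeff m f) := by
    rw [Finset.sum_fiberwise_of_maps_to (fun m hm => Finset.mem_image_of_mem _ hm)]
    exact (support_sum_monomial_coeff f).symm
  rw [h1]
  refine Ideal.sum_mem _ fun k hk => ?_
  obtain ⟨m0, hm0, hk0⟩ := Finset.mem_image.mp hk
  have h2 : ∑ m ∈ f.support.filter (fun m => ka c m = k), coeff m f = 0 := by
    have := coeff_ph c f k
    rw [hf, coeff_zero, ← Finset.sum_filter] at this
    exact this.symm
  have h3 : ∑ m ∈ f.support.filter (fun m => ka c m = k), monomial m (coeff m f) =
      ∑ m ∈ f.support.filter (fun m => ka c m = k),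
        C (coeff m f) * (monomial m (1 : K) - monomial m0 1) +
      C (∑ m ∈ f.support.filter (fun m => ka c m = k), coeff m f) * monomial m0 (1 : K) := by
    rw [map_sum, Finset.sum_mul, ← Finset.sum_add_distrib]
    refine Finset.sum_congr rfl fun m _ => ?_
    rw [mul_sub, sub_add_cancel, C_mul_monomial, mul_one]
  rw [h3, h2, map_zero, zero_mul, add_zero]
  refine Ideal.sum_mem _ fun m hm => J.mul_mem_left _ ?_
  rw [Finset.mem_filter] at hm
  exact mono_sub_mem c J D hD hsw m m0 (hfD m hm.1) (hm.2.trans hk0.symm)

/-! ### The primes -/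

open Q14.Mono

/-- The kernel of `x_v ↦ s_{c v} u_v`, `y_v ↦ u_v` for `v ∉ T` and `x_v, y_v ↦ 0` for `v ∈ T`. -/
noncomputable def PP (K : Type*) [Field K] (T : Set V) (c : V → L) :
    Ideal (MvPolynomial (V × Bool) K) :=
  RingHom.ker ((ph K c).comp (kill K {p : V × Bool | p.1 ∈ T}))

lemma PP_isPrime (T : Set V) (c : V → L) : (PP K T c).IsPrime := by
  unfold PP
  exact RingHom.ker_isPrime _

lemma mem_PP {T : Set V} {c : V → L} {f : MvPolynomial (V × Bool) K} :
    f ∈ PP K T c ↔ ph K c (kill K {p : V × Bool | p.1 ∈ T} f) = 0 := by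
  unfold PP
  rw [RingHom.mem_ker]
  rfl

lemma kill_eq_self {T : Set V} {f : MvPolynomial (V × Bool) K}
    (h : ∀ m ∈ f.support, ∀ v ∈ T, m (v, false) = 0 ∧ m (v, true) = 0) :
    kill K {p : V × Bool | p.1 ∈ T} f = f := by
  ext m
  rw [coeff_kill]
  split_ifs with h1
  · rfl
  · by_contra hne
    apply h1
    rintro ⟨v, b⟩ hv
    have := h m (mem_support_iff.mpr (fun h0 => hne h0.symm)) v hv
    cases b
    · exact this.1
    · exact this.2

lemma X_mem_PP {T : Set V} (c : V → L) {v : V} (b : Bool) (hv : v ∈ T) :
    (X (v, b) : MvPolynomial (V × Bool) K) ∈ PP K T c := by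
  rw [mem_PP]
  unfold kill
  rw [aeval_X, if_pos (show (v, b) ∈ {p : V × Bool | p.1 ∈ T} from hv), map_zero]

lemma kill_X_of_notMem {T : Set V} {v : V} (b : Bool) (hv : v ∉ T) :
    kill K {p : V × Bool | p.1 ∈ T} (X (v, b)) = X (v, b) := by
  unfold kill
  rw [aeval_X, if_neg (show (v, b) ∉ {p : V × Bool | p.1 ∈ T} from hv)]

lemma minor_mem_PP_of_eq {T : Set V} (c : V → L) {u v : V} (h : u ∉ T → v ∉ T → c u = c v) :
    minor K u v ∈ PP K T c := by
  by_cases hu : u ∈ T
  · unfold minor
    exact Ideal.sub_mem _ (Ideal.mul_mem_right _ _ (X_mem_PP c _ hu))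
      (Ideal.mul_mem_left _ _ (X_mem_PP c _ hu))
  · by_cases hv : v ∈ T
    · unfold minor
      exact Ideal.sub_mem _ (Ideal.mul_mem_left _ _ (X_mem_PP c _ hv))
        (Ideal.mul_mem_right _ _ (X_mem_PP c _ hv))
    · rw [mem_PP]
      have : kill K {p : V × Bool | p.1 ∈ T} (minor K u v) = minor K u v := by
        unfold minor
        rw [map_sub, map_mul, map_mul, kill_X_of_notMem _ hu, kill_X_of_notMem _ hu,
          kill_X_of_notMem _ hv, kill_X_of_notMem _ hv]
      rw [this, ph_minor, h hu hv, sub_self, zero_mul, zero_mul]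

lemma X_notMem_PP {T : Set V} (c : V → L) {v : V} (b : Bool) (hv : v ∉ T) :
    (X (v, b) : MvPolynomial (V × Bool) K) ∉ PP K T c := by
  rw [mem_PP, kill_X_of_notMem _ hv]
  unfold ph
  rw [aeval_X]
  simp [monomial_eq_zero]

lemma minor_notMem_PP {T : Set V} (c : V → L) {u v : V} (hu : u ∉ T) (hv : v ∉ T)
    (h : c u ≠ c v) : minor K u v ∉ PP K T c := by
  rw [mem_PP]
  have : kill K {p : V × Bool | p.1 ∈ T} (minor K u v) = minor K u v := by
    unfold minor
    rw [map_sub, map_mul, map_mul, kill_X_of_notMem _ hu, kill_X_of_notMem _ hu,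
      kill_X_of_notMem _ hv, kill_X_of_notMem _ hv]
  rw [this, ph_minor]
  refine mul_ne_zero (mul_ne_zero ?_ (X_ne_zero _)) (X_ne_zero _)
  rw [sub_ne_zero]
  intro h1
  exact h (Sum.inl_injective (X_injective h1))

lemma beIdeal_le_PP (G : SimpleGraph V) {T : Set V} {c : V → L}
    (h : ∀ u v, G.Adj u v → u ∉ T → v ∉ T → c u = c v) : beIdeal K G ≤ PP K T c := by
  unfold beIdeal
  rw [Ideal.span_le]
  rintro _ ⟨u, v, huv, rfl⟩
  exact minor_mem_PP_of_eq c (h u v huv)

/-- `P_T(G)` is the kernel of a map to a domain. -/
theorem primeT_eq_PP (G : SimpleGraph V) (T : Set V) (c : V → L)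
    (h : ∀ (u v : V) (hu : u ∈ Tᶜ) (hv : v ∈ Tᶜ),
      (G.induce Tᶜ).Reachable ⟨u, hu⟩ ⟨v, hv⟩ ↔ c u = c v) : primeT K G T = PP K T c := by
  classical
  apply le_antisymm
  · unfold primeT
    rw [Ideal.span_le]
    rintro _ (⟨v, hv, rfl | rfl⟩ | ⟨u, v, hu, hv, hr, rfl⟩)
    · exact X_mem_PP c _ hv
    · exact X_mem_PP c _ hv
    · exact minor_mem_PP_of_eq c fun _ _ => (h u v hu hv).mp hr
  · intro f hf
    have hX : ∀ v ∈ T, ∀ b, (X (v, b) : MvPolynomial (V × Bool) K) ∈ primeT K G T := by
      intro v hv b
      apply Ideal.subset_span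
      left
      refine ⟨v, hv, ?_⟩
      cases b
      · exact Or.inl rfl
      · exact Or.inr rfl
    set g := kill K {p : V × Bool | p.1 ∈ T} f with hg
    have h1 : f - g ∈ primeT K G T := by
      refine mem_of_forall fun m hm => ?_
      rw [mem_support_iff, coeff_sub, hg, coeff_kill] at hm
      split_ifs at hm with h2
      · exact absurd (sub_self _) hm
      · push Not at h2
        obtain ⟨⟨v, b⟩, hv, hm0⟩ := h2
        have hle : Finsupp.single (v, b) 1 ≤ m := by
          rw [Finsupp.single_le_iff]; omega
        refine monomial_mem_of_le hle ?_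
        exact hX v hv b
    have h2 : g ∈ primeT K G T := by
      refine mem_of_ph_eq_zero c _ (fun m => ∀ v ∈ T, m (v, false) = 0 ∧ m (v, true) = 0) ?_ ?_ g
        (mem_PP.mp hf) ?_
      · intro m m' hmm hm v hv
        have h3 := hm v hv
        have h4 := hmm v
        omega
      · intro m u v hD huv hc
        have hu : u ∈ Tᶜ := by
          intro hu
          have := (hD u hu).1
          simp at this
        have hv : v ∈ Tᶜ := by
          intro hv
          have := (hD v hv).2
          simp at this
        refine Ideal.mul_mem_left _ _ (Ideal.subset_span (Or.inr ?_))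
        exact ⟨u, v, hu, hv, (h u v hu hv).mpr hc, rfl⟩
      · intro m hm v hv
        rw [mem_support_iff, hg, coeff_kill] at hm
        split_ifs at hm with h3
        · exact ⟨h3 (v, false) hv, h3 (v, true) hv⟩
        · exact absurd rfl hm
    have h3 := Ideal.add_mem _ h1 h2
    rwa [sub_add_cancel] at h3

/-! ### Components of a given column degree -/

/-- The column degree. -/
def colDeg (m : (V × Bool) →₀ ℕ) (v : V) : ℕ := m (v, false) + m (v, true)

/-- The component of column degree `δ`. -/
noncomputable def cmp (δ : V → ℕ) (f : MvPolynomial (V × Bool) K) : MvPolynomial (V × Bool) K :=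
  ∑ m ∈ f.support.filter (fun m => colDeg m = δ), monomial m (coeff m f)

lemma coeff_cmp (δ : V → ℕ) (f : MvPolynomial (V × Bool) K) (m : (V × Bool) →₀ ℕ) :
    coeff m (cmp δ f) = if colDeg m = δ then coeff m f else 0 := by
  unfold cmp
  rw [coeff_sum]
  simp only [coeff_monomial]
  rw [Finset.sum_ite_eq' _ m]
  by_cases h1 : colDeg m = δ
  · rw [if_pos h1]
    split_ifs with h2
    · rfl
    · rw [Finset.mem_filter, not_and_or] at h2
      rcases h2 with h2 | h2
      · exact (notMem_support_iff.mp h2).symm
      · exact absurd h1 h2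
  · rw [if_neg h1, if_neg]
    intro h2
    exact h1 (Finset.mem_filter.mp h2).2

lemma mem_of_cmp_mem {J : Ideal (MvPolynomial (V × Bool) K)} {f : MvPolynomial (V × Bool) K}
    (h : ∀ δ, cmp δ f ∈ J) : f ∈ J := by
  classical
  have h1 : f = ∑ δ ∈ f.support.image colDeg, cmp δ f := by
    conv_lhs => rw [← support_sum_monomial_coeff f]
    rw [← Finset.sum_fiberwise_of_maps_to (s := f.support) (t := f.support.image colDeg)
      (g := colDeg) (fun m hm => Finset.mem_image_of_mem _ hm)]
    rfl
  rw [h1]
  exact Ideal.sum_mem _ fun δ _ => h δ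

lemma ph_cmp (c : V → L) (δ : V → ℕ) (f : MvPolynomial (V × Bool) K) (h : ph K c f = 0) :
    ph K c (cmp δ f) = 0 := by
  ext k
  rw [coeff_zero]
  have h1 : coeff k (ph K c (cmp δ f)) =
      ∑ m ∈ f.support.filter (fun m => colDeg m = δ), if ka c m = k then coeff m f else 0 := by
    unfold cmp
    rw [map_sum, coeff_sum]
    refine Finset.sum_congr rfl fun m _ => ?_
    rw [ph_monomial, coeff_monomial]
  rw [h1]
  by_cases hk : ∀ v, k (Sum.inr v) = δ v
  · have h2 := coeff_ph c f k
    rw [h, coeff_zero] at h2
    refine Eq.trans ?_ h2.symm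
    rw [Finset.sum_filter]
    refine Finset.sum_congr rfl fun m _ => ?_
    split_ifs with h3 h4 h4
    · rfl
    · rfl
    · exfalso
      apply h3
      funext v
      rw [← hk v, ← h4, ka_inr]
      rfl
    · rfl
  · push Not at hk
    obtain ⟨v, hv⟩ := hk
    refine Finset.sum_eq_zero fun m hm => ?_
    rw [Finset.mem_filter] at hm
    rw [if_neg]
    rintro rfl
    apply hv
    rw [ka_inr, ← hm.2]
    rfl

lemma kill_cmp (T : Set V) (δ : V → ℕ) (f : MvPolynomial (V × Bool) K) :
    kill K {p : V × Bool | p.1 ∈ T} (cmp δ f) = cmp δ (kill K {p : V × Bool | p.1 ∈ T} f) := by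
  ext m
  rw [coeff_kill, coeff_cmp, coeff_cmp, coeff_kill]
  split_ifs <;> rfl

lemma cmp_mem_PP {T : Set V} {c : V → L} {f : MvPolynomial (V × Bool) K} (δ : V → ℕ)
    (h : f ∈ PP K T c) : cmp δ f ∈ PP K T c := by
  rw [mem_PP] at h ⊢
  rw [kill_cmp]
  exact ph_cmp c δ _ h

/-! ### Plücker relations -/

lemma plucker (u v w : V) (b : Bool) : (X (w, b) : MvPolynomial (V × Bool) K) * minor K u v =
    X (u, b) * minor K w v + X (v, b) * minor K u w := by
  unfold minor
  cases b <;> ring

lemma minor_mem {G : SimpleGraph V} {u v : V} (h : G.Adj u v) : minor K u v ∈ beIdeal K G :=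
  Ideal.subset_span ⟨u, v, h, rfl⟩

/-- Extending a path by one vertex. -/
lemma path_step {G : SimpleGraph V} {u a v : V} (b : Bool) (h : G.Adj u a)
    {q : MvPolynomial (V × Bool) K} (hq : q * minor K a v ∈ beIdeal K G) :
    X (a, b) * q * minor K u v ∈ beIdeal K G := by
  have h1 : X (a, b) * q * minor K u v = X (u, b) * (q * minor K a v) +
      q * X (v, b) * minor K u a := by
    rw [show X (a, b) * q * minor K u v = q * (X (a, b) * minor K u v) by ring, plucker]
    ring
  rw [h1]
  exact Ideal.add_mem _ (Ideal.mul_mem_left _ _ hq) (Ideal.mul_mem_left _ _ (minor_mem h))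

lemma path_one {G : SimpleGraph V} {u a v : V} (b : Bool) (h : G.Adj u a) (h' : G.Adj a v) :
    X (a, b) * minor K u v ∈ beIdeal K G := by
  have := path_step (K := K) b h (q := 1) (by rw [one_mul]; exact minor_mem h')
  rwa [mul_one] at this

/-- If the set of columns of `δ` is good then a prime `PP` contains no new elements of column degree
`δ`. -/
theorem good {G : SimpleGraph V} {T : Set V} {c : V → L} {f : MvPolynomial (V × Bool) K}
    (δ : V → ℕ) (h : f ∈ PP K T c) (hT : ∀ v ∈ T, δ v = 0)
    (hg : ∀ u v, u ≠ v → δ u ≠ 0 → δ v ≠ 0 → c u = c v →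
      G.Adj u v ∨ ∃ w, w ≠ u ∧ w ≠ v ∧ δ w ≠ 0 ∧ G.Adj u w ∧ G.Adj w v) :
    cmp δ f ∈ beIdeal K G := by
  have h1 : ∀ m ∈ (cmp δ f).support, colDeg m = δ := by
    intro m hm
    rw [mem_support_iff, coeff_cmp] at hm
    by_contra hne
    rw [if_neg hne] at hm
    exact hm rfl
  have h2 := cmp_mem_PP δ h
  rw [mem_PP, kill_eq_self] at h2
  · refine mem_of_ph_eq_zero c _ (fun m => colDeg m = δ) ?_ ?_ _ h2 h1
    · intro m m' hmm hm
      funext v
      rw [← hm]
      exact (hmm v).symm
    · intro m u v hD huv hc
      have hu : δ u ≠ 0 := by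
        rw [← hD]
        unfold colDeg
        simp
      have hv : δ v ≠ 0 := by
        rw [← hD]
        unfold colDeg
        simp
      rcases hg u v huv hu hv hc with hadj | ⟨w, hwu, hwv, hw, h3, h4⟩
      · exact Ideal.mul_mem_left _ _ (minor_mem hadj)
      · have h5 : ∃ b, m (w, b) ≠ 0 := by
          have h6 : colDeg (m + Finsupp.single (u, false) 1 + Finsupp.single (v, true) 1) w ≠ 0 := by
            rw [hD]; exact hw
          unfold colDeg at h6
          simp only [Finsupp.add_apply, Finsupp.single_apply, Prod.mk.injEq, and_true, and_false,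
            Bool.false_eq_true, Bool.true_eq_false, if_false, add_zero] at h6
          rw [if_neg (fun h => hwu h.symm), if_neg (fun h => hwv h.symm)] at h6
          by_contra hcon
          push Not at hcon
          have h7 := hcon false
          have h8 := hcon true
          omega
        obtain ⟨b, hb⟩ := h5
        have hle : Finsupp.single (w, b) 1 ≤ m := by
          rw [Finsupp.single_le_iff]; omega
        obtain ⟨m0, rfl⟩ := exists_add_of_le hle
        have h9 : monomial (Finsupp.single (w, b) 1 + m0) (1 : K) = monomial m0 1 * X (w, b) := by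
          rw [X, monomial_mul, one_mul, add_comm]
        rw [h9, mul_assoc]
        exact Ideal.mul_mem_left _ _ (path_one b h3 h4)
  · intro m hm v hv
    have h3 := congrFun (h1 m hm) v
    rw [hT v hv] at h3
    unfold colDeg at h3
    omega

end Q14.Bei
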