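import Mathlib
import Pool.Agent.H677R3.RegComb

/-!
Koszul complexes over arbitrary commutative rings, and the mod `p` reduction of homology.
-/

set_option autoImplicit false

namespace Pool.Agent.Q14.Kos

open Finset Pool.Agent.H677R3.EdgeReg

variable {n : ℕ} {A : Type*} [CommRing A] {M : Type*} [AddCommGroup M] [Module A M]

/-- Koszul differential of the sequence `a` with coefficients in `M`. -/
def kd (a : Fin n → A) : (Finset (Fin n) → M) →ₗ[A] (Finset (Fin n) → M) where
  toFun F := fun T => ∑ j ∈ Tᶜ, (sg A j T * a j) • F (insert j T)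
  map_add' F G := by
    funext T
    simp only [Pi.add_apply, smul_add, Finset.sum_add_distrib]
  map_smul' c F := by
    funext T
    simp only [Pi.smul_apply, RingHom.id_apply, Finset.smul_sum]
    exact Finset.sum_congr rfl fun j _ => by rw [smul_comm]

lemma kd_apply (a : Fin n → A) (F : Finset (Fin n) → M) (T : Finset (Fin n)) :
    kd a F T = ∑ j ∈ Tᶜ, (sg A j T * a j) • F (insert j T) := rfl

lemma kd_kd (a : Fin n → A) (F : Finset (Fin n) → M) : kd a (kd a F) = 0 := by
  funext T
  rw [kd_apply]
  simp_rw [kd_apply, Finset.smul_sum, smul_smul]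
  rw [Finset.sum_sigma']
  refine Finset.sum_involution (fun x _ => ⟨x.2, x.1⟩) ?_ ?_ ?_ ?_
  · rintro ⟨j, i⟩ h
    simp only [Finset.mem_sigma, Finset.mem_compl, Finset.mem_insert, not_or] at h
    obtain ⟨hj, hij, hi⟩ := h
    have := sg_swap (k := A) hij hi hj
    simp only
    rw [Finset.insert_comm j i T, ← add_smul]
    have e : sg A j T * a j * (sg A i (insert j T) * a i) +
        sg A i T * a i * (sg A j (insert i T) * a j) =
        (sg A j T * sg A i (insert j T) + sg A i T * sg A j (insert i T)) * (a i * a j) := by ring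
    rw [e, this, zero_mul, zero_smul]
  · rintro ⟨j, i⟩ h _ heq
    simp only [Finset.mem_sigma, Finset.mem_compl, Finset.mem_insert, not_or] at h
    have : i = j := by
      have := congrArg Sigma.fst heq
      simpa using this
    exact h.2.1 this
  · rintro ⟨j, i⟩ h
    simp only [Finset.mem_sigma, Finset.mem_compl, Finset.mem_insert, not_or] at h ⊢
    exact ⟨h.2.2, fun hh => h.2.1 hh.symm, h.1⟩
  · rintro ⟨j, i⟩ h
    rfl

/-- homotopy -/
def hs (v : Fin n) (A : Type*) [CommRing A] {M : Type*} [AddCommGroup M] [Module A M]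
    (F : Finset (Fin n) → M) (T : Finset (Fin n)) : M :=
  if v ∈ T then sg A v (T.erase v) • F (T.erase v) else 0

lemma kd_hs (v : Fin n) (a : Fin n → A) (F : Finset (Fin n) → M) (T : Finset (Fin n)) :
    kd a (hs v A F) T + hs v A (kd a F) T = a v • F T := by
  by_cases hv' : v ∈ T
  · have e1 : hs v A (kd a F) T = sg A v (T.erase v) • kd a F (T.erase v) := by
      unfold hs; rw [if_pos hv']
    have e2 : kd a F (T.erase v) = (sg A v (T.erase v) * a v) • F T +
        ∑ j ∈ Tᶜ, (sg A j (T.erase v) * a j) • F (insert j (T.erase v)) := by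
      rw [kd_apply, show (T.erase v)ᶜ = insert v Tᶜ by rw [Finset.compl_erase]]
      rw [Finset.sum_insert (by simp [hv']), Finset.insert_erase hv']
    have e3 : kd a (hs v A F) T = ∑ j ∈ Tᶜ, (sg A j T * a j) •
        (sg A v ((insert j T).erase v) • F ((insert j T).erase v)) := by
      rw [kd_apply]
      refine Finset.sum_congr rfl fun j hj => ?_
      unfold hs
      rw [if_pos (by simp [hv'])]
    rw [e1, e2, e3, smul_add, smul_smul, ← mul_assoc, sg_mul_self, one_mul, Finset.smul_sum,
      add_comm, add_assoc, ← Finset.sum_add_distrib]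
    have : ∑ j ∈ Tᶜ, (sg A v (T.erase v) • (sg A j (T.erase v) * a j) • F (insert j (T.erase v)) +
        (sg A j T * a j) • (sg A v ((insert j T).erase v) • F ((insert j T).erase v))) = 0 := by
      refine Finset.sum_eq_zero fun j hj => ?_
      have hj' : j ∉ T := by simpa using hj
      have hjv : j ≠ v := fun h => hj' (h ▸ hv')
      have e4 : (insert j T).erase v = insert j (T.erase v) :=
        Finset.erase_insert_of_ne hjv
      have hT : T = insert v (T.erase v) := (Finset.insert_erase hv').symm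
      have h5 : j ∉ T.erase v := fun h => hj' (Finset.mem_of_mem_erase h)
      have h6 : v ∉ T.erase v := Finset.notMem_erase _ _
      have e5 : sg A j T = sg A j (insert v (T.erase v)) := by rw [← hT]
      rw [e4, e5, smul_smul, smul_smul, ← add_smul]
      have e7 : sg A v (T.erase v) * (sg A j (T.erase v) * a j) +
          sg A j (insert v (T.erase v)) * a j * sg A v (insert j (T.erase v)) = 0 := by
        rw [sg_insert h6, sg_insert h5]
        rcases lt_or_gt_of_ne hjv with h | h
        · rw [if_neg (not_lt.mpr h.le), if_pos h]; ring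
        · rw [if_pos h, if_neg (not_lt.mpr h.le)]; ring
      rw [e7, zero_smul]
    rw [this, add_zero]
  · have e1 : hs v A (kd a F) T = 0 := by unfold hs; rw [if_neg hv']
    rw [e1, add_zero, kd_apply]
    rw [Finset.sum_eq_single v]
    · unfold hs
      rw [if_pos (Finset.mem_insert_self _ _), Finset.erase_insert hv', smul_smul, mul_right_comm,
        sg_mul_self, one_mul]
    · intro j hj hjv
      unfold hs
      rw [if_neg, smul_zero]
      simp only [Finset.mem_insert, not_or]
      exact ⟨fun h => hjv h.symm, hv'⟩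
    · intro h; exact absurd (by simpa using hv') h

/-- the differential is natural -/
lemma kd_map {B : Type*} [CommRing B] {M' : Type*} [AddCommGroup M'] [Module B M'] (φ : A →+* B)
    (f : M →+ M') (hf : ∀ (r : A) (m : M), f (r • m) = φ r • f m) (a : Fin n → A)
    (F : Finset (Fin n) → M) (T : Finset (Fin n)) :
    kd (fun j => φ (a j)) (fun T => f (F T)) T = f (kd a F T) := by
  rw [kd_apply, kd_apply, map_sum]
  refine Finset.sum_congr rfl fun j _ => ?_
  rw [hf, map_mul]
  congr 2
  unfold sg
  rw [map_pow, map_neg, map_one]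

lemma kd_mem (N : Submodule A M) (a : Fin n → A) {F : Finset (Fin n) → M} (hF : ∀ T, F T ∈ N)
    (T : Finset (Fin n)) : kd a F T ∈ N := by
  rw [kd_apply]
  exact Submodule.sum_mem _ fun j _ => N.smul_mem _ (hF _)

lemma kd_card (a : Fin n → A) {F : Finset (Fin n) → M} {i : ℕ}
    (hF : ∀ T, T.card ≠ i + 1 → F T = 0) (T : Finset (Fin n)) (hT : T.card ≠ i) :
    kd a F T = 0 := by
  rw [kd_apply]
  refine Finset.sum_eq_zero fun j hj => ?_
  rw [hF, smul_zero]
  rw [card_insert_of_notMem (by simpa using hj)]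
  omega

/-- cycles of degree `i` with coefficients in `N` -/
def ZK (a : Fin n → A) (N : Submodule A M) (i : ℕ) : Submodule A (Finset (Fin n) → M) where
  carrier := {F | (∀ T, F T ∈ N) ∧ (∀ T, T.card ≠ i → F T = 0) ∧ kd a F = 0}
  add_mem' {F G} hF hG := ⟨fun T => N.add_mem (hF.1 T) (hG.1 T),
    fun T hT => by rw [Pi.add_apply, hF.2.1 T hT, hG.2.1 T hT, add_zero],
    by rw [map_add, hF.2.2, hG.2.2, add_zero]⟩
  zero_mem' := ⟨fun _ => N.zero_mem, fun _ _ => rfl, map_zero _⟩
  smul_mem' c F hF := ⟨fun T => N.smul_mem c (hF.1 T),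
    fun T hT => by rw [Pi.smul_apply, hF.2.1 T hT, smul_zero],
    by rw [map_smul, hF.2.2, smul_zero]⟩

/-- boundaries of degree `i` with coefficients in `N` -/
def BK (a : Fin n → A) (N : Submodule A M) (i : ℕ) : Submodule A (Finset (Fin n) → M) where
  carrier := {F | ∃ G : Finset (Fin n) → M, (∀ T, G T ∈ N) ∧ (∀ T, T.card ≠ i + 1 → G T = 0) ∧
    kd a G = F}
  add_mem' := by
    rintro F F' ⟨G, h1, h2, h3⟩ ⟨G', h1', h2', h3'⟩
    exact ⟨G + G', fun T => N.add_mem (h1 T) (h1' T),
      fun T hT => by rw [Pi.add_apply, h2 T hT, h2' T hT, add_zero], by rw [map_add, h3, h3']⟩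
  zero_mem' := ⟨0, fun _ => N.zero_mem, fun _ _ => rfl, map_zero _⟩
  smul_mem' := by
    rintro c F ⟨G, h1, h2, h3⟩
    exact ⟨c • G, fun T => N.smul_mem c (h1 T),
      fun T hT => by rw [Pi.smul_apply, h2 T hT, smul_zero], by rw [map_smul, h3]⟩

lemma BK_le_ZK (a : Fin n → A) (N : Submodule A M) (i : ℕ) : BK a N i ≤ ZK a N i := by
  rintro F ⟨G, h1, h2, rfl⟩
  exact ⟨fun T => kd_mem N a h1 T, fun T hT => kd_card a h2 T hT, kd_kd a G⟩

lemma smul_ZK_le (a : Fin n → A) (N : Submodule A M) (i : ℕ) (v : Fin n)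
    {F : Finset (Fin n) → M} (hF : F ∈ ZK a N i) : a v • F ∈ BK a N i := by
  refine ⟨hs v A F, ?_, ?_, ?_⟩
  · intro T
    unfold hs
    split_ifs
    · exact N.smul_mem _ (hF.1 _)
    · exact N.zero_mem
  · intro T hT
    unfold hs
    split_ifs with h
    · rw [hF.2.1, smul_zero]
      have := card_erase_add_one h
      omega
    · rfl
  · funext T
    have h1 := kd_hs v a F T
    have h2 : hs v A (kd a F) T = 0 := by
      unfold hs
      rw [hF.2.2]
      simp
    rw [h2, add_zero] at h1
    exact h1

/-! ### Reduction modulo `p` -/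

/-- If `H` is a finitely generated abelian group without `p`-torsion and `V = H/pH`, then the
dimension of `V` is the rank of `H`. -/
theorem finrank_reduction (p : ℕ) [hp : Fact p.Prime] {H : Type*} [AddCommGroup H]
    [Module.Finite ℤ H] (htors : ∀ h : H, (p : ℤ) • h = 0 → h = 0) {V : Type*} [AddCommGroup V]
    [Module (ZMod p) V] (φ : H →+ V) (hφ : Function.Surjective φ)
    (hker : ∀ h : H, φ h = 0 ↔ ∃ h' : H, h = (p : ℤ) • h') :
    Module.finrank (ZMod p) V = Module.finrank ℤ (H ⧸ Submodule.torsion ℤ H) := by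
  classical
  have hfree : Module.Free ℤ (H ⧸ Submodule.torsion ℤ H) := inferInstance
  let b := Module.Free.chooseBasis ℤ (H ⧸ Submodule.torsion ℤ H)
  choose l hl using fun i => Submodule.Quotient.mk_surjective (Submodule.torsion ℤ H) (b i)
  have hφz : ∀ (m : ℤ) (h : H), φ (m • h) = (m : ZMod p) • φ h := by
    intro m h
    rw [map_zsmul]
    exact (Int.cast_smul_eq_zsmul (ZMod p) m (φ h)).symm
  have htp : ∀ t ∈ Submodule.torsion ℤ H, φ t = 0 := by
    intro t ht
    rw [Submodule.mem_torsion_iff] at ht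
    obtain ⟨m, hm⟩ := ht
    have hm0 : (m : ℤ) ≠ 0 := nonZeroDivisors.coe_ne_zero m
    have key : ∀ (k : ℕ) (c : ℤ), ¬ (p : ℤ) ∣ c → ((p : ℤ) ^ k * c) • t = 0 → c • t = 0 := by
      intro k
      induction k with
      | zero => intro c _ h; rwa [pow_zero, one_mul] at h
      | succ k ih =>
        intro c hc h
        apply ih c hc
        apply htors
        rw [smul_smul, ← mul_assoc, ← pow_succ']
        exact h
    have hpp : Prime (p : ℤ) := Nat.prime_iff_prime_int.1 hp.out
    obtain ⟨c, hc, hmc⟩ := (FiniteMultiplicity.exists_eq_pow_mul_and_not_dvd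
      (Int.finiteMultiplicity_iff.2 ⟨by
        have := hp.out.one_lt
        simp only [Int.natAbs_natCast]
        omega, hm0⟩) : ∃ c, (m : ℤ) = (p : ℤ) ^ multiplicity (p : ℤ) (m : ℤ) * c ∧ ¬ (p : ℤ) ∣ c)
    have h1 : c • t = 0 := by
      apply key (multiplicity (p : ℤ) (m : ℤ)) c hmc
      rw [← hc]
      exact hm
    have hcop : IsCoprime (p : ℤ) c := (Prime.coprime_iff_not_dvd hpp).2 hmc
    obtain ⟨u, w, huw⟩ := hcop
    rw [hker]
    refine ⟨u • t, ?_⟩
    rw [smul_smul]
    have h2 : (u * p + w * c) • t = t := by rw [huw, one_smul]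
    rw [add_smul, mul_smul w c t, h1, smul_zero, add_zero] at h2
    rw [mul_comm]
    exact h2.symm
  have hli : LinearIndependent (ZMod p) (fun i => φ (l i)) := by
    rw [Fintype.linearIndependent_iff]
    intro g hg i
    have h1 : φ (∑ i, ((g i).val : ℤ) • l i) = 0 := by
      rw [map_sum]
      rw [← hg]
      refine Finset.sum_congr rfl fun i _ => ?_
      rw [hφz]
      congr 1
      rw [Int.cast_natCast, ZMod.natCast_zmod_val]
    obtain ⟨h', hh'⟩ := (hker _).1 h1
    have h2 : ∑ i, ((g i).val : ℤ) • b i =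
        (p : ℤ) • (Submodule.Quotient.mk h' : H ⧸ Submodule.torsion ℤ H) := by
      rw [← Submodule.Quotient.mk_smul, ← hh']
      have : (Submodule.Quotient.mk (∑ i, ((g i).val : ℤ) • l i) : H ⧸ Submodule.torsion ℤ H) =
          ∑ i, ((g i).val : ℤ) • Submodule.Quotient.mk (l i) := by
        rw [← Submodule.mkQ_apply, map_sum]
        simp only [map_smul, Submodule.mkQ_apply]
      rw [this]
      exact Finset.sum_congr rfl fun i _ => by rw [hl]
    have h3 := congrArg (fun x => b.repr x i) h2
    simp only [map_sum, map_smul, Finsupp.coe_finsetSum, Finset.sum_apply, Finsupp.smul_apply,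
      Module.Basis.repr_self, smul_eq_mul] at h3
    rw [Finset.sum_eq_single i (fun j _ hj => by rw [Finsupp.single_eq_of_ne hj.symm, mul_zero])
      (fun h => absurd (Finset.mem_univ _) h), Finsupp.single_eq_same, mul_one] at h3
    have h4 : (p : ℤ) ∣ ((g i).val : ℤ) := ⟨_, h3⟩
    have h5 : p ∣ (g i).val := by exact_mod_cast h4
    have h6 := (ZMod.natCast_eq_zero_iff _ _).2 h5
    rwa [ZMod.natCast_zmod_val] at h6
  have hsp : ⊤ ≤ Submodule.span (ZMod p) (Set.range fun i => φ (l i)) := by
    intro v _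
    obtain ⟨h, rfl⟩ := hφ v
    have h1 : h - ∑ i, b.repr (Submodule.Quotient.mk h) i • l i ∈ Submodule.torsion ℤ H := by
      rw [← Submodule.Quotient.mk_eq_zero, Submodule.Quotient.mk_sub, sub_eq_zero]
      have : (Submodule.Quotient.mk (∑ i, b.repr (Submodule.Quotient.mk h) i • l i) :
          H ⧸ Submodule.torsion ℤ H) =
          ∑ i, b.repr (Submodule.Quotient.mk h) i • Submodule.Quotient.mk (l i) := by
        rw [← Submodule.mkQ_apply, map_sum]
        simp only [map_smul, Submodule.mkQ_apply]
      rw [this]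
      conv_lhs => rw [← b.sum_repr (Submodule.Quotient.mk h)]
      exact Finset.sum_congr rfl fun i _ => by rw [hl]
    have h2 := htp _ h1
    rw [map_sub, sub_eq_zero, map_sum] at h2
    rw [h2]
    refine Submodule.sum_mem _ fun i _ => ?_
    rw [hφz]
    exact Submodule.smul_mem _ _ (Submodule.subset_span ⟨i, rfl⟩)
  rw [Module.finrank_eq_card_basis (Module.Basis.mk hli hsp), Module.finrank_eq_card_basis b]

end Pool.Agent.Q14.Kos
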