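import Mathlib
import Pool.Agent.Q14.Kos
import Pool.Agent.H677R3.RegKoszul

/-!
Total Betti numbers of ideals of polynomial rings, by Koszul homology.
-/

set_option autoImplicit false

namespace Pool.Agent.Q14.Betti

open Finset MvPolynomial

/-! ### Definitions -/

section Defs

variable {n : ℕ} {K : Type*} [CommRing K]

/-- The Koszul differential of `x_1,…,x_n`: a chain is a function `f` assigning to every finite
set `T` of variables the coefficient `f T` of the basis element `e_T`. -/
noncomputable def koszulD (f : Finset (Fin n) → MvPolynomial (Fin n) K) (T : Finset (Fin n)) :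
    MvPolynomial (Fin n) K :=
  ∑ j ∈ Tᶜ, (-1) ^ (T.filter (· < j)).card * (X j * f (insert j T))

lemma koszulD_eq (f : Finset (Fin n) → MvPolynomial (Fin n) K) :
    koszulD f = Pool.Agent.Q14.Kos.kd (X : Fin n → MvPolynomial (Fin n) K) f := by
  funext T
  rw [koszulD, Pool.Agent.Q14.Kos.kd_apply]
  refine Finset.sum_congr rfl fun j _ => ?_
  rw [smul_eq_mul, mul_assoc]
  rfl

/-- The cycles of degree `i` of the Koszul complex of the ideal `J`. -/
noncomputable def cycles (J : Ideal (MvPolynomial (Fin n) K)) (i : ℕ) :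
    Submodule K (Finset (Fin n) → MvPolynomial (Fin n) K) where
  carrier := {f | (∀ T, f T ∈ J) ∧ (∀ T, T.card ≠ i → f T = 0) ∧ ∀ T, koszulD f T = 0}
  add_mem' {f g} hf hg := by
    refine ⟨fun T => J.add_mem (hf.1 T) (hg.1 T),
      fun T hT => by rw [Pi.add_apply, hf.2.1 T hT, hg.2.1 T hT, add_zero], fun T => ?_⟩
    have h1 := hf.2.2 T
    have h2 := hg.2.2 T
    rw [koszulD_eq] at h1 h2 ⊢
    rw [map_add, Pi.add_apply, h1, h2, add_zero]
  zero_mem' := by
    refine ⟨fun _ => J.zero_mem, fun _ _ => rfl, fun T => ?_⟩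
    rw [koszulD_eq, map_zero]
    rfl
  smul_mem' c f hf := by
    have hc : c • f = (C c : MvPolynomial (Fin n) K) • f := by
      funext T
      rw [Pi.smul_apply, Pi.smul_apply, smul_eq_mul, ← smul_eq_C_mul]
    rw [hc]
    refine ⟨fun T => J.mul_mem_left _ (hf.1 T),
      fun T hT => by rw [Pi.smul_apply, hf.2.1 T hT, smul_zero], fun T => ?_⟩
    have h1 := hf.2.2 T
    rw [koszulD_eq] at h1 ⊢
    rw [map_smul, Pi.smul_apply, h1, smul_zero]

/-- The boundaries of degree `i` of the Koszul complex of the ideal `J`. -/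
noncomputable def boundaries (J : Ideal (MvPolynomial (Fin n) K)) (i : ℕ) :
    Submodule K (Finset (Fin n) → MvPolynomial (Fin n) K) where
  carrier := {f | ∃ g : Finset (Fin n) → MvPolynomial (Fin n) K, (∀ T, g T ∈ J) ∧
    (∀ T, T.card ≠ i + 1 → g T = 0) ∧ ∀ T, koszulD g T = f T}
  add_mem' := by
    rintro f f' ⟨g, h1, h2, h3⟩ ⟨g', h1', h2', h3'⟩
    refine ⟨g + g', fun T => J.add_mem (h1 T) (h1' T),
      fun T hT => by rw [Pi.add_apply, h2 T hT, h2' T hT, add_zero], fun T => ?_⟩
    rw [koszulD_eq] at h3 h3' ⊢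
    rw [map_add, Pi.add_apply, h3, h3', Pi.add_apply]
  zero_mem' := by
    refine ⟨0, fun _ => J.zero_mem, fun _ _ => rfl, fun T => ?_⟩
    rw [koszulD_eq, map_zero]
  smul_mem' := by
    rintro c f ⟨g, h1, h2, h3⟩
    have hc : ∀ f : Finset (Fin n) → MvPolynomial (Fin n) K,
        c • f = (C c : MvPolynomial (Fin n) K) • f := by
      intro f
      funext T
      rw [Pi.smul_apply, Pi.smul_apply, smul_eq_mul, ← smul_eq_C_mul]
    refine ⟨c • g, ?_, ?_, ?_⟩
    · intro T
      rw [hc]
      exact J.mul_mem_left _ (h1 T)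
    · intro T hT
      rw [Pi.smul_apply, h2 T hT, smul_zero]
    · intro T
      rw [koszulD_eq] at h3 ⊢
      rw [hc, hc, map_smul, Pi.smul_apply, Pi.smul_apply, h3]

/-- The Betti number `β_i(J) = dim_K Tor_i(J, K)`, computed by the Koszul complex. -/
noncomputable def betti (J : Ideal (MvPolynomial (Fin n) K)) (i : ℕ) : ℕ :=
  Module.finrank K (cycles J i ⧸ (boundaries J i).comap (cycles J i).subtype)

variable (K) in
/-- The ideal generated over `K` by the monomials with exponents in `ms`. -/
noncomputable def monIdeal (ms : Finset (Fin n →₀ ℕ)) : Ideal (MvPolynomial (Fin n) K) :=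
  Ideal.span ((fun s => monomial s (1 : K)) '' (ms : Set (Fin n →₀ ℕ)))

end Defs

open Pool.Agent.Q14.Kos

section General

variable {n : ℕ} {K : Type*} [CommRing K]

lemma mem_cycles (J : Ideal (MvPolynomial (Fin n) K)) (i : ℕ)
    (f : Finset (Fin n) → MvPolynomial (Fin n) K) :
    f ∈ cycles J i ↔ f ∈ ZK (X : Fin n → MvPolynomial (Fin n) K) J i := by
  constructor
  · rintro ⟨h1, h2, h3⟩
    refine ⟨h1, h2, ?_⟩
    rw [← koszulD_eq]
    funext T
    exact h3 T
  · rintro ⟨h1, h2, h3⟩
    refine ⟨h1, h2, fun T => ?_⟩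
    rw [koszulD_eq, h3]
    rfl

lemma mem_boundaries (J : Ideal (MvPolynomial (Fin n) K)) (i : ℕ)
    (f : Finset (Fin n) → MvPolynomial (Fin n) K) :
    f ∈ boundaries J i ↔ f ∈ BK (X : Fin n → MvPolynomial (Fin n) K) J i := by
  constructor
  · rintro ⟨g, h1, h2, h3⟩
    refine ⟨g, h1, h2, ?_⟩
    rw [← koszulD_eq]
    funext T
    exact h3 T
  · rintro ⟨g, h1, h2, h3⟩
    refine ⟨g, h1, h2, fun T => ?_⟩
    rw [koszulD_eq, h3]

lemma sub_const_mem (r : MvPolynomial (Fin n) K) :
    r - C (constantCoeff r) ∈ Ideal.span (Set.range (X : Fin n → MvPolynomial (Fin n) K)) := by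
  rw [← Set.image_univ, mem_ideal_span_X_image]
  intro m hm
  by_contra hcon
  push Not at hcon
  have h0 : m = 0 := by
    ext v
    exact hcon v (Set.mem_univ v)
  rw [mem_support_iff, h0, coeff_sub, coeff_C, if_pos rfl, constantCoeff_eq, sub_self] at hm
  exact hm rfl

/-- A cycle multiplied by a polynomial is, up to a boundary, multiplied by the constant term. -/
lemma smul_sub_const (J : Ideal (MvPolynomial (Fin n) K)) (i : ℕ)
    {F : Finset (Fin n) → MvPolynomial (Fin n) K}
    (hF : F ∈ ZK (X : Fin n → MvPolynomial (Fin n) K) J i) (r : MvPolynomial (Fin n) K) :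
    (r - C (constantCoeff r)) • F ∈ BK (X : Fin n → MvPolynomial (Fin n) K) J i := by
  have h2 := sub_const_mem r
  refine Submodule.span_induction
    (p := fun x _ => x • F ∈ BK (X : Fin n → MvPolynomial (Fin n) K) J i) ?_ ?_ ?_ ?_ h2
  · rintro _ ⟨v, rfl⟩
    exact smul_ZK_le _ _ _ v hF
  · rw [zero_smul]
    exact Submodule.zero_mem _
  · intro x y _ _ hx hy
    rw [add_smul]
    exact Submodule.add_mem _ hx hy
  · intro a x _ hx
    rw [smul_eq_mul, mul_smul]
    exact Submodule.smul_mem _ _ hx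

instance finite_homology [IsNoetherianRing K] (J : Ideal (MvPolynomial (Fin n) K)) (i : ℕ) :
    Module.Finite K (cycles J i ⧸ (boundaries J i).comap (cycles J i).subtype) := by
  classical
  obtain ⟨S, hS⟩ : (ZK (X : Fin n → MvPolynomial (Fin n) K) J i).FG := IsNoetherian.noetherian _
  have hSZ : ∀ F ∈ S, F ∈ cycles J i := by
    intro F hF
    rw [mem_cycles, ← hS]
    exact Submodule.subset_span hF
  have key : ∀ F, ∀ _ : F ∈ ZK (X : Fin n → MvPolynomial (Fin n) K) J i, ∀ hF : F ∈ cycles J i,
      (Submodule.Quotient.mk ⟨F, hF⟩ : cycles J i ⧸ (boundaries J i).comap (cycles J i).subtype) ∈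
      Submodule.span K (((S.attach.image (fun F => (Submodule.Quotient.mk ⟨F.1, hSZ F.1 F.2⟩ :
        cycles J i ⧸ (boundaries J i).comap (cycles J i).subtype))) : Finset _) : Set _) := by
    intro F hF'
    rw [← hS] at hF'
    refine Submodule.span_induction (p := fun F _ => ∀ hF : F ∈ cycles J i,
      (Submodule.Quotient.mk ⟨F, hF⟩ : cycles J i ⧸ (boundaries J i).comap (cycles J i).subtype) ∈
      Submodule.span K (((S.attach.image (fun F => (Submodule.Quotient.mk ⟨F.1, hSZ F.1 F.2⟩ :
        cycles J i ⧸ (boundaries J i).comap (cycles J i).subtype))) : Finset _) : Set _))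
      ?_ ?_ ?_ ?_ hF'
    · intro F hF hFc
      apply Submodule.subset_span
      rw [Finset.mem_coe, Finset.mem_image]
      exact ⟨⟨F, hF⟩, Finset.mem_attach _ _, rfl⟩
    · intro h0
      have : (Submodule.Quotient.mk ⟨0, h0⟩ :
        cycles J i ⧸ (boundaries J i).comap (cycles J i).subtype) = 0 := Submodule.Quotient.mk_zero _
      rw [this]
      exact Submodule.zero_mem _
    · intro x y hx hy ihx ihy hxy
      have hx' : x ∈ cycles J i := (mem_cycles J i x).2 (hS ▸ hx)
      have hy' : y ∈ cycles J i := (mem_cycles J i y).2 (hS ▸ hy)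
      have : (Submodule.Quotient.mk ⟨x + y, hxy⟩ :
          cycles J i ⧸ (boundaries J i).comap (cycles J i).subtype) =
          Submodule.Quotient.mk ⟨x, hx'⟩ + Submodule.Quotient.mk ⟨y, hy'⟩ := rfl
      rw [this]
      exact Submodule.add_mem _ (ihx hx') (ihy hy')
    · intro a x hx ihx hax
      have hxZ : x ∈ ZK (X : Fin n → MvPolynomial (Fin n) K) J i := hS ▸ hx
      have hx' : x ∈ cycles J i := (mem_cycles J i x).2 hxZ
      have h1 : (Submodule.Quotient.mk ⟨a • x, hax⟩ :
          cycles J i ⧸ (boundaries J i).comap (cycles J i).subtype) =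
          constantCoeff a • Submodule.Quotient.mk ⟨x, hx'⟩ := by
        rw [← Submodule.Quotient.mk_smul, Submodule.Quotient.eq]
        change a • x - constantCoeff a • x ∈ boundaries J i
        have h2 : constantCoeff a • x = (C (constantCoeff a) : MvPolynomial (Fin n) K) • x := by
          funext T
          rw [Pi.smul_apply, Pi.smul_apply, smul_eq_mul, ← smul_eq_C_mul]
        rw [h2, ← sub_smul, mem_boundaries]
        exact smul_sub_const J i hxZ a
      rw [h1]
      exact Submodule.smul_mem _ _ (ihx hx')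
  refine ⟨⟨S.attach.image (fun F => (Submodule.Quotient.mk ⟨F.1, hSZ F.1 F.2⟩ :
        cycles J i ⧸ (boundaries J i).comap (cycles J i).subtype)), ?_⟩⟩
  rw [eq_top_iff]
  intro h _
  obtain ⟨⟨F, hF⟩, rfl⟩ := Submodule.Quotient.mk_surjective _ h
  exact key F ((mem_cycles J i F).1 hF) hF

end General

section Fields

variable {n : ℕ} {K : Type*} [Field K]

lemma betti_eq_zero_iff (J : Ideal (MvPolynomial (Fin n) K)) (i : ℕ) :
    betti J i = 0 ↔ cycles J i ≤ boundaries J i := by
  rw [betti, Module.finrank_zero_iff, Submodule.Quotient.subsingleton_iff,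
    Submodule.comap_subtype_eq_top]

open Pool.Agent.H677R3.EdgeReg (TorNe comp cd KK ind comp_add_ind cd_zero)

lemma betti_ne_zero {J : Ideal (MvPolynomial (Fin n) K)} {i e : ℕ} (h : TorNe J i e) :
    betti J i ≠ 0 := by
  rw [Ne, betti_eq_zero_iff]
  intro hle
  obtain ⟨f, h1, -, h3, h4, h5⟩ := h
  apply h5
  obtain ⟨g, hg1, hg2, hg3⟩ := hle (⟨h1, h3, h4⟩ : f ∈ cycles J i)
  exact ⟨g, hg1, hg2, hg3⟩

/-- The Betti number vanishes if all multigraded pieces are acyclic. -/
theorem betti_eq_zero (J : Ideal (MvPolynomial (Fin n) K)) (P : (Fin n → ℕ) → Prop)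
    (hJ : ∀ p, p ∈ J ↔ ∀ c ∈ p.support, P ⇑c) (i : ℕ)
    (hac : ∀ b : Fin n →₀ ℕ, ∀ a : Finset (Fin n) → K, (∀ T, a T ≠ 0 → KK P b T ∧ T.card = i) →
      (∀ T, cd a T = 0) →
        ∃ g : Finset (Fin n) → K, (∀ T, g T ≠ 0 → KK P b T ∧ T.card = i + 1) ∧ ∀ T, cd g T = a T) :
    betti J i = 0 := by
  classical
  rw [betti_eq_zero_iff]
  rintro f ⟨hf1, hf3, hf4⟩
  have hf4' : ∀ T, Pool.Agent.H677R3.EdgeReg.koszulD f T = 0 := hf4
  have hcoef : ∀ b T, comp f b T ≠ 0 → KK P b T ∧ T.card = i := by
    intro b T h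
    unfold comp at h
    split_ifs at h with hle
    · have hs : b - ind T ∈ (f T).support := MvPolynomial.mem_support_iff.mpr h
      have hcard : T.card = i := by
        by_contra hne
        rw [hf3 T hne] at h
        simp at h
      exact ⟨⟨hle, (hJ _).mp (hf1 T) _ hs⟩, hcard⟩
    · exact absurd rfl h
  have hcyc : ∀ b T, cd (comp f b) T = 0 := by
    intro b T
    rw [← Pool.Agent.H677R3.EdgeReg.comp_koszulD]
    unfold comp
    rw [hf4']; simp
  have hex : ∀ b, ∃ g : Finset (Fin n) → K, (∀ T, g T ≠ 0 → KK P b T ∧ T.card = i + 1) ∧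
      ∀ T, cd g T = comp f b T := by
    intro b
    exact hac b (comp f b) (fun T hT => hcoef b T hT) (hcyc b)
  choose G hG1 hG2 using hex
  let B : Finset (Fin n →₀ ℕ) := Finset.univ.biUnion (fun T => (f T).support.image (· + ind T))
  have hB : ∀ b, b ∉ B → ∀ T, comp f b T = 0 := by
    intro b hb T
    by_contra h
    apply hb
    have hle := (hcoef b T h).1.1
    unfold comp at h
    rw [if_pos hle] at h
    refine Finset.mem_biUnion.mpr ⟨T, Finset.mem_univ _, Finset.mem_image.mpr ⟨b - ind T,
      MvPolynomial.mem_support_iff.mpr h, tsub_add_cancel_of_le hle⟩⟩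
  let g : Finset (Fin n) → MvPolynomial (Fin n) K :=
    fun T => ∑ b ∈ B, MvPolynomial.monomial (b - ind T) (G b T)
  have hg : ∀ b T, comp g b T = if b ∈ B then G b T else 0 := by
    intro b T
    have key : ∀ b' ∈ B, ind T ≤ b → (MvPolynomial.monomial (b' - ind T) (G b' T)).coeff (b - ind T) =
        if b' = b then G b T else 0 := by
      intro b' _ hle
      rw [MvPolynomial.coeff_monomial]
      by_cases h0 : G b' T = 0
      · by_cases h1 : b' = b
        · subst h1; simp [h0]
        · rw [h0]; simp [h1]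
      · have hle' := (hG1 b' T h0).1.1
        by_cases h1 : b' = b
        · subst h1; simp
        · rw [if_neg h1, if_neg]
          intro h2
          apply h1
          rw [← tsub_add_cancel_of_le hle', ← tsub_add_cancel_of_le hle, h2]
    unfold comp
    by_cases hle : ind T ≤ b
    · rw [if_pos hle]
      simp only [g]
      rw [MvPolynomial.coeff_sum, Finset.sum_congr rfl (fun b' hb' => key b' hb' hle)]
      rw [Finset.sum_ite_eq' B b]
    · rw [if_neg hle]
      split_ifs with hb
      · by_contra h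
        exact hle (hG1 b T (fun h' => h h'.symm)).1.1
      · rfl
  refine ⟨g, ?_, ?_, ?_⟩
  · intro T
    rw [hJ]
    intro c hc
    rw [MvPolynomial.mem_support_iff, ← comp_add_ind, hg] at hc
    split_ifs at hc with h
    · have := (hG1 _ _ hc).1.2
      rwa [add_tsub_cancel_right] at this
    · exact absurd rfl hc
  · intro T hT
    ext c
    rw [← comp_add_ind, hg, MvPolynomial.coeff_zero]
    split_ifs
    · by_contra h
      exact hT (hG1 _ _ h).2
    · rfl
  · intro T
    change Pool.Agent.H677R3.EdgeReg.koszulD g T = f T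
    ext c
    rw [← comp_add_ind, ← comp_add_ind, Pool.Agent.H677R3.EdgeReg.comp_koszulD]
    set b := c + ind T
    have : comp g b = fun T => if b ∈ B then G b T else 0 := by
      funext T; exact hg b T
    rw [this]
    by_cases hb : b ∈ B
    · simp only [if_pos hb]
      exact hG2 b T
    · simp only [if_neg hb]
      rw [cd_zero, hB b hb]

end Fields

end Pool.Agent.Q14.Betti
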