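import Pool.Agent.Q14.EdgeV

/-!
Monomials of the square of an edge ideal.
-/

set_option autoImplicit false

namespace Q14.EdgeV

open MvPolynomial Q14.Mono

variable {σ : Type*} {K : Type*} [Field K]

/-- `u` is divisible by the product of two edges -/
def TwoEdges (G : SimpleGraph σ) (u : σ →₀ ℕ) : Prop :=
  ∃ a b c d, G.Adj a b ∧ G.Adj c d ∧
    Finsupp.single a 1 + Finsupp.single b 1 + Finsupp.single c 1 + Finsupp.single d 1 ≤ u

lemma mono_edge_mem {G : SimpleGraph σ} {a b : σ} (h : G.Adj a b) :
    monomial (Finsupp.single a 1 + Finsupp.single b 1) (1 : K) ∈ edgeIdeal K G :=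
  monomial_mem_edgeIdeal.mpr ⟨a, b, h, (pair_le_iff h.ne _).mp le_rfl⟩

lemma monomial_mem_sq {G : SimpleGraph σ} {u : σ →₀ ℕ} :
    monomial u (1 : K) ∈ edgeIdeal K G ^ 2 ↔ TwoEdges G u := by
  constructor
  · intro h
    rw [pow_two] at h
    obtain ⟨v, w, hv, hw, rfl⟩ := (isMon_edgeIdeal G).monomial_mem_mul (isMon_edgeIdeal G) h
    obtain ⟨a, b, hab, ha⟩ := monomial_mem_edgeIdeal.mp hv
    obtain ⟨c, d, hcd, hc⟩ := monomial_mem_edgeIdeal.mp hw
    refine ⟨a, b, c, d, hab, hcd, ?_⟩
    rw [add_assoc]
    exact add_le_add ((pair_le_iff hab.ne v).mpr ha) ((pair_le_iff hcd.ne w).mpr hc)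
  · rintro ⟨a, b, c, d, hab, hcd, hle⟩
    refine monomial_mem_of_le hle ?_
    rw [add_assoc, ← one_mul (1 : K), ← monomial_mul, pow_two]
    exact Ideal.mul_mem_mul (mono_edge_mem hab) (mono_edge_mem hcd)

/-- If `u ∉ I^2` and `x_c u ∈ I^2`, then some neighbour of `c` times an edge divides `u`. -/
lemma augment {G : SimpleGraph σ} {u : σ →₀ ℕ} {c : σ} (hu : ¬ TwoEdges G u)
    (h : TwoEdges G (Finsupp.single c 1 + u)) :
    ∃ p q r, G.Adj c p ∧ G.Adj q r ∧
      Finsupp.single p 1 + Finsupp.single q 1 + Finsupp.single r 1 ≤ u := by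
  classical
  obtain ⟨a, b, a', b', hab, hab', hle⟩ := h
  have step : ∀ x y x' y' : σ, G.Adj x y → G.Adj x' y' → c = x →
      Finsupp.single x 1 + Finsupp.single y 1 + Finsupp.single x' 1 + Finsupp.single y' 1
        ≤ Finsupp.single c 1 + u →
      ∃ p q r, G.Adj c p ∧ G.Adj q r ∧
        Finsupp.single p 1 + Finsupp.single q 1 + Finsupp.single r 1 ≤ u := by
    intro x y x' y' h1 h2 hc h3
    subst hc
    refine ⟨y, x', y', h1, h2, ?_⟩
    have : Finsupp.single c 1 + (Finsupp.single y 1 + Finsupp.single x' 1 + Finsupp.single y' 1)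
        ≤ Finsupp.single c 1 + u := by
      refine le_trans (le_of_eq ?_) h3
      simp only [add_assoc]
    exact le_of_add_le_add_left this
  by_cases h1 : c = a
  · exact step a b a' b' hab hab' h1 hle
  by_cases h2 : c = b
  · refine step b a a' b' hab.symm hab' h2 (le_trans (le_of_eq ?_) hle)
    rw [add_comm (Finsupp.single b 1)]
  by_cases h3 : c = a'
  · refine step a' b' a b hab' hab h3 (le_trans (le_of_eq ?_) hle)
    abel
  by_cases h4 : c = b'
  · refine step b' a' a b hab'.symm hab h4 (le_trans (le_of_eq ?_) hle)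
    abel
  · exfalso
    apply hu
    refine ⟨a, b, a', b', hab, hab', ?_⟩
    intro x
    have hx := hle x
    by_cases hxc : c = x
    · subst hxc
      simp [Ne.symm h1, Ne.symm h2, Ne.symm h3, Ne.symm h4]
    · rw [Finsupp.add_apply (Finsupp.single c 1) u, Finsupp.single_apply, if_neg hxc,
        zero_add] at hx
      exact hx

/-- If `c` lies in no triangle, `u ∉ I^2` and `x_c u ∈ I^2`, then `x_c` times an edge does
not divide `u`. -/
lemma no_triangle {G : SimpleGraph σ} {u : σ →₀ ℕ} {c : σ} (hu : ¬ TwoEdges G u)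
    (htri : ∀ p r, G.Adj c p → G.Adj c r → ¬ G.Adj p r)
    (h : TwoEdges G (Finsupp.single c 1 + u)) {w₁ w₂ : σ} (hw : G.Adj w₁ w₂)
    (hB : Finsupp.single c 1 + Finsupp.single w₁ 1 + Finsupp.single w₂ 1 ≤ u) : False := by
  classical
  obtain ⟨p, q, r, hcp, hqr, hA⟩ := augment hu h
  have hAx : ∀ x, (if p = x then 1 else 0) + (if q = x then 1 else 0) + (if r = x then 1 else 0)
      ≤ u x := by
    intro x
    have := hA x
    simpa only [Finsupp.add_apply, Finsupp.single_apply] using this
  have hBx : ∀ x, (if c = x then 1 else 0) + (if w₁ = x then 1 else 0) + (if w₂ = x then 1 else 0)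
      ≤ u x := by
    intro x
    have := hB x
    simpa only [Finsupp.add_apply, Finsupp.single_apply] using this
  have hnot : ∀ a b a' b' : σ, G.Adj a b → G.Adj a' b' →
      ¬ ∀ x, (if a = x then 1 else 0) + (if b = x then 1 else 0) + (if a' = x then 1 else 0)
        + (if b' = x then 1 else 0) ≤ u x := by
    intro a b a' b' h1 h2 h3
    apply hu
    refine ⟨a, b, a', b', h1, h2, fun x => ?_⟩
    simpa only [Finsupp.add_apply, Finsupp.single_apply] using h3 x
  have hcu : 1 ≤ u c := by
    have := hBx c
    rw [if_pos rfl] at this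
    omega
  -- the general step, with one end of the edge equal to `c`
  have main : ∀ r : σ, G.Adj c r →
      (∀ x, (if p = x then 1 else 0) + (if c = x then 1 else 0) + (if r = x then 1 else 0)
        ≤ u x) → False := by
    intro r hcr hAx
    -- `w₁, w₂ ≠ c`
    have hw1 : w₁ ≠ c := by
      rintro rfl
      refine hnot w₁ p w₁ r hcp hcr (fun x => ?_)
      have h1 := hAx x
      have h2 := hBx x
      by_cases hx : w₁ = x
      · subst hx
        rw [if_neg hcp.symm.ne, if_pos rfl, if_neg hcr.symm.ne]
        rw [if_pos rfl] at h2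
        omega
      · rw [if_neg hx] at h1 ⊢
        omega
    have hw2 : w₂ ≠ c := by
      rintro rfl
      refine hnot w₂ p w₂ r hcp hcr (fun x => ?_)
      have h1 := hAx x
      have h2 := hBx x
      by_cases hx : w₂ = x
      · subst hx
        rw [if_neg hcp.symm.ne, if_pos rfl, if_neg hcr.symm.ne]
        rw [if_pos rfl] at h2
        omega
      · rw [if_neg hx] at h1 ⊢
        omega
    have hp : p = w₁ ∨ p = w₂ := by
      by_contra hcon
      push Not at hcon
      refine hnot c p w₁ w₂ hcp hw (fun x => ?_)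
      have h1 := hAx x
      have h2 := hBx x
      by_cases hx : p = x
      · subst hx
        rw [if_neg hcp.ne, if_pos rfl, if_neg (Ne.symm hcon.1), if_neg (Ne.symm hcon.2)]
        rw [if_pos rfl] at h1
        omega
      · rw [if_neg hx]
        omega
    have hr : r = w₁ ∨ r = w₂ := by
      by_contra hcon
      push Not at hcon
      refine hnot c r w₁ w₂ hcr hw (fun x => ?_)
      have h1 := hAx x
      have h2 := hBx x
      by_cases hx : r = x
      · subst hx
        rw [if_neg hcr.ne, if_pos rfl, if_neg (Ne.symm hcon.1), if_neg (Ne.symm hcon.2)]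
        rw [if_pos rfl] at h1
        omega
      · rw [if_neg hx]
        omega
    have hpr : p ≠ r := by
      rintro rfl
      refine hnot c p w₁ w₂ hcp hw (fun x => ?_)
      have h1 := hAx x
      have h2 := hBx x
      by_cases hx : p = x
      · subst hx
        rw [if_neg hcp.ne, if_pos rfl]
        rw [if_pos rfl, if_neg hcp.ne] at h1
        rcases hp with rfl | rfl
        · rw [if_pos rfl, if_neg hw.symm.ne]
          omega
        · rw [if_pos rfl, if_neg hw.ne]
          omega
      · rw [if_neg hx]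
        omega
    have hadj : G.Adj p r := by
      rcases hp with rfl | rfl <;> rcases hr with rfl | rfl
      · exact absurd rfl hpr
      · exact hw
      · exact hw.symm
      · exact absurd rfl hpr
    exact htri p r hcp hcr hadj
  by_cases hq : q = c
  · subst hq
    exact main r hqr hAx
  by_cases hr : r = c
  · subst hr
    refine main q hqr.symm (fun x => ?_)
    have := hAx x
    omega
  refine hnot c p q r hcp hqr (fun x => ?_)
  have h1 := hAx x
  by_cases hx : c = x
  · subst hx
    rw [if_pos rfl, if_neg hcp.symm.ne, if_neg hq, if_neg hr]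
    omega
  · rw [if_neg hx]
    omega

end Q14.EdgeV
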