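import Pool.Agent.Q14.Mono

/-!
Edge ideals of graphs: membership in `I` and `I^2`, colon ideals and v-numbers.
-/

set_option autoImplicit false

namespace Q14.EdgeV

open MvPolynomial Q14.Mono

variable {σ : Type*} {K : Type*} [Field K]

/-- The edge ideal of a graph. -/
noncomputable def edgeIdeal (K : Type*) [Field K] (G : SimpleGraph σ) :
    Ideal (MvPolynomial σ K) :=
  Ideal.span {f | ∃ a b, G.Adj a b ∧ f = X a * X b}

/-- exponents of edges -/
def edgeExp (G : SimpleGraph σ) : Set (σ →₀ ℕ) :=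
  {u | ∃ a b, G.Adj a b ∧ u = Finsupp.single a 1 + Finsupp.single b 1}

lemma edgeIdeal_eq (G : SimpleGraph σ) :
    edgeIdeal K G = Ideal.span ((fun u => monomial u (1 : K)) '' edgeExp G) := by
  unfold edgeIdeal
  congr 1
  ext f
  constructor
  · rintro ⟨a, b, h, rfl⟩
    exact ⟨_, ⟨a, b, h, rfl⟩, by simp [X, monomial_mul]⟩
  · rintro ⟨_, ⟨a, b, h, rfl⟩, rfl⟩
    exact ⟨a, b, h, by simp [X, monomial_mul]⟩

lemma isMon_edgeIdeal (G : SimpleGraph σ) : IsMon (edgeIdeal K G) := by
  rw [edgeIdeal_eq]; exact isMon_span _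

lemma pair_le_iff {a b : σ} (hab : a ≠ b) (u : σ →₀ ℕ) :
    Finsupp.single a 1 + Finsupp.single b 1 ≤ u ↔ u a ≠ 0 ∧ u b ≠ 0 := by
  classical
  constructor
  · intro h
    have h1 := h a
    have h2 := h b
    rw [Finsupp.add_apply, Finsupp.single_eq_same, Finsupp.single_eq_of_ne hab] at h1
    rw [Finsupp.add_apply, Finsupp.single_eq_same, Finsupp.single_eq_of_ne hab.symm] at h2
    constructor <;> omega
  · rintro ⟨h1, h2⟩ c
    rw [Finsupp.add_apply, Finsupp.single_apply, Finsupp.single_apply]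
    split_ifs with h3 h4 h4
    · exact absurd (h3.trans h4.symm) hab
    · rw [← h3]; omega
    · rw [← h4]; omega
    · exact Nat.zero_le _

lemma monomial_mem_edgeIdeal {G : SimpleGraph σ} {u : σ →₀ ℕ} :
    monomial u (1 : K) ∈ edgeIdeal K G ↔ ∃ a b, G.Adj a b ∧ u a ≠ 0 ∧ u b ≠ 0 := by
  rw [edgeIdeal_eq, monomial_mem_span_iff]
  constructor
  · rintro ⟨_, ⟨a, b, h, rfl⟩, hle⟩
    exact ⟨a, b, h, (pair_le_iff h.ne u).mp hle⟩
  · rintro ⟨a, b, h, hu⟩
    exact ⟨_, ⟨a, b, h, rfl⟩, (pair_le_iff h.ne u).mpr hu⟩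

lemma edgeIdeal_le_WtGE {G : SimpleGraph σ} (w : σ → ℕ) (d : ℕ)
    (h : ∀ a b, G.Adj a b → d ≤ w a + w b) : edgeIdeal K G ≤ WtGE K w d := by
  rw [edgeIdeal_eq, Ideal.span_le]
  rintro _ ⟨_, ⟨a, b, hab, rfl⟩, rfl⟩
  show monomial _ (1 : K) ∈ WtGE K w d
  rw [monomial_mem_WtGE, map_add, Finsupp.weight_single, Finsupp.weight_single]
  simpa using h a b hab

/-- `A` is an independent set whose neighbours form a vertex cover. -/
structure IndCover (G : SimpleGraph σ) (A : Finset σ) : Prop where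
  indep : ∀ a ∈ A, ∀ b ∈ A, ¬ G.Adj a b
  cover : ∀ a b, G.Adj a b → (∃ c ∈ A, G.Adj c a) ∨ (∃ c ∈ A, G.Adj c b)

/-- The exponent of a square-free monomial. -/
noncomputable def ind (A : Finset σ) : σ →₀ ℕ := Finsupp.indicator A (fun _ _ => 1)

open Classical in
lemma ind_apply (A : Finset σ) (i : σ) : ind A i = if i ∈ A then 1 else 0 := by
  unfold ind
  rw [Finsupp.indicator_apply]
  split_ifs <;> rfl

lemma support_ind (A : Finset σ) : (ind A).support = A := by
  classical
  ext i
  rw [Finsupp.mem_support_iff, ind_apply]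
  simp

lemma degree_ind (A : Finset σ) : (ind A).degree = A.card := by
  classical
  rw [Finsupp.degree_apply, support_ind]
  rw [Finset.sum_congr rfl (fun i hi => by rw [ind_apply, if_pos hi] : ∀ i ∈ A, ind A i = 1)]
  simp

lemma colon_ind {G : SimpleGraph σ} {A : Finset σ} (h : IndCover G A) :
    Submodule.colon (edgeIdeal K G) {(monomial (ind A) (1 : K))}
      = PV K {v | ∃ c ∈ A, G.Adj c v} := by
  classical
  ext f
  rw [(isMon_edgeIdeal G).mem_colon_monomial, mem_PV]
  refine forall₂_congr (fun u _ => ?_)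
  rw [monomial_mem_edgeIdeal]
  constructor
  · rintro ⟨a, b, hab, ha, hb⟩
    rw [Finsupp.add_apply, ind_apply] at ha hb
    by_contra hcon
    push Not at hcon
    have key : ∀ c, (∃ e ∈ A, G.Adj e c) → u c + (if c ∈ A then 1 else 0) = 0 := by
      intro c hc
      rw [hcon c hc, if_neg]
      intro hcA
      obtain ⟨e, heA, hec⟩ := hc
      exact h.indep e heA c hcA hec
    rcases h.cover a b hab with h1 | h1
    · exact ha (key a h1)
    · exact hb (key b h1)
  · rintro ⟨i, ⟨c, hc, hci⟩, hi⟩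
    refine ⟨c, i, hci, ?_, ?_⟩
    · rw [Finsupp.add_apply, ind_apply, if_pos hc]; omega
    · rw [Finsupp.add_apply]; omega

/-- From a homogeneous polynomial with prime colon ideal to an independent set. -/
lemma exists_indCover {G : SimpleGraph σ} {f : MvPolynomial σ K} {d : ℕ}
    (hf : f.IsHomogeneous d) (hP : (Submodule.colon (edgeIdeal K G) {f}).IsPrime) :
    ∃ A, IndCover G A ∧ A.card ≤ d := by
  classical
  have hfI : f ∉ edgeIdeal K G := by
    intro h
    apply hP.ne_top
    rw [Ideal.eq_top_iff_one, Submodule.mem_colon_singleton, one_smul]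
    exact h
  rw [(isMon_edgeIdeal G).mem_iff] at hfI
  push Not at hfI
  obtain ⟨u, hu, huI⟩ := hfI
  have hind : ∀ a ∈ u.support, ∀ b ∈ u.support, ¬ G.Adj a b := by
    intro a ha b hb hab
    exact huI (monomial_mem_edgeIdeal.mpr ⟨a, b, hab, Finsupp.mem_support_iff.mp ha,
      Finsupp.mem_support_iff.mp hb⟩)
  have key : ∀ a, X a ∈ Submodule.colon (edgeIdeal K G) {f} → ∃ c ∈ u.support, G.Adj c a := by
    intro a ha
    rw [Submodule.mem_colon_singleton, smul_eq_mul] at ha
    have h1 := (isMon_edgeIdeal G).of_X_mul_mem ha hu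
    rw [monomial_mem_edgeIdeal] at h1
    obtain ⟨p, q, hpq, hp, hq⟩ := h1
    rw [Finsupp.add_apply, Finsupp.single_apply] at hp hq
    by_cases hpa : a = p
    · subst hpa
      rw [if_neg hpq.ne] at hq
      exact ⟨q, Finsupp.mem_support_iff.mpr (by omega), hpq.symm⟩
    · rw [if_neg hpa] at hp
      by_cases hqa : a = q
      · subst hqa
        exact ⟨p, Finsupp.mem_support_iff.mpr (by omega), hpq⟩
      · rw [if_neg hqa] at hq
        exact absurd hpq (hind p (Finsupp.mem_support_iff.mpr (by omega)) q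
          (Finsupp.mem_support_iff.mpr (by omega)))
  refine ⟨u.support, ⟨hind, ?_⟩, ?_⟩
  · intro a b hab
    have h1 : (X a * X b : MvPolynomial σ K) ∈ Submodule.colon (edgeIdeal K G) {f} := by
      rw [Submodule.mem_colon_singleton, smul_eq_mul]
      exact Ideal.mul_mem_right _ _ (Ideal.subset_span ⟨a, b, hab, rfl⟩)
    rcases hP.mem_or_mem h1 with h2 | h2
    · exact Or.inl (key a h2)
    · exact Or.inr (key b h2)
  · have h1 : u.degree = d := by
      rw [Finsupp.degree_eq_weight_one]
      exact hf (mem_support_iff.mp hu)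
    rw [← h1, Finsupp.degree_apply]
    calc u.support.card = ∑ i ∈ u.support, 1 := by simp
      _ ≤ ∑ i ∈ u.support, u i := Finset.sum_le_sum (fun i hi => by
          have := Finsupp.mem_support_iff.mp hi; omega)

lemma edge_mem {G : SimpleGraph σ} {a b : σ} (h : G.Adj a b) :
    (X a * X b : MvPolynomial σ K) ∈ edgeIdeal K G := Ideal.subset_span ⟨a, b, h, rfl⟩

/-- Elements of `I^k` have degree at least `2k`. -/
lemma pow_le_deg (G : SimpleGraph σ) (k : ℕ) : edgeIdeal K G ^ k ≤ WtGE K 1 (k * 2) :=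
  pow_le_WtGE (edgeIdeal_le_WtGE _ _ (fun _ _ _ => le_rfl)) k

/-- A homogeneous polynomial with `(I^(k+1) : f)` prime has degree at least `2k + 1`. -/
lemma le_degree_of_colon_prime {G : SimpleGraph σ} {a b : σ} (hab : G.Adj a b) (k : ℕ)
    {f : MvPolynomial σ K} {d : ℕ} (hf : f.IsHomogeneous d)
    (hP : (Submodule.colon (edgeIdeal K G ^ (k + 1)) {f}).IsPrime) : 2 * k + 1 ≤ d := by
  classical
  have hf0 : f ≠ 0 := by
    rintro rfl
    apply hP.ne_top
    rw [Ideal.eq_top_iff_one, Submodule.mem_colon_singleton, one_smul]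
    exact Ideal.zero_mem _
  obtain ⟨u, hu⟩ := support_nonempty.mpr hf0
  have hdeg : Finsupp.weight (1 : σ → ℕ) u = d := hf (mem_support_iff.mp hu)
  have h1 : (X a * X b : MvPolynomial σ K) ^ (k + 1) ∈
      Submodule.colon (edgeIdeal K G ^ (k + 1)) {f} := by
    rw [Submodule.mem_colon_singleton, smul_eq_mul]
    exact Ideal.mul_mem_right _ _ (Ideal.pow_mem_pow (edge_mem hab) _)
  have h2 := hP.mem_of_pow_mem _ h1
  have key : ∀ c, X c ∈ Submodule.colon (edgeIdeal K G ^ (k + 1)) {f} → 2 * k + 1 ≤ d := by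
    intro c hc
    rw [Submodule.mem_colon_singleton, smul_eq_mul] at hc
    have h3 := ((isMon_edgeIdeal G).pow (k + 1)).of_X_mul_mem hc hu
    have h4 := pow_le_deg G (k + 1) h3
    rw [monomial_mem_WtGE, map_add, Finsupp.weight_single, hdeg] at h4
    simp at h4
    omega
  rcases hP.mem_or_mem h2 with h | h
  · exact key a h
  · exact key b h

/-- A dominating triangle. -/
lemma colon_sq_triangle {G : SimpleGraph σ} {x y z : σ} (hxy : G.Adj x y) (hyz : G.Adj y z)
    (hxz : G.Adj x z) (hdom : ∀ v, G.Adj v x ∨ G.Adj v y ∨ G.Adj v z) :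
    Submodule.colon (edgeIdeal K G ^ 2) {(X x * X y * X z : MvPolynomial σ K)}
      = PV K Set.univ := by
  apply le_antisymm
  · intro f hf
    rw [mem_PV]
    intro u hu
    by_contra hcon
    push Not at hcon
    have hu0 : u = 0 := by ext i; exact hcon i (Set.mem_univ i)
    subst hu0
    have e : (X x * X y * X z : MvPolynomial σ K)
        = monomial (Finsupp.single x 1 + Finsupp.single y 1 + Finsupp.single z 1) 1 := by
      simp [X, monomial_mul]
    rw [e, ((isMon_edgeIdeal G).pow 2).mem_colon_monomial] at hf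
    have h1 := pow_le_deg G 2 (hf 0 hu)
    rw [monomial_mem_WtGE] at h1
    simp only [map_add, Finsupp.weight_single, map_zero] at h1
    simp at h1
  · unfold PV
    rw [Ideal.span_le]
    rintro _ ⟨v, -, rfl⟩
    show X v ∈ Submodule.colon (edgeIdeal K G ^ 2) {(X x * X y * X z : MvPolynomial σ K)}
    rw [Submodule.mem_colon_singleton, smul_eq_mul, pow_two]
    rcases hdom v with h | h | h
    · have : (X v * (X x * X y * X z) : MvPolynomial σ K) = (X v * X x) * (X y * X z) := by ring
      rw [this]; exact Ideal.mul_mem_mul (edge_mem h) (edge_mem hyz)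
    · have : (X v * (X x * X y * X z) : MvPolynomial σ K) = (X v * X y) * (X x * X z) := by ring
      rw [this]; exact Ideal.mul_mem_mul (edge_mem h) (edge_mem hxz)
    · have : (X v * (X x * X y * X z) : MvPolynomial σ K) = (X v * X z) * (X x * X y) := by ring
      rw [this]; exact Ideal.mul_mem_mul (edge_mem h) (edge_mem hxy)

end Q14.EdgeV
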