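import Pool.Agent.Results.MP_a0e599_al.Main

set_option autoImplicit false

/-!
# Left ideals and degree parts in exterior algebras
-/

namespace Pool.Agent.Q14.ExtA

open ExteriorAlgebra Pool.Agent.Results.MP_a0e599_al.Main

universe u v

section basics

variable {K : Type u} [Field K] {n : ℕ} {V : Type v} [AddCommGroup V] [Module K V]
  {e : Module.Basis (Fin n) K V}

/-- graded commutativity -/
lemma gen_comm (e : Module.Basis (Fin n) K V) {d : ℕ} {f : ExteriorAlgebra K V}
    (hf : f ∈ ⋀[K]^d V) (a : Fin n) :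
    gen e a * f = (-1 : K) ^ d • (f * gen e a) := by
  have h : f = ∑ S, (BB e).repr f S • mono e S := by
    conv_lhs => rw [← (BB e).sum_repr f]
    simp only [BB_apply]
  rw [h, Finset.mul_sum, Finset.sum_mul, Finset.smul_sum]
  refine Finset.sum_congr rfl fun S _ => ?_
  by_cases hS : S.card = d
  · have h1 := gen_mul_lmono (e := e) a (S.sort (· ≤ ·))
    rw [Finset.length_sort, hS] at h1
    unfold mono
    rw [mul_smul_comm, h1, smul_mul_assoc, smul_comm]
  · rw [repr_of_mem hf S hS]; simp

lemma mono_comm (e : Module.Basis (Fin n) K V) {d : ℕ} {f : ExteriorAlgebra K V}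
    (hf : f ∈ ⋀[K]^d V) (S : Finset (Fin n)) :
    mono e S * f = (-1 : K) ^ (S.card * d) • (f * mono e S) := by
  have h : f = ∑ S, (BB e).repr f S • mono e S := by
    conv_lhs => rw [← (BB e).sum_repr f]
    simp only [BB_apply]
  rw [h, Finset.mul_sum, Finset.sum_mul, Finset.smul_sum]
  refine Finset.sum_congr rfl fun T _ => ?_
  by_cases hT : T.card = d
  · have h1 := lmono_comm (e := e) (S.sort (· ≤ ·)) (T.sort (· ≤ ·))
    rw [Finset.length_sort, Finset.length_sort, hT] at h1
    unfold mono
    rw [mul_smul_comm, h1, smul_mul_assoc, smul_comm]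
  · rw [repr_of_mem hf T hT]; simp

lemma hom_comm (e : Module.Basis (Fin n) K V) {c d : ℕ} {f g : ExteriorAlgebra K V}
    (hg : g ∈ ⋀[K]^c V) (hf : f ∈ ⋀[K]^d V) :
    g * f = (-1 : K) ^ (c * d) • (f * g) := by
  have h : g = ∑ S, (BB e).repr g S • mono e S := by
    conv_lhs => rw [← (BB e).sum_repr g]
    simp only [BB_apply]
  rw [h, Finset.mul_sum, Finset.sum_mul, Finset.smul_sum]
  refine Finset.sum_congr rfl fun S _ => ?_
  by_cases hS : S.card = c
  · rw [smul_mul_assoc, mono_comm e hf S, hS, mul_smul_comm, smul_comm]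
  · rw [repr_of_mem hg S hS]; simp

/-- `f * b = b' * f` for homogeneous `f`. -/
lemma exists_swap (e : Module.Basis (Fin n) K V) {d : ℕ} {f : ExteriorAlgebra K V}
    (hf : f ∈ ⋀[K]^d V) (b : ExteriorAlgebra K V) :
    ∃ b', f * b = b' * f := by
  refine ⟨∑ S, ((BB e).repr b S * (-1 : K) ^ (S.card * d)) • mono e S, ?_⟩
  have h : b = ∑ S, (BB e).repr b S • mono e S := by
    conv_lhs => rw [← (BB e).sum_repr b]
    simp only [BB_apply]
  conv_lhs => rw [h]
  rw [Finset.mul_sum, Finset.sum_mul]
  refine Finset.sum_congr rfl fun S _ => ?_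
  rw [smul_mul_assoc, mono_comm e hf S, smul_smul, mul_assoc, ← mul_pow, mul_smul_comm]
  simp

lemma exists_swap' (e : Module.Basis (Fin n) K V) {d : ℕ} {f : ExteriorAlgebra K V}
    (hf : f ∈ ⋀[K]^d V) (b : ExteriorAlgebra K V) :
    ∃ b', b * f = f * b' := by
  refine ⟨∑ S, ((BB e).repr b S * (-1 : K) ^ (S.card * d)) • mono e S, ?_⟩
  have h : b = ∑ S, (BB e).repr b S • mono e S := by
    conv_lhs => rw [← (BB e).sum_repr b]
    simp only [BB_apply]
  conv_lhs => rw [h]
  rw [Finset.mul_sum, Finset.sum_mul]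
  refine Finset.sum_congr rfl fun S _ => ?_
  rw [smul_mul_assoc, mono_comm e hf S, smul_smul, mul_smul_comm]

lemma odd_sq (e : Module.Basis (Fin n) K V) (h2 : (2 : K) ≠ 0) {d : ℕ} (hd : Odd d)
    {f : ExteriorAlgebra K V} (hf : f ∈ ⋀[K]^d V) : f * f = 0 := by
  have h1 := hom_comm e hf hf
  rw [(hd.mul hd).neg_one_pow] at h1
  have h3 : (2 : K) • (f * f) = 0 := by
    rw [two_smul]
    nth_rewrite 1 [h1]
    simp
  exact (smul_eq_zero.1 h3).resolve_left h2

/-- projection onto the part of degree `j` -/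
noncomputable def proj (e : Module.Basis (Fin n) K V) (j : ℕ) :
    ExteriorAlgebra K V →ₗ[K] ExteriorAlgebra K V :=
  (BB e).constr K fun S => if S.card = j then mono e S else 0

lemma proj_mono (j : ℕ) (S : Finset (Fin n)) :
    proj e j (mono e S) = if S.card = j then mono e S else 0 := by
  unfold proj
  rw [← BB_apply, Module.Basis.constr_basis, BB_apply]

lemma expand (e : Module.Basis (Fin n) K V) (f : ExteriorAlgebra K V) :
    f = ∑ S, (BB e).repr f S • mono e S := by
  conv_lhs => rw [← (BB e).sum_repr f]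
  simp only [BB_apply]

lemma proj_apply (j : ℕ) (x : ExteriorAlgebra K V) :
    proj e j x = ∑ S, (BB e).repr x S • (if S.card = j then mono e S else 0) := by
  conv_lhs => rw [expand e x]
  rw [map_sum]
  refine Finset.sum_congr rfl fun S _ => ?_
  rw [map_smul, proj_mono]

lemma proj_mem (j : ℕ) (x : ExteriorAlgebra K V) : proj e j x ∈ ⋀[K]^j V := by
  rw [proj_apply]
  refine Submodule.sum_mem _ fun S _ => Submodule.smul_mem _ _ ?_
  by_cases h : S.card = j
  · rw [if_pos h, ← h]; exact mono_mem S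
  · rw [if_neg h]; exact Submodule.zero_mem _

lemma proj_of_mem {i : ℕ} (j : ℕ) {x : ExteriorAlgebra K V} (hx : x ∈ ⋀[K]^i V) :
    proj e j x = if i = j then x else 0 := by
  rw [proj_apply]
  by_cases h : i = j
  · rw [if_pos h]
    conv_rhs => rw [expand e x]
    refine Finset.sum_congr rfl fun S _ => ?_
    by_cases hS : S.card = j
    · rw [if_pos hS]
    · rw [if_neg hS, repr_of_mem hx S (by rw [h]; exact hS)]; simp
  · rw [if_neg h]
    refine Finset.sum_eq_zero fun S _ => ?_
    by_cases hS : S.card = j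
    · rw [repr_of_mem hx S (by rw [hS]; exact fun h' => h h'.symm)]; simp
    · rw [if_neg hS]; simp

lemma mul_mem {c d : ℕ} {f g : ExteriorAlgebra K V}
    (hg : g ∈ ⋀[K]^c V) (hf : f ∈ ⋀[K]^d V) : g * f ∈ ⋀[K]^(c + d) V := by
  rw [exteriorPower, pow_add]
  exact Submodule.mul_mem_mul hg hf

lemma proj_mul {d : ℕ} (j : ℕ) {f : ExteriorAlgebra K V} (hf : f ∈ ⋀[K]^d V)
    (a : ExteriorAlgebra K V) :
    proj e j (a * f) = if d ≤ j then proj e (j - d) a * f else 0 := by
  have h1 : proj e j (a * f) = ∑ S, (BB e).repr a S • proj e j (mono e S * f) := by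
    conv_lhs => rw [expand e a]
    rw [Finset.sum_mul, map_sum]
    refine Finset.sum_congr rfl fun S _ => ?_
    rw [smul_mul_assoc, map_smul]
  rw [h1]
  have h2 : ∀ S : Finset (Fin n), proj e j (mono e S * f) =
      if S.card + d = j then mono e S * f else 0 := fun S =>
    proj_of_mem j (mul_mem (mono_mem S) hf)
  simp only [h2]
  by_cases hd : d ≤ j
  · rw [if_pos hd, proj_apply, Finset.sum_mul]
    refine Finset.sum_congr rfl fun S _ => ?_
    by_cases hS : S.card + d = j
    · rw [if_pos hS, if_pos (by omega), smul_mul_assoc]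
    · rw [if_neg hS, if_neg (by omega)]; simp
  · rw [if_neg hd]
    refine Finset.sum_eq_zero fun S _ => ?_
    rw [if_neg (by omega), smul_zero]

lemma finrank_deg (e : Module.Basis (Fin n) K V) (j : ℕ) :
    Module.finrank K (⋀[K]^j V) = n.choose j := by
  have hf : Module.Finite K V := Module.Finite.of_basis e
  rw [exteriorPower.finrank_eq, Module.finrank_eq_card_basis e, Fintype.card_fin]

lemma fin_ext (e : Module.Basis (Fin n) K V) : Module.Finite K (ExteriorAlgebra K V) :=
  Module.Finite.of_basis (BB e)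

/-- contraction and right multiplication by a constant -/
lemma del_mul_const {a : Fin n} {c : ExteriorAlgebra K V} (hc : del e a c = 0)
    (x : ExteriorAlgebra K V) : del e a (x * c) = del e a x * c := by
  induction x using CliffordAlgebra.left_induction with
  | algebraMap r =>
    have h1 : del e a (algebraMap K (ExteriorAlgebra K V) r) = 0 := by
      unfold del; exact CliffordAlgebra.contractLeft_algebraMap _ _ _
    have h2 : (algebraMap K (ExteriorAlgebra K V) r) * c = r • c := (Algebra.smul_def r c).symm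
    rw [h1, h2, map_smul, hc]; simp
  | add x y hx hy => rw [add_mul, map_add, hx, hy, map_add, add_mul]
  | ι_mul x v hx =>
    have h1 : ∀ y : ExteriorAlgebra K V,
        del e a (CliffordAlgebra.ι (0 : QuadraticForm K V) v * y) =
        e.coord a v • y - CliffordAlgebra.ι (0 : QuadraticForm K V) v * del e a y := fun y => by
      unfold del; exact CliffordAlgebra.contractLeft_ι_mul _ _ _
    rw [mul_assoc, h1, h1, hx, sub_mul, smul_mul_assoc, mul_assoc]

lemma dels_mul_const (L : List (Fin n)) {c : ExteriorAlgebra K V} (hc : ∀ a ∈ L, del e a c = 0)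
    (x : ExteriorAlgebra K V) : dels e L (x * c) = dels e L x * c := by
  induction L generalizing x with
  | nil => rfl
  | cons a L ih =>
    rw [dels_cons, dels_cons, del_mul_const (hc a (by simp)), ih (fun b hb => hc b (by simp [hb]))]

lemma del_lmono_zero (e : Module.Basis (Fin n) K V) (a : Fin n) (l : List (Fin n)) (ha : a ∉ l) : del e a (lmono e l) = 0 := by
  have h := del_lmono_mul (e := e) a l ha 1
  have h1 : del e a (1 : ExteriorAlgebra K V) = 0 := by
    unfold del; rw [CliffordAlgebra.contractLeft_one]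
  rw [mul_one, h1, mul_zero, smul_zero] at h
  exact h

lemma del_mono_zero (e : Module.Basis (Fin n) K V) (a : Fin n) (S : Finset (Fin n))
    (ha : a ∉ S) : del e a (mono e S) = 0 :=
  del_lmono_zero e a _ (by rwa [Finset.mem_sort])

end basics

section ideals

variable {K : Type u} [Field K] {n : ℕ} {V : Type v} [AddCommGroup V] [Module K V]
  {e : Module.Basis (Fin n) K V}

/-- left ideal generated by a tuple, as a subspace -/
noncomputable def LI {r : ℕ} (f : Fin r → ExteriorAlgebra K V) :
    Submodule K (ExteriorAlgebra K V) :=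
  Submodule.span K {z | ∃ a i, z = a * f i}

lemma mul_mem_LI {r : ℕ} (f : Fin r → ExteriorAlgebra K V) (a : ExteriorAlgebra K V) (i : Fin r) :
    a * f i ∈ LI f := Submodule.subset_span ⟨a, i, rfl⟩

lemma mem_LI {r : ℕ} (f : Fin r → ExteriorAlgebra K V) (z : ExteriorAlgebra K V) :
    z ∈ LI f ↔ ∃ a : Fin r → ExteriorAlgebra K V, z = ∑ i, a i * f i := by
  constructor
  · intro h
    unfold LI at h
    induction h using Submodule.span_induction with
    | mem z h =>
      obtain ⟨a, i, rfl⟩ := h
      refine ⟨fun j => if j = i then a else 0, ?_⟩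
      rw [Finset.sum_eq_single i]
      · simp
      · intro b _ hb; simp [hb]
      · intro h; exact absurd (Finset.mem_univ _) h
    | zero => exact ⟨fun _ => 0, by simp⟩
    | add x y _ _ hx hy =>
      obtain ⟨a, rfl⟩ := hx
      obtain ⟨b, rfl⟩ := hy
      exact ⟨fun i => a i + b i, by simp [add_mul, Finset.sum_add_distrib]⟩
    | smul c x _ hx =>
      obtain ⟨a, rfl⟩ := hx
      exact ⟨fun i => c • a i, by simp [Finset.smul_sum]⟩
  · rintro ⟨a, rfl⟩
    exact Submodule.sum_mem _ fun i _ => mul_mem_LI f _ _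

lemma left_mul_LI {r : ℕ} (f : Fin r → ExteriorAlgebra K V) (b : ExteriorAlgebra K V)
    {z : ExteriorAlgebra K V} (hz : z ∈ LI f) : b * z ∈ LI f := by
  rw [mem_LI] at hz ⊢
  obtain ⟨a, rfl⟩ := hz
  exact ⟨fun i => b * a i, by simp [Finset.mul_sum, mul_assoc]⟩

lemma hom_mul_LI (e : Module.Basis (Fin n) K V) {r : ℕ} (f : Fin r → ExteriorAlgebra K V)
    {d : Fin r → ℕ} (hf : ∀ i, f i ∈ ⋀[K]^(d i) V) (i : Fin r) (b : ExteriorAlgebra K V) :
    f i * b ∈ LI f := by
  obtain ⟨b', h⟩ := exists_swap e (hf i) b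
  rw [h]; exact mul_mem_LI f _ _

/-- the two-sided ideal generated by a tuple, as a subspace -/
noncomputable def TI {r : ℕ} (f : Fin r → ExteriorAlgebra K V) :
    Submodule K (ExteriorAlgebra K V) :=
  Submodule.span K {z | ∃ a i b, z = a * f i * b}

lemma TI_eq (e : Module.Basis (Fin n) K V) {r : ℕ} (f : Fin r → ExteriorAlgebra K V)
    {d : Fin r → ℕ} (hf : ∀ i, f i ∈ ⋀[K]^(d i) V) : TI f = LI f := by
  apply le_antisymm
  · refine Submodule.span_le.2 ?_
    rintro z ⟨a, i, b, rfl⟩
    rw [mul_assoc]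
    exact left_mul_LI f a (hom_mul_LI e f hf i b)
  · refine Submodule.span_le.2 ?_
    rintro z ⟨a, i, rfl⟩
    exact Submodule.subset_span ⟨a, i, 1, by simp⟩

/-- the generating map in degree `j` -/
noncomputable def gmap (e : Module.Basis (Fin n) K V) {r : ℕ} (d : Fin r → ℕ) (j : ℕ)
    (f : Fin r → ExteriorAlgebra K V) :
    (Fin r → ExteriorAlgebra K V) →ₗ[K] ExteriorAlgebra K V :=
  ∑ i, if d i ≤ j then (LinearMap.mulRight K (f i)) ∘ₗ (proj e (j - d i)) ∘ₗ (LinearMap.proj i)
    else 0

lemma gmap_apply {r : ℕ} (d : Fin r → ℕ) (j : ℕ)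
    (f a : Fin r → ExteriorAlgebra K V) :
    gmap e d j f a = ∑ i, if d i ≤ j then proj e (j - d i) (a i) * f i else 0 := by
  unfold gmap
  rw [LinearMap.sum_apply]
  refine Finset.sum_congr rfl fun i _ => ?_
  split_ifs <;> simp

lemma gmap_range {r : ℕ} {d : Fin r → ℕ} (j : ℕ) {f : Fin r → ExteriorAlgebra K V}
    (hf : ∀ i, f i ∈ ⋀[K]^(d i) V) :
    LinearMap.range (gmap e d j f) = LI f ⊓ ⋀[K]^j V := by
  ext z
  rw [LinearMap.mem_range, Submodule.mem_inf]
  constructor
  · rintro ⟨a, rfl⟩
    rw [gmap_apply]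
    constructor
    · refine Submodule.sum_mem _ fun i _ => ?_
      split_ifs
      · exact mul_mem_LI f _ _
      · exact Submodule.zero_mem _
    · refine Submodule.sum_mem _ fun i _ => ?_
      split_ifs with h
      · have := mul_mem (proj_mem (e := e) (j - d i) (a i)) (hf i)
        rwa [Nat.sub_add_cancel h] at this
      · exact Submodule.zero_mem _
  · rintro ⟨h1, h2⟩
    obtain ⟨a, ha⟩ := (mem_LI f z).1 h1
    refine ⟨a, ?_⟩
    have h3 := proj_of_mem (e := e) j h2
    rw [if_pos rfl] at h3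
    rw [gmap_apply, ← h3]
    conv_rhs => rw [ha]
    rw [map_sum]
    refine Finset.sum_congr rfl fun i _ => ?_
    rw [proj_mul j (hf i)]

end ideals

end Pool.Agent.Q14.ExtA
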