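import Pool.Agent.Q14.ExtA

set_option autoImplicit false

/-!
# Sums of disjoint monomials in exterior algebras: commutation with the contraction
-/

namespace Pool.Agent.Q14.ExtB

open ExteriorAlgebra Pool.Agent.Results.MP_a0e599_al.Main Pool.Agent.Q14.ExtA

universe u v

variable {K : Type u} [Field K] {n : ℕ} {V : Type v} [AddCommGroup V] [Module K V]
  {e : Module.Basis (Fin n) K V}

lemma isEig_zero (S : Finset (Fin n)) : IsEig e S 0 := by
  intro i; simp

lemma gen_mul_eq_zero {S : Finset (Fin n)} {x : ExteriorAlgebra K V} (h : IsEig e S x)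
    {a : Fin n} (ha : a ∈ S) : gen e a * x = 0 := by
  have h1 := h a
  rw [if_pos ha] at h1
  rw [← h1, ← mul_assoc, gen_gen, zero_mul]

lemma isEig_gen_mul {S : Finset (Fin n)} {x : ExteriorAlgebra K V} (h : IsEig e S x)
    (a : Fin n) : IsEig e (insert a S) (gen e a * x) := by
  by_cases ha : a ∈ S
  · rw [gen_mul_eq_zero h ha]; exact isEig_zero _
  · intro i
    rw [del_gen_mul]
    by_cases hi : i = a
    · subst hi
      rw [if_pos rfl, isEig_del_eq_zero h ha]
      simp
    · rw [if_neg hi, zero_sub, mul_neg, ← mul_assoc, gen_anti i a, neg_mul, neg_neg, mul_assoc,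
        h i]
      by_cases hm : i ∈ S <;> simp [hm, hi]

lemma isEig_lmono_mul {S : Finset (Fin n)} {x : ExteriorAlgebra K V} (h : IsEig e S x)
    (l : List (Fin n)) : IsEig e (l.toFinset ∪ S) (lmono e l * x) := by
  induction l with
  | nil => simpa using h
  | cons a l ih =>
    rw [lmono_cons, mul_assoc, List.toFinset_cons, Finset.insert_union]
    exact isEig_gen_mul ih a

lemma lmono_mul_eq_zero {S : Finset (Fin n)} {x : ExteriorAlgebra K V} (h : IsEig e S x)
    (l : List (Fin n)) {a : Fin n} (ha : a ∈ l) (haS : a ∈ S) : lmono e l * x = 0 := by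
  induction l with
  | nil => simp at ha
  | cons b l ih =>
    rw [lmono_cons, mul_assoc]
    rcases List.mem_cons.1 ha with rfl | ha
    · exact gen_mul_eq_zero (isEig_lmono_mul h l) (by simp [haS])
    · rw [ih ha, mul_zero]

lemma isEig_mono_mul {S : Finset (Fin n)} {x : ExteriorAlgebra K V} (h : IsEig e S x)
    (T : Finset (Fin n)) : IsEig e (T ∪ S) (mono e T * x) := by
  have := isEig_lmono_mul h (T.sort (· ≤ ·))
  rwa [Finset.sort_toFinset] at this

lemma mono_mul_eq_zero {S : Finset (Fin n)} {x : ExteriorAlgebra K V} (h : IsEig e S x)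
    (T : Finset (Fin n)) {a : Fin n} (ha : a ∈ T) (haS : a ∈ S) : mono e T * x = 0 :=
  lmono_mul_eq_zero h _ ((Finset.mem_sort _).2 ha) haS

/-- the sum of the monomials of the blocks -/
noncomputable def bsum (e : Module.Basis (Fin n) K V) {N : ℕ} (T : Fin N → Finset (Fin n)) :
    ExteriorAlgebra K V := ∑ b, mono e (T b)

/-- (anti)commutator `D f + c f D` of the multiplication by `bsum` with the contraction -/
noncomputable def HH (e : Module.Basis (Fin n) K V) {N : ℕ} (T : Fin N → Finset (Fin n)) (c : K) :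
    ExteriorAlgebra K V →ₗ[K] ExteriorAlgebra K V :=
  (Hop e T) ∘ₗ (LinearMap.mulLeft K (bsum e T)) +
    c • ((LinearMap.mulLeft K (bsum e T)) ∘ₗ (Hop e T))

lemma HH_apply {N : ℕ} (T : Fin N → Finset (Fin n)) (c : K) (x : ExteriorAlgebra K V) :
    HH e T c x = Hop e T (bsum e T * x) + c • (bsum e T * Hop e T x) := by
  simp [HH]

/-- number of blocks disjoint from `S` -/
def nE {N : ℕ} (T : Fin N → Finset (Fin n)) (S : Finset (Fin n)) : ℕ :=
  (Finset.univ.filter fun b => ∀ i ∈ T b, i ∉ S).card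

/-- number of blocks contained in `S` -/
def nF {N : ℕ} (T : Fin N → Finset (Fin n)) (S : Finset (Fin n)) : ℕ :=
  (Finset.univ.filter fun b => ∀ i ∈ T b, i ∈ S).card

lemma HH_eig {N d : ℕ} (T : Fin N → Finset (Fin n)) (hT : ∀ b, (T b).card = d)
    (hdis : ∀ b b', b ≠ b' → Disjoint (T b) (T b')) {c : K} (hc : (-1 : K) ^ (d * d) = - c)
    {S : Finset (Fin n)} {x : ExteriorAlgebra K V} (hx : IsEig e S x) :
    HH e T c x = ((nE T S : K) + c * (nF T S : K)) • x := by
  rw [HH_apply]
  unfold bsum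
  simp only [Hop_apply, Finset.sum_mul, Finset.mul_sum, map_sum]
  have key : ∀ b b' : Fin N, dels e ((T b').sort (· ≤ ·)) (mono e (T b) * x) +
      c • (mono e (T b) * dels e ((T b').sort (· ≤ ·)) x) =
      if b = b' then ((if ∀ i ∈ T b, i ∉ S then (1:K) else 0) +
        c * (if ∀ i ∈ T b, i ∈ S then (1:K) else 0)) • x else 0 := by
    intro b b'
    by_cases hb : b = b'
    · subst hb
      rw [if_pos rfl]
      have h1 := lmono_mul_dels hx ((T b).sort (· ≤ ·)) (Finset.sort_nodup _ _)
      have h2 := dels_lmono_mul_self hx ((T b).sort (· ≤ ·)) (Finset.sort_nodup _ _)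
      simp only [Finset.mem_sort] at h1 h2
      unfold mono
      rw [h1, h2, add_smul]
      congr 1
      · split_ifs <;> simp
      · split_ifs <;> simp
    · rw [if_neg hb]
      have h3 := dels_lmono_mul (e := e) ((T b').sort (· ≤ ·)) ((T b).sort (· ≤ ·))
        (by
          intro a ha hb'
          rw [Finset.mem_sort] at ha hb'
          exact (Finset.disjoint_left.1 (hdis b b' hb)) hb' ha) x
      rw [Finset.length_sort, Finset.length_sort, hT, hT, hc] at h3
      unfold mono
      rw [h3]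
      simp
  have e1 : (∑ b' : Fin N, ∑ b : Fin N, dels e ((T b').sort (· ≤ ·)) (mono e (T b) * x)) +
      (∑ b' : Fin N, ∑ b : Fin N, c • (mono e (T b) * dels e ((T b').sort (· ≤ ·)) x)) =
      ∑ b' : Fin N, ((if ∀ i ∈ T b', i ∉ S then (1:K) else 0) +
        c * (if ∀ i ∈ T b', i ∈ S then (1:K) else 0)) • x := by
    rw [← Finset.sum_add_distrib]
    refine Finset.sum_congr rfl fun b' _ => ?_
    rw [← Finset.sum_add_distrib]
    simp_rw [key]
    simp
  refine Eq.trans ?_ (e1.trans ?_)
  · congr 1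
    · exact Finset.sum_comm
    · simp only [Finset.smul_sum]
  · rw [← Finset.sum_smul]
    congr 1
    rw [Finset.sum_add_distrib, ← Finset.mul_sum]
    unfold nE nF
    simp

lemma nE_union {N d : ℕ} (hd : 0 < d) (T : Fin N → Finset (Fin n)) (hT : ∀ b, (T b).card = d)
    (hdis : ∀ b b', b ≠ b' → Disjoint (T b) (T b')) (S : Finset (Fin n)) (b : Fin N)
    (hb : ∀ i ∈ T b, i ∉ S) : nE T (T b ∪ S) + 1 = nE T S := by
  unfold nE
  have h : (Finset.univ.filter fun b' => ∀ i ∈ T b', i ∉ S) =
      insert b (Finset.univ.filter fun b' => ∀ i ∈ T b', i ∉ T b ∪ S) := by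
    ext b'
    simp only [Finset.mem_filter, Finset.mem_univ, true_and, Finset.mem_insert, Finset.mem_union]
    constructor
    · intro h
      by_cases hbb : b' = b
      · exact Or.inl hbb
      · refine Or.inr fun i hi => ?_
        rintro (h1 | h1)
        · exact (Finset.disjoint_left.1 (hdis b' b hbb)) hi h1
        · exact h i hi h1
    · rintro (h | h)
      · subst h; exact hb
      · intro i hi h1
        exact h i hi (Or.inr h1)
  rw [h, Finset.card_insert_of_notMem]
  rw [Finset.mem_filter]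
  rintro ⟨-, h2⟩
  obtain ⟨i, hi⟩ : (T b).Nonempty := Finset.card_pos.1 (by rw [hT]; exact hd)
  exact h2 i hi (Finset.mem_union_left _ hi)

lemma nF_union {N d : ℕ} (hd : 0 < d) (T : Fin N → Finset (Fin n)) (hT : ∀ b, (T b).card = d)
    (hdis : ∀ b b', b ≠ b' → Disjoint (T b) (T b')) (S : Finset (Fin n)) (b : Fin N)
    (hb : ∀ i ∈ T b, i ∉ S) : nF T (T b ∪ S) = nF T S + 1 := by
  unfold nF
  have h : (Finset.univ.filter fun b' => ∀ i ∈ T b', i ∈ T b ∪ S) =
      insert b (Finset.univ.filter fun b' => ∀ i ∈ T b', i ∈ S) := by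
    ext b'
    simp only [Finset.mem_filter, Finset.mem_univ, true_and, Finset.mem_insert, Finset.mem_union]
    constructor
    · intro h
      by_cases hbb : b' = b
      · exact Or.inl hbb
      · refine Or.inr fun i hi => ?_
        rcases h i hi with h1 | h1
        · exact absurd h1 ((Finset.disjoint_left.1 (hdis b' b hbb)) hi)
        · exact h1
    · rintro (h | h)
      · subst h; exact fun i hi => Or.inl hi
      · intro i hi
        exact Or.inr (h i hi)
  rw [h, Finset.card_insert_of_notMem]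
  rw [Finset.mem_filter]
  rintro ⟨-, h2⟩
  obtain ⟨i, hi⟩ : (T b).Nonempty := Finset.card_pos.1 (by rw [hT]; exact hd)
  exact hb i hi (h2 i hi)

/-- `H f = f (H - 2)` in the even case -/
lemma HH_bsum {N d : ℕ} (hd : 0 < d) (T : Fin N → Finset (Fin n)) (hT : ∀ b, (T b).card = d)
    (hdis : ∀ b b', b ≠ b' → Disjoint (T b) (T b')) (hev : Even d) (x : ExteriorAlgebra K V) :
    HH e T (-1) (bsum e T * x) = bsum e T * (HH e T (-1) x - (2 : K) • x) := by
  have hc : (-1 : K) ^ (d * d) = - (-1) := by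
    rw [(hev.mul_right d).neg_one_pow]; simp
  have hmono : ∀ S : Finset (Fin n), HH e T (-1) (bsum e T * mono e S) =
      bsum e T * (HH e T (-1) (mono e S) - (2 : K) • mono e S) := by
    intro S
    rw [HH_eig T hT hdis hc (isEig_mono S)]
    unfold bsum
    rw [Finset.sum_mul, map_sum, Finset.sum_mul]
    refine Finset.sum_congr rfl fun b _ => ?_
    by_cases hb : ∀ i ∈ T b, i ∉ S
    · have h1 := HH_eig T hT hdis hc (isEig_mono_mul (isEig_mono (e := e) S) (T b))
      rw [h1, ← sub_smul, mul_smul_comm]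
      congr 1
      have h2 := nE_union hd T hT hdis S b hb
      have h3 := nF_union hd T hT hdis S b hb
      rw [h3, ← h2]
      push_cast; ring
    · push Not at hb
      obtain ⟨i, hi, hiS⟩ := hb
      have h1 : mono e (T b) * mono e S = 0 := mono_mul_eq_zero (isEig_mono S) _ hi hiS
      rw [h1, map_zero, ← sub_smul, mul_smul_comm, h1, smul_zero]
  have h := expand e x
  rw [h, Finset.mul_sum, map_sum, map_sum, Finset.smul_sum, ← Finset.sum_sub_distrib,
    Finset.mul_sum]
  refine Finset.sum_congr rfl fun S _ => ?_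
  rw [mul_smul_comm, map_smul, hmono S, map_smul, smul_comm (2 : K), ← smul_sub, mul_smul_comm]

lemma card_hit {N : ℕ} (T : Fin N → Finset (Fin n))
    (hdis : ∀ b b', b ≠ b' → Disjoint (T b) (T b')) (S : Finset (Fin n)) :
    N ≤ nE T S + S.card := by
  have h1 : (Finset.univ.filter fun b => ¬ ∀ i ∈ T b, i ∉ S).card ≤ S.card := by
    have h2 : ∀ b ∈ (Finset.univ.filter fun b => ¬ ∀ i ∈ T b, i ∉ S), ∃ i ∈ T b, i ∈ S := by
      intro b hb
      rw [Finset.mem_filter] at hb
      have := hb.2
      push Not at this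
      exact this
    rcases isEmpty_or_nonempty (Fin n) with hE | hN
    · rw [Finset.card_eq_zero.2]
      · exact Nat.zero_le _
      · refine Finset.eq_empty_of_forall_notMem fun b hb => ?_
        obtain ⟨i, -⟩ := h2 b hb
        exact hE.false i
    choose! g hg1 hg2 using h2
    refine Finset.card_le_card_of_injOn g (fun b hb => hg2 b hb) ?_
    intro b hb b' hb' hbb
    by_contra hne
    exact (Finset.disjoint_left.1 (hdis b b' hne)) (hg1 b hb) (hbb ▸ hg1 b' hb')
  have h3 := Finset.card_filter_add_card_filter_not (s := (Finset.univ : Finset (Fin N)))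
    (fun b => ∀ i ∈ T b, i ∉ S)
  rw [Finset.card_univ, Fintype.card_fin] at h3
  unfold nE
  omega

lemma card_full {N d : ℕ} (hd : 0 < d) (T : Fin N → Finset (Fin n)) (hT : ∀ b, (T b).card = d)
    (hdis : ∀ b b', b ≠ b' → Disjoint (T b) (T b')) (S : Finset (Fin n)) :
    nF T S ≤ S.card := by
  unfold nF
  have h2 : ∀ b ∈ (Finset.univ.filter fun b => ∀ i ∈ T b, i ∈ S), ∃ i ∈ T b, i ∈ S := by
    intro b hb
    rw [Finset.mem_filter] at hb
    obtain ⟨i, hi⟩ : (T b).Nonempty := Finset.card_pos.1 (by rw [hT]; exact hd)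
    exact ⟨i, hi, hb.2 i hi⟩
  rcases isEmpty_or_nonempty (Fin n) with hE | hN
  · rw [Finset.card_eq_zero.2]
    · exact Nat.zero_le _
    · refine Finset.eq_empty_of_forall_notMem fun b hb => ?_
      obtain ⟨i, -⟩ := h2 b hb
      exact hE.false i
  choose! g hg1 hg2 using h2
  refine Finset.card_le_card_of_injOn g (fun b hb => hg2 b hb) ?_
  intro b hb b' hb' hbb
  by_contra hne
  exact (Finset.disjoint_left.1 (hdis b b' hne)) (hg1 b hb) (hbb ▸ hg1 b' hb')

/-- `H - m` is injective in small degree and preserves the degree -/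
lemma HH_sub {N d : ℕ} (T : Fin N → Finset (Fin n)) (hT : ∀ b, (T b).card = d)
    (hdis : ∀ b b', b ≠ b' → Disjoint (T b) (T b')) {c : K} (hc : (-1 : K) ^ (d * d) = - c)
    (m : K) (x : ExteriorAlgebra K V) :
    HH e T c x - m • x =
      ∑ S, ((BB e).repr x S * ((nE T S : K) + c * (nF T S : K) - m)) • mono e S := by
  have h := expand e x
  conv_lhs => rw [h]
  rw [map_sum, Finset.smul_sum, ← Finset.sum_sub_distrib]
  refine Finset.sum_congr rfl fun S _ => ?_
  rw [map_smul, HH_eig T hT hdis hc (isEig_mono S), smul_smul, smul_smul, ← sub_smul]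
  congr 1
  ring

lemma HH_mem {N d : ℕ} (T : Fin N → Finset (Fin n)) (hT : ∀ b, (T b).card = d)
    (hdis : ∀ b b', b ≠ b' → Disjoint (T b) (T b')) {c : K} (hc : (-1 : K) ^ (d * d) = - c)
    (m : K) {s : ℕ} {x : ExteriorAlgebra K V} (hx : x ∈ ⋀[K]^s V) :
    HH e T c x - m • x ∈ ⋀[K]^s V := by
  rw [HH_sub T hT hdis hc]
  refine Submodule.sum_mem _ fun S _ => ?_
  by_cases hS : S.card = s
  · refine Submodule.smul_mem _ _ ?_
    rw [← hS]; exact mono_mem S
  · rw [repr_of_mem hx S hS]; simp

lemma HH_inj {N d : ℕ} (T : Fin N → Finset (Fin n)) (hT : ∀ b, (T b).card = d)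
    (hdis : ∀ b b', b ≠ b' → Disjoint (T b) (T b')) {c : K} (hc : (-1 : K) ^ (d * d) = - c)
    (m : K) {s : ℕ}
    (hm : ∀ S : Finset (Fin n), S.card = s → (nE T S : K) + c * (nF T S : K) - m ≠ 0)
    {x : ExteriorAlgebra K V} (hx : x ∈ ⋀[K]^s V) (h0 : HH e T c x - m • x = 0) : x = 0 := by
  rw [HH_sub T hT hdis hc] at h0
  have h1 : ∀ S, (BB e).repr x S * ((nE T S : K) + c * (nF T S : K) - m) = 0 := by
    intro S
    have h2 : (∑ S, ((BB e).repr x S * ((nE T S : K) + c * (nF T S : K) - m)) • (BB e) S) = 0 := by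
      simpa only [BB_apply] using h0
    have h3 := (Fintype.linearIndependent_iff.1 (BB e).linearIndependent) _ h2 S
    exact h3
  rw [expand e x]
  refine Finset.sum_eq_zero fun S _ => ?_
  by_cases hS : S.card = s
  · rw [(mul_eq_zero.1 (h1 S)).resolve_right (hm S hS), zero_smul]
  · rw [repr_of_mem hx S hS]; simp

/-- an injective endomorphism of a finite-dimensional space that preserves a subspace maps nothing
else into it -/
lemma mem_of_inj {E : Type*} [AddCommGroup E] [Module K E] [Module.Finite K E]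
    (H : E →ₗ[K] E) (L M : Submodule K E)
    (hinj : ∀ x ∈ L, H x = 0 → x = 0) (hLM : ∀ x ∈ L ⊓ M, H x ∈ L ⊓ M)
    {x : E} (hx : x ∈ L) (hHx : H x ∈ L ⊓ M) : x ∈ M := by
  let G : (L ⊓ M : Submodule K E) →ₗ[K] (L ⊓ M : Submodule K E) :=
    (H.restrict hLM)
  have hG : Function.Injective G := by
    rw [← LinearMap.ker_eq_bot, LinearMap.ker_eq_bot']
    intro w hw
    apply Subtype.ext
    exact hinj w.1 w.2.1 (congrArg Subtype.val hw)
  have hsurj := LinearMap.injective_iff_surjective.1 hG
  obtain ⟨w, hw⟩ := hsurj ⟨H x, hHx⟩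
  have h1 : H w.1 = H x := congrArg Subtype.val hw
  have h2 : H (w.1 - x) = 0 := by rw [map_sub, h1, sub_self]
  have h3 := hinj _ (Submodule.sub_mem _ w.2.1 hx) h2
  have h4 : x = w.1 := (sub_eq_zero.1 h3).symm
  rw [h4]; exact w.2.2

end Pool.Agent.Q14.ExtB
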