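import Pool.Agent.Q14.ExtB

set_option autoImplicit false

/-!
# Sums of disjoint monomials: injectivity (even degree) and exactness (odd degree) modulo an ideal
-/

namespace Pool.Agent.Q14.ExtC

open ExteriorAlgebra Pool.Agent.Results.MP_a0e599_al.Main Pool.Agent.Q14.ExtA Pool.Agent.Q14.ExtB

universe u v

variable {K : Type u} [Field K] {n : ℕ} {V : Type v} [AddCommGroup V] [Module K V]
  {e : Module.Basis (Fin n) K V}

section even

variable {N d : ℕ} (hd : 0 < d) (T : Fin N → Finset (Fin n)) (hT : ∀ b, (T b).card = d)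
  (hdis : ∀ b b', b ≠ b' → Disjoint (T b) (T b')) (hev : Even d)

include hd hT hdis hev

lemma comm_pow (j : ℕ) (x : ExteriorAlgebra K V) :
    Hop e T (bsum e T ^ (j + 1) * x) = bsum e T ^ (j + 1) * Hop e T x +
      ((j : K) + 1) • (bsum e T ^ j * (HH e T (-1) x - (j : K) • x)) := by
  induction j generalizing x with
  | zero =>
    rw [HH_apply]
    simp
  | succ j ih =>
    have h1 : bsum e T ^ (j + 1 + 1) * x = bsum e T ^ (j + 1) * (bsum e T * x) := by
      rw [pow_succ, mul_assoc]
    have h2 : Hop e T (bsum e T * x) = bsum e T * Hop e T x + HH e T (-1) x := by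
      rw [HH_apply]; simp
    rw [h1, ih (bsum e T * x), HH_bsum hd T hT hdis hev, h2]
    have h3 : bsum e T ^ j * (bsum e T * (HH e T (-1) x - (2 : K) • x) - (j : K) • (bsum e T * x)) =
        bsum e T ^ (j + 1) * (HH e T (-1) x - ((j : K) + 2) • x) := by
      rw [pow_succ, mul_assoc]
      congr 1
      rw [mul_sub, mul_sub, mul_smul_comm, mul_smul_comm, add_smul]
      abel
    rw [h3, mul_add, ← mul_assoc, ← pow_succ]
    have h4 : bsum e T ^ (j + 1) * HH e T (-1) x + ((j : K) + 1) •
        (bsum e T ^ (j + 1) * (HH e T (-1) x - ((j : K) + 2) • x)) =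
        (((j + 1 : ℕ) : K) + 1) • (bsum e T ^ (j + 1) * (HH e T (-1) x - ((j + 1 : ℕ) : K) • x)) := by
      simp only [mul_sub, mul_smul_comm, smul_sub, smul_smul]
      push_cast
      module
    rw [add_assoc, h4]

lemma HH_pow (j : ℕ) (x : ExteriorAlgebra K V) :
    HH e T (-1) (bsum e T ^ j * x) = bsum e T ^ j * (HH e T (-1) x - (2 * (j : K)) • x) := by
  induction j generalizing x with
  | zero => simp
  | succ j ih =>
    rw [pow_succ, mul_assoc, ih (bsum e T * x), HH_bsum hd T hT hdis hev, mul_assoc]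
    congr 1
    simp only [mul_sub, mul_smul_comm]
    push_cast
    module

lemma even_inj [CharZero K] (J : Submodule K (ExteriorAlgebra K V))
    (hJ : ∀ z ∈ J, ∀ a, a * z ∈ J) (hJD : ∀ z ∈ J, Hop e T z ∈ J) :
    ∀ s j : ℕ, 2 * s + j ≤ N → ∀ x ∈ ⋀[K]^s V, bsum e T ^ j * x ∈ J → x ∈ J := by
  have hc : (-1 : K) ^ (d * d) = - (-1) := by
    rw [(hev.mul_right d).neg_one_pow]; simp
  have hfin : Module.Finite K (ExteriorAlgebra K V) := fin_ext e
  have hJH : ∀ z ∈ J, HH e T (-1) z ∈ J := by
    intro z hz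
    rw [HH_apply]
    exact Submodule.add_mem _ (hJD _ (hJ z hz _))
      (Submodule.smul_mem _ _ (hJ _ (hJD z hz) _))
  intro s
  induction s using Nat.strong_induction_on with
  | _ s ihs =>
  intro j
  induction j with
  | zero => intro _ x _ h; simpa using h
  | succ j ihj =>
    intro hN x hx hUx
    set U := bsum e T with hU
    set y := Hop e T x with hy
    have hA : U ^ (j + 1) * y + ((j : K) + 1) • (U ^ j * (HH e T (-1) x - (j : K) • x)) ∈ J := by
      have := hJD _ hUx
      rwa [comm_pow hd T hT hdis hev j x] at this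
    have h3 : U ^ (j + 1) * (HH e T (-1) x) ∈ J := by
      have h4 := hJH _ hUx
      rw [HH_pow hd T hT hdis hev (j + 1) x, mul_sub, mul_smul_comm] at h4
      have h5 := Submodule.add_mem _ h4 (Submodule.smul_mem J (2 * ((j + 1 : ℕ) : K)) hUx)
      rwa [sub_add_cancel] at h5
    have h6 : U ^ (j + 1) * (HH e T (-1) x - (j : K) • x) ∈ J := by
      rw [mul_sub, mul_smul_comm]
      exact Submodule.sub_mem _ h3 (Submodule.smul_mem _ _ hUx)
    have h7 : U ^ (j + 2) * y ∈ J := by
      have h8 := hJ _ hA U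
      rw [mul_add, ← mul_assoc, ← pow_succ', mul_smul_comm, ← mul_assoc, ← pow_succ'] at h8
      have h9 := Submodule.sub_mem _ h8 (Submodule.smul_mem J ((j : K) + 1) h6)
      rwa [add_sub_cancel_right] at h9
    have hyJ : y ∈ J := by
      have hg : y ∈ gr K V ((s : ℤ) - d) := Hop_mem T hT s (by rw [gr_nat]; exact hx)
      by_cases hsd : d ≤ s
      · have h8 : y ∈ ⋀[K]^(s - d) V := by
          have : ((s : ℤ) - d) = ((s - d : ℕ) : ℤ) := by omega
          rwa [this, gr_nat] at hg
        exact ihs (s - d) (by omega) (j + 2) (by omega) y h8 h7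
      · unfold gr at hg
        rw [if_neg (by omega), Submodule.mem_bot] at hg
        rw [hg]; exact Submodule.zero_mem _
    have h10 : U ^ j * (HH e T (-1) x - (j : K) • x) ∈ J := by
      have h11 := Submodule.sub_mem _ hA (hJ _ hyJ (U ^ (j + 1)))
      rw [add_sub_cancel_left] at h11
      have h12 : ((j : K) + 1) ≠ 0 := Nat.cast_add_one_ne_zero j
      have h13 := Submodule.smul_mem J ((j : K) + 1)⁻¹ h11
      rwa [smul_smul, inv_mul_cancel₀ h12, one_smul] at h13
    have h14 : HH e T (-1) x - (j : K) • x ∈ ⋀[K]^s V := HH_mem T hT hdis hc _ hx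
    have h15 := ihj (by omega) _ h14 h10
    refine mem_of_inj (K := K) (HH e T (-1) - (j : K) • LinearMap.id) (⋀[K]^s V) J ?_ ?_ hx ?_
    · intro z hz h0
      refine HH_inj T hT hdis hc (j : K) ?_ hz h0
      intro S hS h16
      have h17 := card_hit T hdis S
      have h18 := card_full hd T hT hdis S
      have h19 : ((nE T S : ℕ) : K) = ((nF T S + j : ℕ) : K) := by
        push_cast
        have h20 : (nE T S : K) + (-1) * (nF T S : K) - (j : K) = 0 := h16
        linear_combination h20
      have h21 : nE T S = nF T S + j := by exact_mod_cast h19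
      omega
    · rintro z ⟨hz1, hz2⟩
      exact ⟨HH_mem T hT hdis hc _ hz1,
        Submodule.sub_mem _ (hJH z hz2) (Submodule.smul_mem _ _ hz2)⟩
    · exact ⟨h14, h15⟩

end even

lemma odd_exact [CharZero K] {N d : ℕ} (T : Fin N → Finset (Fin n)) (hT : ∀ b, (T b).card = d)
    (hdis : ∀ b b', b ≠ b' → Disjoint (T b) (T b')) (hodd : Odd d)
    (M : Submodule K (ExteriorAlgebra K V)) (hM : ∀ z, bsum e T * z ∈ M)
    (hMD : ∀ z ∈ M, Hop e T (bsum e T * z) ∈ M)
    {s : ℕ} (hs : s < N) {x : ExteriorAlgebra K V} (hx : x ∈ ⋀[K]^s V)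
    (hUx : Hop e T (bsum e T * x) ∈ M) : x ∈ M := by
  have hc : (-1 : K) ^ (d * d) = - 1 := (hodd.mul hodd).neg_one_pow
  have hfin : Module.Finite K (ExteriorAlgebra K V) := fin_ext e
  have hHM : ∀ z, Hop e T (bsum e T * z) ∈ M → HH e T 1 z ∈ M := by
    intro z hz
    rw [HH_apply, one_smul]
    exact Submodule.add_mem _ hz (hM _)
  refine mem_of_inj (K := K) (HH e T 1) (⋀[K]^s V) M ?_ ?_ hx ?_
  · intro z hz h0
    refine HH_inj T hT hdis hc (0 : K) ?_ hz (by rw [h0]; simp)
    intro S hS h16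
    have h17 := card_hit T hdis S
    have h19 : ((nE T S + nF T S : ℕ) : K) = ((0 : ℕ) : K) := by
      push_cast
      linear_combination h16
    have h21 : nE T S + nF T S = 0 := by exact_mod_cast h19
    omega
  · rintro z ⟨hz1, hz2⟩
    refine ⟨?_, hHM z (hMD z hz2)⟩
    have := HH_mem (e := e) T hT hdis hc 0 hz1
    simpa using this
  · refine ⟨?_, hHM x hUx⟩
    have := HH_mem (e := e) T hT hdis hc 0 hx
    simpa using this

section special

variable {r N : ℕ} {d : Fin (r + 1) → ℕ} (hd : ∀ i, 0 < d i)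
  (T : Fin (r + 1) → Fin N → Finset (Fin n)) (hT : ∀ i b, (T i b).card = d i)
  (hdis : ∀ i b i' b', (i, b) ≠ (i', b') → Disjoint (T i b) (T i' b'))

include hT in
lemma bsum_mem (i : Fin (r + 1)) : bsum e (T i) ∈ ⋀[K]^(d i) V := by
  unfold bsum
  refine Submodule.sum_mem _ fun b _ => ?_
  rw [← hT i b]; exact mono_mem _

include hdis in
/-- the contraction for the last family is linear over the other forms -/
lemma Hop_mul (i : Fin r) (a : ExteriorAlgebra K V) :
    Hop e (T (Fin.last r)) (a * bsum e (T i.castSucc)) =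
      Hop e (T (Fin.last r)) a * bsum e (T i.castSucc) := by
  rw [Hop_apply, Hop_apply, Finset.sum_mul]
  refine Finset.sum_congr rfl fun b _ => ?_
  refine dels_mul_const _ ?_ a
  intro c hc
  rw [Finset.mem_sort] at hc
  unfold bsum
  rw [map_sum]
  refine Finset.sum_eq_zero fun b' _ => del_mono_zero e c _ ?_
  intro hc'
  have hne : ((Fin.last r : Fin (r + 1)), b) ≠ (i.castSucc, b') := by
    intro h
    have h1 := congrArg Prod.fst h
    exact absurd h1.symm (Fin.castSucc_lt_last i).ne
  exact (Finset.disjoint_left.1 (hdis _ _ _ _ hne)) hc hc'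

include hdis in
lemma Hop_LI {z : ExteriorAlgebra K V} (hz : z ∈ LI fun i : Fin r => bsum e (T i.castSucc)) :
    Hop e (T (Fin.last r)) z ∈ LI fun i : Fin r => bsum e (T i.castSucc) := by
  rw [mem_LI] at hz ⊢
  obtain ⟨a, rfl⟩ := hz
  refine ⟨fun i => Hop e (T (Fin.last r)) (a i), ?_⟩
  rw [map_sum]
  exact Finset.sum_congr rfl fun i _ => Hop_mul T hdis i (a i)

include hd hT hdis in
lemma special_even [CharZero K] (hev : Even (d (Fin.last r))) {s : ℕ} (hs : 2 * s + 1 ≤ N)
    {x : ExteriorAlgebra K V} (hx : x ∈ ⋀[K]^s V)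
    (h : x * bsum e (T (Fin.last r)) ∈ LI fun i : Fin r => bsum e (T i.castSucc)) :
    x ∈ LI fun i : Fin r => bsum e (T i.castSucc) := by
  refine even_inj (hd (Fin.last r)) (T (Fin.last r)) (hT _)
    (fun b b' hb => hdis _ _ _ _ (fun h' => hb (congrArg Prod.snd h'))) hev _
    (fun z hz a => left_mul_LI _ a hz) (fun z hz => Hop_LI T hdis hz) s 1 hs x hx ?_
  rw [pow_one, hom_comm e (bsum_mem T hT (Fin.last r)) hx]
  exact Submodule.smul_mem _ _ h

include hT hdis in
lemma special_odd [CharZero K] (hodd : Odd (d (Fin.last r))) {s : ℕ} (hs : s < N)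
    {x : ExteriorAlgebra K V} (hx : x ∈ ⋀[K]^s V)
    (h : x * bsum e (T (Fin.last r)) ∈ LI fun i : Fin r => bsum e (T i.castSucc)) :
    x ∈ LI fun i : Fin (r + 1) => bsum e (T i) := by
  have hle : (LI fun i : Fin r => bsum e (T i.castSucc)) ≤ LI fun i => bsum e (T i) := by
    unfold LI
    refine Submodule.span_mono ?_
    rintro z ⟨a, i, rfl⟩
    exact ⟨a, i.castSucc, rfl⟩
  have hU := bsum_mem (e := e) (K := K) T hT (Fin.last r)
  refine odd_exact (e := e) (T (Fin.last r)) (hT _)
    (fun b b' hb => hdis _ _ _ _ (fun h' => hb (congrArg Prod.snd h'))) hodd _ ?_ ?_ hs hx ?_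
  · intro z
    exact hom_mul_LI e (fun i => bsum e (T i)) (fun i => bsum_mem T hT i) (Fin.last r) z
  · intro z hz
    refine hle (Hop_LI T hdis ?_)
    rw [mem_LI] at hz
    obtain ⟨a, rfl⟩ := hz
    rw [Fin.sum_univ_castSucc, mul_add]
    refine Submodule.add_mem _ ?_ ?_
    · refine left_mul_LI _ _ ?_
      exact Submodule.sum_mem _ fun i _ => mul_mem_LI _ _ i
    · obtain ⟨b', hb'⟩ := exists_swap' e hU (a (Fin.last r))
      rw [hb', ← mul_assoc, odd_sq e two_ne_zero hodd hU, zero_mul]
      exact Submodule.zero_mem _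
  · refine hle (Hop_LI T hdis ?_)
    rw [hom_comm e hU hx]
    exact Submodule.smul_mem _ _ h

end special

end Pool.Agent.Q14.ExtC
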