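import Pool.Agent.Q14.ExtC

set_option autoImplicit false

/-!
# Dimensions of the degree parts of quotients of exterior algebras
-/

namespace Pool.Agent.Q14.ExtD

open ExteriorAlgebra Pool.Agent.Results.MP_a0e599_al.Main Pool.Agent.Q14.ExtA Pool.Agent.Q14.ExtB
  Pool.Agent.Q14.ExtC

universe u v

variable {K : Type u} [Field K] {n : ℕ} {V : Type v} [AddCommGroup V] [Module K V]
  {e : Module.Basis (Fin n) K V}

/-- dimension of the degree `j` part of the quotient by the two-sided ideal generated by `f` -/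
noncomputable def hq {r : ℕ} (f : Fin r → ExteriorAlgebra K V) (j : ℕ) : ℕ :=
  Module.finrank K (↥(⋀[K]^j V) ⧸ (TI f).comap (⋀[K]^j V).subtype)

/-- dimension of the degree `j` part of the ideal -/
noncomputable def rho {r : ℕ} (f : Fin r → ExteriorAlgebra K V) (j : ℕ) : ℕ :=
  Module.finrank K ↥(LI f ⊓ ⋀[K]^j V)

lemma hq_add_rho (e : Module.Basis (Fin n) K V) {r : ℕ} {d : Fin r → ℕ}
    {f : Fin r → ExteriorAlgebra K V}
    (hf : ∀ i, f i ∈ ⋀[K]^(d i) V) (j : ℕ) : hq f j + rho f j = n.choose j := by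
  have hfin : Module.Finite K (ExteriorAlgebra K V) := fin_ext e
  unfold hq rho
  rw [TI_eq e f hf]
  have h1 := Submodule.finrank_quotient_add_finrank ((LI f).comap (⋀[K]^j V).subtype)
  rw [finrank_deg e] at h1
  rw [← h1]
  congr 1
  have h2 : Module.finrank K ((Submodule.comap (⋀[K]^j V).subtype (LI f)).map (⋀[K]^j V).subtype) =
      Module.finrank K (Submodule.comap (⋀[K]^j V).subtype (LI f)) :=
    Submodule.finrank_map_subtype_eq _ _
  rw [← h2, Submodule.map_comap_subtype, inf_comm]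

/-- the forms without the last one -/
def ini {α : Type*} {r : ℕ} (f : Fin (r + 1) → α) : Fin r → α := fun i => f i.castSucc

lemma LI_ini_le {r : ℕ} (f : Fin (r + 1) → ExteriorAlgebra K V) : LI (ini f) ≤ LI f := by
  unfold LI
  refine Submodule.span_mono ?_
  rintro z ⟨a, i, rfl⟩
  exact ⟨a, i.castSucc, rfl⟩

/-- multiplication by the last form, modulo the others -/
noncomputable def phi {r : ℕ} (f : Fin (r + 1) → ExteriorAlgebra K V) (s : ℕ) :
    ↥(⋀[K]^s V) →ₗ[K] (ExteriorAlgebra K V ⧸ LI (ini f)) :=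
  (LI (ini f)).mkQ ∘ₗ (LinearMap.mulRight K (f (Fin.last r))) ∘ₗ (⋀[K]^s V).subtype

lemma phi_apply {r : ℕ} (f : Fin (r + 1) → ExteriorAlgebra K V) (s : ℕ) (x : ↥(⋀[K]^s V)) :
    phi f s x = (LI (ini f)).mkQ (x.1 * f (Fin.last r)) := rfl

lemma mem_ker_phi {r : ℕ} (f : Fin (r + 1) → ExteriorAlgebra K V) (s : ℕ) (x : ↥(⋀[K]^s V)) :
    x ∈ LinearMap.ker (phi f s) ↔ x.1 * f (Fin.last r) ∈ LI (ini f) := by
  rw [LinearMap.mem_ker, phi_apply, Submodule.mkQ_apply, Submodule.Quotient.mk_eq_zero]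

lemma decomp (e : Module.Basis (Fin n) K V) {r : ℕ} {d : Fin (r + 1) → ℕ}
    {f : Fin (r + 1) → ExteriorAlgebra K V}
    (hf : ∀ i, f i ∈ ⋀[K]^(d i) V) (j : ℕ) {z : ExteriorAlgebra K V} (hz : z ∈ LI f)
    (hzj : z ∈ ⋀[K]^j V) :
    ∃ w ∈ LI (ini f), ∃ a : ExteriorAlgebra K V, z = w +
      if d (Fin.last r) ≤ j then proj e (j - d (Fin.last r)) a * f (Fin.last r) else 0 := by
  obtain ⟨a, ha⟩ := (mem_LI f z).1 hz
  have h3 := proj_of_mem (e := e) j hzj
  rw [if_pos rfl] at h3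
  have h4 : z = ∑ i, if d i ≤ j then proj e (j - d i) (a i) * f i else 0 := by
    rw [← h3]
    conv_lhs => rw [ha]
    rw [map_sum]
    exact Finset.sum_congr rfl fun i _ => proj_mul j (hf i) _
  rw [Fin.sum_univ_castSucc] at h4
  refine ⟨_, ?_, a (Fin.last r), h4⟩
  refine Submodule.sum_mem _ fun i _ => ?_
  split_ifs
  · exact mul_mem_LI (ini f) _ i
  · exact Submodule.zero_mem _

lemma rho_lt (e : Module.Basis (Fin n) K V) {r : ℕ} {d : Fin (r + 1) → ℕ}
    {f : Fin (r + 1) → ExteriorAlgebra K V}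
    (hf : ∀ i, f i ∈ ⋀[K]^(d i) V) {j : ℕ} (hj : j < d (Fin.last r)) :
    rho f j = rho (ini f) j := by
  unfold rho
  have : LI f ⊓ ⋀[K]^j V = LI (ini f) ⊓ ⋀[K]^j V := by
    apply le_antisymm
    · rintro z ⟨h1, h2⟩
      obtain ⟨w, hw, a, h3⟩ := decomp e hf j h1 h2
      rw [if_neg (by omega), add_zero] at h3
      exact ⟨h3 ▸ hw, h2⟩
    · exact inf_le_inf_right _ (LI_ini_le f)
  rw [this]

lemma rho_add (e : Module.Basis (Fin n) K V) {r : ℕ} {d : Fin (r + 1) → ℕ}
    {f : Fin (r + 1) → ExteriorAlgebra K V}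
    (hf : ∀ i, f i ∈ ⋀[K]^(d i) V) (s : ℕ) :
    rho f (s + d (Fin.last r)) + Module.finrank K (LinearMap.ker (phi f s)) =
      rho (ini f) (s + d (Fin.last r)) + n.choose s := by
  have hfin : Module.Finite K (ExteriorAlgebra K V) := fin_ext e
  let W : Submodule K (ExteriorAlgebra K V) := LI f ⊓ ⋀[K]^(s + d (Fin.last r)) V
  let psi : W →ₗ[K] (ExteriorAlgebra K V ⧸ LI (ini f)) := (LI (ini f)).mkQ ∘ₗ W.subtype
  have h1 := LinearMap.finrank_range_add_finrank_ker (phi f s)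
  rw [finrank_deg e] at h1
  have h2 := LinearMap.finrank_range_add_finrank_ker psi
  have h3 : LinearMap.range (phi f s) = LinearMap.range psi := by
    apply le_antisymm
    · rintro _ ⟨x, rfl⟩
      exact ⟨⟨x.1 * f (Fin.last r), mul_mem_LI f _ _, mul_mem x.2 (hf _)⟩, rfl⟩
    · rintro _ ⟨⟨z, hz1, hz2⟩, rfl⟩
      obtain ⟨w, hw, a, h4⟩ := decomp e hf _ hz1 hz2
      rw [if_pos (by omega), Nat.add_sub_cancel] at h4
      refine ⟨⟨proj e s a, proj_mem s a⟩, ?_⟩
      rw [phi_apply]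
      change _ = (LI (ini f)).mkQ z
      rw [h4, map_add, Submodule.mkQ_apply, Submodule.mkQ_apply,
        (Submodule.Quotient.mk_eq_zero _).2 hw, zero_add]
  have h4 : Module.finrank K (LinearMap.ker psi) = rho (ini f) (s + d (Fin.last r)) := by
    have h5 : LinearMap.ker psi = (LI (ini f)).comap W.subtype := by
      ext x
      rw [LinearMap.mem_ker, Submodule.mem_comap]
      change (LI (ini f)).mkQ x.1 = 0 ↔ x.1 ∈ LI (ini f)
      rw [Submodule.mkQ_apply, Submodule.Quotient.mk_eq_zero]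
    rw [h5, ← Submodule.finrank_map_subtype_eq, Submodule.map_comap_subtype]
    unfold rho
    have h6 : W ⊓ LI (ini f) = LI (ini f) ⊓ ⋀[K]^(s + d (Fin.last r)) V := by
      apply le_antisymm
      · rintro z ⟨⟨-, h7⟩, h8⟩; exact ⟨h8, h7⟩
      · rintro z ⟨h7, h8⟩; exact ⟨⟨LI_ini_le f h7, h8⟩, h7⟩
    rw [h6]
  rw [h3] at h1
  rw [h4] at h2
  change _ = Module.finrank K ↥(LI f ⊓ ⋀[K]^(s + d (Fin.last r)) V) at h2
  unfold rho at h2 ⊢
  omega

lemma rho_comap (e : Module.Basis (Fin n) K V) {r : ℕ} (f : Fin r → ExteriorAlgebra K V) (s : ℕ) :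
    Module.finrank K ((LI f).comap (⋀[K]^s V).subtype) = rho f s := by
  unfold rho
  rw [← Submodule.finrank_map_subtype_eq, Submodule.map_comap_subtype, inf_comm]

lemma ker_ge (e : Module.Basis (Fin n) K V) {r : ℕ} {d : Fin (r + 1) → ℕ}
    {f : Fin (r + 1) → ExteriorAlgebra K V}
    (hf : ∀ i, f i ∈ ⋀[K]^(d i) V) (s : ℕ) :
    rho (ini f) s ≤ Module.finrank K (LinearMap.ker (phi f s)) := by
  have hfin : Module.Finite K (ExteriorAlgebra K V) := fin_ext e
  rw [← rho_comap e]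
  refine Submodule.finrank_mono ?_
  intro x hx
  rw [mem_ker_phi]
  rw [Submodule.mem_comap] at hx
  change x.1 ∈ LI (ini f) at hx
  have h1 := hom_comm e x.2 (hf (Fin.last r))
  rw [h1]
  exact Submodule.smul_mem _ _ (left_mul_LI _ _ hx)

lemma ker_ge_odd (e : Module.Basis (Fin n) K V) (h2 : (2 : K) ≠ 0) {r : ℕ} {d : Fin (r + 1) → ℕ}
    {f : Fin (r + 1) → ExteriorAlgebra K V}
    (hf : ∀ i, f i ∈ ⋀[K]^(d i) V) (hodd : Odd (d (Fin.last r))) (s : ℕ) :
    rho f s ≤ Module.finrank K (LinearMap.ker (phi f s)) := by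
  have hfin : Module.Finite K (ExteriorAlgebra K V) := fin_ext e
  rw [← rho_comap e]
  refine Submodule.finrank_mono ?_
  intro x hx
  rw [mem_ker_phi]
  rw [Submodule.mem_comap] at hx
  change x.1 ∈ LI f at hx
  have h1 := hom_comm e x.2 (hf (Fin.last r))
  rw [h1]
  refine Submodule.smul_mem _ _ ?_
  obtain ⟨a, ha⟩ := (mem_LI f _).1 hx
  rw [ha, Fin.sum_univ_castSucc, mul_add]
  refine Submodule.add_mem _ ?_ ?_
  · exact left_mul_LI _ _ (Submodule.sum_mem _ fun i _ => mul_mem_LI (ini f) _ i)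
  · obtain ⟨b', hb'⟩ := exists_swap' e (hf (Fin.last r)) (a (Fin.last r))
    rw [hb', ← mul_assoc, odd_sq e h2 hodd (hf _), zero_mul]
    exact Submodule.zero_mem _

/-- general lower bound, and equality when the kernel is as small as possible -/
lemma step_even (e : Module.Basis (Fin n) K V) {r : ℕ} {d : Fin (r + 1) → ℕ}
    {f : Fin (r + 1) → ExteriorAlgebra K V}
    (hf : ∀ i, f i ∈ ⋀[K]^(d i) V) (s : ℕ) :
    (hq (ini f) (s + d (Fin.last r)) : ℤ) - hq (ini f) s ≤ hq f (s + d (Fin.last r)) := by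
  have hf' : ∀ i, ini f i ∈ ⋀[K]^(ini d i) V := fun i => hf i.castSucc
  have h1 := hq_add_rho e hf (s + d (Fin.last r))
  have h2 := hq_add_rho e hf' (s + d (Fin.last r))
  have h3 := hq_add_rho e hf' s
  have h4 := rho_add e hf s
  have h5 := ker_ge e hf s
  omega

lemma step_odd (e : Module.Basis (Fin n) K V) (h2 : (2 : K) ≠ 0) {r : ℕ} {d : Fin (r + 1) → ℕ}
    {f : Fin (r + 1) → ExteriorAlgebra K V}
    (hf : ∀ i, f i ∈ ⋀[K]^(d i) V) (hodd : Odd (d (Fin.last r))) (s : ℕ) :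
    (hq (ini f) (s + d (Fin.last r)) : ℤ) - hq f s ≤ hq f (s + d (Fin.last r)) := by
  have hf' : ∀ i, ini f i ∈ ⋀[K]^(ini d i) V := fun i => hf i.castSucc
  have h1 := hq_add_rho e hf (s + d (Fin.last r))
  have h2' := hq_add_rho e hf' (s + d (Fin.last r))
  have h3 := hq_add_rho e hf s
  have h4 := rho_add e hf s
  have h5 := ker_ge_odd e h2 hf hodd s
  omega

lemma step_lt (e : Module.Basis (Fin n) K V) {r : ℕ} {d : Fin (r + 1) → ℕ}
    {f : Fin (r + 1) → ExteriorAlgebra K V}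
    (hf : ∀ i, f i ∈ ⋀[K]^(d i) V) {j : ℕ} (hj : j < d (Fin.last r)) :
    hq f j = hq (ini f) j := by
  have hf' : ∀ i, ini f i ∈ ⋀[K]^(ini d i) V := fun i => hf i.castSucc
  have h1 := hq_add_rho e hf j
  have h2 := hq_add_rho e hf' j
  have h3 := rho_lt e hf hj
  omega

lemma step_even_eq (e : Module.Basis (Fin n) K V) {r : ℕ} {d : Fin (r + 1) → ℕ}
    {f : Fin (r + 1) → ExteriorAlgebra K V}
    (hf : ∀ i, f i ∈ ⋀[K]^(d i) V) (s : ℕ)
    (hker : ∀ x ∈ ⋀[K]^s V, x * f (Fin.last r) ∈ LI (ini f) → x ∈ LI (ini f)) :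
    (hq f (s + d (Fin.last r)) : ℤ) = hq (ini f) (s + d (Fin.last r)) - hq (ini f) s := by
  have hfin : Module.Finite K (ExteriorAlgebra K V) := fin_ext e
  have hf' : ∀ i, ini f i ∈ ⋀[K]^(ini d i) V := fun i => hf i.castSucc
  have h1 := hq_add_rho e hf (s + d (Fin.last r))
  have h2 := hq_add_rho e hf' (s + d (Fin.last r))
  have h3 := hq_add_rho e hf' s
  have h4 := rho_add e hf s
  have h5 := ker_ge e hf s
  have h6 : Module.finrank K (LinearMap.ker (phi f s)) ≤ rho (ini f) s := by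
    rw [← rho_comap e]
    refine Submodule.finrank_mono ?_
    intro x hx
    rw [mem_ker_phi] at hx
    exact hker x.1 x.2 hx
  omega

lemma step_odd_eq (e : Module.Basis (Fin n) K V) (h2 : (2 : K) ≠ 0) {r : ℕ} {d : Fin (r + 1) → ℕ}
    {f : Fin (r + 1) → ExteriorAlgebra K V}
    (hf : ∀ i, f i ∈ ⋀[K]^(d i) V) (hodd : Odd (d (Fin.last r))) (s : ℕ)
    (hker : ∀ x ∈ ⋀[K]^s V, x * f (Fin.last r) ∈ LI (ini f) → x ∈ LI f) :
    (hq f (s + d (Fin.last r)) : ℤ) = hq (ini f) (s + d (Fin.last r)) - hq f s := by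
  have hfin : Module.Finite K (ExteriorAlgebra K V) := fin_ext e
  have hf' : ∀ i, ini f i ∈ ⋀[K]^(ini d i) V := fun i => hf i.castSucc
  have h1 := hq_add_rho e hf (s + d (Fin.last r))
  have h2' := hq_add_rho e hf' (s + d (Fin.last r))
  have h3 := hq_add_rho e hf s
  have h4 := rho_add e hf s
  have h5 := ker_ge_odd e h2 hf hodd s
  have h6 : Module.finrank K (LinearMap.ker (phi f s)) ≤ rho f s := by
    rw [← rho_comap e]
    refine Submodule.finrank_mono ?_
    intro x hx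
    rw [mem_ker_phi] at hx
    exact hker x.1 x.2 hx
  omega

lemma hq_zero (e : Module.Basis (Fin n) K V) (f : Fin 0 → ExteriorAlgebra K V) (j : ℕ) :
    hq f j = n.choose j := by
  have h := hq_add_rho e (d := fun i : Fin 0 => i.elim0) (f := f) (fun i => i.elim0) j
  have h1 : rho f j = 0 := by
    unfold rho
    have : LI f = ⊥ := by
      unfold LI
      rw [Submodule.span_eq_bot]
      rintro z ⟨a, i, -⟩
      exact i.elim0
    rw [this, bot_inf_eq]
    exact finrank_bot K _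
  omega

/-! ## Semicontinuity -/

lemma sc {X Y : Type*} [AddCommGroup X] [Module K X] [AddCommGroup Y] [Module K Y]
    [Module.Finite K X] [Module.Finite K Y] (A B : X →ₗ[K] Y) :
    {μ : K | Module.finrank K (LinearMap.range (A + μ • B)) <
      Module.finrank K (LinearMap.range A)}.Finite := by
  obtain ⟨π, hπ⟩ := (LinearMap.range A).subtype.exists_leftInverse_of_injective
    (Submodule.ker_subtype _)
  obtain ⟨σ, hσ⟩ := (A.rangeRestrict).exists_rightInverse_of_surjective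
    (LinearMap.range_rangeRestrict A)
  let C : Module.End K (LinearMap.range A) := π ∘ₗ B ∘ₗ σ
  have hfin : {ν : K | Module.End.HasEigenvalue C ν}.Finite := Module.End.finite_hasEigenvalue C
  refine Set.Finite.subset (hfin.image fun ν => -ν⁻¹) ?_
  intro μ hμ
  have hμ' : Module.finrank K (LinearMap.range (A + μ • B)) <
      Module.finrank K (LinearMap.range A) := hμ
  -- the composite is not injective
  have hAσ : ∀ w, A (σ w) = w.1 := fun w => congrArg Subtype.val (LinearMap.congr_fun hσ w)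
  have hnot : ¬ Function.Injective (π ∘ₗ (A + μ • B) ∘ₗ σ) := by
    intro hinj
    have h1 : Function.Injective ((A + μ • B).rangeRestrict ∘ₗ σ) := by
      intro a b hab
      apply hinj
      have h2 : (A + μ • B) (σ a) = (A + μ • B) (σ b) := congrArg Subtype.val hab
      change π ((A + μ • B) (σ a)) = π ((A + μ • B) (σ b))
      rw [h2]
    have h3 := LinearMap.finrank_le_finrank_of_injective h1
    omega
  rw [← LinearMap.ker_eq_bot, LinearMap.ker_eq_bot'] at hnot
  push Not at hnot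
  obtain ⟨w, hw1, hw2⟩ := hnot
  have hw3 : w + μ • C w = 0 := by
    have h4 : (π ∘ₗ (A + μ • B) ∘ₗ σ) w = π (A (σ w)) + μ • π (B (σ w)) := by
      simp
    rw [h4, hAσ] at hw1
    have h5 : π w.1 = w := LinearMap.congr_fun hπ w
    rw [h5] at hw1
    exact hw1
  have hμ0 : μ ≠ 0 := by
    rintro rfl
    rw [zero_smul, add_zero] at hw3
    exact hw2 hw3
  refine ⟨-μ⁻¹, ?_, by simp⟩
  refine Module.End.hasEigenvalue_of_hasEigenvector (x := w) ⟨?_, hw2⟩
  rw [Module.End.mem_eigenspace_iff]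
  have h6 : μ • C w = - w := eq_neg_of_add_eq_zero_right hw3
  have h7 : C w = μ⁻¹ • (μ • C w) := by rw [smul_smul, inv_mul_cancel₀ hμ0, one_smul]
  rw [h7, h6, smul_neg, neg_smul]

/-- the line through two tuples -/
def line {r : ℕ} (f g : Fin r → ExteriorAlgebra K V) (μ : K) : Fin r → ExteriorAlgebra K V :=
  fun i => f i + μ • (g i - f i)

lemma line_mem {r : ℕ} {d : Fin r → ℕ} {f g : Fin r → ExteriorAlgebra K V}
    (hf : ∀ i, f i ∈ ⋀[K]^(d i) V) (hg : ∀ i, g i ∈ ⋀[K]^(d i) V) (μ : K) (i : Fin r) :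
    line f g μ i ∈ ⋀[K]^(d i) V :=
  Submodule.add_mem _ (hf i) (Submodule.smul_mem _ _ (Submodule.sub_mem _ (hg i) (hf i)))

lemma line_swap {r : ℕ} (f g : Fin r → ExteriorAlgebra K V) (μ : K) :
    line f g μ = line g f (1 - μ) := by
  funext i
  unfold line
  module

lemma rho_line (e : Module.Basis (Fin n) K V) {r : ℕ} {d : Fin r → ℕ}
    {f g : Fin r → ExteriorAlgebra K V}
    (hf : ∀ i, f i ∈ ⋀[K]^(d i) V) (hg : ∀ i, g i ∈ ⋀[K]^(d i) V) (j : ℕ) :
    {μ : K | rho (line f g μ) j < rho f j}.Finite := by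
  have hfin : Module.Finite K (ExteriorAlgebra K V) := fin_ext e
  have h := sc (gmap e d j f) (gmap e d j (fun i => g i - f i))
  refine h.subset ?_
  intro μ hμ
  have h1 : gmap e d j f + μ • gmap e d j (fun i => g i - f i) = gmap e d j (line f g μ) := by
    refine LinearMap.ext fun a => ?_
    rw [LinearMap.add_apply, LinearMap.smul_apply, gmap_apply, gmap_apply, gmap_apply,
      Finset.smul_sum, ← Finset.sum_add_distrib]
    refine Finset.sum_congr rfl fun i _ => ?_
    unfold line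
    split_ifs
    · rw [mul_add, mul_smul_comm]
    · simp
  change Module.finrank K _ < Module.finrank K _
  rw [h1, gmap_range j hf, gmap_range j (line_mem hf hg μ)]
  exact hμ

lemma rho_line' (e : Module.Basis (Fin n) K V) {r : ℕ} {d : Fin r → ℕ}
    {f g : Fin r → ExteriorAlgebra K V}
    (hf : ∀ i, f i ∈ ⋀[K]^(d i) V) (hg : ∀ i, g i ∈ ⋀[K]^(d i) V) (j : ℕ) :
    {μ : K | rho (line f g μ) j < rho g j}.Finite := by
  have h := rho_line e hg hf j
  have h2 := h.preimage (f := fun μ : K => 1 - μ) (fun a _ b _ hab => by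
    have : (1 : K) - a = 1 - b := hab
    exact sub_right_injective this)
  refine h2.subset ?_
  intro μ hμ
  change rho (line g f (1 - μ)) j < rho g j
  rw [← line_swap]
  exact hμ

/-- a tuple that is at least as general as two given ones -/
lemma combine [Infinite K] (e : Module.Basis (Fin n) K V) {r : ℕ} {d : Fin r → ℕ}
    {f g : Fin r → ExteriorAlgebra K V}
    (hf : ∀ i, f i ∈ ⋀[K]^(d i) V) (hg : ∀ i, g i ∈ ⋀[K]^(d i) V) :
    ∃ h : Fin r → ExteriorAlgebra K V, (∀ i, h i ∈ ⋀[K]^(d i) V) ∧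
      ∀ j, hq h j ≤ hq f j ∧ hq h j ≤ hq g j := by
  have hF : (⋃ j ∈ Finset.range (n + 1), ({μ : K | rho (line f g μ) j < rho f j} ∪
      {μ : K | rho (line f g μ) j < rho g j})).Finite :=
    Set.Finite.biUnion (Finset.finite_toSet _)
      (fun j _ => (rho_line e hf hg j).union (rho_line' e hf hg j))
  obtain ⟨μ, hμ⟩ := hF.exists_notMem
  refine ⟨line f g μ, line_mem hf hg μ, fun j => ?_⟩
  have h1 := hq_add_rho e (line_mem hf hg μ) j
  have h2 := hq_add_rho e hf j
  have h3 := hq_add_rho e hg j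
  by_cases hj : j ∈ Finset.range (n + 1)
  · have h4 : ¬ (rho (line f g μ) j < rho f j ∨ rho (line f g μ) j < rho g j) := by
      intro h5
      apply hμ
      exact Set.mem_biUnion (Finset.mem_coe.2 hj) h5
    omega
  · rw [Finset.mem_range] at hj
    rw [Nat.choose_eq_zero_of_lt (by omega)] at h1 h2 h3
    omega

lemma ini_line {r : ℕ} (f g : Fin (r + 1) → ExteriorAlgebra K V) (μ : K) :
    ini (line f g μ) = line (ini f) (ini g) μ := rfl

lemma combine' [Infinite K] (e : Module.Basis (Fin n) K V) {r : ℕ} {d : Fin (r + 1) → ℕ}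
    {f g : Fin (r + 1) → ExteriorAlgebra K V}
    (hf : ∀ i, f i ∈ ⋀[K]^(d i) V) (hg : ∀ i, g i ∈ ⋀[K]^(d i) V) :
    ∃ h : Fin (r + 1) → ExteriorAlgebra K V, (∀ i, h i ∈ ⋀[K]^(d i) V) ∧
      ∀ j, hq h j ≤ hq f j ∧ hq h j ≤ hq g j ∧ hq (ini h) j ≤ hq (ini g) j := by
  have hf' : ∀ i, ini f i ∈ ⋀[K]^(ini d i) V := fun i => hf i.castSucc
  have hg' : ∀ i, ini g i ∈ ⋀[K]^(ini d i) V := fun i => hg i.castSucc
  have hF : (⋃ j ∈ Finset.range (n + 1), (({μ : K | rho (line f g μ) j < rho f j} ∪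
      {μ : K | rho (line f g μ) j < rho g j}) ∪
      {μ : K | rho (line (ini f) (ini g) μ) j < rho (ini g) j})).Finite :=
    Set.Finite.biUnion (Finset.finite_toSet _)
      (fun j _ => ((rho_line e hf hg j).union (rho_line' e hf hg j)).union
        (rho_line' e hf' hg' j))
  obtain ⟨μ, hμ⟩ := hF.exists_notMem
  refine ⟨line f g μ, line_mem hf hg μ, fun j => ?_⟩
  rw [ini_line]
  have h1 := hq_add_rho e (line_mem hf hg μ) j
  have h2 := hq_add_rho e hf j
  have h3 := hq_add_rho e hg j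
  have h4 := hq_add_rho e (line_mem hf' hg' μ) j
  have h5 := hq_add_rho e hg' j
  by_cases hj : j ∈ Finset.range (n + 1)
  · have h6 : ¬ ((rho (line f g μ) j < rho f j ∨ rho (line f g μ) j < rho g j) ∨
        rho (line (ini f) (ini g) μ) j < rho (ini g) j) := by
      intro h5
      apply hμ
      exact Set.mem_biUnion (Finset.mem_coe.2 hj) h5
    omega
  · rw [Finset.mem_range] at hj
    rw [Nat.choose_eq_zero_of_lt (by omega)] at h1 h2 h3 h4 h5
    omega

end Pool.Agent.Q14.ExtD
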