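import Pool.Agent.Q14.ExtD

set_option autoImplicit false

/-!
# The power series `P(t)` and the special tuples
-/

namespace Pool.Agent.Q14.ExtE

open ExteriorAlgebra PowerSeries Pool.Agent.Results.MP_a0e599_al.Main Pool.Agent.Q14.ExtA
  Pool.Agent.Q14.ExtB Pool.Agent.Q14.ExtC Pool.Agent.Q14.ExtD

/-- `P(t) = ∏ (1 - (-1)^{d_i} t^{d_i})^{(-1)^{d_i}}` -/
noncomputable def PP {r : ℕ} (d : Fin r → ℕ) : PowerSeries ℤ :=
  ∏ i, if Even (d i) then 1 - X ^ (d i) else invOfUnit (1 + X ^ (d i)) 1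

/-- the coefficients of `P(t) (1 + t)^n` -/
noncomputable def cc {r : ℕ} (d : Fin r → ℕ) (n j : ℕ) : ℤ := coeff j (PP d * (1 + X) ^ n)

lemma PP_succ {r : ℕ} (d : Fin (r + 1) → ℕ) :
    PP d = PP (ini d) * (if Even (d (Fin.last r)) then 1 - X ^ (d (Fin.last r)) else
      invOfUnit (1 + X ^ (d (Fin.last r))) 1) := by
  unfold PP
  rw [Fin.prod_univ_castSucc]
  rfl

lemma odd_mul_inv {D : ℕ} (hD : 1 ≤ D) :
    (1 + X ^ D : PowerSeries ℤ) * invOfUnit (1 + X ^ D) 1 = 1 := by
  apply mul_invOfUnit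
  rw [map_add, map_pow, constantCoeff_X, zero_pow (by omega)]
  simp

lemma cc_zero (d : Fin 0 → ℕ) (n j : ℕ) : cc d n j = n.choose j := by
  unfold cc PP
  rw [Finset.univ_eq_empty, Finset.prod_empty, one_mul]
  have h : ((1 + X) ^ n : PowerSeries ℤ) = (((1 + Polynomial.X) ^ n : Polynomial ℤ) : PowerSeries ℤ) := by
    simp
  rw [h, Polynomial.coeff_coe, Polynomial.coeff_one_add_X_pow]

lemma cc_even {r : ℕ} (d : Fin (r + 1) → ℕ) (n s : ℕ) (hev : Even (d (Fin.last r))) :
    cc d n (s + d (Fin.last r)) = cc (ini d) n (s + d (Fin.last r)) - cc (ini d) n s := by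
  unfold cc
  rw [PP_succ, if_pos hev]
  have h : PP (ini d) * (1 - X ^ d (Fin.last r)) * (1 + X) ^ n =
      PP (ini d) * (1 + X) ^ n - X ^ d (Fin.last r) * (PP (ini d) * (1 + X) ^ n) := by ring
  rw [h, map_sub, coeff_X_pow_mul]

lemma cc_odd {r : ℕ} (d : Fin (r + 1) → ℕ) (n s : ℕ) (hodd : Odd (d (Fin.last r))) :
    cc d n (s + d (Fin.last r)) = cc (ini d) n (s + d (Fin.last r)) - cc d n s := by
  unfold cc
  have h1 := odd_mul_inv (D := d (Fin.last r)) hodd.pos
  have h : PP (ini d) * (1 + X) ^ n = PP d * (1 + X) ^ n + X ^ d (Fin.last r) *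
      (PP d * (1 + X) ^ n) := by
    rw [PP_succ, if_neg (Nat.not_even_iff_odd.2 hodd)]
    linear_combination (-(PP (ini d) * (1 + X) ^ n)) * h1
  rw [h, map_add, coeff_X_pow_mul]
  ring

lemma cc_lt {r : ℕ} (d : Fin (r + 1) → ℕ) (n : ℕ) {j : ℕ} (hj : j < d (Fin.last r)) :
    cc d n j = cc (ini d) n j := by
  by_cases hev : Even (d (Fin.last r))
  · unfold cc
    rw [PP_succ, if_pos hev]
    have h : PP (ini d) * (1 - X ^ d (Fin.last r)) * (1 + X) ^ n =
        PP (ini d) * (1 + X) ^ n - X ^ d (Fin.last r) * (PP (ini d) * (1 + X) ^ n) := by ring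
    rw [h, map_sub, coeff_X_pow_mul', if_neg (by omega), sub_zero]
  · have hodd := Nat.not_even_iff_odd.1 hev
    unfold cc
    have h1 := odd_mul_inv (D := d (Fin.last r)) hodd.pos
    have h : PP (ini d) * (1 + X) ^ n = PP d * (1 + X) ^ n + X ^ d (Fin.last r) *
        (PP d * (1 + X) ^ n) := by
      rw [PP_succ, if_neg (Nat.not_even_iff_odd.2 hodd)]
      linear_combination (-(PP (ini d) * (1 + X) ^ n)) * h1
    rw [h, map_add, coeff_X_pow_mul', if_neg (by omega), add_zero]

universe u v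

variable {K : Type u} [Field K] {n : ℕ} {V : Type v} [AddCommGroup V] [Module K V]
  {e : Module.Basis (Fin n) K V}

lemma two_ne [CharZero K] : (2 : K) ≠ 0 := by norm_num

/-- the quotient by a special tuple has the expected dimensions -/
theorem special_hq [CharZero K] (e : Module.Basis (Fin n) K V) {N : ℕ} : ∀ {r : ℕ} {d : Fin r → ℕ}
    (T : Fin r → Fin N → Finset (Fin n)) (_ : ∀ i, 1 ≤ d i) (_ : ∀ i b, (T i b).card = d i)
    (_ : ∀ i b i' b', (i, b) ≠ (i', b') → Disjoint (T i b) (T i' b')) (j : ℕ)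
    (_ : 2 * j + 1 ≤ N), (hq (fun i => bsum e (T i)) j : ℤ) = cc d n j := by
  intro r
  induction r with
  | zero =>
    intro d T _ _ _ j _
    rw [hq_zero e, cc_zero]
  | succ r ih =>
    intro d T hd1 hT hdis j hj
    have hf : ∀ i, bsum e (T i) ∈ ⋀[K]^(d i) V := fun i => bsum_mem T hT i
    have ih' : ∀ j, 2 * j + 1 ≤ N →
        (hq (ini fun i => bsum e (T i)) j : ℤ) = cc (ini d) n j := fun j hj =>
      ih (d := ini d) (fun i => T i.castSucc) (fun i => hd1 i.castSucc) (fun i => hT i.castSucc)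
        (fun i b i' b' h => hdis _ _ _ _ (fun h' => h (by
          rw [Prod.mk.injEq] at h' ⊢
          exact ⟨Fin.castSucc_injective _ h'.1, h'.2⟩))) j hj
    induction j using Nat.strong_induction_on with
    | _ j ihj =>
      by_cases hjD : j < d (Fin.last r)
      · rw [step_lt e hf hjD, cc_lt d n hjD]
        exact ih' j hj
      · obtain ⟨s, rfl⟩ : ∃ s, j = s + d (Fin.last r) := ⟨j - d (Fin.last r), by omega⟩
        have hDpos := hd1 (Fin.last r)
        by_cases hev : Even (d (Fin.last r))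
        · have hk : ∀ x ∈ ⋀[K]^s V, x * bsum e (T (Fin.last r)) ∈
              LI (ini fun i => bsum e (T i)) → x ∈ LI (ini fun i => bsum e (T i)) := by
            intro x hx h
            exact special_even hd1 T hT hdis hev (by omega) hx h
          rw [step_even_eq e hf s hk, cc_even d n s hev, ih' _ hj, ih' s (by omega)]
        · have hodd := Nat.not_even_iff_odd.1 hev
          have hk : ∀ x ∈ ⋀[K]^s V, x * bsum e (T (Fin.last r)) ∈
              LI (ini fun i => bsum e (T i)) → x ∈ LI (fun i => bsum e (T i)) := by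
            intro x hx h
            exact special_odd T hT hdis hodd (by omega) hx h
          rw [step_odd_eq e two_ne hf hodd s hk, cc_odd d n s hodd, ih' _ hj,
            ihj s (by omega) (by omega)]

/-- all tuples have quotients at least as large as expected -/
theorem lower_bound [CharZero K] (e : Module.Basis (Fin n) K V) {N : ℕ} : ∀ {r : ℕ}
    {d : Fin r → ℕ}
    (T : Fin r → Fin N → Finset (Fin n)) (_ : ∀ i, 1 ≤ d i) (_ : ∀ i b, (T i b).card = d i)
    (_ : ∀ i b i' b', (i, b) ≠ (i', b') → Disjoint (T i b) (T i' b'))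
    (f : Fin r → ExteriorAlgebra K V) (_ : ∀ i, f i ∈ ⋀[K]^(d i) V) (j : ℕ)
    (_ : 2 * j + 1 ≤ N), cc d n j ≤ (hq f j : ℤ) := by
  intro r
  induction r with
  | zero =>
    intro d T _ _ _ f _ j _
    rw [hq_zero e, cc_zero]
  | succ r ih =>
    intro d T hd1 hT hdis f hf j hj
    have hinf : Infinite K := CharZero.infinite K
    have hg : ∀ i, bsum e (T i) ∈ ⋀[K]^(d i) V := fun i => bsum_mem T hT i
    have hdis' : ∀ (i : Fin r) b (i' : Fin r) b', (i, b) ≠ (i', b') →
        Disjoint (T i.castSucc b) (T i'.castSucc b') :=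
      (fun i b i' b' h => hdis _ _ _ _ (fun h' => h (by
          rw [Prod.mk.injEq] at h' ⊢
          exact ⟨Fin.castSucc_injective _ h'.1, h'.2⟩)))
    obtain ⟨h, hh, hcomp⟩ := combine' e hf hg
    have hh' : ∀ i, ini h i ∈ ⋀[K]^(ini d i) V := fun i => hh i.castSucc
    have h1 : ∀ j, 2 * j + 1 ≤ N → (hq (ini h) j : ℤ) = cc (ini d) n j := by
      intro j hj
      apply le_antisymm
      · rw [← special_hq e (d := ini d) (fun i => T i.castSucc) (fun i => hd1 i.castSucc)
          (fun i => hT i.castSucc) hdis' j hj]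
        exact_mod_cast (hcomp j).2.2
      · exact ih (fun i => T i.castSucc) (fun i => hd1 i.castSucc)
          (fun i => hT i.castSucc) hdis' (ini h) hh' j hj
    have h2 : ∀ j, 2 * j + 1 ≤ N → (hq h j : ℤ) ≤ cc d n j := by
      intro j hj
      rw [← special_hq e T hd1 hT hdis j hj]
      exact_mod_cast (hcomp j).2.1
    refine le_trans ?_ (Nat.cast_le.2 (hcomp j).1)
    by_cases hjD : j < d (Fin.last r)
    · rw [step_lt e hh hjD, cc_lt d n hjD, h1 j hj]
    · obtain ⟨s, rfl⟩ : ∃ s, j = s + d (Fin.last r) := ⟨j - d (Fin.last r), by omega⟩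
      have hDpos := hd1 (Fin.last r)
      by_cases hev : Even (d (Fin.last r))
      · rw [cc_even d n s hev, ← h1 _ hj, ← h1 s (by omega)]
        exact step_even e hh s
      · have hodd := Nat.not_even_iff_odd.1 hev
        have h3 := step_odd e two_ne hh hodd s
        have h4 := h2 s (by omega)
        rw [cc_odd d n s hodd, ← h1 _ hj]
        linarith

/-- disjoint blocks -/
lemma exists_blocks {r : ℕ} (d : Fin r → ℕ) (N n : ℕ) (hn : r * N * (∑ i, d i) ≤ n) :
    ∃ T : Fin r → Fin N → Finset (Fin n), (∀ i b, (T i b).card = d i) ∧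
      ∀ i b i' b', (i, b) ≠ (i', b') → Disjoint (T i b) (T i' b') := by
  have h : ∀ (i : Fin r) (b : Fin N), ∃ S : Finset (Fin n),
      S ⊆ block n (r * N) (∑ i, d i) hn (finProdFinEquiv (i, b)) ∧ S.card = d i := by
    intro i b
    apply Finset.exists_subset_card_eq
    rw [block_card]
    exact Finset.single_le_sum (f := d) (fun _ _ => Nat.zero_le _) (Finset.mem_univ i)
  choose T hT using h
  refine ⟨T, fun i b => (hT i b).2, fun i b i' b' hne => ?_⟩
  refine Finset.disjoint_of_subset_left (hT i b).1 (Finset.disjoint_of_subset_right (hT i' b').1 ?_)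
  refine block_disjoint _ _ _ _ _ _ ?_
  intro h
  exact hne (finProdFinEquiv.injective h)

/-- `f` consists of forms of the prescribed degrees -/
def IsForms {r : ℕ} (d : Fin r → ℕ) (f : Fin r → ExteriorAlgebra K V) : Prop :=
  ∀ i, f i ∈ ⋀[K]^(d i) V

/-- `f` is generic: every graded piece of the quotient has its minimal dimension -/
def IsGeneric {r : ℕ} (d : Fin r → ℕ) (f : Fin r → ExteriorAlgebra K V) : Prop :=
  IsForms d f ∧ ∀ g : Fin r → ExteriorAlgebra K V, IsForms d g → ∀ k, hq f k ≤ hq g k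

lemma exists_generic [Infinite K] (e : Module.Basis (Fin n) K V) {r : ℕ} (d : Fin r → ℕ) :
    ∃ f : Fin r → ExteriorAlgebra K V, IsGeneric d f := by
  let w : {f : Fin r → ExteriorAlgebra K V // IsForms d f} → ℕ := fun f =>
    ∑ j ∈ Finset.range (n + 1), hq f.1 j
  have hne : Nonempty {f : Fin r → ExteriorAlgebra K V // IsForms d f} :=
    ⟨⟨fun _ => 0, fun i => Submodule.zero_mem _⟩⟩
  obtain ⟨⟨f, hf⟩, hmin⟩ : ∃ f, ∀ g, w f ≤ w g := by
    obtain ⟨m, hm⟩ := Nat.sInf_mem (Set.range_nonempty w)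
    exact ⟨m, fun g => hm ▸ Nat.sInf_le ⟨g, rfl⟩⟩
  refine ⟨f, hf, fun g hg k => ?_⟩
  obtain ⟨h, hh, hcomp⟩ := combine e hf hg
  have h1 : w ⟨f, hf⟩ ≤ w ⟨h, hh⟩ := hmin _
  have h2 : ∀ j ∈ Finset.range (n + 1), hq h j ≤ hq f j := fun j _ => (hcomp j).1
  have h3 := Finset.sum_le_sum h2
  have h4 : ∑ j ∈ Finset.range (n + 1), hq h j = ∑ j ∈ Finset.range (n + 1), hq f j :=
    le_antisymm h3 h1
  have h5 := (Finset.sum_eq_sum_iff_of_le h2).1 h4
  by_cases hk : k ∈ Finset.range (n + 1)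
  · rw [← h5 k hk]; exact (hcomp k).2
  · have h6 := hq_add_rho e hf k
    rw [Finset.mem_range] at hk
    rw [Nat.choose_eq_zero_of_lt (by omega)] at h6
    omega

end Pool.Agent.Q14.ExtE
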