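import Mathlib
import Pool.Agent.Q14.Kos

/-!
Golod rings: definitions, and the rings `k + X C[X]` for a finite dimensional `k`-algebra `C`.
-/

set_option autoImplicit false

namespace Pool.Agent.Q14.Golod

open Finset Pool.Agent.H677R3.EdgeReg Pool.Agent.Q14.Kos

universe u

/-! ### Definitions -/

section Defs

/-- A minimal free resolution `⋯ → R^{ι 2} → R^{ι 1} → R^{ι 0} → R/𝔪 → 0` of `R/𝔪`: the
sequence is exact and all the entries of the maps `d n` lie in `𝔪`. -/
structure MinRes (R : Type u) [CommRing R] (𝔪 : Ideal R) where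
  /-- the index type of the basis of the `n`-th free module -/
  ι : ℕ → Type
  /-- the bases are finite -/
  fin : ∀ n, Finite (ι n)
  /-- the augmentation -/
  aug : (ι 0 → R) →ₗ[R] (R ⧸ 𝔪)
  /-- the differentials -/
  d : ∀ n, (ι (n + 1) → R) →ₗ[R] (ι n → R)
  aug_surj : Function.Surjective aug
  exact_aug : Function.Exact (d 0) aug
  exact_d : ∀ n, Function.Exact (d (n + 1)) (d n)
  minimal : ∀ n x i, d n x i ∈ 𝔪

variable {r : ℕ} (k : Type*) [Field k] {R : Type*} [CommRing R] [Algebra k R]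

/-- The cycles of degree `j` of the Koszul complex of `a_1,…,a_r` in `R`. A chain of degree `j` is
a family `f T ∈ R` (`T ⊆ {1,…,r}`) with `f T = 0` unless `|T| = j`. -/
def koszulZ (a : Fin r → R) (j : ℕ) : Submodule k (Finset (Fin r) → R) where
  carrier := {f | (∀ T, T.card ≠ j → f T = 0) ∧
    ∀ T, ∑ v ∈ Tᶜ, (-1) ^ (T.filter (· < v)).card * (a v * f (insert v T)) = 0}
  add_mem' {f g} hf hg := by
    refine ⟨fun T hT => by rw [Pi.add_apply, hf.1 T hT, hg.1 T hT, add_zero], fun T => ?_⟩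
    simp only [Pi.add_apply, mul_add, Finset.sum_add_distrib]
    rw [hf.2 T, hg.2 T, add_zero]
  zero_mem' := by
    refine ⟨fun _ _ => rfl, fun T => ?_⟩
    simp
  smul_mem' c f hf := by
    refine ⟨fun T hT => by rw [Pi.smul_apply, hf.1 T hT, smul_zero], fun T => ?_⟩
    simp only [Pi.smul_apply, mul_smul_comm, ← Finset.smul_sum]
    rw [hf.2 T, smul_zero]

/-- The boundaries of degree `j` of the Koszul complex of `a_1,…,a_r` in `R`. -/
def koszulB (a : Fin r → R) (j : ℕ) : Submodule k (Finset (Fin r) → R) where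
  carrier := {f | ∃ g : Finset (Fin r) → R, (∀ T, T.card ≠ j + 1 → g T = 0) ∧
    ∀ T, ∑ v ∈ Tᶜ, (-1) ^ (T.filter (· < v)).card * (a v * g (insert v T)) = f T}
  add_mem' := by
    rintro f f' ⟨g, h1, h2⟩ ⟨g', h1', h2'⟩
    refine ⟨g + g', fun T hT => by rw [Pi.add_apply, h1 T hT, h1' T hT, add_zero], fun T => ?_⟩
    simp only [Pi.add_apply, mul_add, Finset.sum_add_distrib]
    rw [h2 T, h2' T]
  zero_mem' := by
    refine ⟨0, fun _ _ => rfl, fun T => ?_⟩
    simp
  smul_mem' := by
    rintro c f ⟨g, h1, h2⟩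
    refine ⟨c • g, fun T hT => by rw [Pi.smul_apply, h1 T hT, smul_zero], fun T => ?_⟩
    simp only [Pi.smul_apply, mul_smul_comm, ← Finset.smul_sum]
    rw [h2 T]

/-- `dim_k H_j` of the Koszul complex of `a_1,…,a_r` in `R`. -/
noncomputable def koszulDim (a : Fin r → R) (j : ℕ) : ℕ :=
  Module.finrank k (koszulZ k a j ⧸ (koszulB k a j).comap (koszulZ k a j).subtype)

variable {k} in
/-- The ring `k[x_1,…,x_r]/J` is Golod: with `P = Σ_n (rank of the n-th module in a minimal free
resolution of k) z^n` and `h_j` the dimension of the `j`-th Koszul homology module,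
`P · (1 - Σ_{j ≥ 1} h_j z^{j+1}) = (1+z)^r`. -/
def IsGolod (J : Ideal (MvPolynomial (Fin r) k)) : Prop :=
  ∃ F : MinRes (MvPolynomial (Fin r) k ⧸ J)
      (Ideal.span (Set.range fun i => Ideal.Quotient.mk J (MvPolynomial.X i))),
    (PowerSeries.mk fun n => (Nat.card (F.ι n) : ℤ)) *
      (1 - ∑ j ∈ Finset.Icc 1 r,
        PowerSeries.monomial (j + 1)
          (koszulDim k (fun i => Ideal.Quotient.mk J (MvPolynomial.X i)) j : ℤ)) =
      (1 + PowerSeries.X) ^ r

end Defs

end Pool.Agent.Q14.Golod
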