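import Mathlib
import Pool.Agent.Q14.Golod

/-!
The rings `k + X C[X]` for a finite dimensional `k`-algebra `C`: minimal resolution of the
residue field and Koszul homology.
-/

set_option autoImplicit false

namespace Pool.Agent.Q14.Golod

open Finset Pool.Agent.H677R3.EdgeReg Pool.Agent.Q14.Kos

section Basics

variable {k : Type*} [Field k] {C : Type*} [CommRing C] [Algebra k C]
variable {R : Type*} [CommRing R] [Algebra k R]
variable {q : ℕ}

/-- data: a ring `R` embedded in `C[X]` with `a i ↦ X γ_i`, constant terms in `k` -/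
structure Emb (γ : Module.Basis (Fin (q + 1)) k C) (a : Fin (q + 1) → R)
    (φ : R →ₐ[k] Polynomial C) : Prop where
  inj : Function.Injective φ
  ha : ∀ i, φ (a i) = Polynomial.X * Polynomial.C (γ i)
  h0 : ∀ x, ∃ c : k, (φ x).coeff 0 = algebraMap k C c

variable {γ : Module.Basis (Fin (q + 1)) k C} {a : Fin (q + 1) → R} {φ : R →ₐ[k] Polynomial C}

lemma Emb.exists_e (h : Emb γ a φ) : ∃ e : R, φ e = Polynomial.X := by
  refine ⟨∑ i, γ.repr 1 i • a i, ?_⟩
  rw [map_sum]
  simp_rw [map_smul, h.ha]
  have : ∀ i, γ.repr 1 i • (Polynomial.X * Polynomial.C (γ i) : Polynomial C) =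
      Polynomial.X * Polynomial.C (γ.repr 1 i • γ i) := by
    intro i
    rw [← Polynomial.smul_C, mul_smul_comm]
  simp_rw [this]
  rw [← Finset.mul_sum, ← map_sum, γ.sum_repr, map_one, mul_one]

lemma Emb.decomp (h : Emb γ a φ) (δ : Module.Basis (Fin (q + 1)) k C) (g : Polynomial C) :
    ∃ x : Fin (q + 1) → R, ∑ c, φ (x c) * Polynomial.C (δ c) = g := by
  obtain ⟨e, he⟩ := h.exists_e
  induction g using Polynomial.induction_on' with
  | add p p' hp hp' =>
    obtain ⟨x, hx⟩ := hp
    obtain ⟨x', hx'⟩ := hp'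
    refine ⟨fun c => x c + x' c, ?_⟩
    simp_rw [map_add, add_mul]
    rw [Finset.sum_add_distrib, hx, hx']
  | monomial n c =>
    refine ⟨fun i => δ.repr c i • e ^ n, ?_⟩
    simp_rw [map_smul, map_pow, he]
    have : ∀ i, (δ.repr c i • (Polynomial.X : Polynomial C) ^ n) * Polynomial.C (δ i) =
        Polynomial.C (δ.repr c i • δ i) * Polynomial.X ^ n := by
      intro i
      rw [← Polynomial.smul_C, smul_mul_assoc, smul_mul_assoc, mul_comm]
    simp_rw [this]
    rw [← Finset.sum_mul, ← map_sum, δ.sum_repr, Polynomial.C_mul_X_pow_eq_monomial]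

lemma Emb.exists_lift (h : Emb γ a φ) (g : Polynomial C) :
    ∃ x ∈ Ideal.span (Set.range a), φ x = Polynomial.X * g := by
  obtain ⟨x, hx⟩ := h.decomp γ g
  refine ⟨∑ c, x c * a c, ?_, ?_⟩
  · exact Ideal.sum_mem _ fun c _ => Ideal.mul_mem_left _ _ (Ideal.subset_span ⟨c, rfl⟩)
  · rw [map_sum, ← hx, Finset.mul_sum]
    refine Finset.sum_congr rfl fun c _ => ?_
    rw [map_mul, h.ha]
    ring

lemma Emb.mem_iff (h : Emb γ a φ) (x : R) :
    x ∈ Ideal.span (Set.range a) ↔ (φ x).coeff 0 = 0 := by
  constructor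
  · intro hx
    have : Ideal.span (Set.range a) ≤
        Ideal.comap ((Polynomial.constantCoeff : Polynomial C →+* C).comp φ.toRingHom) ⊥ := by
      rw [Ideal.span_le]
      rintro _ ⟨i, rfl⟩
      change Polynomial.constantCoeff (φ (a i)) = 0
      rw [h.ha, Polynomial.constantCoeff_apply, Polynomial.mul_coeff_zero, Polynomial.coeff_X_zero,
        zero_mul]
    exact this hx
  · intro hx
    obtain ⟨y, hy, hy'⟩ := h.exists_lift (φ x).divX
    have h1 : φ y = φ x := by
      rw [hy']
      conv_rhs => rw [← Polynomial.X_mul_divX_add (φ x), hx, map_zero, add_zero]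
    rw [← h.inj h1]
    exact hy

/-- lifting -/
noncomputable def Emb.lft (h : Emb γ a φ) (g : Polynomial C) : Ideal.span (Set.range a) :=
  ⟨(h.exists_lift g).choose, (h.exists_lift g).choose_spec.1⟩

lemma Emb.phi_lft (h : Emb γ a φ) (g : Polynomial C) : φ (h.lft g : R) = Polynomial.X * g :=
  (h.exists_lift g).choose_spec.2

lemma Emb.ext (h : Emb γ a φ) {x y : Ideal.span (Set.range a)} (hxy : φ (x : R) = φ (y : R)) :
    x = y := Subtype.ext (h.inj hxy)

lemma Emb.phi_eq (h : Emb γ a φ) (x : Ideal.span (Set.range a)) :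
    φ (x : R) = Polynomial.X * (φ (x : R)).divX := by
  conv_lhs => rw [← Polynomial.X_mul_divX_add (φ (x : R)), (h.mem_iff _).1 x.2, map_zero, add_zero]

/-- multiplication by `δ ∈ C` on the maximal ideal -/
noncomputable def Emb.act (h : Emb γ a φ) (δ : C) :
    Ideal.span (Set.range a) →ₗ[R] Ideal.span (Set.range a) where
  toFun x := h.lft (Polynomial.C δ * (φ (x : R)).divX)
  map_add' x y := by
    apply h.ext
    have h1 : ∀ z : Ideal.span (Set.range a),
        φ (h.lft (Polynomial.C δ * (φ (z : R)).divX) : R) = Polynomial.C δ * φ (z : R) := by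
      intro z
      rw [h.phi_lft, mul_left_comm, ← h.phi_eq]
    rw [h1, Submodule.coe_add, map_add, Submodule.coe_add, map_add, h1, h1, mul_add]
  map_smul' c x := by
    apply h.ext
    have h1 : ∀ z : Ideal.span (Set.range a),
        φ (h.lft (Polynomial.C δ * (φ (z : R)).divX) : R) = Polynomial.C δ * φ (z : R) := by
      intro z
      rw [h.phi_lft, mul_left_comm, ← h.phi_eq]
    rw [h1, RingHom.id_apply, Submodule.coe_smul, Submodule.coe_smul, smul_eq_mul, smul_eq_mul,
      map_mul, map_mul, h1, mul_left_comm]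

lemma Emb.phi_act (h : Emb γ a φ) (δ : C) (x : Ideal.span (Set.range a)) :
    φ (h.act δ x : R) = Polynomial.C δ * φ (x : R) := by
  change φ (h.lft _ : R) = _
  rw [h.phi_lft, mul_left_comm, ← h.phi_eq]

/-- the index types of the syzygies -/
def kap (q : ℕ) : ℕ → Type
  | 0 => Unit
  | n + 1 => Fin q × kap q n

/-- the index types of the resolution -/
def idx (q : ℕ) : ℕ → Type
  | 0 => Unit
  | n + 1 => Fin (q + 1) × kap q n

instance kapFin (q n : ℕ) : Finite (kap q n) := by
  induction n with
  | zero => exact (inferInstance : Finite Unit)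
  | succ n ih => exact (inferInstance : Finite (Fin q × kap q n))

instance idxFin (q n : ℕ) : Finite (idx q n) := by
  cases n with
  | zero => exact (inferInstance : Finite Unit)
  | succ n => exact (inferInstance : Finite (Fin (q + 1) × kap q n))

lemma card_kap (q n : ℕ) : Nat.card (kap q n) = q ^ n := by
  induction n with
  | zero =>
    change Nat.card Unit = _
    rw [Nat.card_unique, pow_zero]
  | succ n ih =>
    have : Nat.card (kap q (n + 1)) = Nat.card (Fin q × kap q n) := rfl
    rw [this, Nat.card_prod, ih, Nat.card_fin, pow_succ']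

lemma card_idx (q n : ℕ) : Nat.card (idx q (n + 1)) = (q + 1) * q ^ n := by
  have : Nat.card (idx q (n + 1)) = Nat.card (Fin (q + 1) × kap q n) := rfl
  rw [this, Nat.card_prod, card_kap, Nat.card_fin]

/-- the cover -/
noncomputable def Emb.cov (h : Emb γ a φ) (δ : Fin (q + 1) → C) (ι : Type) :
    (Fin (q + 1) × ι → R) →ₗ[R] (ι → Ideal.span (Set.range a)) where
  toFun x := fun i => ∑ c, x (c, i) • h.lft (Polynomial.C (δ c))
  map_add' x y := by
    funext i
    simp only [Pi.add_apply, add_smul, Finset.sum_add_distrib]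
  map_smul' c x := by
    funext i
    simp only [Pi.smul_apply, smul_assoc, Finset.smul_sum, RingHom.id_apply]

/-- the kernel of the cover -/
noncomputable def Emb.par (h : Emb γ a φ) (δ : Fin (q + 1) → C) (ι : Type) :
    (Fin q × ι → Ideal.span (Set.range a)) →ₗ[R] (Fin (q + 1) × ι → R) where
  toFun w := fun p => Fin.cases (-∑ c : Fin q, (h.act (δ c.succ) (w (c, p.2)) : R))
    (fun c => (w (c, p.2) : R)) p.1
  map_add' x y := by
    funext ⟨c, i⟩
    refine Fin.cases ?_ (fun c => ?_) c
    · simp only [Fin.cases_zero, Pi.add_apply, map_add, Submodule.coe_add,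
        Finset.sum_add_distrib, neg_add]
    · simp only [Fin.cases_succ, Pi.add_apply, Submodule.coe_add]
  map_smul' s x := by
    funext ⟨c, i⟩
    refine Fin.cases ?_ (fun c => ?_) c
    · simp only [Fin.cases_zero, Pi.smul_apply, map_smul, Submodule.coe_smul, RingHom.id_apply,
        smul_neg, Finset.smul_sum]
    · simp only [Fin.cases_succ, Pi.smul_apply, Submodule.coe_smul, RingHom.id_apply]

lemma Emb.par_zero (h : Emb γ a φ) (δ : Fin (q + 1) → C) (ι : Type)
    (w : Fin q × ι → Ideal.span (Set.range a)) (i : ι) :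
    h.par δ ι w (0, i) = -∑ c : Fin q, (h.act (δ c.succ) (w (c, i)) : R) := rfl

lemma Emb.par_succ (h : Emb γ a φ) (δ : Fin (q + 1) → C) (ι : Type)
    (w : Fin q × ι → Ideal.span (Set.range a)) (i : ι) (c : Fin q) :
    h.par δ ι w (c.succ, i) = (w (c, i) : R) := rfl

lemma Emb.par_inj (h : Emb γ a φ) (δ : Fin (q + 1) → C) (ι : Type) :
    Function.Injective (h.par δ ι) := by
  intro w w' hw
  funext ⟨c, i⟩
  apply Subtype.ext
  rw [← h.par_succ δ ι w i c, ← h.par_succ δ ι w' i c, hw]

lemma Emb.par_mem (h : Emb γ a φ) (δ : Fin (q + 1) → C) (ι : Type)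
    (w : Fin q × ι → Ideal.span (Set.range a)) (p : Fin (q + 1) × ι) :
    h.par δ ι w p ∈ Ideal.span (Set.range a) := by
  obtain ⟨c, i⟩ := p
  refine Fin.cases ?_ (fun c => ?_) c
  · rw [h.par_zero]
    exact neg_mem (Ideal.sum_mem _ fun c _ => Subtype.prop _)
  · rw [h.par_succ]
    exact Subtype.prop _

lemma Emb.cov_surj (h : Emb γ a φ) (δ : Module.Basis (Fin (q + 1)) k C) (ι : Type) :
    Function.Surjective (h.cov δ ι) := by
  intro z
  choose x hx using fun i => h.decomp δ (φ (z i : R)).divX
  refine ⟨fun p => x p.2 p.1, ?_⟩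
  funext i
  apply h.ext
  change φ ((∑ c, x i c • h.lft (Polynomial.C (δ c)) : Ideal.span (Set.range a)) : R) = _
  rw [Submodule.coe_sum, map_sum, h.phi_eq (z i), ← hx i, Finset.mul_sum]
  refine Finset.sum_congr rfl fun c _ => ?_
  rw [Submodule.coe_smul, smul_eq_mul, map_mul, h.phi_lft]
  ring

lemma Emb.phi_cov (h : Emb γ a φ) (δ : Fin (q + 1) → C) (ι : Type) (x : Fin (q + 1) × ι → R)
    (i : ι) : φ (h.cov δ ι x i : R) =
      Polynomial.X * ∑ c, φ (x (c, i)) * Polynomial.C (δ c) := by
  change φ ((∑ c, x (c, i) • h.lft (Polynomial.C (δ c)) : Ideal.span (Set.range a)) : R) = _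
  rw [Submodule.coe_sum, map_sum, Finset.mul_sum]
  refine Finset.sum_congr rfl fun c _ => ?_
  rw [Submodule.coe_smul, smul_eq_mul, map_mul, h.phi_lft]
  ring

lemma X_mul_cancel {f : Polynomial C} (hf : Polynomial.X * f = 0) : f = 0 := by
  ext n
  have := congrArg (fun p => Polynomial.coeff p (n + 1)) hf
  simpa [Polynomial.coeff_X_mul] using this

lemma Emb.cov_eq_zero_iff (h : Emb γ a φ) (δ : Module.Basis (Fin (q + 1)) k C) (hδ : δ 0 = 1)
    (ι : Type) (x : Fin (q + 1) × ι → R) :
    h.cov δ ι x = 0 ↔ x ∈ Set.range (h.par δ ι) := by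
  constructor
  · intro hx
    have h1 : ∀ i, ∑ c, φ (x (c, i)) * Polynomial.C (δ c) = 0 := by
      intro i
      apply X_mul_cancel
      rw [← h.phi_cov, hx]
      simp
    have h2 : ∀ c i, x (c, i) ∈ Ideal.span (Set.range a) := by
      intro c i
      choose s hs using fun c => h.h0 (x (c, i))
      have h3 : ∑ c, s c • δ c = 0 := by
        have := congrArg (fun p => Polynomial.coeff p 0) (h1 i)
        simp only [Polynomial.finsetSum_coeff, Polynomial.coeff_mul_C, hs,
          Polynomial.coeff_zero] at this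
        rw [← this]
        exact Finset.sum_congr rfl fun c _ => Algebra.smul_def _ _
      have h4 := Fintype.linearIndependent_iff.1 δ.linearIndependent s h3 c
      rw [h.mem_iff, hs, h4, map_zero]
    refine ⟨fun p => ⟨x (p.1.succ, p.2), h2 _ _⟩, ?_⟩
    funext ⟨c, i⟩
    refine Fin.cases ?_ (fun c => ?_) c
    · rw [h.par_zero]
      apply h.inj
      rw [map_neg, map_sum]
      simp_rw [h.phi_act]
      have := h1 i
      rw [Fin.sum_univ_succ, hδ, map_one, mul_one] at this
      rw [eq_neg_of_add_eq_zero_left this]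
      congr 1
      exact Finset.sum_congr rfl fun c _ => mul_comm _ _
    · rw [h.par_succ]
  · rintro ⟨w, rfl⟩
    funext i
    apply h.ext
    rw [h.phi_cov, Fin.sum_univ_succ, hδ, h.par_zero]
    simp_rw [h.par_succ]
    rw [map_neg, map_sum, map_one, mul_one]
    simp_rw [h.phi_act]
    have : ∀ c : Fin q, φ (w (c, i) : R) * Polynomial.C (δ c.succ) =
        Polynomial.C (δ c.succ) * φ (w (c, i) : R) := fun c => mul_comm _ _
    simp_rw [this]
    rw [neg_add_cancel, mul_zero]
    simp

/-- the differentials -/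
noncomputable def Emb.dif (h : Emb γ a φ) (δ : Fin (q + 1) → C) :
    ∀ n, (idx q (n + 1) → R) →ₗ[R] (idx q n → R)
  | 0 => LinearMap.pi fun _ =>
      (Submodule.subtype _).comp ((LinearMap.proj ()).comp (h.cov δ Unit))
  | n + 1 => (h.par δ (kap q n)).comp (h.cov δ (kap q (n + 1)))

/-- the minimal resolution -/
noncomputable def Emb.res (h : Emb γ a φ) (δ : Module.Basis (Fin (q + 1)) k C) (hδ : δ 0 = 1) :
    MinRes R (Ideal.span (Set.range a)) where
  ι := idx q
  fin := fun n => inferInstance
  aug := (Submodule.mkQ (Ideal.span (Set.range a))).comp (LinearMap.proj ())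
  d := h.dif δ
  aug_surj := by
    intro y
    obtain ⟨y, rfl⟩ := Submodule.mkQ_surjective _ y
    exact ⟨fun _ => y, rfl⟩
  exact_aug := by
    intro y
    constructor
    · intro hy
      have hy' : y () ∈ Ideal.span (Set.range a) := by
        rw [← Ideal.Quotient.eq_zero_iff_mem]
        exact hy
      obtain ⟨x, hx⟩ := h.cov_surj δ Unit (fun _ => ⟨y (), hy'⟩)
      refine ⟨x, ?_⟩
      funext u
      change ((h.cov δ Unit x) () : R) = y u
      rw [hx]
      rfl
    · rintro ⟨x, rfl⟩
      change Ideal.Quotient.mk _ ((h.cov δ Unit x () : R)) = 0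
      rw [Ideal.Quotient.eq_zero_iff_mem]
      exact Subtype.prop _
  exact_d := by
    intro n y
    have hr : ∀ y : Fin (q + 1) × kap q n → R, h.cov δ (kap q n) y = 0 ↔
        y ∈ Set.range (h.dif δ (n + 1)) := by
      intro y
      rw [h.cov_eq_zero_iff δ hδ]
      constructor
      · rintro ⟨w, rfl⟩
        obtain ⟨x, rfl⟩ := h.cov_surj δ (kap q (n + 1)) w
        exact ⟨x, rfl⟩
      · rintro ⟨x, rfl⟩
        exact ⟨_, rfl⟩
    cases n with
    | zero =>
      refine Iff.trans ?_ (hr y)
      constructor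
      · intro hy
        funext u
        apply Subtype.ext
        exact congrFun hy ()
      · intro hy
        funext u
        change ((h.cov δ Unit y) () : R) = 0
        have : h.cov δ Unit y = 0 := hy
        rw [this]
        rfl
    | succ n =>
      refine Iff.trans ?_ (hr y)
      constructor
      · intro hy
        exact h.par_inj δ (kap q n) (Eq.trans hy (map_zero (h.par δ (kap q n))).symm)
      · intro hy
        exact Eq.trans (congrArg (h.par δ (kap q n)) hy) (map_zero (h.par δ (kap q n)))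
  minimal := by
    intro n x i
    cases n with
    | zero => exact Subtype.prop _
    | succ n => exact h.par_mem δ (kap q n) _ i

lemma Emb.exists_res (h : Emb γ a φ) [Nontrivial C] :
    ∃ F : MinRes R (Ideal.span (Set.range a)), Nat.card (F.ι 0) = 1 ∧
      ∀ n, Nat.card (F.ι (n + 1)) = (q + 1) * q ^ n := by
  have h1 : γ 0 ≠ 0 := γ.ne_zero 0
  have h2 : (1 : C) ≠ 0 := one_ne_zero
  obtain ⟨g, hg⟩ := Submodule.exists_linearEquiv_restrict_eq
    ((LinearEquiv.toSpanNonzeroSingleton k C (γ 0) h1).symm.trans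
      (LinearEquiv.toSpanNonzeroSingleton k C 1 h2))
  have h3 : g (γ 0) = 1 := by
    have := hg ⟨γ 0, Submodule.mem_span_singleton_self _⟩
    rw [← this]
    have h4 : (⟨γ 0, Submodule.mem_span_singleton_self _⟩ : Submodule.span k {γ 0}) =
      LinearEquiv.toSpanNonzeroSingleton k C (γ 0) h1 1 := by
      apply Subtype.ext
      simp
    rw [h4, LinearEquiv.trans_apply, LinearEquiv.symm_apply_apply]
    simp
  refine ⟨h.res (γ.map g) (by rw [Module.Basis.map_apply, h3]), ?_, fun n => card_idx q n⟩
  change Nat.card Unit = 1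
  exact Nat.card_unique

end Basics

end Pool.Agent.Q14.Golod
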