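import Mathlib
import Pool.Agent.Q14.GolA

/-!
Koszul homology of the rings `k + X C[X]`.
-/

set_option autoImplicit false

namespace Pool.Agent.Q14.Golod

open Finset Pool.Agent.H677R3.EdgeReg Pool.Agent.Q14.Kos

section Gen

variable {r : ℕ} {k : Type*} [Field k] {R : Type*} [CommRing R] [Algebra k R]

lemma kd_eq_sum (a : Fin r → R) (f : Finset (Fin r) → R) (T : Finset (Fin r)) :
    kd a f T = ∑ v ∈ Tᶜ, (-1) ^ (T.filter (· < v)).card * (a v * f (insert v T)) := by
  rw [kd_apply]
  refine Finset.sum_congr rfl fun v _ => ?_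
  rw [smul_eq_mul, mul_assoc]
  rfl

lemma mem_koszulZ (a : Fin r → R) (j : ℕ) (f : Finset (Fin r) → R) :
    f ∈ koszulZ k a j ↔ (∀ T, T.card ≠ j → f T = 0) ∧ kd a f = 0 := by
  refine and_congr_right fun _ => ?_
  constructor
  · intro h
    funext T
    rw [kd_eq_sum]
    exact h T
  · intro h T
    rw [← kd_eq_sum, h]
    rfl

lemma mem_koszulB (a : Fin r → R) (j : ℕ) (f : Finset (Fin r) → R) :
    f ∈ koszulB k a j ↔ ∃ g : Finset (Fin r) → R, (∀ T, T.card ≠ j + 1 → g T = 0) ∧ kd a g = f := by
  refine exists_congr fun g => and_congr_right fun _ => ?_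
  constructor
  · intro h
    funext T
    rw [kd_eq_sum]
    exact h T
  · intro h T
    rw [← kd_eq_sum, h]

/-- If `1` is a combination of the `a_v`, all cycles are boundaries. -/
lemma exact_of_one {A : Type*} [CommRing A] {M : Type*} [AddCommGroup M] [Module A M]
    (a : Fin r → A) (l : Fin r → A) (hl : ∑ v, l v * a v = 1) (j : ℕ) (f : Finset (Fin r) → M)
    (h1 : ∀ T, T.card ≠ j → f T = 0) (h2 : kd a f = 0) :
    ∃ g : Finset (Fin r) → M, (∀ T, T.card ≠ j + 1 → g T = 0) ∧ kd a g = f := by
  have hf : f ∈ ZK a (⊤ : Submodule A M) j := ⟨fun _ => trivial, h1, h2⟩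
  have h3 : f ∈ BK a (⊤ : Submodule A M) j := by
    have : f = ∑ v, l v • (a v • f) := by
      simp_rw [smul_smul]
      rw [← Finset.sum_smul, hl, one_smul]
    rw [this]
    exact Submodule.sum_mem _ fun v _ => Submodule.smul_mem _ _ (smul_ZK_le a _ j v hf)
  obtain ⟨g, _, h4, h5⟩ := h3
  exact ⟨g, h4, h5⟩

variable (k) in
/-- chains of degree `j` -/
def chn (r : ℕ) (M : Type*) [AddCommGroup M] [Module k M] (j : ℕ) :
    Submodule k (Finset (Fin r) → M) where
  carrier := {f | ∀ T, T.card ≠ j → f T = 0}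
  add_mem' {f g} hf hg := fun T hT => by rw [Pi.add_apply, hf T hT, hg T hT, add_zero]
  zero_mem' := fun _ _ => rfl
  smul_mem' c f hf := fun T hT => by rw [Pi.smul_apply, hf T hT, smul_zero]

variable (k) in
/-- chains are families -/
noncomputable def chnEquiv (r : ℕ) (M : Type*) [AddCommGroup M] [Module k M] (j : ℕ) :
    chn k r M j ≃ₗ[k] ({T : Finset (Fin r) // T.card = j} → M) where
  toFun f := fun T => f.1 T.1
  map_add' _ _ := rfl
  map_smul' _ _ := rfl
  invFun g := ⟨fun T => if h : T.card = j then g ⟨T, h⟩ else 0, fun T hT => dif_neg hT⟩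
  left_inv f := by
    apply Subtype.ext
    funext T
    by_cases h : T.card = j
    · simp [h]
    · simp only [h, dite_false]
      exact (f.2 T h).symm
  right_inv g := by
    funext T
    simp [T.2]

lemma finrank_chn (r : ℕ) (M : Type*) [AddCommGroup M] [Module k M] [Module.Finite k M] (j : ℕ) :
    Module.finrank k (chn k r M j) = r.choose j * Module.finrank k M := by
  rw [(chnEquiv k r M j).finrank_eq, Module.finrank_pi_fintype, Finset.sum_const,
    Finset.card_univ, smul_eq_mul]
  congr 1
  rw [Fintype.card_subtype]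
  have : (Finset.univ.filter fun T : Finset (Fin r) => T.card = j) =
      Finset.powersetCard j Finset.univ := by
    ext T
    simp [Finset.mem_powersetCard]
  rw [this, Finset.card_powersetCard, Finset.card_univ, Fintype.card_fin]

instance (r : ℕ) (M : Type*) [AddCommGroup M] [Module k M] [Module.Finite k M] (j : ℕ) :
    Module.Finite k (chn k r M j) :=
  Module.Finite.equiv (chnEquiv k r M j).symm

end Gen

section Cyc

variable {k : Type*} [Field k] {C : Type*} [CommRing C] [Algebra k C]
variable {q : ℕ}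

/-- The Koszul differential as a `k`-linear map on chains. -/
noncomputable def kdL (γ : Fin (q + 1) → C) (j : ℕ) :
    chn k (q + 1) C j →ₗ[k] (Finset (Fin (q + 1)) → C) :=
  ((kd γ).restrictScalars k).comp (chn k (q + 1) C j).subtype

lemma one_sum (γ : Module.Basis (Fin (q + 1)) k C) :
    ∑ v, algebraMap k C (γ.repr 1 v) * γ v = 1 := by
  simp_rw [← Algebra.smul_def]
  exact γ.sum_repr 1

lemma range_kdL (γ : Module.Basis (Fin (q + 1)) k C) (j : ℕ) :
    LinearMap.range (kdL (k := k) γ (j + 1)) = koszulZ k γ j := by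
  ext f
  rw [mem_koszulZ]
  constructor
  · rintro ⟨g, rfl⟩
    exact ⟨fun T hT => kd_card _ g.2 T hT, kd_kd _ _⟩
  · rintro ⟨h1, h2⟩
    obtain ⟨g, h3, h4⟩ := exact_of_one γ _ (one_sum γ) j f h1 h2
    exact ⟨⟨g, h3⟩, h4⟩

lemma ker_kdL (γ : Module.Basis (Fin (q + 1)) k C) (j : ℕ) :
    (LinearMap.ker (kdL (k := k) γ j)).map (chn k (q + 1) C j).subtype = koszulZ k γ j := by
  ext f
  rw [mem_koszulZ]
  constructor
  · rintro ⟨g, hg, rfl⟩
    exact ⟨g.2, hg⟩
  · rintro ⟨h1, h2⟩
    exact ⟨⟨f, h1⟩, h2, rfl⟩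

lemma finrank_koszulZ (γ : Module.Basis (Fin (q + 1)) k C) (j : ℕ) :
    Module.finrank k (koszulZ k γ j) = (q + 1) * q.choose j := by
  have hfin : Module.Finite k C := Module.Finite.of_basis γ
  have hC : Module.finrank k C = q + 1 := by
    rw [Module.finrank_eq_card_basis γ, Fintype.card_fin]
  induction j with
  | zero =>
    have h0 : koszulZ k γ 0 = chn k (q + 1) C 0 := by
      ext f
      rw [mem_koszulZ]
      constructor
      · exact fun h => h.1
      · intro h
        refine ⟨h, ?_⟩
        funext T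
        rw [kd_apply]
        refine Finset.sum_eq_zero fun v hv => ?_
        rw [h _ (by rw [card_insert_of_notMem (by simpa using hv)]; omega), smul_zero]
    rw [h0, finrank_chn, hC]
    simp
  | succ j ih =>
    have h1 := LinearMap.finrank_range_add_finrank_ker (kdL (k := k) γ (j + 1))
    rw [range_kdL, ih, finrank_chn, hC] at h1
    have h2 : Module.finrank k (LinearMap.ker (kdL (k := k) γ (j + 1))) =
        Module.finrank k (koszulZ k γ (j + 1)) := by
      rw [← ker_kdL]
      exact (Submodule.finrank_map_subtype_eq (chn k (q + 1) C (j + 1)) _).symm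
    rw [h2, Nat.choose_succ_succ] at h1
    have h3 : (q.choose j + q.choose (j + 1)) * (q + 1) =
      (q + 1) * q.choose j + (q + 1) * q.choose (j + 1) := by ring
    rw [h3] at h1
    exact Nat.add_left_cancel h1

/-- chains with coefficients in `k` -/
noncomputable def kdk (γ : Fin (q + 1) → C) (j : ℕ) :
    chn k (q + 1) k j →ₗ[k] (Finset (Fin (q + 1)) → C) where
  toFun g := kd γ (fun T => algebraMap k C (g.1 T))
  map_add' g g' := by
    rw [← map_add]
    congr 1
    funext T
    simp
  map_smul' c g := by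
    rw [RingHom.id_apply]
    have : (fun T => algebraMap k C ((c • g).1 T)) =
        algebraMap k C c • (fun T => algebraMap k C (g.1 T)) := by
      funext T
      simp
    rw [this, map_smul]
    funext T
    simp [Algebra.smul_def]

lemma kdk_apply (γ : Fin (q + 1) → C) (j : ℕ) (g : chn k (q + 1) k j) :
    kdk γ j g = kd γ (fun T => algebraMap k C (g.1 T)) := rfl

lemma kdk_inj (γ : Module.Basis (Fin (q + 1)) k C) (j : ℕ) (g : Finset (Fin (q + 1)) → k)
    (hg : ∀ T, T.card ≠ j + 1 → g T = 0)
    (h : kd (γ : Fin (q + 1) → C) (fun T => algebraMap k C (g T)) = 0) : g = 0 := by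
  funext S
  by_cases hS : S.card = j + 1
  · obtain ⟨v, hv⟩ : S.Nonempty := by
      rw [← Finset.card_pos]; omega
    have h1 := congrFun h (S.erase v)
    rw [kd_apply, Pi.zero_apply] at h1
    have h2 : ∑ w : Fin (q + 1), (if w ∈ (S.erase v)ᶜ then
        sg k w (S.erase v) * g (insert w (S.erase v)) else 0) • γ w = 0 := by
      rw [← h1, ← Finset.sum_filter_add_sum_filter_not Finset.univ (fun w => w ∈ (S.erase v)ᶜ)]
      rw [Finset.sum_eq_zero (s := Finset.univ.filter fun w => ¬ w ∈ (S.erase v)ᶜ), add_zero]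
      · rw [Finset.filter_mem_eq_inter, Finset.univ_inter]
        refine Finset.sum_congr rfl fun w hw => ?_
        rw [if_pos hw, Algebra.smul_def, map_mul, smul_eq_mul]
        have : algebraMap k C (sg k w (S.erase v)) = sg C w (S.erase v) := by
          unfold sg
          rw [map_pow, map_neg, map_one]
        rw [this]
        ring
      · intro w hw
        rw [Finset.mem_filter] at hw
        rw [if_neg hw.2, zero_smul]
    have h3 := Fintype.linearIndependent_iff.1 γ.linearIndependent _ h2 v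
    rw [if_pos (by simp), Finset.insert_erase hv] at h3
    have h4 : sg k v (S.erase v) ≠ 0 := by
      intro h5
      have := sg_mul_self (k := k) v (S.erase v)
      rw [h5, zero_mul] at this
      exact zero_ne_one this
    exact (mul_eq_zero.1 h3).resolve_left h4
  · exact hg S hS

lemma finrank_range_kdk (γ : Module.Basis (Fin (q + 1)) k C) (j : ℕ) :
    Module.finrank k (LinearMap.range (kdk (k := k) γ (j + 1))) = (q + 1).choose (j + 1) := by
  have h1 : Function.Injective (kdk (k := k) γ (j + 1)) := by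
    rw [← LinearMap.ker_eq_bot, LinearMap.ker_eq_bot']
    intro g hg
    apply Subtype.ext
    exact kdk_inj γ j g.1 g.2 hg
  rw [LinearMap.finrank_range_of_inj h1, finrank_chn, Module.finrank_self, mul_one]

lemma range_kdk_le (γ : Module.Basis (Fin (q + 1)) k C) (j : ℕ) :
    LinearMap.range (kdk (k := k) γ (j + 1)) ≤ koszulZ k γ j := by
  rintro _ ⟨g, rfl⟩
  rw [mem_koszulZ, kdk_apply]
  refine ⟨fun T hT => ?_, kd_kd _ _⟩
  exact kd_card _ (fun S hS => by rw [g.2 S hS, map_zero]) T hT

end Cyc

section Hom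

variable {k : Type*} [Field k] {C : Type*} [CommRing C] [Algebra k C]
variable {R : Type*} [CommRing R] [Algebra k R]
variable {q : ℕ}
variable {γ : Module.Basis (Fin (q + 1)) k C} {a : Fin (q + 1) → R} {φ : R →ₐ[k] Polynomial C}

lemma Emb.phi_kd (h : Emb γ a φ) (F : Finset (Fin (q + 1)) → R) (T : Finset (Fin (q + 1))) :
    φ (kd a F T) = Polynomial.X *
      kd (A := C) (M := Polynomial C) (γ : Fin (q + 1) → C) (fun T => φ (F T)) T := by
  rw [kd_apply, kd_apply, map_sum, Finset.mul_sum]
  refine Finset.sum_congr rfl fun v _ => ?_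
  rw [smul_eq_mul, map_mul, map_mul, h.ha, Polynomial.smul_eq_C_mul, map_mul]
  have : φ (sg R v T) = Polynomial.C (sg C v T) := by
    unfold sg
    rw [map_pow, map_neg, map_one, map_pow, map_neg, map_one]
  rw [this]
  ring

lemma coeff_kd (c : Fin (q + 1) → C) (F : Finset (Fin (q + 1)) → Polynomial C) (n : ℕ)
    (T : Finset (Fin (q + 1))) :
    (kd (A := C) (M := Polynomial C) c F T).coeff n = kd c (fun T => (F T).coeff n) T := by
  rw [kd_apply, kd_apply, Polynomial.finsetSum_coeff]
  refine Finset.sum_congr rfl fun v _ => ?_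
  rw [Polynomial.coeff_smul]

/-- extraction of the linear coefficients -/
noncomputable def lin (φ : R →ₐ[k] Polynomial C) (a : Fin (q + 1) → R) (j : ℕ) :
    koszulZ k a j →ₗ[k] (Finset (Fin (q + 1)) → C) where
  toFun F := fun T => (φ (F.1 T)).coeff 1
  map_add' F G := by
    funext T
    simp
  map_smul' c F := by
    funext T
    simp

lemma Emb.cyc (h : Emb γ a φ) {j : ℕ} {F : Finset (Fin (q + 1)) → R} (hF : F ∈ koszulZ k a j)
    (T : Finset (Fin (q + 1))) :
    kd (A := C) (M := Polynomial C) (γ : Fin (q + 1) → C) (fun T => φ (F T)) T = 0 := by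
  rw [mem_koszulZ] at hF
  apply X_mul_cancel
  rw [← h.phi_kd, hF.2]
  simp

lemma Emb.lin_mem (h : Emb γ a φ) (j : ℕ) (F : koszulZ k a j) :
    lin φ a j F ∈ koszulZ k γ j := by
  have hF := (mem_koszulZ _ _ _).1 F.2
  rw [mem_koszulZ]
  constructor
  · intro T hT
    change (φ (F.1 T)).coeff 1 = 0
    rw [hF.1 T hT]
    simp
  · funext T
    change kd (γ : Fin (q + 1) → C) (fun T => (φ (F.1 T)).coeff 1) T = 0
    rw [← coeff_kd, h.cyc F.2]
    simp

lemma Emb.coeff_zero (h : Emb γ a φ) (j : ℕ) (F : koszulZ k a (j + 1))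
    (T : Finset (Fin (q + 1))) : (φ (F.1 T)).coeff 0 = 0 := by
  have hF := (mem_koszulZ _ _ _).1 F.2
  choose g hg using fun T => h.h0 (F.1 T)
  have h1 : ∀ T, T.card ≠ j + 1 → g T = 0 := by
    intro T hT
    have := hg T
    rw [hF.1 T hT, map_zero, Polynomial.coeff_zero] at this
    have hinj : Function.Injective (algebraMap k C) := by
      have : Nontrivial C := ⟨γ 0, 0, γ.ne_zero 0⟩
      exact (algebraMap k C).injective
    exact hinj (by rw [← this, map_zero])
  have h2 : g = 0 := by
    apply kdk_inj γ j g h1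
    funext T
    have h3 := coeff_kd (γ : Fin (q + 1) → C) (fun T => φ (F.1 T)) 0 T
    rw [h.cyc F.2, Polynomial.coeff_zero] at h3
    simp_rw [hg] at h3
    exact h3.symm
  rw [hg, h2, Pi.zero_apply, map_zero]

/-- the comparison map -/
noncomputable def Emb.cmp (h : Emb γ a φ) (j : ℕ) : koszulZ k a j →ₗ[k] koszulZ k γ j :=
  (lin φ a j).codRestrict _ (h.lin_mem j)

lemma Emb.cmp_surj (h : Emb γ a φ) (j : ℕ) : Function.Surjective (h.cmp j) := by
  intro c
  have hc := (mem_koszulZ _ _ _).1 c.2
  refine ⟨⟨fun T => (h.lft (Polynomial.C (c.1 T)) : R), ?_⟩, ?_⟩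
  · rw [mem_koszulZ]
    constructor
    · intro T hT
      apply h.inj
      rw [h.phi_lft, hc.1 T hT]
      simp
    · funext T
      apply h.inj
      rw [h.phi_kd]
      simp_rw [h.phi_lft]
      rw [Pi.zero_apply, map_zero]
      have : kd (A := C) (M := Polynomial C) (γ : Fin (q + 1) → C)
          (fun T => Polynomial.X * Polynomial.C (c.1 T)) T =
          Polynomial.X * Polynomial.C (kd (γ : Fin (q + 1) → C) c.1 T) := by
        rw [kd_apply, kd_apply, map_sum, Finset.mul_sum]
        refine Finset.sum_congr rfl fun v _ => ?_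
        rw [Polynomial.smul_eq_C_mul, smul_eq_mul, map_mul Polynomial.C (sg C v T * γ v)]
        ring
      rw [this, hc.2]
      simp
  · apply Subtype.ext
    funext T
    change (φ (h.lft (Polynomial.C (c.1 T)) : R)).coeff 1 = c.1 T
    rw [h.phi_lft]
    simp

lemma Emb.cmp_mem (h : Emb γ a φ) (j : ℕ) (F : koszulZ k a (j + 1)) :
    (h.cmp (j + 1) F).1 ∈ LinearMap.range (kdk (k := k) γ (j + 1 + 1)) ↔
      F.1 ∈ koszulB k a (j + 1) := by
  rw [mem_koszulB]
  constructor
  · rintro ⟨G, hG⟩
    rw [kdk_apply] at hG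
    have hF := (mem_koszulZ _ _ _).1 F.2
    -- the difference
    let G' : Finset (Fin (q + 1)) → R := fun T => algebraMap k R (G.1 T)
    have hG' : ∀ T, φ (kd a G' T) = Polynomial.X * Polynomial.C ((φ (F.1 T)).coeff 1) := by
      intro T
      rw [h.phi_kd]
      congr 1
      have h1 : (φ (F.1 T)).coeff 1 = kd (γ : Fin (q + 1) → C)
          (fun T => algebraMap k C (G.1 T)) T := (congrFun hG T).symm
      rw [h1, kd_apply, kd_apply, map_sum]
      refine Finset.sum_congr rfl fun v _ => ?_
      rw [smul_eq_mul, map_mul Polynomial.C, Polynomial.smul_eq_C_mul]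
      congr 1
      change φ (algebraMap k R _) = _
      rw [AlgHom.commutes]
      rfl
    have h2 : ∀ T, ∃ f : Polynomial C, φ (F.1 T - kd a G' T) = Polynomial.X * (Polynomial.X * f) := by
      intro T
      refine ⟨(φ (F.1 T)).divX.divX, ?_⟩
      rw [map_sub, hG']
      have h3 := Polynomial.X_mul_divX_add (φ (F.1 T))
      rw [h.coeff_zero, map_zero, add_zero] at h3
      have h4 := Polynomial.X_mul_divX_add (φ (F.1 T)).divX
      have h5 : (φ (F.1 T)).divX.coeff 0 = (φ (F.1 T)).coeff 1 := by
        rw [Polynomial.coeff_divX]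
      rw [h5] at h4
      conv_lhs => rw [← h3, ← h4]
      have h6 : Polynomial.coeff (Polynomial.X * (Polynomial.X * (φ (F.1 T)).divX.divX +
          Polynomial.C ((φ (F.1 T)).coeff 1))) 1 = (φ (F.1 T)).coeff 1 := by
        rw [h4, h3]
      rw [h6]
      ring
    choose f hf using h2
    have h0 : ∀ T, T.card ≠ j + 1 → f T = 0 := by
      intro T hT
      apply X_mul_cancel
      apply X_mul_cancel
      rw [← hf, hF.1 T hT, kd_card a (i := j + 1) (fun S hS => ?_) T hT]
      · simp
      · change algebraMap k R (G.1 S) = 0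
        rw [G.2 S hS, map_zero]
    have h1 : kd (A := C) (M := Polynomial C) (γ : Fin (q + 1) → C) f = 0 := by
      funext T
      apply X_mul_cancel
      apply X_mul_cancel
      apply X_mul_cancel
      have h3 : φ (kd a (F.1 - kd a G') T) = 0 := by
        rw [map_sub, hF.2, kd_kd, sub_zero]
        simp
      rw [h.phi_kd] at h3
      simp_rw [Pi.sub_apply, hf] at h3
      rw [← h3]
      congr 1
      rw [kd_apply, kd_apply, Finset.mul_sum, Finset.mul_sum]
      refine Finset.sum_congr rfl fun v _ => ?_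
      rw [mul_smul_comm, mul_smul_comm]
    obtain ⟨g, hg1, hg2⟩ := exact_of_one (γ : Fin (q + 1) → C) _ (one_sum γ) (j + 1) f h0 h1
    refine ⟨fun T => G' T + (h.lft (g T) : R), ?_, ?_⟩
    · intro T hT
      have h5 : G' T = 0 := by
        change algebraMap k R (G.1 T) = 0
        rw [G.2 T hT, map_zero]
      have h6 : (h.lft (g T) : R) = 0 := by
        apply h.inj
        rw [h.phi_lft, hg1 T hT, mul_zero, map_zero]
      change G' T + (h.lft (g T) : R) = 0
      rw [h5, h6, add_zero]
    · have h7 : (fun T => G' T + (h.lft (g T) : R)) = G' + fun T => (h.lft (g T) : R) := rfl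
      rw [h7, map_add]
      have h8 : kd a (fun T => (h.lft (g T) : R)) = F.1 - kd a G' := by
        funext T
        apply h.inj
        rw [h.phi_kd, Pi.sub_apply, hf, ← hg2]
        simp_rw [h.phi_lft]
        congr 1
        rw [kd_apply, kd_apply, Finset.mul_sum]
        refine Finset.sum_congr rfl fun v _ => ?_
        rw [mul_smul_comm]
      rw [h8]
      abel
  · rintro ⟨G, hG1, hG2⟩
    choose g hg using fun T => h.h0 (G T)
    have hinj : Function.Injective (algebraMap k C) := by
      have : Nontrivial C := ⟨γ 0, 0, γ.ne_zero 0⟩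
      exact (algebraMap k C).injective
    refine ⟨⟨g, ?_⟩, ?_⟩
    · intro T hT
      have := hg T
      rw [hG1 T hT, map_zero, Polynomial.coeff_zero] at this
      exact hinj (by rw [← this, map_zero])
    · rw [kdk_apply]
      funext T
      change _ = (φ (F.1 T)).coeff 1
      rw [← hG2, h.phi_kd, Polynomial.coeff_X_mul, coeff_kd]
      simp_rw [hg]

theorem Emb.koszulDim_eq (h : Emb γ a φ) (j : ℕ) :
    koszulDim k a (j + 1) + (q + 1).choose (j + 2) = (q + 1) * q.choose (j + 1) := by
  have hfin : Module.Finite k C := Module.Finite.of_basis γ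
  have hZfin : Module.Finite k (koszulZ k γ (j + 1)) := inferInstance
  let W : Submodule k (koszulZ k γ (j + 1)) :=
    (LinearMap.range (kdk (k := k) γ (j + 1 + 1))).comap (koszulZ k γ (j + 1)).subtype
  let θ := W.mkQ.comp (h.cmp (j + 1))
  have hθ : Function.Surjective θ := (Submodule.mkQ_surjective W).comp (h.cmp_surj (j + 1))
  have hk : LinearMap.ker θ = (koszulB k a (j + 1)).comap (koszulZ k a (j + 1)).subtype := by
    ext F
    rw [LinearMap.mem_ker]
    change W.mkQ (h.cmp (j + 1) F) = 0 ↔ F.1 ∈ koszulB k a (j + 1)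
    rw [← h.cmp_mem, Submodule.mkQ_apply, Submodule.Quotient.mk_eq_zero]
    rfl
  have h1 : koszulDim k a (j + 1) = Module.finrank k (koszulZ k γ (j + 1) ⧸ W) := by
    unfold koszulDim
    rw [← hk]
    exact (LinearMap.quotKerEquivOfSurjective θ hθ).finrank_eq
  have h2 : Module.finrank k W = (q + 1).choose (j + 2) := by
    rw [← finrank_range_kdk γ (j + 1)]
    exact (Submodule.comapSubtypeEquivOfLe (range_kdk_le γ (j + 1))).finrank_eq
  rw [h1, ← h2, Submodule.finrank_quotient_add_finrank, finrank_koszulZ]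

end Hom

section Golod

variable {k : Type*} [Field k] {C : Type*} [CommRing C] [Algebra k C] {q : ℕ}

lemma coeff_one_add_X_pow' (q n : ℕ) :
    PowerSeries.coeff n ((1 + PowerSeries.X : PowerSeries ℤ) ^ q) = (q.choose n : ℤ) := by
  have h : ((1 + PowerSeries.X : PowerSeries ℤ) ^ q) =
      (((1 + Polynomial.X : Polynomial ℤ) ^ q : Polynomial ℤ) : PowerSeries ℤ) := by
    rw [Polynomial.coe_pow, Polynomial.coe_add, Polynomial.coe_one, Polynomial.coe_X]
  rw [h, Polynomial.coeff_coe, Polynomial.coeff_one_add_X_pow]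

lemma series_a (q : ℕ) (b : ℕ → ℤ) (h0 : b 0 = 1) (hb : ∀ n, b (n + 1) = (q + 1) * q ^ n) :
    PowerSeries.mk b * (1 - (q : PowerSeries ℤ) * PowerSeries.X) = 1 + PowerSeries.X := by
  have hq : (q : PowerSeries ℤ) = PowerSeries.C (q : ℤ) := by simp
  ext n
  rw [mul_sub, mul_one, ← mul_assoc, map_sub, hq, mul_comm (PowerSeries.mk b)]
  rcases n with _ | _ | n
  · simp [h0]
  · rw [PowerSeries.coeff_succ_mul_X, PowerSeries.coeff_C_mul, PowerSeries.coeff_mk,
      PowerSeries.coeff_mk, h0, hb]
    simp [PowerSeries.coeff_one]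
  · rw [PowerSeries.coeff_succ_mul_X, PowerSeries.coeff_C_mul, PowerSeries.coeff_mk,
      PowerSeries.coeff_mk, hb, hb]
    simp [PowerSeries.coeff_one, PowerSeries.coeff_X]
    ring

lemma series_b (q : ℕ) (hh : ℕ → ℕ)
    (h : ∀ j, hh (j + 1) + (q + 1).choose (j + 2) = (q + 1) * q.choose (j + 1)) :
    (1 - ∑ j ∈ Finset.Icc 1 (q + 1), PowerSeries.monomial (j + 1) (hh j : ℤ) : PowerSeries ℤ) =
      (1 - (q : PowerSeries ℤ) * PowerSeries.X) * (1 + PowerSeries.X) ^ q := by
  have hq : (q : PowerSeries ℤ) = PowerSeries.C (q : ℤ) := by simp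
  ext n
  rw [sub_mul, one_mul, map_sub, map_sub, coeff_one_add_X_pow', mul_assoc, hq,
    PowerSeries.coeff_C_mul, map_sum]
  simp_rw [PowerSeries.coeff_monomial]
  rcases n with _ | _ | n
  · simp
  · rw [Finset.sum_eq_zero (fun j hj => by
      rw [Finset.mem_Icc] at hj
      rw [if_neg (by omega)])]
    rw [PowerSeries.coeff_succ_X_mul, coeff_one_add_X_pow']
    simp [PowerSeries.coeff_one]
  · rw [PowerSeries.coeff_succ_X_mul, coeff_one_add_X_pow']
    have h1 : (∑ j ∈ Finset.Icc 1 (q + 1), if n + 1 + 1 = j + 1 then (hh j : ℤ) else 0) =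
        (hh (n + 1) : ℤ) := by
      by_cases hn : n + 1 ≤ q + 1
      · rw [Finset.sum_eq_single (n + 1)]
        · simp
        · intro j _ hj
          rw [if_neg (by omega)]
        · intro hj
          exact absurd (Finset.mem_Icc.2 ⟨by omega, hn⟩) hj
      · rw [Finset.sum_eq_zero]
        · have h2 := h n
          rw [Nat.choose_eq_zero_of_lt (n := q) (by omega), mul_zero] at h2
          have : hh (n + 1) = 0 := by omega
          rw [this]
          simp
        · intro j hj
          rw [Finset.mem_Icc] at hj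
          rw [if_neg (by omega)]
    rw [h1]
    have h2 : (hh (n + 1) : ℤ) = (q + 1) * (q.choose (n + 1) : ℤ) -
        ((q + 1).choose (n + 2) : ℤ) := by
      have := h n
      have h3 : ((hh (n + 1) : ℤ)) + ((q + 1).choose (n + 2) : ℤ) =
        (q + 1) * (q.choose (n + 1) : ℤ) := by exact_mod_cast this
      linarith
    rw [h2, Nat.choose_succ_succ q (n + 1)]
    simp [PowerSeries.coeff_one]
    ring

theorem isGolod_of_emb {J : Ideal (MvPolynomial (Fin (q + 1)) k)}
    {γ : Module.Basis (Fin (q + 1)) k C}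
    {φ : (MvPolynomial (Fin (q + 1)) k ⧸ J) →ₐ[k] Polynomial C}
    (h : Emb γ (fun i => Ideal.Quotient.mk J (MvPolynomial.X i)) φ) : IsGolod J := by
  have : Nontrivial C := ⟨γ 0, 0, γ.ne_zero 0⟩
  obtain ⟨F, hF0, hF⟩ := h.exists_res
  refine ⟨F, ?_⟩
  rw [series_b q _ (fun j => h.koszulDim_eq j), ← mul_assoc, series_a q _ (by rw [hF0]; rfl)
    (fun n => by rw [hF]; push_cast; ring), pow_succ']

end Golod

end Pool.Agent.Q14.Golod
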