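import Mathlib
import Pool.Agent.Q14.GolK

/-!
Presentations of `k + X C[X]` by quadrics, and the `2 × 2` permanents of a Hankel matrix in `8`
variables.
-/

set_option autoImplicit false

namespace Pool.Agent.Q14.Golod

open Finset

section Pres

variable {k : Type*} [Field k] {C : Type*} [CommRing C] [Algebra k C] {q : ℕ}

/-- The map `x_i ↦ X γ_i`. -/
noncomputable def bigPhi (γ : Fin (q + 1) → C) :
    MvPolynomial (Fin (q + 1)) k →ₐ[k] Polynomial C :=
  MvPolynomial.aeval fun i => Polynomial.X * Polynomial.C (γ i)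

lemma bigPhi_coeff_zero (γ : Fin (q + 1) → C) (f : MvPolynomial (Fin (q + 1)) k) :
    ∃ c : k, (bigPhi γ f).coeff 0 = algebraMap k C c := by
  refine ⟨MvPolynomial.constantCoeff f, ?_⟩
  induction f using MvPolynomial.induction_on with
  | C c =>
    rw [MvPolynomial.constantCoeff_C, bigPhi, MvPolynomial.algHom_C]
    change (Polynomial.C (algebraMap k C c)).coeff 0 = _
    rw [Polynomial.coeff_C_zero]
  | add f g hf hg => rw [map_add, Polynomial.coeff_add, hf, hg, map_add, map_add]
  | mul_X f i hf =>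
    rw [map_mul, Polynomial.mul_coeff_zero, map_mul, map_mul, MvPolynomial.constantCoeff_X,
      map_zero, mul_zero]
    have : (bigPhi γ (MvPolynomial.X i : MvPolynomial (Fin (q + 1)) k)).coeff 0 = 0 := by
      rw [bigPhi, MvPolynomial.aeval_X, Polynomial.mul_coeff_zero, Polynomial.coeff_X_zero,
        zero_mul]
    rw [this, mul_zero]

variable (γ : Module.Basis (Fin (q + 1)) k C) {J : Ideal (MvPolynomial (Fin (q + 1)) k)}

/-- linear forms -/
noncomputable def sig (J : Ideal (MvPolynomial (Fin (q + 1)) k)) :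
    C →ₗ[k] MvPolynomial (Fin (q + 1)) k ⧸ J :=
  γ.constr k fun i => Ideal.Quotient.mk J (MvPolynomial.X i)

lemma sig_basis (i : Fin (q + 1)) : sig γ J (γ i) = Ideal.Quotient.mk J (MvPolynomial.X i) :=
  γ.constr_basis k _ i

lemma sig_mul (h2 : ∀ i j, Ideal.Quotient.mk J (MvPolynomial.X i) *
      Ideal.Quotient.mk J (MvPolynomial.X j) = sig γ J 1 * sig γ J (γ i * γ j)) (c c' : C) :
    sig γ J c * sig γ J c' = sig γ J 1 * sig γ J (c * c') := by
  have : (LinearMap.mul k (MvPolynomial (Fin (q + 1)) k ⧸ J)).compl₁₂ (sig γ J) (sig γ J) =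
      ((LinearMap.mul k C).compr₂ (sig γ J)).compr₂ (LinearMap.mulLeft k (sig γ J 1)) := by
    refine γ.ext fun i => γ.ext fun j => ?_
    simp only [LinearMap.compl₁₂_apply, LinearMap.mul_apply', LinearMap.compr₂_apply,
      LinearMap.mulLeft_apply, sig_basis, h2]
  exact LinearMap.congr_fun (LinearMap.congr_fun this c) c'

/-- normal forms -/
noncomputable def nf (J : Ideal (MvPolynomial (Fin (q + 1)) k)) :
    Polynomial C →ₗ[k] MvPolynomial (Fin (q + 1)) k ⧸ J :=
  Polynomial.lsum fun d => (LinearMap.mulLeft k (sig γ J 1 ^ d)).comp (sig γ J)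

lemma nf_monomial (d : ℕ) (c : C) :
    nf γ J (Polynomial.monomial d c) = sig γ J 1 ^ d * sig γ J c := by
  rw [nf, Polynomial.lsum_apply, Polynomial.sum_monomial_index]
  · rfl
  · rw [map_zero]

lemma nf_mul (h2 : ∀ i j, Ideal.Quotient.mk J (MvPolynomial.X i) *
      Ideal.Quotient.mk J (MvPolynomial.X j) = sig γ J 1 * sig γ J (γ i * γ j))
    (g : Polynomial C) (i : Fin (q + 1)) :
    nf γ J g * Ideal.Quotient.mk J (MvPolynomial.X i) =
      nf γ J (Polynomial.X * (g * Polynomial.C (γ i))) := by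
  induction g using Polynomial.induction_on' with
  | add p p' hp hp' => rw [map_add, add_mul, hp, hp', add_mul, mul_add, map_add]
  | monomial n c =>
    rw [Polynomial.monomial_mul_C, Polynomial.X_mul_monomial, nf_monomial, nf_monomial,
      ← sig_basis γ, mul_assoc, sig_mul γ h2, pow_succ]
    ring

lemma exists_nf (h2 : ∀ i j, Ideal.Quotient.mk J (MvPolynomial.X i) *
      Ideal.Quotient.mk J (MvPolynomial.X j) = sig γ J 1 * sig γ J (γ i * γ j))
    (f : MvPolynomial (Fin (q + 1)) k) :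
    ∃ (c : k) (g : Polynomial C),
      Ideal.Quotient.mk J f = algebraMap k _ c + nf γ J g ∧
      bigPhi γ f = algebraMap k _ c + Polynomial.X * g := by
  induction f using MvPolynomial.induction_on with
  | C c =>
    refine ⟨c, 0, ?_, ?_⟩
    · rw [map_zero, add_zero]
      rfl
    · rw [mul_zero, add_zero, bigPhi, MvPolynomial.algHom_C]
  | add f f' hf hf' =>
    obtain ⟨c, g, h3, h4⟩ := hf
    obtain ⟨c', g', h3', h4'⟩ := hf'
    refine ⟨c + c', g + g', ?_, ?_⟩
    · rw [map_add, h3, h3', map_add, map_add]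
      ring
    · rw [map_add, h4, h4', map_add]
      ring
  | mul_X f i hf =>
    obtain ⟨c, g, h3, h4⟩ := hf
    refine ⟨0, Polynomial.C (algebraMap k C c * γ i) + Polynomial.X * (g * Polynomial.C (γ i)),
      ?_, ?_⟩
    · rw [map_mul, h3, add_mul, map_zero, zero_add, map_add, nf_mul γ h2]
      congr 1
      rw [← Polynomial.monomial_zero_left, nf_monomial, pow_zero, one_mul, ← Algebra.smul_def,
        ← Algebra.smul_def, map_smul, sig_basis]
    · rw [map_mul, h4, bigPhi, MvPolynomial.aeval_X, map_zero, zero_add, map_mul]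
      have : algebraMap k (Polynomial C) c = Polynomial.C (algebraMap k C c) := rfl
      rw [this]
      ring

theorem emb_of_rel (h1 : ∀ f ∈ J, bigPhi γ f = 0)
    (h2 : ∀ i j, Ideal.Quotient.mk J (MvPolynomial.X i) *
      Ideal.Quotient.mk J (MvPolynomial.X j) = sig γ J 1 * sig γ J (γ i * γ j)) :
    Emb γ (fun i => Ideal.Quotient.mk J (MvPolynomial.X i))
      (Ideal.Quotient.liftₐ J (bigPhi γ) h1) := by
  have hphi : ∀ f, Ideal.Quotient.liftₐ J (bigPhi γ) h1 (Ideal.Quotient.mk J f) = bigPhi γ f :=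
    fun f => rfl
  refine ⟨?_, ?_, ?_⟩
  · rw [injective_iff_map_eq_zero]
    intro x hx
    obtain ⟨f, rfl⟩ := Ideal.Quotient.mk_surjective x
    rw [hphi] at hx
    obtain ⟨c, g, h3, h4⟩ := exists_nf γ h2 f
    have : Nontrivial C := ⟨γ 0, 0, γ.ne_zero 0⟩
    have hc : c = 0 := by
      have h5 := congrArg (fun p => Polynomial.coeff p 0) (h4.symm.trans hx)
      have : algebraMap k (Polynomial C) c = Polynomial.C (algebraMap k C c) := rfl
      simp only [this, Polynomial.coeff_add, Polynomial.coeff_C_zero, Polynomial.mul_coeff_zero,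
        Polynomial.coeff_X_zero, zero_mul, add_zero, Polynomial.coeff_zero] at h5
      exact (algebraMap k C).injective (by rw [h5, map_zero])
    have hg : g = 0 := by
      apply X_mul_cancel
      rw [← hx, h4, hc, map_zero, zero_add]
    rw [h3, hc, hg, map_zero, map_zero, add_zero]
  · intro i
    rw [hphi, bigPhi, MvPolynomial.aeval_X]
  · intro x
    obtain ⟨f, rfl⟩ := Ideal.Quotient.mk_surjective x
    rw [hphi]
    exact bigPhi_coeff_zero _ f

end Pres

/-! ### The algebra `k[u]/(u⁴) × k[v]/(v⁴)` in the basis `1, u, -u², u³; v³, -v², v, 1` -/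

section HC

/-- multiplication -/
def zm {A : Type*} [CommRing A] (f g : Fin 8 → A) : Fin 8 → A :=
  ![f 0 * g 0, f 0 * g 1 + f 1 * g 0, f 0 * g 2 + f 2 * g 0 - f 1 * g 1,
    f 0 * g 3 + f 3 * g 0 - f 1 * g 2 - f 2 * g 1,
    f 7 * g 4 + f 4 * g 7 - f 6 * g 5 - f 5 * g 6, f 7 * g 5 + f 5 * g 7 - f 6 * g 6,
    f 7 * g 6 + f 6 * g 7, f 7 * g 7]

section zm

variable {A : Type*} [CommRing A]

lemma zm_assoc (f g h : Fin 8 → A) : zm (zm f g) h = zm f (zm g h) := by
  funext i
  simp only [zm]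
  fin_cases i <;> simp <;> ring

lemma zm_comm (f g : Fin 8 → A) : zm f g = zm g f := by
  funext i
  simp only [zm]
  fin_cases i <;> simp <;> ring

lemma zm_add (f g h : Fin 8 → A) : zm f (g + h) = zm f g + zm f h := by
  funext i
  rw [Pi.add_apply]
  simp only [zm]
  fin_cases i <;> simp <;> ring

lemma add_zm (f g h : Fin 8 → A) : zm (f + g) h = zm f h + zm g h := by
  rw [zm_comm, zm_add, zm_comm h f, zm_comm h g]

lemma zm_zero (f : Fin 8 → A) : zm f 0 = 0 := by
  funext i
  rw [Pi.zero_apply]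
  simp only [zm]
  fin_cases i <;> simp

lemma zero_zm (f : Fin 8 → A) : zm 0 f = 0 := by
  rw [zm_comm, zm_zero]

lemma one_zm (f : Fin 8 → A) : zm ![1, 0, 0, 0, 0, 0, 0, 1] f = f := by
  funext i
  simp only [zm]
  fin_cases i <;> simp

lemma zm_one (f : Fin 8 → A) : zm f ![1, 0, 0, 0, 0, 0, 0, 1] = f := by
  rw [zm_comm, one_zm]

lemma smul_zm (c : A) (f g : Fin 8 → A) : zm (c • f) g = c • zm f g := by
  funext i
  rw [Pi.smul_apply]
  simp only [zm]
  fin_cases i <;> simp <;> ring

lemma zm_smul (c : A) (f g : Fin 8 → A) : zm f (c • g) = c • zm f g := by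
  rw [zm_comm, smul_zm, zm_comm]

end zm

/-- the algebra -/
structure HC (k : Type*) where
  /-- coordinates -/
  v : Fin 8 → k

variable {k : Type*} [Field k]

namespace HC

omit [Field k] in
@[ext] lemma ext' {f g : HC k} (h : f.v = g.v) : f = g := by
  cases f; cases g; cases h; rfl

instance : Zero (HC k) := ⟨⟨0⟩⟩
instance : One (HC k) := ⟨⟨![1, 0, 0, 0, 0, 0, 0, 1]⟩⟩
instance : Add (HC k) := ⟨fun f g => ⟨f.v + g.v⟩⟩
instance : Neg (HC k) := ⟨fun f => ⟨-f.v⟩⟩
instance : Sub (HC k) := ⟨fun f g => ⟨f.v - g.v⟩⟩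
instance : Mul (HC k) := ⟨fun f g => ⟨zm f.v g.v⟩⟩
instance : SMul k (HC k) := ⟨fun c f => ⟨c • f.v⟩⟩

lemma v_zero : (0 : HC k).v = 0 := rfl
lemma v_one : (1 : HC k).v = ![1, 0, 0, 0, 0, 0, 0, 1] := rfl
lemma v_add (f g : HC k) : (f + g).v = f.v + g.v := rfl
lemma v_neg (f : HC k) : (-f).v = -f.v := rfl
lemma v_sub (f g : HC k) : (f - g).v = f.v - g.v := rfl
lemma v_mul (f g : HC k) : (f * g).v = zm f.v g.v := rfl
lemma v_smul (c : k) (f : HC k) : (c • f).v = c • f.v := rfl

instance : CommRing (HC k) where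
  add_assoc f g h := ext' (add_assoc _ _ _)
  zero_add f := ext' (zero_add _)
  add_zero f := ext' (add_zero _)
  add_comm f g := ext' (add_comm _ _)
  neg_add_cancel f := ext' (neg_add_cancel _)
  sub_eq_add_neg f g := ext' (sub_eq_add_neg _ _)
  left_distrib f g h := ext' (zm_add _ _ _)
  right_distrib f g h := ext' (add_zm _ _ _)
  zero_mul f := ext' (zero_zm _)
  mul_zero f := ext' (zm_zero _)
  one_mul f := ext' (one_zm _)
  mul_one f := ext' (zm_one _)
  mul_assoc f g h := ext' (zm_assoc _ _ _)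
  mul_comm f g := ext' (zm_comm _ _)
  nsmul := nsmulRec
  zsmul := zsmulRec

instance : Module k (HC k) where
  one_smul f := ext' (one_smul _ _)
  mul_smul a b f := ext' (mul_smul _ _ _)
  smul_zero a := ext' (smul_zero _)
  smul_add a f g := ext' (smul_add _ _ _)
  add_smul a b f := ext' (add_smul _ _ _)
  zero_smul f := ext' (zero_smul _ _)

noncomputable instance : Algebra k (HC k) :=
  Algebra.ofModule (fun c f g => ext' (smul_zm _ _ _)) (fun c f g => ext' (zm_smul _ _ _))

/-- coordinates -/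
def equiv : HC k ≃ₗ[k] (Fin 8 → k) where
  toFun f := f.v
  map_add' _ _ := rfl
  map_smul' _ _ := rfl
  invFun f := ⟨f⟩
  left_inv _ := rfl
  right_inv _ := rfl

end HC

variable (k) in
/-- the basis -/
noncomputable def hb : Module.Basis (Fin (7 + 1)) k (HC k) :=
  (Pi.basisFun k (Fin 8)).map (HC.equiv (k := k)).symm

lemma hb_apply (i j : Fin 8) : (hb k i).v j = ((if j = i then 1 else 0 : ℤ) : k) := by
  have : (hb k i).v = Pi.single i (1 : k) := by
    change (HC.equiv.symm ((Pi.basisFun k (Fin 8)) i)).v = _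
    rw [Pi.basisFun_apply]
    rfl
  rw [this, Pi.single_apply]
  split_ifs <;> simp

/-- the integral basis vectors -/
def zb (i : Fin 8) : Fin 8 → ℤ := fun j => if j = i then 1 else 0

lemma zm_cast (f g : Fin 8 → ℤ) (i : Fin 8) :
    zm (A := k) (fun j => (f j : k)) (fun j => (g j : k)) i = ((zm f g i : ℤ) : k) := by
  simp only [zm]
  fin_cases i <;> simp

lemma hb_mul (i j : Fin 8) (l : Fin 8) :
    (hb k i * hb k j).v l = ((zm (zb i) (zb j) l : ℤ) : k) := by
  rw [HC.v_mul, ← zm_cast]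
  have h1 : (hb k i).v = fun j => ((zb i j : ℤ) : k) := by
    funext j; exact hb_apply i j
  have h2 : (hb k j).v = fun l => ((zb j l : ℤ) : k) := by
    funext l; exact hb_apply j l
  rw [h1, h2]

lemma zm_rel : ∀ a b c d : Fin 8, a < c → a < d → c < b → d < b →
    a.val + b.val = c.val + d.val → ∀ l, zm (zb a) (zb b) l + zm (zb c) (zb d) l = 0 := by
  decide +kernel

lemma hb_rel {a b c d : Fin 8} (h1 : a < c) (h2 : a < d) (h3 : c < b) (h4 : d < b)
    (h5 : a.val + b.val = c.val + d.val) : hb k a * hb k b + hb k c * hb k d = 0 := by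
  apply HC.ext'
  funext l
  rw [HC.v_add, Pi.add_apply, hb_mul, hb_mul, HC.v_zero, Pi.zero_apply]
  have := zm_rel a b c d h1 h2 h3 h4 h5 l
  exact_mod_cast congrArg (fun z : ℤ => (z : k)) this

end HC

end Pool.Agent.Q14.Golod
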