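import Mathlib
import Pool.Agent.Q14.GolB

/-!
The `2 × 2` permanents of the Hankel matrices in `8` variables.
-/

set_option autoImplicit false

namespace Pool.Agent.Q14.Golod

open Finset

/-! ### Definitions -/

section Defs

/-- The generic `m × n` Hankel matrix over `k`, rows and columns numbered from `0`: the variables
are `y_0,…,y_{m+n-2}` and the entry in position `(i,j)` is `y_{i+j}`. -/
noncomputable def hankel (k : Type*) [Field k] (m n : ℕ) :
    Matrix (Fin m) (Fin n) (MvPolynomial (Fin (m + n - 1)) k) :=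
  fun i j => MvPolynomial.X ⟨i + j, by omega⟩

/-- `P₂(M)`: the ideal generated by the permanents of all `2 × 2` submatrices of `M`. -/
def perm2 {S : Type*} [CommRing S] {m n : ℕ} (M : Matrix (Fin m) (Fin n) S) : Ideal S :=
  Ideal.span {f | ∃ (i i' : Fin m) (j j' : Fin n), i < i' ∧ j < j' ∧
    f = M i j * M i' j' + M i j' * M i' j}

end Defs

section Conc

variable {k : Type*} [Field k]

lemma hb_mul_eq {i j l : Fin 8} {c : ℤ} (h : ∀ m, zm (zb i) (zb j) m = c * zb l m) :
    hb k i * hb k j = (c : k) • hb k l := by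
  apply HC.ext'
  funext m
  rw [hb_mul, h, HC.v_smul, Pi.smul_apply, hb_apply, Int.cast_mul]
  rfl

lemma zm_zero_tab : ∀ i j : Fin 8, 4 ≤ i.val + j.val → i.val + j.val ≤ 10 →
    ∀ m, zm (zb i) (zb j) m = 0 * zb 0 m := by
  decide +kernel

lemma zm_tab0 : ∀ j : Fin 8, j.val ≤ 3 → ∀ m, zm (zb 0) (zb j) m = 1 * zb j m := by
  decide +kernel

lemma zm_tab7 : ∀ j : Fin 8, 4 ≤ j.val → ∀ m, zm (zb 7) (zb j) m = 1 * zb j m := by
  decide +kernel

lemma zm_tab11 : ∀ m, zm (zb 1) (zb 1) m = (-1) * zb 2 m := by decide +kernel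
lemma zm_tab12 : ∀ m, zm (zb 1) (zb 2) m = (-1) * zb 3 m := by decide +kernel
lemma zm_tab66 : ∀ m, zm (zb 6) (zb 6) m = (-1) * zb 5 m := by decide +kernel
lemma zm_tab65 : ∀ m, zm (zb 6) (zb 5) m = (-1) * zb 4 m := by decide +kernel

lemma hb_one : (1 : HC k) = hb k 0 + hb k 7 := by
  apply HC.ext'
  funext m
  rw [HC.v_add, Pi.add_apply, hb_apply, hb_apply, HC.v_one]
  fin_cases m <;> simp

lemma cases_tab : ∀ i j : Fin 8, (4 ≤ i.val + j.val ∧ i.val + j.val ≤ 10) ∨
    (i = 0 ∧ j.val ≤ 3) ∨ (j = 0 ∧ i.val ≤ 3) ∨ (i = 1 ∧ j = 1) ∨ (i = 1 ∧ j = 2) ∨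
    (i = 2 ∧ j = 1) ∨ (i = 7 ∧ 4 ≤ j.val) ∨ (j = 7 ∧ 4 ≤ i.val) ∨ (i = 6 ∧ j = 6) ∨
    (i = 6 ∧ j = 5) ∨ (i = 5 ∧ j = 6) := by
  decide +kernel

theorem golod_of_table {J : Ideal (MvPolynomial (Fin (7 + 1)) k)}
    (hJ : ∀ f ∈ J, bigPhi (hb k) f = 0) (y : Fin 8 → MvPolynomial (Fin (7 + 1)) k ⧸ J)
    (hy : ∀ i, y i = Ideal.Quotient.mk J (MvPolynomial.X i))
    (hz : ∀ i j : Fin 8, 4 ≤ i.val + j.val → i.val + j.val ≤ 10 → y i * y j = 0)
    (h11 : y 0 * y 2 + y 1 * y 1 = 0) (h12 : y 0 * y 3 + y 1 * y 2 = 0)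
    (h66 : y 5 * y 7 + y 6 * y 6 = 0) (h65 : y 4 * y 7 + y 5 * y 6 = 0) : IsGolod J := by
  refine isGolod_of_emb (emb_of_rel (hb k) hJ ?_)
  intro i j
  have h1 : sig (hb k) J 1 = y 0 + y 7 := by
    rw [hb_one, map_add, sig_basis, sig_basis, hy, hy]
  have hs : ∀ (l : Fin 8) (c : ℤ), sig (hb k) J ((c : k) • hb k l) = (c : k) • y l := by
    intro l c
    rw [map_smul, sig_basis, hy]
  rw [← hy, ← hy, h1]
  rcases cases_tab i j with h | ⟨rfl, h⟩ | ⟨rfl, h⟩ | ⟨rfl, rfl⟩ | ⟨rfl, rfl⟩ | ⟨rfl, rfl⟩ |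
    ⟨rfl, h⟩ | ⟨rfl, h⟩ | ⟨rfl, rfl⟩ | ⟨rfl, rfl⟩ | ⟨rfl, rfl⟩
  · rw [hb_mul_eq (zm_zero_tab i j h.1 h.2), hs, hz i j h.1 h.2]
    simp
  · rw [hb_mul_eq (zm_tab0 j h), hs, Int.cast_one, one_smul, add_mul,
      hz 7 j (by change 4 ≤ 7 + j.val; omega) (by change 7 + j.val ≤ 10; omega), add_zero]
  · rw [mul_comm (hb k i), hb_mul_eq (zm_tab0 i h), hs, Int.cast_one, one_smul, add_mul,
      hz 7 i (by change 4 ≤ 7 + i.val; omega) (by change 7 + i.val ≤ 10; omega), add_zero, mul_comm]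
  · rw [hb_mul_eq zm_tab11, hs, Int.cast_neg, Int.cast_one, neg_smul, one_smul]
    linear_combination h11 + hz 7 2 (by decide) (by decide)
  · rw [hb_mul_eq zm_tab12, hs, Int.cast_neg, Int.cast_one, neg_smul, one_smul]
    linear_combination h12 + hz 7 3 (by decide) (by decide)
  · rw [mul_comm (hb k 2), hb_mul_eq zm_tab12, hs, Int.cast_neg, Int.cast_one, neg_smul, one_smul]
    linear_combination h12 + hz 7 3 (by decide) (by decide)
  · rw [hb_mul_eq (zm_tab7 j h), hs, Int.cast_one, one_smul, add_mul,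
      hz 0 j (by change 4 ≤ 0 + j.val; omega) (by change 0 + j.val ≤ 10; omega), zero_add]
  · rw [mul_comm (hb k i), hb_mul_eq (zm_tab7 i h), hs, Int.cast_one, one_smul, add_mul,
      hz 0 i (by change 4 ≤ 0 + i.val; omega) (by change 0 + i.val ≤ 10; omega), zero_add, mul_comm]
  · rw [hb_mul_eq zm_tab66, hs, Int.cast_neg, Int.cast_one, neg_smul, one_smul]
    linear_combination h66 + hz 0 5 (by decide) (by decide)
  · rw [hb_mul_eq zm_tab65, hs, Int.cast_neg, Int.cast_one, neg_smul, one_smul]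
    linear_combination h65 + hz 0 4 (by decide) (by decide)
  · rw [mul_comm (hb k 5), hb_mul_eq zm_tab65, hs, Int.cast_neg, Int.cast_one, neg_smul, one_smul]
    linear_combination h65 + hz 0 4 (by decide) (by decide)

/-- all the relations from those with `p ≤ 2`, `q ≤ 4` -/
theorem golod_of_rels (h2 : (2 : k) ≠ 0) {J : Ideal (MvPolynomial (Fin (7 + 1)) k)}
    (hJ : ∀ f ∈ J, bigPhi (hb k) f = 0) (y : Fin 8 → MvPolynomial (Fin (7 + 1)) k ⧸ J)
    (hy : ∀ i, y i = Ideal.Quotient.mk J (MvPolynomial.X i))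
    (P : ∀ (a p q : ℕ) (h : a + p + q < 8), 1 ≤ p → p ≤ 2 → 1 ≤ q → q ≤ 4 →
      y ⟨a, by omega⟩ * y ⟨a + p + q, h⟩ + y ⟨a + p, by omega⟩ * y ⟨a + q, by omega⟩ = 0)
    (h07 : y 0 * y 7 + y 2 * y 5 = 0 ∨ y 0 * y 7 + y 3 * y 4 = 0) : IsGolod J := by
  have htwo : ∀ x : MvPolynomial (Fin (7 + 1)) k ⧸ J, x + x = 0 → x = 0 := by
    intro x hx
    have h3 : (2 : k) • x = 0 := by rw [two_smul, hx]
    have h4 : x = (2 : k)⁻¹ • (2 : k) • x := by rw [smul_smul, inv_mul_cancel₀ h2, one_smul]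
    rw [h4, h3, smul_zero]
  have tri : ∀ u v w : MvPolynomial (Fin (7 + 1)) k ⧸ J, u + v = 0 → u + w = 0 → v + w = 0 →
      u = 0 ∧ v = 0 ∧ w = 0 := by
    intro u v w h1 h2 h3
    refine ⟨htwo _ ?_, htwo _ ?_, htwo _ ?_⟩
    · linear_combination h1 + h2 - h3
    · linear_combination h1 - h2 + h3
    · linear_combination h2 + h3 - h1
  have e4 : ∀ (a : ℕ) (h : a + 4 < 8), y ⟨a, by omega⟩ * y ⟨a + 4, h⟩ = 0 ∧
      y ⟨a + 1, by omega⟩ * y ⟨a + 3, by omega⟩ = 0 ∧
      y ⟨a + 2, by omega⟩ * y ⟨a + 2, by omega⟩ = 0 := fun a h =>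
    tri _ _ _ (P a 1 3 (by omega) (by omega) (by omega) (by omega) (by omega))
      (P a 2 2 (by omega) (by omega) (by omega) (by omega) (by omega))
      (P (a + 1) 1 1 (by omega) (by omega) (by omega) (by omega) (by omega))
  have e5 : ∀ (a : ℕ) (h : a + 5 < 8), y ⟨a, by omega⟩ * y ⟨a + 5, h⟩ = 0 ∧
      y ⟨a + 1, by omega⟩ * y ⟨a + 4, by omega⟩ = 0 ∧
      y ⟨a + 2, by omega⟩ * y ⟨a + 3, by omega⟩ = 0 := fun a h =>
    tri _ _ _ (P a 1 4 (by omega) (by omega) (by omega) (by omega) (by omega))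
      (P a 2 3 (by omega) (by omega) (by omega) (by omega) (by omega))
      (P (a + 1) 1 2 (by omega) (by omega) (by omega) (by omega) (by omega))
  have z06 : y 0 * y 6 = 0 := by
    have := P 0 2 4 (by omega) (by omega) (by omega) (by omega) (by omega)
    exact (add_eq_zero_iff_eq_neg.1 this).trans (neg_eq_zero.2 (e4 1 (by omega)).2.1)
  have z17 : y 1 * y 7 = 0 := by
    have := P 1 2 4 (by omega) (by omega) (by omega) (by omega) (by omega)
    exact (add_eq_zero_iff_eq_neg.1 this).trans (neg_eq_zero.2 (e4 2 (by omega)).2.1)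
  have z25 : y 2 * y 5 = 0 := (e5 1 (by omega)).2.1
  have z34 : y 3 * y 4 = 0 := (e5 1 (by omega)).2.2
  have z07 : y 0 * y 7 = 0 := by
    rcases h07 with h | h
    · rw [z25, add_zero] at h
      exact h
    · rw [z34, add_zero] at h
      exact h
  have hz : ∀ i j : Fin 8, i ≤ j → 4 ≤ i.val + j.val → i.val + j.val ≤ 10 → y i * y j = 0 := by
    intro i j hij h3 h4
    have h5 : j.val - i.val = 0 ∨ j.val - i.val = 1 ∨ j.val - i.val = 2 ∨ j.val - i.val = 3 ∨
        j.val - i.val = 4 ∨ j.val - i.val = 5 ∨ j.val - i.val = 6 ∨ j.val - i.val = 7 := by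
      omega
    have hij' : i.val ≤ j.val := hij
    rcases h5 with h | h | h | h | h | h | h | h
    · have hi : i = ⟨i.val - 2 + 2, by omega⟩ := Fin.ext (by change i.val = i.val - 2 + 2; omega)
      have hj : j = ⟨i.val - 2 + 2, by omega⟩ := Fin.ext (by change j.val = i.val - 2 + 2; omega)
      exact (congrArg₂ (fun a b => y a * y b) hi hj).trans (e4 (i.val - 2) (by omega)).2.2
    · have hi : i = ⟨i.val - 2 + 2, by omega⟩ := Fin.ext (by change i.val = i.val - 2 + 2; omega)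
      have hj : j = ⟨i.val - 2 + 3, by omega⟩ := Fin.ext (by change j.val = i.val - 2 + 3; omega)
      exact (congrArg₂ (fun a b => y a * y b) hi hj).trans (e5 (i.val - 2) (by omega)).2.2
    · have hi : i = ⟨i.val - 1 + 1, by omega⟩ := Fin.ext (by change i.val = i.val - 1 + 1; omega)
      have hj : j = ⟨i.val - 1 + 3, by omega⟩ := Fin.ext (by change j.val = i.val - 1 + 3; omega)
      exact (congrArg₂ (fun a b => y a * y b) hi hj).trans (e4 (i.val - 1) (by omega)).2.1
    · have hi : i = ⟨i.val - 1 + 1, by omega⟩ := Fin.ext (by change i.val = i.val - 1 + 1; omega)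
      have hj : j = ⟨i.val - 1 + 4, by omega⟩ := Fin.ext (by change j.val = i.val - 1 + 4; omega)
      exact (congrArg₂ (fun a b => y a * y b) hi hj).trans (e5 (i.val - 1) (by omega)).2.1
    · have hj : j = ⟨i.val + 4, by omega⟩ := Fin.ext (by change j.val = i.val + 4; omega)
      exact (congrArg (fun b => y i * y b) hj).trans (e4 i.val (by omega)).1
    · have hj : j = ⟨i.val + 5, by omega⟩ := Fin.ext (by change j.val = i.val + 5; omega)
      exact (congrArg (fun b => y i * y b) hj).trans (e5 i.val (by omega)).1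
    · have h6 : i.val = 0 ∨ i.val = 1 := by omega
      rcases h6 with h6 | h6
      · have hi : i = 0 := Fin.ext h6
        have hj : j = 6 := Fin.ext (by change j.val = 6; omega)
        rw [hi, hj, z06]
      · have hi : i = 1 := Fin.ext h6
        have hj : j = 7 := Fin.ext (by change j.val = 7; omega)
        rw [hi, hj, z17]
    · have hi : i = 0 := Fin.ext (by change i.val = 0; omega)
      have hj : j = 7 := Fin.ext (by change j.val = 7; omega)
      rw [hi, hj, z07]
  refine golod_of_table hJ y hy ?_ (P 0 1 1 (by omega) (by omega) (by omega) (by omega) (by omega))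
    (P 0 1 2 (by omega) (by omega) (by omega) (by omega) (by omega))
    (P 5 1 1 (by omega) (by omega) (by omega) (by omega) (by omega)) ?_
  · intro i j h3 h4
    rcases le_total i j with h | h
    · exact hz i j h h3 h4
    · rw [mul_comm]
      exact hz j i h (by omega) (by omega)
  · exact (P 4 1 2 (by omega) (by omega) (by omega) (by omega) (by omega))

lemma bigPhi_hankel {m n : ℕ} (h : m + n - 1 = 7 + 1)
    (f : MvPolynomial (Fin (m + n - 1)) k) (hf : f ∈ perm2 (hankel k m n)) :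
    bigPhi (hb k) (MvPolynomial.rename (Fin.cast h) f) = 0 := by
  have h1 : perm2 (hankel k m n) ≤ RingHom.ker
      ((bigPhi (hb k)).comp (MvPolynomial.rename (Fin.cast h)) :
        MvPolynomial (Fin (m + n - 1)) k →ₐ[k] Polynomial (HC k)) := by
    rw [perm2, Ideal.span_le]
    rintro _ ⟨i, i', j, j', hi, hj, rfl⟩
    have hi' : i.val < i'.val := hi
    have hj' : j.val < j'.val := hj
    rw [SetLike.mem_coe, RingHom.mem_ker]
    change (bigPhi (hb k)) (MvPolynomial.rename (Fin.cast h) _) = 0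
    simp only [hankel, map_add, map_mul, MvPolynomial.rename_X, bigPhi, MvPolynomial.aeval_X]
    have h3 := hb_rel (k := k) (a := Fin.cast h ⟨i.val + j.val, by omega⟩)
      (b := Fin.cast h ⟨i'.val + j'.val, by omega⟩) (c := Fin.cast h ⟨i.val + j'.val, by omega⟩)
      (d := Fin.cast h ⟨i'.val + j.val, by omega⟩)
      (by change i.val + j.val < i.val + j'.val; omega)
      (by change i.val + j.val < i'.val + j.val; omega)
      (by change i.val + j'.val < i'.val + j'.val; omega)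
      (by change i'.val + j.val < i'.val + j'.val; omega)
      (by change i.val + j.val + (i'.val + j'.val) = i.val + j'.val + (i'.val + j.val); omega)
    have h4 := congrArg Polynomial.C h3
    rw [map_add, map_mul, map_mul, map_zero] at h4
    linear_combination (Polynomial.X ^ 2 : Polynomial (HC k)) * h4
  exact h1 hf

lemma hankel_rel (m n a p q : ℕ) (hp : 1 ≤ p) (hp' : p + 1 ≤ m) (hq : 1 ≤ q) (hq' : q + 1 ≤ n)
    (h : a + p + q < m + n - 1) :
    (MvPolynomial.X ⟨a, by omega⟩ * MvPolynomial.X ⟨a + p + q, h⟩ +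
      MvPolynomial.X ⟨a + p, by omega⟩ * MvPolynomial.X ⟨a + q, by omega⟩ :
        MvPolynomial (Fin (m + n - 1)) k) ∈ perm2 (hankel k m n) := by
  refine Ideal.subset_span ⟨⟨min a (m - 1 - p), by omega⟩, ⟨min a (m - 1 - p) + p, by omega⟩,
    ⟨a - min a (m - 1 - p), by omega⟩, ⟨a - min a (m - 1 - p) + q, by omega⟩, ?_, ?_, ?_⟩
  · change min a (m - 1 - p) < min a (m - 1 - p) + p
    omega
  · change a - min a (m - 1 - p) < a - min a (m - 1 - p) + q
    omega
  · have e : ∀ (u v : ℕ) (hu : u < m + n - 1) (hv : v < m + n - 1), u = v →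
        (MvPolynomial.X ⟨u, hu⟩ : MvPolynomial (Fin (m + n - 1)) k) =
          MvPolynomial.X ⟨v, hv⟩ := by
      rintro u _ hu hv rfl
      rfl
    simp only [hankel]
    rw [e a _ _ (by omega) (show a = min a (m - 1 - p) + (a - min a (m - 1 - p)) by omega),
      e (a + p + q) _ _ (by omega) (show a + p + q =
        min a (m - 1 - p) + p + (a - min a (m - 1 - p) + q) by omega),
      e (a + p) _ _ (by omega) (show a + p =
        min a (m - 1 - p) + p + (a - min a (m - 1 - p)) by omega),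
      e (a + q) _ _ (by omega) (show a + q =
        min a (m - 1 - p) + (a - min a (m - 1 - p) + q) by omega)]
    ring

lemma hankel_rel' (m n a p q : ℕ) (hp : 1 ≤ p) (hp' : p + 1 ≤ m) (hq : 1 ≤ q) (hq' : q + 1 ≤ n)
    (h : a + p + q < m + n - 1) :
    Ideal.Quotient.mk (perm2 (hankel k m n)) (MvPolynomial.X ⟨a, by omega⟩) *
      Ideal.Quotient.mk (perm2 (hankel k m n)) (MvPolynomial.X ⟨a + p + q, h⟩) +
      Ideal.Quotient.mk (perm2 (hankel k m n)) (MvPolynomial.X ⟨a + p, by omega⟩) *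
        Ideal.Quotient.mk (perm2 (hankel k m n)) (MvPolynomial.X ⟨a + q, by omega⟩) = 0 := by
  rw [← map_mul, ← map_mul, ← map_add, Ideal.Quotient.eq_zero_iff_mem]
  exact hankel_rel m n a p q hp hp' hq hq' h

theorem golod_three_six (h2 : (2 : k) ≠ 0) : IsGolod (perm2 (hankel k 3 6)) := by
  refine golod_of_rels (J := perm2 (hankel k 3 6)) h2 ?_
    (fun i => Ideal.Quotient.mk (perm2 (hankel k 3 6)) (MvPolynomial.X i)) (fun i => rfl) ?_ ?_
  · intro f hf
    have := bigPhi_hankel (k := k) (m := 3) (n := 6) rfl f hf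
    rwa [show (Fin.cast (rfl : 3 + 6 - 1 = 7 + 1)) = id from rfl, MvPolynomial.rename_id] at this
  · intro a p q h hp hp' hq hq'
    exact hankel_rel' 3 6 a p q hp (by omega) hq (by omega) h
  · left
    exact hankel_rel' 3 6 0 2 5 (by omega) (by omega) (by omega) (by omega) (by omega)

theorem golod_four_five (h2 : (2 : k) ≠ 0) : IsGolod (perm2 (hankel k 4 5)) := by
  refine golod_of_rels (J := perm2 (hankel k 4 5)) h2 ?_
    (fun i => Ideal.Quotient.mk (perm2 (hankel k 4 5)) (MvPolynomial.X i)) (fun i => rfl) ?_ ?_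
  · intro f hf
    have := bigPhi_hankel (k := k) (m := 4) (n := 5) rfl f hf
    rwa [show (Fin.cast (rfl : 4 + 5 - 1 = 7 + 1)) = id from rfl, MvPolynomial.rename_id] at this
  · intro a p q h hp hp' hq hq'
    exact hankel_rel' 4 5 a p q hp (by omega) hq (by omega) h
  · right
    exact hankel_rel' 4 5 0 3 4 (by omega) (by omega) (by omega) (by omega) (by omega)

end Conc

end Pool.Agent.Q14.Golod
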