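import Pool.Agent.Q14.Mono

/-!
Graded pieces of ideals and Hilbert functions.
-/

set_option autoImplicit false

namespace Q14.Graded

open MvPolynomial Q14.Mono

variable {σ : Type*} {K : Type*} [Field K]

/-- The degree `d` part of an ideal, as a vector space of polynomials. -/
noncomputable def piece (J : Ideal (MvPolynomial σ K)) (d : ℕ) : Submodule K (MvPolynomial σ K) :=
  Submodule.restrictScalars K J ⊓ homogeneousSubmodule σ K d

lemma mem_piece {J : Ideal (MvPolynomial σ K)} {d : ℕ} {f : MvPolynomial σ K} :
    f ∈ piece J d ↔ f ∈ J ∧ f.IsHomogeneous d := by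
  unfold piece
  rw [Submodule.mem_inf, Submodule.restrictScalars_mem, mem_homogeneousSubmodule]

/-- The Hilbert function of `S/J`: the dimension of the image of the forms of degree `d`. -/
noncomputable def hilb (J : Ideal (MvPolynomial σ K)) (d : ℕ) : ℕ :=
  Module.finrank K
    ((homogeneousSubmodule σ K d).map (Ideal.Quotient.mkₐ K J).toLinearMap)

lemma finite_homogeneousSubmodule [Finite σ] (d : ℕ) :
    Module.Finite K (homogeneousSubmodule σ K d) := by
  rw [Module.Finite.iff_fg]
  exact homogeneousSubmodule_fg σ K d

lemma hilb_add_finrank_piece [Finite σ] (J : Ideal (MvPolynomial σ K)) (d : ℕ) :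
    hilb J d + Module.finrank K (piece J d) = Module.finrank K (homogeneousSubmodule σ K d) := by
  have := finite_homogeneousSubmodule (K := K) (σ := σ) d
  let φ : homogeneousSubmodule σ K d →ₗ[K] (MvPolynomial σ K ⧸ J) :=
    (Ideal.Quotient.mkₐ K J).toLinearMap.comp (homogeneousSubmodule σ K d).subtype
  have h1 := LinearMap.finrank_range_add_finrank_ker φ
  have h2 : LinearMap.range φ =
      (homogeneousSubmodule σ K d).map (Ideal.Quotient.mkₐ K J).toLinearMap := by
    rw [LinearMap.range_comp, Submodule.range_subtype]
  have h3 : (LinearMap.ker φ).map (homogeneousSubmodule σ K d).subtype = piece J d := by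
    ext f
    rw [mem_piece, Submodule.mem_map]
    constructor
    · rintro ⟨⟨g, hg⟩, hgk, rfl⟩
      refine ⟨?_, hg⟩
      rw [LinearMap.mem_ker] at hgk
      exact Ideal.Quotient.eq_zero_iff_mem.mp hgk
    · rintro ⟨hf, hfd⟩
      refine ⟨⟨f, hfd⟩, ?_, rfl⟩
      rw [LinearMap.mem_ker]
      exact Ideal.Quotient.eq_zero_iff_mem.mpr hf
  have h4 : Module.finrank K (LinearMap.ker φ) = Module.finrank K (piece J d) := by
    rw [← h3]
    exact (LinearEquiv.finrank_eq (Submodule.equivMapOfInjective _
      (Submodule.injective_subtype _) _))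
  rw [h2, h4] at h1
  exact h1

lemma finrank_piece_eq_of_hilb_eq [Finite σ] {I J : Ideal (MvPolynomial σ K)} {d : ℕ}
    (h : hilb I d = hilb J d) : Module.finrank K (piece I d) = Module.finrank K (piece J d) := by
  have h1 := hilb_add_finrank_piece I d
  have h2 := hilb_add_finrank_piece J d
  omega

lemma finite_piece [Finite σ] (J : Ideal (MvPolynomial σ K)) (d : ℕ) :
    Module.Finite K (piece J d) := by
  have := finite_homogeneousSubmodule (K := K) (σ := σ) d
  exact Submodule.finiteDimensional_of_le (inf_le_right : piece J d ≤ homogeneousSubmodule σ K d)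

/-- `p` is in the ideal of polynomials with all monomials of degree at least `d`, when it is
homogeneous of a degree at least `d`. -/
lemma mem_WtGE_of_isHomogeneous {p : MvPolynomial σ K} {d e : ℕ} (hp : p.IsHomogeneous e)
    (h : d ≤ e) : p ∈ WtGE K 1 d := by
  intro u hu
  have := hp (mem_support_iff.mp hu)
  rw [this]; exact h

/-- The component of lowest degree of a product. -/
lemma homogeneousComponent_mul {b g : MvPolynomial σ K} {d : ℕ} (hg : g ∈ WtGE K 1 d) :
    homogeneousComponent d (b * g) = C (coeff 0 b) * homogeneousComponent d g := by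
  classical
  ext u
  rw [coeff_homogeneousComponent, coeff_C_mul, coeff_homogeneousComponent]
  split_ifs with hu
  · rw [coeff_mul]
    rw [Finset.sum_eq_single (0, u)]
    · rintro ⟨v, w⟩ hvw hne
      rw [Finset.HasAntidiagonal.mem_antidiagonal] at hvw
      simp only at hvw ⊢
      by_cases hw : coeff w g = 0
      · rw [hw, mul_zero]
      · exfalso
        have h1 := hg w (mem_support_iff.mpr hw)
        have h2 : Finsupp.weight (1 : σ → ℕ) v + Finsupp.weight (1 : σ → ℕ) w
            = Finsupp.weight (1 : σ → ℕ) u := by rw [← map_add, hvw]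
        have h3 : Finsupp.weight (1 : σ → ℕ) u = d := by
          rw [← hu, Finsupp.degree_eq_weight_one]; rfl
        have h4 : v.degree = 0 := by
          rw [Finsupp.degree_eq_weight_one]
          show Finsupp.weight (1 : σ → ℕ) v = 0
          omega
        rw [Finsupp.degree_eq_zero_iff] at h4
        apply hne
        rw [h4, zero_add] at hvw
        rw [h4, hvw]
    · intro h
      exact absurd (Finset.HasAntidiagonal.mem_antidiagonal.mpr (zero_add u)) h
  · rw [mul_zero]

end Q14.Graded
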