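import Pool.Agent.Q233.MX.Stm2

/-!
# A numerical inequality (lemma job for the project of helper233)

`numB` is the statement `S_numB` with `100000` in place of `1000`.
-/

set_option autoImplicit false

namespace Pool.Agent.Q14.MXNumb

open Finset Real
open Pool.Agent.Q233.MX.W (I1 I2 QQ)

/-! ### Logarithms -/

theorem log_sub_le {x y : ℝ} (hx : 0 < x) (hy : 0 < y) : log y - log x ≤ (y - x) / x := by
  rw [← log_div hy.ne' hx.ne']
  have h := log_le_sub_one_of_pos (div_pos hy hx)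
  have e : (y - x) / x = y / x - 1 := by field_simp
  rw [e]
  exact h

theorem log_nat_nonneg (n : ℕ) : 0 ≤ log (n : ℝ) := log_natCast_nonneg n

theorem fact_lower (k : ℕ) : (k : ℝ) * log k - k ≤ log (k.factorial : ℝ) := by
  induction k with
  | zero => simp
  | succ k ih =>
    rw [Nat.factorial_succ, Nat.cast_mul, log_mul (by positivity) (by positivity)]
    rcases Nat.eq_zero_or_pos k with rfl | hk
    · simp
    · have hk' : (0 : ℝ) < k := by exact_mod_cast hk
      have h := log_sub_le hk' (by positivity : (0 : ℝ) < (k : ℝ) + 1)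
      have e : ((k : ℝ) + 1 - k) / k = 1 / k := by ring
      rw [e, le_div_iff₀ hk'] at h
      push_cast
      nlinarith

theorem fact_upper (k : ℕ) : log (k.factorial : ℝ) ≤ (k : ℝ) * log k - k + log k + 1 := by
  induction k with
  | zero => simp
  | succ k ih =>
    rw [Nat.factorial_succ, Nat.cast_mul, log_mul (by positivity) (by positivity)]
    rcases Nat.eq_zero_or_pos k with rfl | hk
    · simp
    · have hk' : (0 : ℝ) < k := by exact_mod_cast hk
      have h1 : (0 : ℝ) < (k : ℝ) + 1 := by positivity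
      have h := log_sub_le h1 hk'
      have e : ((k : ℝ) - (k + 1)) / (k + 1) = -1 / (k + 1) := by ring
      rw [e, le_div_iff₀ h1] at h
      push_cast
      nlinarith

/-- `Σ_{k ≤ n} k log k` -/
theorem xlogx_lower (n : ℕ) : (n : ℝ) ^ 2 / 2 * log n - (n : ℝ) ^ 2 / 4 ≤
    ∑ p ∈ range n, ((p : ℝ) + 1) * log ((p : ℝ) + 1) := by
  induction n with
  | zero => simp
  | succ n ih =>
    rw [sum_range_succ]
    rcases Nat.eq_zero_or_pos n with rfl | hn
    · simp
    · have hn' : (0 : ℝ) < n := by exact_mod_cast hn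
      have h1 : (0 : ℝ) < (n : ℝ) + 1 := by positivity
      have h := log_sub_le hn' h1
      have e : ((n : ℝ) + 1 - n) / n = 1 / n := by ring
      rw [e, le_div_iff₀ hn'] at h
      have h0 : 0 ≤ log ((n : ℝ) + 1) := by
        have := log_nat_nonneg (n + 1)
        push_cast at this
        exact this
      push_cast
      nlinarith [mul_le_mul_of_nonneg_left h hn'.le]

theorem sum_log (n : ℕ) : ∑ p ∈ range n, log ((p : ℝ) + 1) = log (n.factorial : ℝ) := by
  induction n with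
  | zero => simp
  | succ n ih =>
    rw [sum_range_succ, ih, Nat.factorial_succ, Nat.cast_mul, log_mul (by positivity) (by positivity)]
    push_cast
    ring

theorem sum_log_sub (p : ℕ) : ∑ q ∈ range p, log ((p : ℝ) - q) = log (p.factorial : ℝ) := by
  rw [← sum_log, ← sum_range_reflect]
  apply sum_congr rfl
  intro q hq
  rw [mem_range] at hq
  congr 1
  have h : ((p - 1 - q : ℕ) : ℝ) = p - 1 - q := by
    rw [Nat.cast_sub (by omega), Nat.cast_sub (by omega)]
    norm_num
  rw [h]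
  ring

theorem sum_log_add (p : ℕ) : ∑ q ∈ range p, log ((p : ℝ) + q + 2) =
    log ((2 * p + 1).factorial : ℝ) - log ((p + 1).factorial : ℝ) := by
  have h : ∀ j : ℕ, ∑ q ∈ range j, log ((p : ℝ) + q + 2) =
      log ((p + 1 + j).factorial : ℝ) - log ((p + 1).factorial : ℝ) := by
    intro j
    induction j with
    | zero => simp
    | succ j ih =>
      rw [sum_range_succ, ih, show p + 1 + (j + 1) = (p + 1 + j) + 1 by ring, Nat.factorial_succ (p + 1 + j),
        Nat.cast_mul, log_mul (by positivity) (by positivity)]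
      push_cast
      have e : (p : ℝ) + j + 2 = (p : ℝ) + 1 + j + 1 := by ring
      rw [e]
      ring
  rw [h p]
  congr 4
  ring

/-- the reflection of the pairs of indices -/
theorem refl_sum (G : ℕ → ℕ → ℝ) (n : ℕ) : ∑ i ∈ range n, ∑ j ∈ Ioo i n, G (n - 1 - i) (n - 1 - j) =
    ∑ p ∈ range n, ∑ q ∈ range p, G p q := by
  rw [← sum_range_reflect (fun p => ∑ q ∈ range p, G p q)]
  apply sum_congr rfl
  intro i hi
  rw [mem_range] at hi
  apply sum_nbij' (fun j => n - 1 - j) (fun q => n - 1 - q)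
  · intro j hj
    rw [mem_Ioo] at hj
    rw [mem_range]
    omega
  · intro q hq
    rw [mem_range] at hq
    rw [mem_Ioo]
    omega
  · intro j hj
    rw [mem_Ioo] at hj
    omega
  · intro q hq
    rw [mem_range] at hq
    omega
  · intro j hj
    rfl

theorem sum_pairs_const (n : ℕ) (c : ℝ) : ∑ p ∈ range n, ∑ _q ∈ range p, c = (n : ℝ) * (n - 1) / 2 * c := by
  induction n with
  | zero => simp
  | succ n ih =>
    rw [sum_range_succ, ih, sum_const, card_range, nsmul_eq_mul]
    push_cast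
    ring

theorem sum_pairs_lin (n : ℕ) : ∑ p ∈ range n, ∑ q ∈ range p, ((p : ℝ) + q + 1) = (n : ℝ) ^ 2 * (n - 1) / 2 := by
  have h : ∀ p j : ℕ, ∑ q ∈ range j, ((p : ℝ) + q + 1) = j * (p + 1) + (j : ℝ) * (j - 1) / 2 := by
    intro p j
    induction j with
    | zero => simp
    | succ j ih =>
      rw [sum_range_succ, ih]
      push_cast
      ring
  simp only [h]
  induction n with
  | zero => simp
  | succ n ih =>
    rw [sum_range_succ, ih]
    push_cast
    ring

/-! ### The logarithm of the weights -/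

section QQ
variable {n : ℕ} (hn : 1 ≤ n) (a : ℕ) {g : ℕ → ℝ} (hg : ∀ p, p < n → 0 < g p)
  (hm : ∀ q p, q < p → p < n → g q < g p)
include hn hg hm

theorem pair_pos (i j : ℕ) (hi : i < n) (hj : j ∈ Ioo i n) :
    0 < (g (n - 1 - i) + g (n - 1 - j)) * (g (n - 1 - i) - g (n - 1 - j)) ^ 2 / g (n - 1 - 0) := by
  rw [mem_Ioo] at hj
  have h1 := hg (n - 1 - i) (by omega)
  have h2 := hg (n - 1 - j) (by omega)
  have h3 := hg (n - 1 - 0) (by omega)
  have h4 := hm (n - 1 - j) (n - 1 - i) (by omega) (by omega)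
  have h5 : 0 < g (n - 1 - i) - g (n - 1 - j) := by linarith
  positivity

theorem QQ_pos : 0 < QQ n a (fun i => g (n - 1 - i)) := by
  unfold QQ
  apply mul_pos
  · apply prod_pos
    intro i hi
    apply prod_pos
    intro j hj
    exact pair_pos hn hg hm i j (mem_range.1 hi) hj
  · apply prod_pos
    intro i hi
    rw [mem_range] at hi
    have h1 := hg (n - 1 - i) (by omega)
    have h3 := hg (n - 1 - 0) (by omega)
    positivity

theorem log_QQ : log (QQ n a (fun i => g (n - 1 - i))) =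
    ∑ p ∈ range n, ∑ q ∈ range p, (log (g p + g q) + 2 * log (g p - g q) - log (g (n - 1))) +
      ((a : ℝ) + 1) * ∑ p ∈ range n, (3 / 2 * log (g p) - 1 / 2 * log (g (n - 1))) := by
  have hpos : ∀ i ∈ range n, ∀ j ∈ Ioo i n,
      (g (n - 1 - i) + g (n - 1 - j)) * (g (n - 1 - i) - g (n - 1 - j)) ^ 2 / g (n - 1 - 0) ≠ 0 :=
    fun i hi j hj => (pair_pos hn hg hm i j (mem_range.1 hi) hj).ne'
  have hpos2 : ∀ i ∈ range n, (g (n - 1 - i) * √(g (n - 1 - i) / g (n - 1 - 0))) ^ (a + 1) ≠ 0 := by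
    intro i hi
    rw [mem_range] at hi
    have h1 := hg (n - 1 - i) (by omega)
    have h3 := hg (n - 1 - 0) (by omega)
    positivity
  unfold QQ
  rw [log_mul (prod_ne_zero_iff.2 fun i hi => prod_ne_zero_iff.2 fun j hj => hpos i hi j hj)
    (prod_ne_zero_iff.2 hpos2), log_prod hpos2,
    log_prod (fun i hi => prod_ne_zero_iff.2 fun j hj => hpos i hi j hj)]
  congr 1
  · rw [← refl_sum (fun p q => log (g p + g q) + 2 * log (g p - g q) - log (g (n - 1)))]
    apply sum_congr rfl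
    intro i hi
    rw [log_prod (hpos i hi)]
    apply sum_congr rfl
    intro j hj
    rw [mem_range] at hi
    rw [mem_Ioo] at hj
    have h1 := hg (n - 1 - i) (by omega)
    have h2 := hg (n - 1 - j) (by omega)
    have h3 := hg (n - 1) (by omega)
    have h4 := hm (n - 1 - j) (n - 1 - i) (by omega) (by omega)
    have h5 : 0 < g (n - 1 - i) - g (n - 1 - j) := by linarith
    rw [Nat.sub_zero, log_div (by positivity) h3.ne', log_mul (by positivity) (by positivity), log_pow]
    push_cast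
    ring
  · rw [mul_sum, ← sum_range_reflect (fun p => ((a : ℝ) + 1) * (3 / 2 * log (g p) - 1 / 2 * log (g (n - 1))))]
    apply sum_congr rfl
    intro i hi
    rw [mem_range] at hi
    have h1 := hg (n - 1 - i) (by omega)
    have h3 := hg (n - 1) (by omega)
    rw [Nat.sub_zero, log_pow, log_mul h1.ne' (by positivity), log_sqrt (by positivity),
      log_div h1.ne' h3.ne']
    push_cast
    ring

end QQ

/-! ### The two profiles -/

theorem W_lower (p : ℕ) : ((p : ℝ) + 1) * log ((p : ℝ) + 1) + ((p : ℝ) + 1) * (2 * log 2 - 1) -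
    2 * log ((p : ℝ) + 1) - (log 2 + 1) ≤ log ((2 * p + 1).factorial : ℝ) - log ((p + 1).factorial : ℝ) := by
  have hP : (0 : ℝ) < (p : ℝ) + 1 := by positivity
  have h1 := fact_lower (2 * p + 2)
  have h2 := fact_upper (p + 1)
  have e1 : log ((2 * p + 2).factorial : ℝ) = log 2 + log ((p : ℝ) + 1) + log ((2 * p + 1).factorial : ℝ) := by
    rw [show 2 * p + 2 = (2 * p + 1) + 1 by ring, Nat.factorial_succ, Nat.cast_mul,
      log_mul (by positivity) (by positivity)]
    push_cast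
    rw [show (2 * (p : ℝ) + 1 + 1) = 2 * ((p : ℝ) + 1) by ring, log_mul (by norm_num) hP.ne']
  have e2 : log ((2 * p + 2 : ℕ) : ℝ) = log 2 + log ((p : ℝ) + 1) := by
    push_cast
    rw [show (2 * (p : ℝ) + 2) = 2 * ((p : ℝ) + 1) by ring, log_mul (by norm_num) hP.ne']
  rw [e1, e2] at h1
  push_cast at h1 h2
  nlinarith

theorem W_sum {n : ℕ} (hn : 1 ≤ n) : (n : ℝ) ^ 2 / 2 * log n + (log 2 - 3 / 4) * (n : ℝ) ^ 2 - 2 * n * log n - 2 * n ≤
    ∑ p ∈ range n, (log ((2 * p + 1).factorial : ℝ) - log ((p + 1).factorial : ℝ)) := by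
  have h1 := sum_le_sum (fun p (_ : p ∈ range n) => W_lower p)
  refine le_trans ?_ h1
  rw [sum_sub_distrib, sum_sub_distrib, sum_add_distrib, ← sum_mul, ← mul_sum, sum_log, sum_const, card_range,
    nsmul_eq_mul]
  have h2 := xlogx_lower n
  have h3 : log (n.factorial : ℝ) ≤ n * log n := by
    have h4 : (n.factorial : ℝ) ≤ (n : ℝ) ^ n := by exact_mod_cast Nat.factorial_le_pow n
    have h5 := log_le_log (by positivity) h4
    rwa [log_pow] at h5
  have h4 : ∑ p ∈ range n, ((p : ℝ) + 1) = (n : ℝ) * (n + 1) / 2 := by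
    clear h1 h2 h3 hn
    induction n with
    | zero => simp
    | succ n ih =>
      rw [sum_range_succ, ih]
      push_cast
      ring
  rw [h4]
  have hl2 : (0.69 : ℝ) < log 2 := by linarith [log_two_gt_d9]
  have hl2' : log 2 < (0.7 : ℝ) := by linarith [log_two_lt_d9]
  have hN : (0 : ℝ) ≤ n := Nat.cast_nonneg n
  nlinarith [mul_nonneg hN (by linarith : (0 : ℝ) ≤ 2 * log 2 - 1)]

theorem log_succ_le {n : ℕ} (hn : 1 ≤ n) : log ((n : ℝ) + 1) ≤ log n + 1 / n := by
  have hN : (0 : ℝ) < n := by exact_mod_cast hn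
  have h := log_sub_le hN (by positivity : (0 : ℝ) < (n : ℝ) + 1)
  have e : ((n : ℝ) + 1 - n) / n = 1 / n := by ring
  rw [e] at h
  linarith

/-- the superfactorial -/
noncomputable def SF (n : ℕ) : ℝ := ∑ p ∈ range n, log (p.factorial : ℝ)

theorem profile1 {n : ℕ} (hn : 1 ≤ n) (a : ℕ) : ∃ f : ℕ → ℝ, (∀ i, i < n → 0 < f i) ∧
    (∀ i j, i < j → j < n → f j < f i) ∧ (∑ i ∈ range n, f i = 1) ∧ 0 < QQ n a f ∧
    2 * SF n + ((n : ℝ) ^ 2 / 2 * log n + (log 2 - 3 / 4) * (n : ℝ) ^ 2 - 2 * n * log n - 2 * n) +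
      ((n : ℝ) ^ 2 / 2 * (2 * log 2 - 5 * log n) - n * log 2 - n) +
      ((a : ℝ) + 1) * (n * (log 2 - log n - 3 / 2) - 1) ≤ log (QQ n a f) := by
  have hN : (0 : ℝ) < n := by exact_mod_cast hn
  obtain ⟨g, hgd⟩ : ∃ g : ℕ → ℝ, ∀ p, g p = 2 * ((p : ℝ) + 1) / (n * (n + 1)) := ⟨_, fun _ => rfl⟩
  have hg : ∀ p, p < n → 0 < g p := fun p _ => by rw [hgd]; positivity
  have hm : ∀ q p, q < p → p < n → g q < g p := by
    intro q p hqp _
    rw [hgd, hgd]
    have : (q : ℝ) < p := by exact_mod_cast hqp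
    gcongr
  refine ⟨fun i => g (n - 1 - i), fun i hi => hg _ (by omega), fun i j hij hj => hm _ _ (by omega) (by omega),
    ?_, QQ_pos hn a hg hm, ?_⟩
  · rw [sum_range_reflect g n]
    simp only [hgd]
    rw [← sum_div, ← mul_sum]
    have h4 : ∀ n : ℕ, ∑ p ∈ range n, ((p : ℝ) + 1) = (n : ℝ) * (n + 1) / 2 := by
      intro n
      induction n with
      | zero => simp
      | succ n ih =>
        rw [sum_range_succ, ih]
        push_cast
        ring
    rw [h4]
    field_simp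
  · rw [log_QQ hn a hg hm]
    have hlast : log (g (n - 1)) = log 2 - log ((n : ℝ) + 1) := by
      rw [hgd]
      have e : ((n - 1 : ℕ) : ℝ) = n - 1 := by
        rw [Nat.cast_sub hn]
        norm_num
      rw [e, show 2 * ((n : ℝ) - 1 + 1) / (n * (n + 1)) = 2 / (n + 1) by field_simp; ring,
        log_div (by norm_num) (by positivity)]
    have hlg : ∀ p : ℕ, log (g p) = log 2 + log ((p : ℝ) + 1) - log n - log ((n : ℝ) + 1) := by
      intro p
      rw [hgd, log_div (by positivity) (by positivity), log_mul (by norm_num) (by positivity),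
        log_mul (by positivity) (by positivity)]
      ring
    have hp1 : ∀ p ∈ range n, ∀ q ∈ range p, log (g p + g q) + 2 * log (g p - g q) - log (g (n - 1)) =
        (2 * log 2 - 3 * log n - 2 * log ((n : ℝ) + 1)) + log ((p : ℝ) + q + 2) + 2 * log ((p : ℝ) - q) := by
      intro p _ q hq
      rw [mem_range] at hq
      have hq' : (0 : ℝ) < (p : ℝ) - q := by
        have : (q : ℝ) < p := by exact_mod_cast hq
        linarith
      have e1 : g p + g q = 2 * ((p : ℝ) + q + 2) / (n * (n + 1)) := by rw [hgd, hgd]; ring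
      have e2 : g p - g q = 2 * ((p : ℝ) - q) / (n * (n + 1)) := by rw [hgd, hgd]; ring
      have d1 : (n : ℝ) * (n + 1) ≠ 0 := (mul_pos hN (by linarith)).ne'
      have l1 : log (2 * ((p : ℝ) + q + 2)) = log 2 + log ((p : ℝ) + q + 2) :=
        log_mul (by norm_num) (by positivity)
      have l2 : log (2 * ((p : ℝ) - q)) = log 2 + log ((p : ℝ) - q) := log_mul (by norm_num) hq'.ne'
      have l3 : log ((n : ℝ) * (n + 1)) = log n + log ((n : ℝ) + 1) := log_mul hN.ne' (by positivity)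
      rw [hlast, e1, e2, log_div (by positivity) d1, log_div (mul_pos two_pos hq').ne' d1, l1, l2, l3]
      ring
    have hS : ∑ p ∈ range n, ∑ q ∈ range p, (log (g p + g q) + 2 * log (g p - g q) - log (g (n - 1))) =
        (n : ℝ) * (n - 1) / 2 * (2 * log 2 - 3 * log n - 2 * log ((n : ℝ) + 1)) +
        ∑ p ∈ range n, (log ((2 * p + 1).factorial : ℝ) - log ((p + 1).factorial : ℝ)) + 2 * SF n := by
      rw [sum_congr rfl fun p hp => sum_congr rfl fun q hq => hp1 p hp q hq]
      simp only [sum_add_distrib, ← mul_sum, sum_log_add, sum_log_sub]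
      rw [sum_pairs_const]
      rfl
    have hT : ∑ p ∈ range n, (3 / 2 * log (g p) - 1 / 2 * log (g (n - 1))) =
        n * log 2 - 3 / 2 * (n * log n) - n * log ((n : ℝ) + 1) + 3 / 2 * log (n.factorial : ℝ) := by
      simp only [hlast]
      simp only [hlg]
      rw [sum_sub_distrib, ← mul_sum, sum_sub_distrib, sum_sub_distrib, sum_add_distrib, sum_log]
      simp only [sum_const, card_range, nsmul_eq_mul]
      ring
    rw [hS, hT]
    have h1 := W_sum hn
    have h2 := fact_lower n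
    have h3 := log_succ_le hn
    have h4 : (n : ℝ) * log ((n : ℝ) + 1) ≤ n * log n + 1 := by
      have := mul_le_mul_of_nonneg_left h3 hN.le
      have e : (n : ℝ) * (log n + 1 / n) = n * log n + 1 := by field_simp
      rwa [e] at this
    have hA : (0 : ℝ) ≤ (a : ℝ) + 1 := by positivity
    have h5 : ((a : ℝ) + 1) * (n * (log 2 - log n - 3 / 2) - 1) ≤ ((a : ℝ) + 1) *
        (n * log 2 - 3 / 2 * (n * log n) - n * log ((n : ℝ) + 1) + 3 / 2 * log (n.factorial : ℝ)) := by
      apply mul_le_mul_of_nonneg_left _ hA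
      linarith
    have hl0 := log_nat_nonneg n
    have hN1 : (1 : ℝ) ≤ n := by exact_mod_cast hn
    have h6 : (n : ℝ) ^ 2 / 2 * (2 * log 2 - 5 * log n) - n * log 2 - n ≤
        (n : ℝ) * (n - 1) / 2 * (2 * log 2 - 3 * log n - 2 * log ((n : ℝ) + 1)) := by
      have h7 := mul_le_mul_of_nonneg_left h4 (by linarith : (0 : ℝ) ≤ (n : ℝ) - 1)
      nlinarith [mul_nonneg hN.le hl0]
    linarith

theorem log_mid {u : ℝ} (hu : 1 < u) :
    1 / 2 * ((u + 1) * log (u + 1) - (u - 1) * log (u - 1)) - 1 ≤ log u := by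
  have key : ∀ x : ℝ, 1 ≤ x → log x ≤ (x - x⁻¹) / 2 := by
    intro x hx
    have h1 : 0 ≤ log x := log_nonneg hx
    have h2 := self_le_sinh_iff.2 h1
    rwa [sinh_log (by linarith)] at h2
  have h0 : 0 < u - 1 := by linarith
  have h1 : 0 < u := by linarith
  have k1 := key ((u + 1) / u) (by rw [le_div_iff₀ h1]; linarith)
  have k2 := key (u / (u - 1)) (by rw [le_div_iff₀ h0]; linarith)
  rw [log_div (by positivity) h1.ne'] at k1
  rw [log_div h1.ne' h0.ne'] at k2
  have m1 := mul_le_mul_of_nonneg_left k1 (by linarith : 0 ≤ u + 1)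
  have m2 := mul_le_mul_of_nonneg_left k2 h0.le
  have e1 : (u + 1) * (((u + 1) / u - ((u + 1) / u)⁻¹) / 2) = 1 + 1 / (2 * u) := by
    field_simp
    ring
  have e2 : (u - 1) * ((u / (u - 1) - (u / (u - 1))⁻¹) / 2) = 1 - 1 / (2 * u) := by
    field_simp
    ring
  rw [e1] at m1
  rw [e2] at m2
  linarith

theorem sum_log_odd {n : ℕ} (hn : 1 ≤ n) : n * log n + 3 / 2 * (n * log 3) - n ≤
    ∑ p ∈ range n, log ((n : ℝ) + 2 * p + 1) := by
  have hN : (0 : ℝ) < n := by exact_mod_cast hn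
  have h1 : ∀ p ∈ range n, 1 / 2 * ((((n : ℝ) + 2 * ((p + 1 : ℕ) : ℝ)) * log ((n : ℝ) + 2 * ((p + 1 : ℕ) : ℝ))) -
      (((n : ℝ) + 2 * (p : ℝ)) * log ((n : ℝ) + 2 * (p : ℝ)))) - 1 ≤ log ((n : ℝ) + 2 * p + 1) := by
    intro p _
    have hp : (0 : ℝ) ≤ p := Nat.cast_nonneg p
    have h2 := log_mid (u := (n : ℝ) + 2 * p + 1) (by linarith)
    have e1 : (n : ℝ) + 2 * p + 1 + 1 = (n : ℝ) + 2 * ((p + 1 : ℕ) : ℝ) := by push_cast; ring
    have e2 : (n : ℝ) + 2 * p + 1 - 1 = (n : ℝ) + 2 * (p : ℝ) := by ring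
    rw [e1, e2] at h2
    exact h2
  refine le_trans ?_ (sum_le_sum h1)
  rw [sum_sub_distrib, ← mul_sum,
    sum_range_sub (fun p : ℕ => ((n : ℝ) + 2 * (p : ℝ)) * log ((n : ℝ) + 2 * (p : ℝ))), sum_const, card_range,
    nsmul_eq_mul]
  have e3 : (n : ℝ) + 2 * (n : ℝ) = 3 * n := by ring
  rw [e3, log_mul (by norm_num) hN.ne']
  push_cast
  simp only [mul_zero, add_zero, mul_one]
  apply le_of_eq
  ring

theorem log_chord {v : ℝ} (h0 : 0 ≤ v) (h1 : v ≤ 1) : v * log 3 ≤ log (1 + 2 * v) := by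
  have h := rpow_one_add_le_one_add_mul_self (by norm_num : (-1 : ℝ) ≤ 2) h0 h1
  have h2 := log_le_log (by positivity) h
  rw [log_rpow (by norm_num)] at h2
  have e : (1 : ℝ) + 2 = 3 := by norm_num
  rw [e, mul_comm v 2] at h2
  exact h2

theorem profile2 {n : ℕ} (hn : 1 ≤ n) (a : ℕ) : ∃ f : ℕ → ℝ, (∀ i, i < n → 0 < f i) ∧
    (∀ i j, i < j → j < n → f j < f i) ∧ (∑ i ∈ range n, f i = 1) ∧ 0 < QQ n a f ∧
    2 * SF n + (n : ℝ) * (n - 1) / 2 * (-4 * log n + log 2 - 1 / 2 * log 3) +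
      ((a : ℝ) + 1) * (n * (-log n + 7 / 4 * log 3 - log 2 - 3 / 2)) ≤ log (QQ n a f) := by
  have hN : (0 : ℝ) < n := by exact_mod_cast hn
  have hN1 : (1 : ℝ) ≤ n := by exact_mod_cast hn
  obtain ⟨g, hgd⟩ : ∃ g : ℕ → ℝ, ∀ p, g p = ((n : ℝ) + 2 * p + 1) / (2 * n ^ 2) := ⟨_, fun _ => rfl⟩
  have hg : ∀ p, p < n → 0 < g p := fun p _ => by rw [hgd]; positivity
  have hm : ∀ q p, q < p → p < n → g q < g p := by
    intro q p hqp _
    rw [hgd, hgd]
    have : (q : ℝ) < p := by exact_mod_cast hqp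
    gcongr
  refine ⟨fun i => g (n - 1 - i), fun i hi => hg _ (by omega), fun i j hij hj => hm _ _ (by omega) (by omega),
    ?_, QQ_pos hn a hg hm, ?_⟩
  · rw [sum_range_reflect g n]
    simp only [hgd]
    rw [← sum_div]
    have h4 : ∀ k : ℕ, ∑ p ∈ range k, ((n : ℝ) + 2 * p + 1) = (k : ℝ) * n + (k : ℝ) ^ 2 := by
      intro k
      induction k with
      | zero => simp
      | succ k ih =>
        rw [sum_range_succ, ih]
        push_cast
        ring
    rw [h4]
    field_simp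
    ring
  · rw [log_QQ hn a hg hm]
    have hlast : log (g (n - 1)) ≤ log 3 - log 2 - log n := by
      have e : ((n - 1 : ℕ) : ℝ) = n - 1 := by
        rw [Nat.cast_sub hn]
        norm_num
      have h1 : g (n - 1) ≤ 3 / (2 * n) := by
        rw [hgd, e, div_le_div_iff₀ (by positivity) (by positivity)]
        nlinarith
      have h2 := log_le_log (hg (n - 1) (by omega)) h1
      rw [log_div (by norm_num) (by positivity), log_mul (by norm_num) hN.ne'] at h2
      linarith
    have hlg : ∀ p : ℕ, log (g p) = log ((n : ℝ) + 2 * p + 1) - log 2 - 2 * log n := by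
      intro p
      rw [hgd, log_div (by positivity) (by positivity), log_mul (by norm_num) (by positivity), log_pow]
      push_cast
      ring
    have hp1 : ∀ p ∈ range n, ∀ q ∈ range p, (-4 * log n + log 2 - log 3) +
        log 3 / (2 * n) * ((p : ℝ) + q + 1) + 2 * log ((p : ℝ) - q) ≤
        log (g p + g q) + 2 * log (g p - g q) - log (g (n - 1)) := by
      intro p hp q hq
      rw [mem_range] at hq hp
      have hqp : (q : ℝ) < p := by exact_mod_cast hq
      have hq' : (0 : ℝ) < (p : ℝ) - q := by linarith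
      have hpn : (p : ℝ) + 1 ≤ n := by exact_mod_cast hp
      have hq0 : (0 : ℝ) ≤ q := Nat.cast_nonneg q
      have e1 : g p + g q = ((n : ℝ) + p + q + 1) / n ^ 2 := by
        rw [hgd, hgd]
        field_simp
        ring
      have e2 : g p - g q = ((p : ℝ) - q) / n ^ 2 := by
        rw [hgd, hgd]
        field_simp
        ring
      rw [e1, e2, log_div (by positivity) (by positivity), log_div (by positivity) (by positivity), log_pow]
      have hv := log_chord (v := ((p : ℝ) + q + 1) / (2 * n)) (by positivity)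
        (by rw [div_le_one (by positivity)]; linarith)
      have e3 : (n : ℝ) + p + q + 1 = n * (1 + 2 * (((p : ℝ) + q + 1) / (2 * n))) := by
        field_simp
        ring
      have h0 : (0 : ℝ) < 1 + 2 * (((p : ℝ) + q + 1) / (2 * n)) := by positivity
      rw [e3, log_mul hN.ne' h0.ne']
      have e4 : log 3 / (2 * n) * ((p : ℝ) + q + 1) = ((p : ℝ) + q + 1) / (2 * n) * log 3 := by ring
      rw [e4]
      push_cast
      linarith
    have hS : 2 * SF n + (n : ℝ) * (n - 1) / 2 * (-4 * log n + log 2 - 1 / 2 * log 3) ≤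
        ∑ p ∈ range n, ∑ q ∈ range p, (log (g p + g q) + 2 * log (g p - g q) - log (g (n - 1))) := by
      refine le_trans (le_of_eq ?_) (sum_le_sum fun p hp => sum_le_sum fun q hq => hp1 p hp q hq)
      simp only [sum_add_distrib, ← mul_sum, sum_log_sub]
      rw [sum_pairs_const]
      have e := sum_pairs_lin n
      simp only [sum_add_distrib] at e
      rw [e]
      unfold SF
      field_simp
      ring
    have hT : n * (-log n + 7 / 4 * log 3 - log 2 - 3 / 2) ≤
        ∑ p ∈ range n, (3 / 2 * log (g p) - 1 / 2 * log (g (n - 1))) := by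
      obtain ⟨c, hc⟩ : ∃ c, log (g (n - 1)) = c := ⟨_, rfl⟩
      rw [hc] at hlast
      simp only [hc]
      simp only [hlg]
      rw [sum_sub_distrib, ← mul_sum, sum_sub_distrib, sum_sub_distrib]
      simp only [sum_const, card_range, nsmul_eq_mul]
      have h1 := sum_log_odd hn
      have h2 := mul_le_mul_of_nonneg_left hlast hN.le
      linarith
    have hA : (0 : ℝ) ≤ (a : ℝ) + 1 := by positivity
    have h5 := mul_le_mul_of_nonneg_left hT hA
    linarith

/-! ### The main term -/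

/-- the part without the weights -/
noncomputable def CC (n a : ℕ) : ℝ := (n : ℝ) * (n + a) * log (2 * π) - SF n -
  ∑ k ∈ range n, log (Gamma ((k : ℝ) + a + 1 / 2)) +
  (n : ℝ) * (n + a) * (log n + log ((n : ℝ) + a) - log 4 - 1)

theorem CC_step {n : ℕ} (hn : 1 ≤ n) (a : ℕ) :
    CC n a + n * (log π - log 2 + log n + (log ((n : ℝ) + a) - log ((a : ℝ) + n / 2))) ≤ CC n (a + 1) := by
  have hN : (0 : ℝ) < n := by exact_mod_cast hn
  have hA : (0 : ℝ) ≤ a := Nat.cast_nonneg a
  have hc : (0 : ℝ) < (a : ℝ) + n / 2 := by positivity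
  have hG : ∀ k ∈ range n, log (Gamma ((k : ℝ) + ((a + 1 : ℕ) : ℝ) + 1 / 2)) =
      log ((k : ℝ) + a + 1 / 2) + log (Gamma ((k : ℝ) + a + 1 / 2)) := by
    intro k _
    have h1 : (0 : ℝ) < (k : ℝ) + a + 1 / 2 := by positivity
    have e : (k : ℝ) + ((a + 1 : ℕ) : ℝ) + 1 / 2 = ((k : ℝ) + a + 1 / 2) + 1 := by push_cast; ring
    rw [e, Gamma_add_one h1.ne', log_mul h1.ne' (Gamma_pos_of_pos h1).ne']
  have hL : ∑ k ∈ range n, log ((k : ℝ) + a + 1 / 2) ≤ n * log ((a : ℝ) + n / 2) := by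
    have h1 : ∀ k ∈ range n, log ((k : ℝ) + a + 1 / 2) ≤ log ((a : ℝ) + n / 2) +
        ((k : ℝ) + 1 / 2 - n / 2) / ((a : ℝ) + n / 2) := by
      intro k _
      have h2 := log_sub_le hc (by positivity : (0 : ℝ) < (k : ℝ) + a + 1 / 2)
      have e : ((k : ℝ) + a + 1 / 2 - (a + n / 2)) / (a + n / 2) = ((k : ℝ) + 1 / 2 - n / 2) / ((a : ℝ) + n / 2) := by
        ring
      rw [e] at h2
      linarith
    refine (sum_le_sum h1).trans (le_of_eq ?_)
    rw [sum_add_distrib, ← sum_div, sum_const, card_range, nsmul_eq_mul]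
    have h3 : ∀ j : ℕ, ∑ k ∈ range j, ((k : ℝ) + 1 / 2 - n / 2) = (j : ℝ) ^ 2 / 2 - j * n / 2 := by
      intro j
      induction j with
      | zero => simp
      | succ j ih =>
        rw [sum_range_succ, ih]
        push_cast
        ring
    rw [h3]
    have e : (n : ℝ) ^ 2 / 2 - n * n / 2 = 0 := by ring
    rw [e, zero_div, add_zero]
  have hm : (0 : ℝ) < (n : ℝ) + a := by positivity
  have hm1 : (0 : ℝ) < (n : ℝ) + a + 1 := by positivity
  have hM : 1 ≤ ((n : ℝ) + a + 1) * (log ((n : ℝ) + a + 1) - log ((n : ℝ) + a)) := by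
    have h1 := log_sub_le hm1 hm
    have e : ((n : ℝ) + a - (n + a + 1)) / (n + a + 1) = -1 / (n + a + 1) := by ring
    rw [e, le_div_iff₀ hm1] at h1
    linarith
  unfold CC
  rw [sum_congr rfl hG, sum_add_distrib]
  have e2 : log (2 * π) = log 2 + log π := log_mul (by norm_num) pi_ne_zero
  have e4 : log 4 = 2 * log 2 := by
    rw [show (4 : ℝ) = 2 ^ 2 by norm_num, log_pow]
    norm_num
  rw [e2, e4]
  push_cast
  have e5 : (n : ℝ) + (a + 1) = (n : ℝ) + a + 1 := by ring
  rw [e5]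
  have hM' := mul_le_mul_of_nonneg_left hM hN.le
  nlinarith [hM', hL]

/-- `log ((n + b) / (b + n / 2))` -/
noncomputable def hh (n b : ℕ) : ℝ := log ((n : ℝ) + b) - log ((b : ℝ) + n / 2)

theorem CC_sum {n : ℕ} (hn : 1 ≤ n) (a : ℕ) :
    CC n 0 + n * a * (log π - log 2 + log n) + n * ∑ b ∈ range a, hh n b ≤ CC n a := by
  induction a with
  | zero => simp
  | succ a ih =>
    have h1 := CC_step hn a
    rw [sum_range_succ]
    have e : hh n a = log ((n : ℝ) + a) - log ((a : ℝ) + n / 2) := rfl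
    rw [← e] at h1
    push_cast
    linarith

theorem CC_zero {n : ℕ} (hn : 1 ≤ n) :
    (n : ℝ) ^ 2 * (log π - log 2 + 2 * log n - 1) - 2 * SF n - n * log 2 ≤ CC n 0 := by
  have hN : (0 : ℝ) < n := by exact_mod_cast hn
  have hG : ∀ k : ℕ, Gamma ((k : ℝ) + 1 / 2) ≤ 2 * k.factorial := by
    intro k
    induction k with
    | zero =>
      rw [Nat.cast_zero, zero_add, Gamma_one_half_eq]
      simp only [Nat.factorial_zero, Nat.cast_one, mul_one]
      rw [sqrt_le_left (by norm_num)]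
      linarith [pi_lt_four]
    | succ k ih =>
      have h1 : (0 : ℝ) < (k : ℝ) + 1 / 2 := by positivity
      have e : ((k + 1 : ℕ) : ℝ) + 1 / 2 = ((k : ℝ) + 1 / 2) + 1 := by push_cast; ring
      rw [e, Gamma_add_one h1.ne', Nat.factorial_succ]
      push_cast
      have h2 : (0 : ℝ) < (k.factorial : ℝ) := by positivity
      nlinarith [mul_le_mul_of_nonneg_left ih h1.le]
  have hG2 : ∑ k ∈ range n, log (Gamma ((k : ℝ) + ((0 : ℕ) : ℝ) + 1 / 2)) ≤ n * log 2 + SF n := by
    have h1 : ∀ k ∈ range n, log (Gamma ((k : ℝ) + ((0 : ℕ) : ℝ) + 1 / 2)) ≤ log 2 + log (k.factorial : ℝ) := by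
      intro k _
      rw [Nat.cast_zero, add_zero, ← log_mul (by norm_num) (by positivity)]
      exact log_le_log (Gamma_pos_of_pos (by positivity)) (hG k)
    refine (sum_le_sum h1).trans (le_of_eq ?_)
    rw [sum_add_distrib, sum_const, card_range, nsmul_eq_mul]
    rfl
  unfold CC
  have e2 : log (2 * π) = log 2 + log π := log_mul (by norm_num) pi_ne_zero
  have e4 : log 4 = 2 * log 2 := by
    rw [show (4 : ℝ) = 2 ^ 2 by norm_num, log_pow]
    norm_num
  rw [e2, e4, Nat.cast_zero, add_zero]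
  rw [Nat.cast_zero] at hG2
  nlinarith [hG2]

theorem hh_nonneg {n : ℕ} (hn : 1 ≤ n) (b : ℕ) : 0 ≤ hh n b := by
  have hN : (0 : ℝ) < n := by exact_mod_cast hn
  unfold hh
  rw [sub_nonneg]
  apply log_le_log (by positivity)
  linarith

theorem hh_tangent {n : ℕ} (hn : 1 ≤ n) (b : ℕ) :
    log 3 - log 2 - 1 / 3 * (b / n - 1 / 2) ≤ hh n b := by
  have hN : (0 : ℝ) < n := by exact_mod_cast hn
  have hb : (0 : ℝ) ≤ b := Nat.cast_nonneg b
  have h1 : (0 : ℝ) < (n : ℝ) + b := by positivity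
  have h2 : (0 : ℝ) < (b : ℝ) + n / 2 := by positivity
  -- `z = (3/2) (b + n/2) / (n + b)`
  have hz : 0 < 3 / 2 * ((b : ℝ) + n / 2) / (n + b) := by positivity
  have h3 := log_le_sub_one_of_pos hz
  rw [log_div (by positivity) h1.ne', log_mul (by norm_num) h2.ne', log_div (by norm_num) (by norm_num)] at h3
  have h4 : 3 / 2 * ((b : ℝ) + n / 2) / (n + b) - 1 ≤ 1 / 3 * (b / n - 1 / 2) := by
    have e : 1 / 3 * ((b : ℝ) / n - 1 / 2) - (3 / 2 * ((b : ℝ) + n / 2) / (n + b) - 1) =
        (2 * (b : ℝ) - n) ^ 2 / (12 * n * (n + b)) := by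
      field_simp
      ring
    have e2 : 0 ≤ (2 * (b : ℝ) - n) ^ 2 / (12 * n * (n + b)) := by positivity
    linarith
  unfold hh
  linarith

theorem sum_hh {n : ℕ} (hn : 1 ≤ n) {a : ℕ} (ha : a ≤ n) :
    a * (log 3 - log 2) ≤ ∑ b ∈ range a, hh n b := by
  have hN : (0 : ℝ) < n := by exact_mod_cast hn
  refine le_trans ?_ (sum_le_sum fun b _ => hh_tangent hn b)
  have h3 : ∀ j : ℕ, ∑ b ∈ range j, (log 3 - log 2 - 1 / 3 * ((b : ℝ) / n - 1 / 2)) =
      j * (log 3 - log 2) - 1 / 3 * ((j : ℝ) * (j - 1) / 2 / n - j / 2) := by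
    intro j
    induction j with
    | zero => simp
    | succ j ih =>
      rw [sum_range_succ, ih]
      push_cast
      ring
  rw [h3]
  have ha' : (a : ℝ) ≤ n := by exact_mod_cast ha
  have h4 : (a : ℝ) * (a - 1) / 2 / n ≤ a / 2 := by
    rw [div_div, div_le_div_iff₀ (by positivity) (by norm_num)]
    have hA : (0 : ℝ) ≤ a := Nat.cast_nonneg a
    nlinarith
  linarith

/-! ### The numerical constants -/

theorem le_log_of {x : ℝ} (hx : 0 < x) (p q : ℕ) (hq : q ≠ 0) (h : (2.7182818286 : ℝ) ^ p ≤ x ^ q) :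
    (p : ℝ) / q ≤ log x := by
  have hq' : (0 : ℝ) < q := by exact_mod_cast Nat.pos_of_ne_zero hq
  rw [div_le_iff₀ hq', mul_comm, ← log_pow]
  have h1 : (exp 1) ^ p ≤ (2.7182818286 : ℝ) ^ p := pow_le_pow_left₀ (exp_pos 1).le exp_one_lt_d9.le p
  rw [← exp_nat_mul, mul_one] at h1
  exact (le_log_iff_exp_le (by positivity)).2 (h1.trans h)

theorem const1 : 89 / 50 ≤ log π + log 2 - log (21 / 20) := by
  have h1 : (0 : ℝ) < 3.141592 * 2 / (21 / 20) := by norm_num
  have h2 := le_log_of h1 89 50 (by norm_num) (by norm_num)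
  have h3 : (3.141592 : ℝ) * 2 / (21 / 20) ≤ π * 2 / (21 / 20) := by
    have := pi_gt_d6
    gcongr
  have h4 := log_le_log h1 h3
  have h5 : log (π * 2 / (21 / 20)) = log π + log 2 - log (21 / 20) := by
    rw [log_div (by positivity) (by norm_num), log_mul pi_ne_zero (by norm_num)]
  push_cast at h2
  linarith

theorem const2 : 3 / 2 ≤ log π + log 3 - log 2 - log (21 / 20) := by
  have h1 : (0 : ℝ) < 3.141592 * 3 / 2 / (21 / 20) := by norm_num
  have h2 := le_log_of h1 3 2 (by norm_num) (by norm_num)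
  have h3 : (3.141592 : ℝ) * 3 / 2 / (21 / 20) ≤ π * 3 / 2 / (21 / 20) := by
    have := pi_gt_d6
    gcongr
  have h4 := log_le_log h1 h3
  have h5 : log (π * 3 / 2 / (21 / 20)) = log π + log 3 - log 2 - log (21 / 20) := by
    rw [log_div (by positivity) (by norm_num), log_div (by positivity) (by norm_num),
      log_mul pi_ne_zero (by norm_num)]
  push_cast at h2
  linarith

/-- `log π - (3/2) log 2 + (3/4) log 3 - log (21/20) ≥ 7/8` -/
theorem const3 : 7 / 2 ≤ 4 * log π - 6 * log 2 + 3 * log 3 - 4 * log (21 / 20) := by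
  have h1 : (0 : ℝ) < 3.141592 ^ 4 / 2 ^ 6 * 3 ^ 3 / (21 / 20) ^ 4 := by norm_num
  have h2 := le_log_of h1 7 2 (by norm_num) (by norm_num)
  have h3 : (3.141592 : ℝ) ^ 4 / 2 ^ 6 * 3 ^ 3 / (21 / 20) ^ 4 ≤ π ^ 4 / 2 ^ 6 * 3 ^ 3 / (21 / 20) ^ 4 := by
    have := pi_gt_d6
    gcongr
  have h4 := log_le_log h1 h3
  have h5 : log (π ^ 4 / 2 ^ 6 * 3 ^ 3 / (21 / 20) ^ 4) =
      4 * log π - 6 * log 2 + 3 * log 3 - 4 * log (21 / 20) := by
    rw [log_div (by positivity) (by norm_num), log_mul (by positivity) (by norm_num),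
      log_div (by positivity) (by norm_num), log_pow, log_pow, log_pow, log_pow]
    push_cast
    ring
  push_cast at h2
  linarith

/-- `log π - 2 log 2 + (7/4) log 3 - log (21/20) ≥ 163/100` -/
theorem const4 : 163 / 25 ≤ 4 * log π - 8 * log 2 + 7 * log 3 - 4 * log (21 / 20) := by
  have h1 : (0 : ℝ) < 3.141592 ^ 4 / 2 ^ 8 * 3 ^ 7 / (21 / 20) ^ 4 := by norm_num
  have h2 := le_log_of h1 163 25 (by norm_num) (by norm_num)
  have h3 : (3.141592 : ℝ) ^ 4 / 2 ^ 8 * 3 ^ 7 / (21 / 20) ^ 4 ≤ π ^ 4 / 2 ^ 8 * 3 ^ 7 / (21 / 20) ^ 4 := by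
    have := pi_gt_d6
    gcongr
  have h4 := log_le_log h1 h3
  have h5 : log (π ^ 4 / 2 ^ 8 * 3 ^ 7 / (21 / 20) ^ 4) =
      4 * log π - 8 * log 2 + 7 * log 3 - 4 * log (21 / 20) := by
    rw [log_div (by positivity) (by norm_num), log_mul (by positivity) (by norm_num),
      log_div (by positivity) (by norm_num), log_pow, log_pow, log_pow, log_pow]
    push_cast
    ring
  push_cast at h2
  linarith

theorem log_m {m : ℝ} (hm : 100000 ≤ m) : log m ≤ m / 100000 + 11 := by
  have h1 := log_sub_le (by norm_num : (0 : ℝ) < 100000) (by linarith : 0 < m)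
  have h2 : log 100000 ≤ 12 := by
    rw [log_le_iff_le_exp (by norm_num)]
    have h3 : (2.7182818283 : ℝ) ^ 12 ≤ (exp 1) ^ 12 := pow_le_pow_left₀ (by norm_num) exp_one_gt_d9.le 12
    rw [← exp_nat_mul, mul_one] at h3
    refine le_trans ?_ (h3.trans (le_of_eq ?_))
    · norm_num
    · norm_num
  have e : (m - 100000) / 100000 = m / 100000 - 1 := by ring
  rw [e] at h1
  linarith

/-! ### The logarithm of the right side -/

theorem log_rhs {n : ℕ} (hn : 1 ≤ n) {a : ℕ} (hm : 100000 ≤ n + a) {Q : ℝ} (hQ : 0 < Q) :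
    0 < (2 * π) ^ (n * (n + a)) / (I1 n a * I2 n a) * Q * exp (-((n : ℝ) + 1)) /
      (((n : ℝ) + a) * n) ^ (2 * n) * (((n : ℝ) * (n + a)) / (4 * exp 1)) ^ (n * (n + a)) ∧
    CC n a + log Q - 5 / 2 * (n * log ((n : ℝ) + a)) - 2 * (n * log n) - 6 * n - 1 ≤
    log ((2 * π) ^ (n * (n + a)) / (I1 n a * I2 n a) * Q * exp (-((n : ℝ) + 1)) /
      (((n : ℝ) + a) * n) ^ (2 * n) * (((n : ℝ) * (n + a)) / (4 * exp 1)) ^ (n * (n + a))) := by
  have hN : (0 : ℝ) < n := by exact_mod_cast hn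
  have hA : (0 : ℝ) ≤ a := Nat.cast_nonneg a
  have hM : (100000 : ℝ) ≤ (n : ℝ) + a := by exact_mod_cast hm
  have hM0 : (0 : ℝ) < (n : ℝ) + a := by linarith
  have hu : 0 < 1 - 1 / ((n : ℝ) + a) := by
    rw [sub_pos, div_lt_one hM0]
    linarith
  have hGp : ∀ k ∈ range n, (k.factorial : ℝ) * Gamma ((k : ℝ) + a + 1 / 2) ≠ 0 := fun k _ =>
    (mul_pos (by positivity) (Gamma_pos_of_pos (by positivity))).ne'
  have hI1 : 0 < I1 n a := by
    unfold I1
    refine mul_pos (mul_pos (by positivity) (rpow_pos_of_pos hu _)) (prod_pos fun k _ =>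
      mul_pos (by positivity) (Gamma_pos_of_pos (by positivity)))
  have hI2 : 0 < I2 n a := by
    unfold I2
    positivity
  have hl1 : log (I1 n a) ≤ -(n * log 2) + 2 * n + SF n + ∑ k ∈ range n, log (Gamma ((k : ℝ) + a + 1 / 2)) := by
    unfold I1
    rw [log_mul (mul_pos (by positivity) (rpow_pos_of_pos hu _)).ne' (prod_ne_zero_iff.2 hGp),
      log_mul (by positivity) (rpow_pos_of_pos hu _).ne', log_prod hGp, log_rpow hu, log_pow, one_div, log_inv]
    have h1 : ∑ k ∈ range n, log ((k.factorial : ℝ) * Gamma ((k : ℝ) + a + 2⁻¹)) =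
        SF n + ∑ k ∈ range n, log (Gamma ((k : ℝ) + a + 1 / 2)) := by
      unfold SF
      rw [← sum_add_distrib]
      apply sum_congr rfl
      intro k _
      rw [log_mul (by positivity) (Gamma_pos_of_pos (by positivity)).ne', one_div]
    have h2 : -(log (1 - ((n : ℝ) + a)⁻¹)) ≤ 1 / (n + a - 1) := by
      have hm1 : (0 : ℝ) < (n : ℝ) + a - 1 := by linarith
      have h3 := log_le_sub_one_of_pos (div_pos hM0 hm1)
      have e1 : ((n : ℝ) + a) / (n + a - 1) - 1 = 1 / (n + a - 1) := by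
        field_simp
        ring
      rw [e1, log_div hM0.ne' hm1.ne'] at h3
      have e2 : 1 - ((n : ℝ) + a)⁻¹ = (n + a - 1) / (n + a) := by
        field_simp
      rw [e2, log_div hm1.ne' hM0.ne']
      linarith
    have h4 : -((n : ℝ) * (n + a - 2⁻¹)) * log (1 - ((n : ℝ) + a)⁻¹) ≤ 2 * n := by
      have hm1 : (0 : ℝ) < (n : ℝ) + a - 1 := by linarith
      have h5 : (0 : ℝ) ≤ (n : ℝ) * (n + a - 2⁻¹) := by
        apply mul_nonneg hN.le
        norm_num
        linarith
      have h6 := mul_le_mul_of_nonneg_left h2 h5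
      have h7 : (n : ℝ) * (n + a - 2⁻¹) * (1 / (n + a - 1)) ≤ 2 * n := by
        rw [mul_one_div, div_le_iff₀ hm1]
        nlinarith
      linarith
    simp only [one_div] at h1 ⊢
    rw [h1]
    linarith
  have hl2 : log (I2 n a) ≤ 1 / 2 * (n * log ((n : ℝ) + a)) + n := by
    unfold I2
    have h0 : 0 < √(π * ((n : ℝ) + a)) / 2 := by positivity
    rw [log_div (by positivity) (by positivity), log_pow, log_div (by positivity) (by norm_num),
      log_sqrt (by positivity), log_mul pi_ne_zero hM0.ne']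
    have h1 : 0 ≤ log (n.factorial : ℝ) := log_nat_nonneg _
    have h2 : log π ≤ 2 * log 2 := by
      have h3 := log_le_log pi_pos pi_lt_four.le
      rw [show (4 : ℝ) = 2 ^ 2 by norm_num, log_pow] at h3
      push_cast at h3
      exact h3
    have hl0 : 0 ≤ log 2 := log_nonneg (by norm_num)
    nlinarith [mul_le_mul_of_nonneg_left h2 hN.le]
  have p1 : 0 < (2 * π) ^ (n * (n + a)) := by positivity
  have p2 : 0 < I1 n a * I2 n a := mul_pos hI1 hI2
  have p3 : 0 < (2 * π) ^ (n * (n + a)) / (I1 n a * I2 n a) := div_pos p1 p2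
  have p4 : 0 < (((n : ℝ) + a) * n) ^ (2 * n) := by positivity
  have p5 : 0 < ((n : ℝ) * (n + a)) / (4 * exp 1) := by positivity
  have p6 : 0 < (2 * π) ^ (n * (n + a)) / (I1 n a * I2 n a) * Q := mul_pos p3 hQ
  have p7 : 0 < (2 * π) ^ (n * (n + a)) / (I1 n a * I2 n a) * Q * exp (-((n : ℝ) + 1)) := mul_pos p6 (exp_pos _)
  have p8 := div_pos p7 p4
  refine ⟨mul_pos p8 (pow_pos p5 _), ?_⟩
  rw [log_mul p8.ne' (pow_pos p5 _).ne', log_div p7.ne' p4.ne', log_mul p6.ne' (exp_pos _).ne', log_exp,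
    log_mul p3.ne' hQ.ne', log_div p1.ne' p2.ne', log_mul hI1.ne' hI2.ne', log_pow, log_pow, log_pow,
    log_mul hM0.ne' hN.ne', log_div (by positivity) (by positivity), log_mul hN.ne' hM0.ne',
    log_mul (by norm_num) (exp_pos 1).ne', log_exp]
  push_cast
  unfold CC
  have hl0 : 0 ≤ log 2 := log_nonneg (by norm_num)
  have := mul_nonneg hN.le hl0
  nlinarith

/-- **The numerical inequality** -/
theorem numB : ∀ n a : ℕ, 1 ≤ n → 100000 ≤ n + a → ∃ f : ℕ → ℝ,
    (∀ i, i < n → 0 < f i) ∧ (∀ i j, i < j → j < n → f j < f i) ∧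
    (∑ i ∈ Finset.range n, f i = 1) ∧
    (21 / 20 : ℝ) ^ (n * (n + a)) ≤
      (2 * Real.pi) ^ (n * (n + a)) / (I1 n a * I2 n a) * QQ n a f * Real.exp (-((n : ℝ) + 1)) /
        (((n : ℝ) + a) * n) ^ (2 * n) *
        (((n : ℝ) * (n + a)) / (4 * Real.exp 1)) ^ (n * (n + a)) := by
  intro n a hn hm
  have hN : (0 : ℝ) < n := by exact_mod_cast hn
  have hN1 : (1 : ℝ) ≤ n := by exact_mod_cast hn
  have hA : (0 : ℝ) ≤ a := Nat.cast_nonneg a
  have hM : (100000 : ℝ) ≤ (n : ℝ) + a := by exact_mod_cast hm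
  have hlm := log_m hM
  have hnm : log (n : ℝ) ≤ log ((n : ℝ) + a) := log_le_log hN (by linarith)
  have hl0 := log_nat_nonneg n
  have hC0 := CC_zero hn
  have hCa := CC_sum hn a
  have l2 : (0.69 : ℝ) < log 2 := by linarith [log_two_gt_d9]
  have l2' : log 2 < (0.7 : ℝ) := by linarith [log_two_lt_d9]
  have hfin : ∀ f : ℕ → ℝ, 0 < QQ n a f →
      (n : ℝ) * (n + a) * log (21 / 20) ≤ CC n a + log (QQ n a f) - 5 / 2 * (n * log ((n : ℝ) + a)) -
        2 * (n * log n) - 6 * n - 1 →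
      (21 / 20 : ℝ) ^ (n * (n + a)) ≤
      (2 * Real.pi) ^ (n * (n + a)) / (I1 n a * I2 n a) * QQ n a f * Real.exp (-((n : ℝ) + 1)) /
        (((n : ℝ) + a) * n) ^ (2 * n) *
        (((n : ℝ) * (n + a)) / (4 * Real.exp 1)) ^ (n * (n + a)) := by
    intro f hQ h
    obtain ⟨h1, h2⟩ := log_rhs hn hm hQ
    rw [← log_le_log_iff (by positivity) h1, log_pow]
    push_cast
    linarith
  rcases le_total a n with ha | ha
  · obtain ⟨f, f1, f2, f3, f4, f5⟩ := profile1 hn a
    refine ⟨f, f1, f2, f3, hfin f f4 ?_⟩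
    have hs := mul_le_mul_of_nonneg_left (sum_hh hn ha) hN.le
    have ha' : (a : ℝ) ≤ n := by exact_mod_cast ha
    have c1 := const1
    have c2 := const2
    have k1 := mul_le_mul_of_nonneg_left c1 (sq_nonneg (n : ℝ))
    have k2 := mul_le_mul_of_nonneg_left c2 (mul_nonneg hN.le hA)
    have k3 := mul_le_mul_of_nonneg_left hlm hN.le
    have k4 := mul_le_mul_of_nonneg_left hnm hN.le
    have k5 : (0 : ℝ) ≤ (n : ℝ) * (2 * n - ((n : ℝ) + a)) := mul_nonneg hN.le (by linarith)
    have k6 := mul_le_mul_of_nonneg_left hM hN.le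
    nlinarith
  · obtain ⟨f, f1, f2, f3, f4, f5⟩ := profile2 hn a
    refine ⟨f, f1, f2, f3, hfin f f4 ?_⟩
    have ha' : (n : ℝ) ≤ a := by exact_mod_cast ha
    have hs0 : (n : ℝ) * (log 3 - log 2) ≤ ∑ b ∈ range a, hh n b := by
      refine (sum_hh hn le_rfl).trans ?_
      exact sum_le_sum_of_subset_of_nonneg (range_mono ha) fun b _ _ => hh_nonneg hn b
    have hs := mul_le_mul_of_nonneg_left hs0 hN.le
    have c3 := const3
    have c4 := const4
    have k1 := mul_le_mul_of_nonneg_left c3 (sq_nonneg (n : ℝ))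
    have k2 := mul_le_mul_of_nonneg_left c4 (mul_nonneg hN.le hA)
    have k3 := mul_le_mul_of_nonneg_left hlm hN.le
    have k4 := mul_le_mul_of_nonneg_left hnm hN.le
    have k5 : (0 : ℝ) ≤ (n : ℝ) * (a - n) := mul_nonneg hN.le (by linarith)
    have k6 := mul_le_mul_of_nonneg_left hM hN.le
    have l3 : log 3 ≤ 2 := by
      have := log_le_sub_one_of_pos (by norm_num : (0 : ℝ) < 3)
      linarith
    have l3' : 0 ≤ log 3 := log_nonneg (by norm_num)
    nlinarith [mul_nonneg hN.le l3']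

end Pool.Agent.Q14.MXNumb
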