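import Mathlib

/-!
Generalities on monomial ideals, primes generated by variables and colon ideals.
-/

set_option autoImplicit false

namespace Q14.Mono

open MvPolynomial

variable {σ : Type*} {K : Type*} [Field K]

/-! ### Primes generated by variables -/

open Classical in
/-- Setting the variables in `C` to zero. -/
noncomputable def kill (K : Type*) [Field K] (C : Set σ) : MvPolynomial σ K →ₐ[K] MvPolynomial σ K :=
  aeval (fun i => if i ∈ C then 0 else X i)

open Classical in
lemma kill_monomial (C : Set σ) (u : σ →₀ ℕ) (a : K) :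
    kill K C (monomial u a) = if ∀ i ∈ C, u i = 0 then monomial u a else 0 := by
  unfold kill
  rw [aeval_monomial]
  split_ifs with h
  · rw [monomial_eq]
    congr 1
    refine Finsupp.prod_congr (fun i hi => ?_)
    rw [if_neg]
    intro hC
    exact (Finsupp.mem_support_iff.mp hi) (h i hC)
  · push Not at h
    obtain ⟨i, hC, hi⟩ := h
    rw [Finsupp.prod, Finset.prod_eq_zero (Finsupp.mem_support_iff.mpr hi), mul_zero]
    rw [if_pos hC, zero_pow hi]

open Classical in
lemma coeff_kill (C : Set σ) (f : MvPolynomial σ K) (u : σ →₀ ℕ) :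
    coeff u (kill K C f) = if ∀ i ∈ C, u i = 0 then coeff u f else 0 := by
  induction f using MvPolynomial.induction_on' with
  | monomial v a =>
    rw [kill_monomial]
    by_cases huv : v = u
    · subst huv
      split_ifs with h
      · rfl
      · rfl
    · split_ifs with h1 h2 h2
      · rfl
      · rw [coeff_monomial, if_neg huv]
      · rw [coeff_monomial, if_neg huv, coeff_zero]
      · rfl
  | add p q hp hq =>
    rw [map_add, coeff_add, hp, hq]
    split_ifs <;> simp

/-- The ideal generated by the variables in `C`. -/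
noncomputable def PV (K : Type*) [Field K] (C : Set σ) : Ideal (MvPolynomial σ K) :=
  Ideal.span (X '' C)

lemma mem_PV {C : Set σ} {f : MvPolynomial σ K} :
    f ∈ PV K C ↔ ∀ u ∈ f.support, ∃ i ∈ C, u i ≠ 0 := mem_ideal_span_X_image

lemma PV_eq_ker (C : Set σ) : PV K C = RingHom.ker (kill K C) := by
  classical
  ext f
  rw [mem_PV, RingHom.mem_ker]
  constructor
  · intro h
    ext u
    rw [coeff_kill, coeff_zero]
    split_ifs with h1
    · by_contra h2
      obtain ⟨i, hi, hi2⟩ := h u (mem_support_iff.mpr h2)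
      exact hi2 (h1 i hi)
    · rfl
  · intro h u hu
    by_contra hcon
    push Not at hcon
    have h1 := coeff_kill C f u
    rw [h, coeff_zero, if_pos hcon] at h1
    exact (mem_support_iff.mp hu) h1.symm

lemma PV_isPrime (C : Set σ) : (PV K C).IsPrime := by
  rw [PV_eq_ker]
  exact RingHom.ker_isPrime _

lemma X_mem_PV {C : Set σ} {i : σ} : (X i : MvPolynomial σ K) ∈ PV K C ↔ i ∈ C := by
  classical
  rw [mem_PV]
  constructor
  · intro h
    obtain ⟨j, hj, hj2⟩ := h (Finsupp.single i 1) (by
      rw [support_X]; exact Finset.mem_singleton_self _)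
    rw [Finsupp.single_apply] at hj2
    by_cases hij : i = j
    · rw [hij]; exact hj
    · rw [if_neg hij] at hj2; exact absurd rfl hj2
  · intro h u hu
    rw [support_X, Finset.mem_singleton] at hu
    subst hu
    exact ⟨i, h, by simp⟩

/-! ### Monomial ideals -/

/-- `J` contains every monomial occurring in one of its elements. -/
def IsMon (J : Ideal (MvPolynomial σ K)) : Prop :=
  ∀ f ∈ J, ∀ u ∈ f.support, monomial u (1 : K) ∈ J

lemma mem_of_forall {J : Ideal (MvPolynomial σ K)} {f : MvPolynomial σ K}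
    (h : ∀ u ∈ f.support, monomial u (1 : K) ∈ J) : f ∈ J := by
  rw [← support_sum_monomial_coeff f]
  refine Ideal.sum_mem _ (fun u hu => ?_)
  have : (monomial u (coeff u f) : MvPolynomial σ K) = C (coeff u f) * monomial u 1 := by
    rw [C_mul_monomial, mul_one]
  rw [this]
  exact J.mul_mem_left _ (h u hu)

lemma IsMon.mem_iff {J : Ideal (MvPolynomial σ K)} (hJ : IsMon J) {f : MvPolynomial σ K} :
    f ∈ J ↔ ∀ u ∈ f.support, monomial u (1 : K) ∈ J :=
  ⟨fun h u hu => hJ f h u hu, mem_of_forall⟩

lemma isMon_span (s : Set (σ →₀ ℕ)) :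
    IsMon (Ideal.span ((fun u => monomial u (1 : K)) '' s)) := by
  intro f hf u hu
  rw [mem_ideal_span_monomial_image] at hf
  obtain ⟨v, hv, hvu⟩ := hf u hu
  rw [mem_ideal_span_monomial_image]
  intro w hw
  have hw' : w = u := by
    have := support_monomial_subset hw
    simpa using this
  subst hw'
  exact ⟨v, hv, hvu⟩

lemma monomial_mem_span_iff (s : Set (σ →₀ ℕ)) (u : σ →₀ ℕ) :
    (monomial u (1 : K)) ∈ Ideal.span ((fun u => monomial u (1 : K)) '' s) ↔ ∃ v ∈ s, v ≤ u := by
  classical
  rw [mem_ideal_span_monomial_image]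
  constructor
  · intro h
    exact h u (by rw [support_monomial, if_neg one_ne_zero]; exact Finset.mem_singleton_self _)
  · rintro ⟨v, hv, hvu⟩ w hw
    have hw' : w = u := by
      have := support_monomial_subset hw
      simpa using this
    subst hw'
    exact ⟨v, hv, hvu⟩

open Pointwise in
lemma span_mul_span (s t : Set (σ →₀ ℕ)) :
    Ideal.span ((fun u => monomial u (1 : K)) '' s) * Ideal.span ((fun u => monomial u (1 : K)) '' t)
      = Ideal.span ((fun u => monomial u (1 : K)) '' (s + t)) := by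
  rw [Ideal.span_mul_span']
  congr 1
  ext f
  constructor
  · rintro ⟨_, ⟨u, hu, rfl⟩, _, ⟨v, hv, rfl⟩, rfl⟩
    exact ⟨u + v, ⟨u, hu, v, hv, rfl⟩, by simp [monomial_mul]⟩
  · rintro ⟨_, ⟨u, hu, v, hv, rfl⟩, rfl⟩
    exact ⟨_, ⟨u, hu, rfl⟩, _, ⟨v, hv, rfl⟩, by simp [monomial_mul]⟩

/-- A monomial ideal is generated by its monomials. -/
lemma IsMon.eq_span {J : Ideal (MvPolynomial σ K)} (hJ : IsMon J) :
    J = Ideal.span ((fun u => monomial u (1 : K)) '' {u | monomial u (1 : K) ∈ J}) := by
  apply le_antisymm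
  · intro f hf
    exact mem_of_forall (fun u hu => Ideal.subset_span ⟨u, hJ f hf u hu, rfl⟩)
  · rw [Ideal.span_le]
    rintro _ ⟨u, hu, rfl⟩
    exact hu

lemma IsMon.mul {I J : Ideal (MvPolynomial σ K)} (hI : IsMon I) (hJ : IsMon J) :
    IsMon (I * J) := by
  rw [hI.eq_span, hJ.eq_span, span_mul_span]
  exact isMon_span _

lemma isMon_top : IsMon (⊤ : Ideal (MvPolynomial σ K)) := fun _ _ _ _ => Submodule.mem_top

lemma IsMon.pow {I : Ideal (MvPolynomial σ K)} (hI : IsMon I) (k : ℕ) : IsMon (I ^ k) := by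
  induction k with
  | zero => rw [pow_zero, Ideal.one_eq_top]; exact isMon_top
  | succ k ih => rw [pow_succ]; exact ih.mul hI

/-- Membership of a monomial in a product of monomial ideals. -/
lemma IsMon.monomial_mem_mul {I J : Ideal (MvPolynomial σ K)} (hI : IsMon I) (hJ : IsMon J)
    {u : σ →₀ ℕ} (h : (monomial u (1 : K)) ∈ I * J) :
    ∃ v w, monomial v (1 : K) ∈ I ∧ monomial w (1 : K) ∈ J ∧ u = v + w := by
  rw [hI.eq_span, hJ.eq_span, span_mul_span, monomial_mem_span_iff] at h
  obtain ⟨_, ⟨v, hv, w, hw, rfl⟩, hle⟩ := h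
  obtain ⟨z, rfl⟩ := exists_add_of_le hle
  refine ⟨v, w + z, hv, ?_, by simp only [add_assoc]⟩
  have : (monomial (w + z) (1 : K)) = monomial w 1 * monomial z 1 := by
    rw [monomial_mul, one_mul]
  rw [this]
  exact J.mul_mem_right _ hw

/-- Membership in the colon ideal of a monomial ideal by a monomial. -/
lemma IsMon.mem_colon_monomial {J : Ideal (MvPolynomial σ K)} (hJ : IsMon J) (v : σ →₀ ℕ)
    {f : MvPolynomial σ K} :
    f ∈ Submodule.colon J {(monomial v (1 : K))} ↔
      ∀ u ∈ f.support, monomial (u + v) (1 : K) ∈ J := by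
  rw [Submodule.mem_colon_singleton, smul_eq_mul]
  constructor
  · intro h u hu
    refine hJ _ h (u + v) ?_
    rw [mem_support_iff, coeff_mul_monomial, mul_one]
    exact mem_support_iff.mp hu
  · intro h
    refine mem_of_forall (fun w hw => ?_)
    rw [mem_support_iff, coeff_mul_monomial'] at hw
    have hle : v ≤ w := by
      by_contra hcon
      rw [if_neg hcon] at hw
      exact hw rfl
    rw [if_pos hle, mul_one] at hw
    have := h _ (mem_support_iff.mpr hw)
    rwa [tsub_add_cancel_of_le hle] at this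

/-- If `x_i f ∈ J` then `x_i u ∈ J` for every monomial `u` of `f`. -/
lemma IsMon.of_X_mul_mem {J : Ideal (MvPolynomial σ K)} (hJ : IsMon J) {f : MvPolynomial σ K}
    {i : σ} (h : X i * f ∈ J) {u : σ →₀ ℕ} (hu : u ∈ f.support) :
    monomial (Finsupp.single i 1 + u) (1 : K) ∈ J := by
  refine hJ _ h _ ?_
  rw [mem_support_iff, coeff_X_mul]
  exact mem_support_iff.mp hu

lemma monomial_mem_of_le {J : Ideal (MvPolynomial σ K)} {u v : σ →₀ ℕ} (h : u ≤ v)
    (hu : monomial u (1 : K) ∈ J) : monomial v (1 : K) ∈ J := by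
  obtain ⟨z, rfl⟩ := exists_add_of_le h
  have : (monomial (u + z) (1 : K)) = monomial u 1 * monomial z 1 := by
    rw [monomial_mul, one_mul]
  rw [this]
  exact J.mul_mem_right _ hu

/-! ### Weights -/

/-- The polynomials all of whose monomials have weight at least `d`. -/
def WtGE (K : Type*) [Field K] (w : σ → ℕ) (d : ℕ) : Ideal (MvPolynomial σ K) where
  carrier := {f | ∀ u ∈ f.support, d ≤ Finsupp.weight w u}
  zero_mem' := by intro u hu; simp at hu
  add_mem' := by
    classical
    intro f g hf hg u hu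
    rcases Finset.mem_union.mp (support_add hu) with h | h
    · exact hf u h
    · exact hg u h
  smul_mem' := by
    classical
    intro c f hf u hu
    obtain ⟨v, -, z, hz, rfl⟩ := Finset.mem_add.mp (support_mul c f hu)
    rw [map_add]
    exact (hf z hz).trans (Nat.le_add_left _ _)

lemma mem_WtGE {w : σ → ℕ} {d : ℕ} {f : MvPolynomial σ K} :
    f ∈ WtGE K w d ↔ ∀ u ∈ f.support, d ≤ Finsupp.weight w u := Iff.rfl

lemma monomial_mem_WtGE {w : σ → ℕ} {d : ℕ} {u : σ →₀ ℕ} :
    monomial u (1 : K) ∈ WtGE K w d ↔ d ≤ Finsupp.weight w u := by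
  classical
  rw [mem_WtGE]
  constructor
  · intro h
    exact h u (by rw [support_monomial, if_neg one_ne_zero]; exact Finset.mem_singleton_self _)
  · intro h v hv
    have : v = u := by
      have := support_monomial_subset hv
      simpa using this
    rw [this]; exact h

lemma WtGE_mul_le (w : σ → ℕ) (a b : ℕ) : WtGE K w a * WtGE K w b ≤ WtGE K w (a + b) := by
  classical
  rw [Ideal.mul_le]
  intro f hf g hg u hu
  obtain ⟨v, hv, z, hz, rfl⟩ := Finset.mem_add.mp (support_mul f g hu)
  rw [map_add]
  exact add_le_add (hf v hv) (hg z hz)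

lemma pow_le_WtGE {w : σ → ℕ} {d : ℕ} {I : Ideal (MvPolynomial σ K)} (h : I ≤ WtGE K w d)
    (k : ℕ) : I ^ k ≤ WtGE K w (k * d) := by
  induction k with
  | zero =>
    intro f _ u _
    simp
  | succ k ih =>
    rw [pow_succ, Nat.succ_mul]
    exact (Ideal.mul_mono ih h).trans (WtGE_mul_le w _ _)

/-! ### Associated primes as colon ideals -/

lemma colon_mem_associatedPrimes {S : Type*} [CommRing S] {J : Ideal S} {f : S}
    (h : (Submodule.colon J {f}).IsPrime) :
    Submodule.colon J {f} ∈ associatedPrimes S (S ⧸ J) := by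
  rw [AssociatedPrimes.mem_iff]
  refine ⟨h, Ideal.Quotient.mk J f, ?_⟩
  have : (⊥ : Submodule S (S ⧸ J)).colon {Ideal.Quotient.mk J f} = Submodule.colon J {f} := by
    ext g
    rw [Submodule.mem_colon_singleton, Submodule.mem_colon_singleton, Submodule.mem_bot]
    have h1 : g • (Ideal.Quotient.mk J f) = Ideal.Quotient.mk J (g * f) := by
      rw [map_mul]; rfl
    rw [h1, Ideal.Quotient.eq_zero_iff_mem, smul_eq_mul]
  rw [this]
  exact h.radical.symm

end Q14.Mono
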