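import Mathlib

/-!
Upper bounds for the projective dimension of quotients by squarefree monomial ideals,
by iterated colon ideals.
-/

set_option autoImplicit false

namespace Pool.Agent.Q14.PdColon

open CategoryTheory MvPolynomial

universe u

section general

variable {A : Type u} [CommRing A]

/-- `pd A/I ≤ d` -/
def PdLE (I : Ideal A) (d : ℕ) : Prop := HasProjectiveDimensionLT (ModuleCat.of A (A ⧸ I)) (d + 1)

lemma PdLE.mono {I : Ideal A} {d e : ℕ} (h : PdLE I d) (hde : d ≤ e) : PdLE I e := by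
  unfold PdLE at h ⊢
  exact hasProjectiveDimensionLT_of_ge _ (d + 1) (e + 1) (by omega)

lemma pd_bot (d : ℕ) : PdLE (⊥ : Ideal A) d := by
  have h1 : Module.Projective A (A ⧸ (⊥ : Ideal A)) :=
    Module.Projective.of_equiv (Submodule.quotEquivOfEqBot (⊥ : Ideal A) rfl).symm
  have h2 : Projective (ModuleCat.of A (A ⧸ (⊥ : Ideal A))) :=
    (IsProjective.iff_projective (R := A) _).1 h1
  exact PdLE.mono (d := 0) (projective_iff_hasProjectiveDimensionLT_one.1 h2) (Nat.zero_le d)

lemma pd_add (I J : Ideal A) (f : A) (hJ : ∀ x, x ∈ J ↔ x * f ∈ I) (d : ℕ)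
    (h1 : PdLE I (d + 1)) (h2 : PdLE J d) : PdLE (I ⊔ Ideal.span {f}) (d + 1) := by
  let g : (A ⧸ I) →ₗ[A] (A ⧸ (I ⊔ Ideal.span {f})) := Submodule.factor le_sup_left
  have hg : Function.Surjective g := Submodule.factor_surjective le_sup_left
  let φ : A →ₗ[A] (A ⧸ I) := (Submodule.mkQ I) ∘ₗ (LinearMap.mulRight A f)
  have hφ : ∀ x, φ x = Submodule.mkQ I (x * f) := fun x => rfl
  have hker : LinearMap.ker φ = J := by
    ext x
    rw [LinearMap.mem_ker, hφ, hJ]
    exact Submodule.Quotient.mk_eq_zero _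
  have hrange : LinearMap.range φ = LinearMap.ker g := by
    ext y
    constructor
    · rintro ⟨x, rfl⟩
      rw [LinearMap.mem_ker, hφ]
      change Submodule.mkQ (I ⊔ Ideal.span {f}) (x * f) = 0
      refine (Submodule.Quotient.mk_eq_zero _).2 ?_
      exact Submodule.mem_sup_right (Ideal.mem_span_singleton'.2 ⟨x, rfl⟩)
    · intro hy
      obtain ⟨z, rfl⟩ := Submodule.mkQ_surjective I y
      rw [LinearMap.mem_ker] at hy
      have hz : z ∈ I ⊔ Ideal.span {f} := (Submodule.Quotient.mk_eq_zero _).1 hy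
      obtain ⟨a, ha, b, hb, rfl⟩ := Submodule.mem_sup.1 hz
      obtain ⟨x, rfl⟩ := Ideal.mem_span_singleton'.1 hb
      refine ⟨x, ?_⟩
      rw [hφ, map_add]
      have : Submodule.mkQ I a = 0 := (Submodule.Quotient.mk_eq_zero _).2 ha
      rw [this, zero_add]
  have e : (A ⧸ J) ≃ₗ[A] (LinearMap.ker g) :=
    (Submodule.quotEquivOfEq J (LinearMap.ker φ) hker.symm).trans
      (φ.quotKerEquivRange.trans (LinearEquiv.ofEq _ _ hrange))
  have hS := LinearMap.shortExact_shortComplexKer hg
  have h3 : HasProjectiveDimensionLT g.shortComplexKer.X₁ (d + 1) := by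
    have h2' : HasProjectiveDimensionLE (ModuleCat.of A (A ⧸ J)) d := h2
    exact ModuleCat.hasProjectiveDimensionLE_of_linearEquiv (M := ModuleCat.of A (A ⧸ J))
      (N := g.shortComplexKer.X₁) e d
  exact hS.hasProjectiveDimensionLT_X₃ (d + 1) h3 h1

end general

section squarefree

variable {n : ℕ} (K : Type u) [Field K]

/-- the exponent of the squarefree monomial given by a bit mask -/
noncomputable def ex (n m : ℕ) : Fin n →₀ ℕ :=
  Finsupp.equivFunOnFinite.symm (fun v => if m.testBit v then 1 else 0)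

lemma ex_apply (m : ℕ) (v : Fin n) : ex n m v = if m.testBit v then 1 else 0 := rfl

/-- the squarefree monomial ideal given by a list of bit masks -/
noncomputable def IL (n : ℕ) (L : List ℕ) : Ideal (MvPolynomial (Fin n) K) :=
  Ideal.span ((fun s => monomial s (1 : K)) '' {s | ∃ m ∈ L, s = ex n m})

variable {K}

lemma mem_IL (L : List ℕ) (p : MvPolynomial (Fin n) K) :
    p ∈ IL K n L ↔ ∀ c ∈ p.support, ∃ m ∈ L, ex n m ≤ c := by
  unfold IL
  rw [mem_ideal_span_monomial_image]
  refine forall₂_congr fun c _ => ?_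
  constructor
  · rintro ⟨s, ⟨m, hm, rfl⟩, hs⟩; exact ⟨m, hm, hs⟩
  · rintro ⟨m, hm, hs⟩; exact ⟨_, ⟨m, hm, rfl⟩, hs⟩

lemma ex_le_iff (m : ℕ) (c : Fin n →₀ ℕ) : ex n m ≤ c ↔ ∀ v : Fin n, m.testBit v → c v ≠ 0 := by
  constructor
  · intro h v hv
    have h1 := h v
    rw [ex_apply, if_pos hv] at h1
    omega
  · intro h v
    rw [ex_apply]
    split_ifs with hv
    · have := h v hv; omega
    · exact Nat.zero_le _

/-- colon of bit masks -/
def cln (f a : ℕ) : ℕ := a &&& (a ^^^ f)

lemma testBit_cln (f a i : ℕ) : (cln f a).testBit i = (a.testBit i && !f.testBit i) := by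
  unfold cln
  rw [Nat.testBit_and, Nat.testBit_xor]
  cases a.testBit i <;> cases f.testBit i <;> rfl

lemma mem_colon (f : ℕ) (L : List ℕ) (p : MvPolynomial (Fin n) K) :
    p ∈ IL K n (L.map (cln f)) ↔ p * monomial (ex n f) 1 ∈ IL K n L := by
  rw [mem_IL, mem_IL]
  have key : ∀ (m : ℕ) (c : Fin n →₀ ℕ), ex n (cln f m) ≤ c ↔ ex n m ≤ c + ex n f := by
    intro m c
    rw [ex_le_iff, ex_le_iff]
    refine forall_congr' fun v => ?_
    rw [testBit_cln, Finsupp.add_apply, ex_apply]
    cases m.testBit v <;> cases f.testBit v <;> simp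
  constructor
  · intro h c hc
    rw [mem_support_iff, coeff_mul_monomial'] at hc
    split_ifs at hc with hle
    · rw [mul_one] at hc
      obtain ⟨m', hm', h1⟩ := h _ (mem_support_iff.2 hc)
      obtain ⟨m, hm, rfl⟩ := List.mem_map.1 hm'
      refine ⟨m, hm, ?_⟩
      have h2 := (key m _).1 h1
      rwa [tsub_add_cancel_of_le hle] at h2
    · exact absurd rfl hc
  · intro h c hc
    obtain ⟨m, hm, h1⟩ := h (c + ex n f) (by
      rw [mem_support_iff, coeff_mul_monomial', if_pos le_add_self, add_tsub_cancel_right, mul_one]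
      exact mem_support_iff.1 hc)
    exact ⟨_, List.mem_map.2 ⟨m, hm, rfl⟩, (key m c).2 h1⟩

/-- remove redundant generators -/
def red : List ℕ → List ℕ
  | [] => []
  | a :: L => if (red L).any (fun b => a &&& b == b) then red L
      else a :: (red L).filter (fun b => !(a &&& b == a))

lemma ex_mono {a b : ℕ} (h : a &&& b = b) {c : Fin n →₀ ℕ} (hc : ex n a ≤ c) : ex n b ≤ c := by
  rw [ex_le_iff] at hc ⊢
  intro v hv
  refine hc v ?_
  have h1 := congrArg (fun x => x.testBit v) h
  simp only [Nat.testBit_and] at h1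
  rw [hv, Bool.and_true] at h1
  exact h1

lemma red_iff (L : List ℕ) (c : Fin n →₀ ℕ) :
    (∃ m ∈ red L, ex n m ≤ c) ↔ ∃ m ∈ L, ex n m ≤ c := by
  induction L with
  | nil => rfl
  | cons a L ih =>
    rw [red]
    split_ifs with h
    · rw [ih]
      constructor
      · rintro ⟨m, hm, h1⟩; exact ⟨m, List.mem_cons_of_mem _ hm, h1⟩
      · rintro ⟨m, hm, h1⟩
        rcases List.mem_cons.1 hm with rfl | hm
        · obtain ⟨b, hb, h2⟩ := List.any_eq_true.1 h
          rw [← ih]
          exact ⟨b, hb, ex_mono (by simpa using h2) h1⟩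
        · exact ⟨m, hm, h1⟩
    · constructor
      · rintro ⟨m, hm, h1⟩
        rcases List.mem_cons.1 hm with rfl | hm
        · exact ⟨m, List.mem_cons_self, h1⟩
        · obtain ⟨m', hm', h2⟩ := ih.1 ⟨m, (List.mem_filter.1 hm).1, h1⟩
          exact ⟨m', List.mem_cons_of_mem _ hm', h2⟩
      · rintro ⟨m, hm, h1⟩
        rcases List.mem_cons.1 hm with rfl | hm
        · exact ⟨m, List.mem_cons_self, h1⟩
        · obtain ⟨m', hm', h2⟩ := ih.2 ⟨m, hm, h1⟩
          by_cases h3 : a &&& m' = a
          · exact ⟨a, List.mem_cons_self, ex_mono (a := m') (by rw [Nat.and_comm]; exact h3) h2⟩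
          · exact ⟨m', List.mem_cons_of_mem _ (List.mem_filter.2 ⟨hm', by simpa using h3⟩), h2⟩

lemma IL_red (L : List ℕ) : IL K n (red L) = IL K n L := by
  ext p
  rw [mem_IL, mem_IL]
  exact forall₂_congr fun c _ => red_iff L c

lemma IL_cons (f : ℕ) (L : List ℕ) :
    IL K n (f :: L) = IL K n L ⊔ Ideal.span {monomial (ex n f) (1 : K)} := by
  unfold IL
  rw [← Ideal.span_union]
  congr 1
  ext p
  constructor
  · rintro ⟨s, ⟨m, hm, rfl⟩, rfl⟩
    rcases List.mem_cons.1 hm with rfl | hm
    · exact Or.inr rfl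
    · exact Or.inl ⟨_, ⟨m, hm, rfl⟩, rfl⟩
  · rintro (⟨s, ⟨m, hm, rfl⟩, rfl⟩ | rfl)
    · exact ⟨_, ⟨m, List.mem_cons_of_mem _ hm, rfl⟩, rfl⟩
    · exact ⟨_, ⟨f, List.mem_cons_self, rfl⟩, rfl⟩

/-- the bound -/
def pdB : ℕ → List ℕ → Option ℕ
  | _, [] => some 0
  | 0, _ :: _ => none
  | k + 1, f :: L =>
    match pdB k L, pdB k (red (L.map (cln f))) with
    | some a, some b => some (max a (b + 1))
    | _, _ => none

theorem pdB_spec (k : ℕ) : ∀ (L : List ℕ) (d : ℕ), pdB k L = some d → PdLE (IL K n L) d := by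
  induction k with
  | zero =>
    intro L d h
    cases L with
    | nil =>
      have : IL K n [] = ⊥ := by
        unfold IL
        rw [Ideal.span_eq_bot]
        rintro p ⟨s, ⟨m, hm, -⟩, -⟩
        exact absurd hm (List.not_mem_nil)
      rw [this]; exact pd_bot d
    | cons f L => simp [pdB] at h
  | succ k ih =>
    intro L d h
    cases L with
    | nil =>
      have : IL K n [] = ⊥ := by
        unfold IL
        rw [Ideal.span_eq_bot]
        rintro p ⟨s, ⟨m, hm, -⟩, -⟩
        exact absurd hm (List.not_mem_nil)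
      rw [this]; exact pd_bot d
    | cons f L =>
      rw [pdB] at h
      cases ha : pdB k L with
      | none => rw [ha] at h; simp at h
      | some a =>
        cases hb : pdB k (red (L.map (cln f))) with
        | none => rw [ha, hb] at h; simp at h
        | some b =>
          rw [ha, hb] at h
          simp only [Option.some.injEq] at h
          have h1 := ih L a ha
          have h2 := ih _ b hb
          rw [IL_red] at h2
          obtain ⟨d', rfl⟩ : ∃ d', d = d' + 1 := ⟨d - 1, by omega⟩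
          rw [IL_cons]
          exact pd_add _ _ _ (mem_colon f L) d' (h1.mono (by omega)) (h2.mono (by omega))

end squarefree

end Pool.Agent.Q14.PdColon
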