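import Pool.Agent.Q14.Betti

/-!
Projective dimension and Koszul homology.
-/

set_option autoImplicit false

namespace Pool.Agent.Q14.PdKos

open Finset CategoryTheory Pool.Agent.Q14.Kos

universe u v w

variable {n : ℕ} {A : Type u} [CommRing A]

/-- the Koszul homology of `a` with coefficients in `M` vanishes in degree `i` -/
def Ac (a : Fin n → A) (M : Type v) [AddCommGroup M] [Module A M] (i : ℕ) : Prop :=
  ∀ z : Finset (Fin n) → M, (∀ T, T.card ≠ i → z T = 0) → kd a z = 0 →
    ∃ w : Finset (Fin n) → M, (∀ T, T.card ≠ i + 1 → w T = 0) ∧ kd a w = z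

lemma kd_lin {M : Type v} {N : Type w} [AddCommGroup M] [Module A M] [AddCommGroup N] [Module A N]
    (a : Fin n → A) (φ : M →ₗ[A] N) (z : Finset (Fin n) → M) :
    kd a (fun T => φ (z T)) = fun T => φ (kd a z T) := by
  funext T
  rw [kd_apply, kd_apply, map_sum]
  exact Finset.sum_congr rfl fun j _ => by rw [map_smul]

lemma Ac_free (a : Fin n → A) {i : ℕ} (h : Ac a A i) (ι : Type v) : Ac a (ι →₀ A) i := by
  classical
  intro z hz hkd
  have hz' : ∀ j : ι, ∃ w : Finset (Fin n) → A, (∀ T, T.card ≠ i + 1 → w T = 0) ∧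
      kd a w = fun T => z T j := by
    intro j
    refine h (fun T => z T j) (fun T hT => by rw [hz T hT]; rfl) ?_
    have h1 := kd_lin a (Finsupp.lapply j : (ι →₀ A) →ₗ[A] A) z
    rw [hkd] at h1
    exact h1
  choose w hw1 hw2 using hz'
  let s : Finset ι := Finset.univ.biUnion (fun T => (z T).support)
  refine ⟨fun T => ∑ j ∈ s, Finsupp.single j (w j T), fun T hT => ?_, ?_⟩
  · exact Finset.sum_eq_zero fun j _ => by rw [hw1 j T hT, Finsupp.single_zero]
  · have h1 : kd a (fun T => ∑ j ∈ s, Finsupp.single j (w j T)) =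
        ∑ j ∈ s, kd a (fun T => Finsupp.single j (w j T)) := by
      rw [← map_sum]
      congr 1
      funext T
      rw [Finset.sum_apply]
    rw [h1]
    funext T
    rw [Finset.sum_apply]
    have h2 : ∀ j ∈ s, kd a (fun T => Finsupp.single j (w j T)) T = Finsupp.single j (z T j) := by
      intro j _
      have h3 := kd_lin a (Finsupp.lsingle j : A →ₗ[A] (ι →₀ A)) (w j)
      have h4 := congrFun h3 T
      rw [hw2 j] at h4
      exact h4
    rw [Finset.sum_congr rfl h2]
    ext j
    rw [Finsupp.finsetSum_apply]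
    by_cases hj : j ∈ s
    · rw [Finset.sum_eq_single j]
      · rw [Finsupp.single_eq_same]
      · intro j' _ hne
        rw [Finsupp.single_eq_of_ne (Ne.symm hne)]
      · intro h'; exact absurd hj h'
    · have h5 : z T j = 0 := by
        by_contra h6
        exact hj (Finset.mem_biUnion.2 ⟨T, Finset.mem_univ _, Finsupp.mem_support_iff.2 h6⟩)
      rw [h5]
      refine Finset.sum_eq_zero fun j' hj' => ?_
      rw [Finsupp.single_eq_of_ne]
      rintro rfl
      exact hj hj'

lemma Ac_retract (a : Fin n → A) {i : ℕ} {P : Type v} {F : Type w} [AddCommGroup P] [Module A P]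
    [AddCommGroup F] [Module A F] (s : P →ₗ[A] F) (π : F →ₗ[A] P) (hs : ∀ x, π (s x) = x)
    (h : Ac a F i) : Ac a P i := by
  intro z hz hkd
  obtain ⟨w, hw1, hw2⟩ := h (fun T => s (z T)) (fun T hT => by rw [hz T hT, map_zero]) (by
    rw [kd_lin, hkd]
    funext T
    exact map_zero _)
  refine ⟨fun T => π (w T), fun T hT => by
    change π (w T) = 0
    rw [hw1 T hT, map_zero], ?_⟩
  rw [kd_lin, hw2]
  funext T
  exact hs _

lemma Ac_projective (a : Fin n → A) {i : ℕ} (h : Ac a A i) (P : Type v) [AddCommGroup P]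
    [Module A P] [hP : Module.Projective A P] : Ac a P i := by
  obtain ⟨s, hs⟩ := hP.out
  exact Ac_retract a s (Finsupp.linearCombination A id) hs (Ac_free a h P)

/-- dimension shifting -/
lemma Ac_shift (a : Fin n → A) {i : ℕ} {M : Type v} {F : Type w} [AddCommGroup M] [Module A M]
    [AddCommGroup F] [Module A F] (f : F →ₗ[A] M) (hf : Function.Surjective f)
    (hF : Ac a F (i + 1)) (hN : Ac a (LinearMap.ker f) i) : Ac a M (i + 1) := by
  intro z hz hkd
  choose g hg using hf
  let y : Finset (Fin n) → F := fun T => if T.card = i + 1 then g (z T) else 0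
  have hy : ∀ T, f (y T) = z T := by
    intro T
    change f (if T.card = i + 1 then g (z T) else 0) = z T
    split_ifs with h
    · exact hg _
    · rw [map_zero, hz T h]
  have hy0 : ∀ T, T.card ≠ i + 1 → y T = 0 := fun T hT => if_neg hT
  have hker : ∀ T, kd a y T ∈ LinearMap.ker f := by
    intro T
    rw [LinearMap.mem_ker]
    have h1 := congrFun (kd_lin a f y) T
    rw [show (fun T => f (y T)) = z from funext hy, hkd] at h1
    exact h1.symm
  let x : Finset (Fin n) → LinearMap.ker f := fun T => ⟨kd a y T, hker T⟩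
  have hx : kd a x = 0 := by
    funext T
    apply Subtype.ext
    have h1 := congrFun (kd_lin a (LinearMap.ker f).subtype x) T
    have h2 : kd a (fun T => (LinearMap.ker f).subtype (x T)) T = 0 := by
      have h3 := congrFun (kd_kd a y) T
      exact h3
    rw [h2] at h1
    exact h1.symm
  obtain ⟨w, hw1, hw2⟩ := hN x (fun T hT => Subtype.ext (kd_card a hy0 T hT)) hx
  obtain ⟨u, hu1, hu2⟩ := hF (fun T => y T - (w T : F)) (fun T hT => by
    rw [hy0 T hT, hw1 T hT]; simp) (by
    have h1 : kd a (fun T => y T - (w T : F)) = kd a y - kd a (fun T => (w T : F)) := by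
      rw [← map_sub]; rfl
    rw [h1, sub_eq_zero]
    have h2 := kd_lin a (LinearMap.ker f).subtype w
    change kd a (fun T => (w T : F)) = _ at h2
    rw [h2, hw2]
    rfl)
  refine ⟨fun T => f (u T), fun T hT => by
    change f (u T) = 0
    rw [hu1 T hT, map_zero], ?_⟩
  rw [kd_lin, hu2]
  funext T
  change f (y T - (w T : F)) = z T
  rw [map_sub, hy, LinearMap.mem_ker.1 (w T).2, sub_zero]

theorem Ac_of_pd (a : Fin n → A) (h : ∀ i, 1 ≤ i → Ac a A i) (d : ℕ) :
    ∀ (M : ModuleCat.{u} A) (_ : HasProjectiveDimensionLT M (d + 1)) (i : ℕ), d < i →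
      Ac a M i := by
  induction d with
  | zero =>
    intro M hM i hi
    have h1 : Projective M := projective_iff_hasProjectiveDimensionLT_one.2 hM
    have h2 : Module.Projective A M := (IsProjective.iff_projective (R := A) M).2 h1
    exact Ac_projective a (h i hi) M
  | succ d ih =>
    intro M hM i hi
    obtain ⟨i, rfl⟩ : ∃ j, i = j + 1 := ⟨i - 1, by omega⟩
    let f : (M →₀ A) →ₗ[A] M := Finsupp.linearCombination A id
    have hf : Function.Surjective f := fun m => ⟨Finsupp.single m 1, by
      change Finsupp.linearCombination A id (Finsupp.single m 1) = m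
      rw [Finsupp.linearCombination_single, one_smul, id]⟩
    have hS := LinearMap.shortExact_shortComplexKer hf
    have hproj : Projective f.shortComplexKer.X₂ := by
      have h3 : Module.Projective A (M →₀ A) := inferInstance
      exact (IsProjective.iff_projective (R := A) (M →₀ A)).1 h3
    have h4 := (hS.hasProjectiveDimensionLT_X₃_iff d hproj).1 hM
    have h5 := ih f.shortComplexKer.X₁ h4 i (by omega)
    exact Ac_shift a f hf (Ac_free a (h (i + 1) (by omega)) M) h5

section poly

open Pool.Agent.Q14.Betti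
open Pool.Agent.H677R3.EdgeReg (cd KK ind hv homotopy cd_zero)

variable {K : Type u} [Field K]

/-- the Koszul complex of the variables of a polynomial ring is acyclic -/
lemma Ac_poly {i : ℕ} (hi : 1 ≤ i) :
    Ac (MvPolynomial.X : Fin n → MvPolynomial (Fin n) K) (MvPolynomial (Fin n) K) i := by
  classical
  have h0 : betti (⊤ : Ideal (MvPolynomial (Fin n) K)) i = 0 := by
    refine betti_eq_zero _ (fun _ => True) (fun p => by simp) i ?_
    intro b a ha hc
    by_cases hb : b = 0
    · have h1 : ∀ T, a T = 0 := by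
        intro T
        by_contra h
        obtain ⟨⟨h2, -⟩, h3⟩ := ha T h
        obtain ⟨v, hv⟩ : T.Nonempty := Finset.card_pos.1 (by omega)
        have h4 := h2 v
        rw [hb] at h4
        simp [hv] at h4
      exact ⟨fun _ => 0, fun T h => absurd rfl h, fun T => by rw [cd_zero, h1]⟩
    · obtain ⟨v, hv'⟩ : ∃ v, b v ≠ 0 := by
        by_contra hcon
        push Not at hcon
        exact hb (Finsupp.ext hcon)
      refine ⟨hv v a, ?_, ?_⟩
      · intro T hT
        unfold hv at hT
        split_ifs at hT with hvT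
        · have h2 : a (T.erase v) ≠ 0 := fun h => hT (by rw [h, mul_zero])
          obtain ⟨⟨h3, -⟩, h4⟩ := ha _ h2
          refine ⟨⟨?_, trivial⟩, ?_⟩
          · intro x
            by_cases hx : x = v
            · subst hx
              simp only [Pool.Agent.H677R3.EdgeReg.ind_apply, if_pos hvT]
              omega
            · have h5 := h3 x
              simp only [Pool.Agent.H677R3.EdgeReg.ind_apply, Finset.mem_erase, ne_eq, hx,
                not_false_eq_true, true_and] at h5 ⊢
              exact h5
          · rw [Finset.card_erase_of_mem hvT] at h4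
            have : 0 < T.card := Finset.card_pos.mpr ⟨v, hvT⟩
            omega
        · exact absurd rfl hT
      · intro T
        have h5 := homotopy v a T
        have h6 : hv v (cd a) T = 0 := by
          unfold hv
          split_ifs with hvT
          · rw [hc, mul_zero]
          · rfl
        rw [h6, add_zero] at h5
        exact h5
  rw [betti_eq_zero_iff] at h0
  intro z hz hkd
  obtain ⟨w, hw1, hw2, hw3⟩ := h0 (show z ∈ cycles ⊤ i from ⟨fun _ => Submodule.mem_top, hz,
    fun T => by rw [koszulD_eq, hkd]; rfl⟩)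
  refine ⟨w, hw2, ?_⟩
  rw [← koszulD_eq]
  exact funext hw3

/-- a nonzero Betti number bounds the projective dimension from below -/
theorem not_pd_of_betti (J : Ideal (MvPolynomial (Fin n) K)) {i : ℕ} (hi : 1 ≤ i)
    (hb : betti J i ≠ 0) :
    ¬ HasProjectiveDimensionLT (ModuleCat.of (MvPolynomial (Fin n) K)
      (MvPolynomial (Fin n) K ⧸ J)) (i + 1) := by
  classical
  intro hpd
  apply hb
  rw [betti_eq_zero_iff]
  rintro z ⟨hz1, hz2, hz3⟩
  have hkd : kd (MvPolynomial.X : Fin n → MvPolynomial (Fin n) K) z = 0 := by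
    rw [← koszulD_eq]; exact funext hz3
  obtain ⟨w, hw1, hw2⟩ := Ac_poly hi z hz2 hkd
  have h1 : Ac (MvPolynomial.X : Fin n → MvPolynomial (Fin n) K)
      (MvPolynomial (Fin n) K ⧸ J) (i + 1) :=
    Ac_of_pd _ (fun i hi => Ac_poly hi) i _ hpd (i + 1) (by omega)
  have h2 := kd_lin (MvPolynomial.X : Fin n → MvPolynomial (Fin n) K) (Submodule.mkQ J) w
  obtain ⟨u, hu1, hu2⟩ := h1 (fun T => Submodule.mkQ J (w T))
    (fun T hT => by
      change Submodule.mkQ J (w T) = 0
      rw [hw1 T hT, map_zero]) (by
      rw [h2, hw2]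
      funext T
      exact (Submodule.Quotient.mk_eq_zero _).2 (hz1 T))
  choose g hg using Submodule.mkQ_surjective J
  let y : Finset (Fin n) → MvPolynomial (Fin n) K := fun T => if T.card = i + 1 + 1 then g (u T) else 0
  have hy : ∀ T, Submodule.mkQ J (y T) = u T := by
    intro T
    change Submodule.mkQ J (if T.card = i + 1 + 1 then g (u T) else 0) = u T
    split_ifs with h
    · exact hg _
    · rw [map_zero, hu1 T h]
  have hy0 : ∀ T, T.card ≠ i + 1 + 1 → y T = 0 := fun T hT => if_neg hT
  have h3 := kd_lin (MvPolynomial.X : Fin n → MvPolynomial (Fin n) K) (Submodule.mkQ J) y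
  rw [show (fun T => Submodule.mkQ J (y T)) = u from funext hy, hu2] at h3
  refine ⟨w - kd (MvPolynomial.X : Fin n → MvPolynomial (Fin n) K) y, fun T => ?_, fun T hT => ?_,
    fun T => ?_⟩
  · rw [← Submodule.Quotient.mk_eq_zero]
    have h4 := congrFun h3 T
    change Submodule.mkQ J (w T - kd MvPolynomial.X y T) = 0
    rw [map_sub, sub_eq_zero]
    exact h4
  · rw [Pi.sub_apply, hw1 T hT, kd_card _ hy0 T hT, sub_zero]
  · rw [koszulD_eq, map_sub, kd_kd, sub_zero, hw2]

end poly

end Pool.Agent.Q14.PdKos
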