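import Pool.Agent.Q14.Val

/-!
Powers of primes generated by variables; monomial ideals are homogeneous.
-/

set_option autoImplicit false

namespace Q14.Mono

open MvPolynomial

attribute [local instance] MvPolynomial.gradedAlgebra

variable {σ : Type*} {K : Type*} [Field K]

lemma IsMon.isHomogeneous {J : Ideal (MvPolynomial σ K)} (hJ : IsMon J) :
    J.IsHomogeneous (homogeneousSubmodule σ K) := by
  rw [hJ.eq_span]
  apply Ideal.homogeneous_span
  rintro _ ⟨u, -, rfl⟩
  exact ⟨_, isHomogeneous_monomial _ rfl⟩

variable {n : ℕ}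

lemma weight_indicator (A : Set (Fin n)) [DecidablePred (· ∈ A)] (u : Fin n →₀ ℕ) :
    Finsupp.weight (fun i => if i ∈ A then 1 else 0) u = ∑ i, if i ∈ A then u i else 0 := by
  rw [Finsupp.weight_apply, Finsupp.sum_fintype _ _ (by simp)]
  refine Finset.sum_congr rfl fun i _ => ?_
  split_ifs <;> simp

open Classical in
/-- Monomials in the powers of a prime generated by variables. -/
lemma monomial_mem_PV_pow (A : Set (Fin n)) (k : ℕ) (u : Fin n →₀ ℕ) :
    monomial u (1 : K) ∈ PV K A ^ k ↔ k ≤ ∑ i, if i ∈ A then u i else 0 := by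
  constructor
  · intro h
    have h1 : PV K A ≤ WtGE K (fun i => if i ∈ A then 1 else 0) 1 := by
      intro f hf u hu
      obtain ⟨i, hi, hui⟩ := mem_PV.mp hf u hu
      rw [weight_indicator]
      calc 1 ≤ u i := Nat.one_le_iff_ne_zero.mpr hui
        _ = (if i ∈ A then u i else 0) := by rw [if_pos hi]
        _ ≤ _ := Finset.single_le_sum (f := fun i => if i ∈ A then u i else 0)
          (fun _ _ => Nat.zero_le _) (Finset.mem_univ i)
    have h2 := pow_le_WtGE h1 k h
    rw [mul_one, monomial_mem_WtGE, weight_indicator] at h2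
    exact h2
  · induction k generalizing u with
    | zero => intro _; rw [pow_zero, Ideal.one_eq_top]; exact Submodule.mem_top
    | succ k ih =>
      intro h
      obtain ⟨i, -, hi⟩ : ∃ i ∈ Finset.univ, (if i ∈ A then u i else 0) ≠ 0 := by
        apply Finset.exists_ne_zero_of_sum_ne_zero
        omega
      have hiA : i ∈ A := by by_contra hc; rw [if_neg hc] at hi; exact hi rfl
      rw [if_pos hiA] at hi
      have hle : Finsupp.single i 1 ≤ u := by
        rw [Finsupp.single_le_iff]; omega
      obtain ⟨v, hv⟩ := exists_add_of_le hle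
      have hsum : (∑ j, if j ∈ A then u j else 0) = 1 + ∑ j, if j ∈ A then v j else 0 := by
        have h1 : ∀ j, (if j ∈ A then u j else 0) =
            (if j = i then 1 else 0) + (if j ∈ A then v j else 0) := by
          intro j
          rw [hv]
          by_cases hj : j = i
          · subst hj; simp [hiA]
          · simp [hj]
        rw [Finset.sum_congr rfl (fun j _ => h1 j), Finset.sum_add_distrib]
        simp
      have h2 := ih v (by omega)
      rw [hv, pow_succ, mul_comm, show (monomial (Finsupp.single i 1 + v) (1 : K)) =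
        X i * monomial v 1 by rw [X, monomial_mul, one_mul]]
      exact Ideal.mul_mem_mul (X_mem_PV.mpr hiA) h2

/-- Monomials in the powers of the maximal ideal. -/
lemma monomial_mem_max_pow (k : ℕ) (u : Fin n →₀ ℕ) :
    monomial u (1 : K) ∈ PV K (Set.univ : Set (Fin n)) ^ k ↔ k ≤ ∑ i, u i := by
  rw [monomial_mem_PV_pow]
  simp

end Q14.Mono
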