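import Pool.Agent.Q14.Symb
import Pool.Agent.H677R3.RegKoszul

/-!
Koszul homology of a quotient of a polynomial ring by a monomial ideal.
-/

set_option autoImplicit false

namespace Q14.QTor

open MvPolynomial Finset Pool.Agent.H677R3.EdgeReg

variable {n : ℕ} {K : Type*} [Field K]

/-- `Tor_i(R/J,K)_{i+e} ≠ 0`, `R = K[x_1, …, x_n]`, as Koszul homology: there is a chain of the Koszul
complex of `R/J` on `x_1, …, x_n`, with coefficients (represented by) forms of degree `e`, that is a
cycle but not a boundary. A chain `f` assigns to `T` the coefficient of the basis element `e_T`; the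
differential `koszulD` sends `e_{T ∪ j}` to `∑ ± x_j e_T`. -/
def TorQ (J : Ideal (MvPolynomial (Fin n) K)) (i e : ℕ) : Prop :=
  ∃ f : Finset (Fin n) → MvPolynomial (Fin n) K,
    (∀ T, (f T).IsHomogeneous e) ∧ (∀ T, T.card ≠ i → f T = 0) ∧
    (∀ T, koszulD f T ∈ J) ∧
    ¬ ∃ g : Finset (Fin n) → MvPolynomial (Fin n) K,
      (∀ T, T.card ≠ i + 1 → g T = 0) ∧ ∀ T, f T - koszulD g T ∈ J

/-- The sets `T` such that `x^(b-T)` is a monomial not in the ideal. -/
def QQ (P : (Fin n →₀ ℕ) → Prop) (b : Fin n →₀ ℕ) (T : Finset (Fin n)) : Prop :=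
  ind T ≤ b ∧ ¬ P (b - ind T)

/-- If all multigraded strands of degree `e + i` are acyclic then the Koszul homology vanishes. -/
theorem not_torQ (J : Ideal (MvPolynomial (Fin n) K)) (P : (Fin n →₀ ℕ) → Prop)
    (hJ : ∀ p, p ∈ J ↔ ∀ c ∈ p.support, P c) (hP : ∀ u v : Fin n →₀ ℕ, u ≤ v → P u → P v)
    (i e : ℕ) (hac : ∀ b : Fin n →₀ ℕ, ∑ v, b v = e + i → RelAcyc K (QQ P b) i) :
    ¬ TorQ J i e := by
  classical
  rintro ⟨f, hf2, hf3, hf4, hf5⟩
  apply hf5
  -- the components
  let a : (Fin n →₀ ℕ) → Finset (Fin n) → K := fun b T => if QQ P b T then comp f b T else 0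
  have hdeg : ∀ b T, comp f b T ≠ 0 → T.card = i ∧ ∑ v, b v = e + i := by
    intro b T h
    unfold comp at h
    split_ifs at h with hle
    · have hcard : T.card = i := by
        by_contra hne
        rw [hf3 T hne] at h
        simp at h
      refine ⟨hcard, ?_⟩
      have h1 := (hf2 T) h
      have h2 : Finsupp.weight (1 : Fin n → ℕ) (b - ind T) = ∑ v, (b - ind T) v := by
        rw [Finsupp.weight_apply, Finsupp.sum_fintype _ _ (by simp)]
        simp
      rw [h2] at h1
      have h3 : ∑ v, b v = ∑ v, (b - ind T) v + ∑ v, ind T v := by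
        rw [← Finset.sum_add_distrib]
        refine Finset.sum_congr rfl fun v _ => ?_
        have := hle v
        simp only [Finsupp.coe_tsub, Pi.sub_apply]
        omega
      rw [h3, h1, sum_ind, hcard]
    · exact absurd rfl h
  have hcyc : ∀ b T, QQ P b T → cd (a b) T = 0 := by
    intro b T hT
    have h1 : cd (a b) T = cd (comp f b) T := by
      unfold cd
      refine Finset.sum_congr rfl fun j hj => ?_
      congr 1
      change (if QQ P b (insert j T) then comp f b (insert j T) else 0) = _
      split_ifs with h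
      · rfl
      · symm
        by_contra hne
        apply h
        have hle : ind (insert j T) ≤ b := by
          by_contra hcon
          apply hne
          unfold comp
          rw [if_neg hcon]
        refine ⟨hle, fun hPin => hT.2 (hP _ _ ?_ hPin)⟩
        have hj' : j ∉ T := by simpa using hj
        rw [ind_insert hj']
        intro v
        simp only [Finsupp.coe_tsub, Pi.sub_apply, Finsupp.coe_add, Pi.add_apply]
        omega
    rw [h1, ← comp_koszulD]
    unfold comp
    rw [if_pos hT.1]
    by_contra hne
    exact hT.2 ((hJ _).mp (hf4 T) _ (mem_support_iff.mpr hne))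
  have hex : ∀ b, ∃ g : Finset (Fin n) → K, (∀ T, g T ≠ 0 → QQ P b T ∧ T.card = i + 1) ∧
      ∀ T, QQ P b T → cd g T = comp f b T := by
    intro b
    by_cases hb : ∑ v, b v = e + i
    · obtain ⟨g, hg1, hg2⟩ := hac b hb (a b) (by
        intro T hT
        change (if QQ P b T then comp f b T else 0) ≠ 0 at hT
        split_ifs at hT with h
        · exact ⟨h, (hdeg b T hT).1⟩
        · exact absurd rfl hT) (hcyc b)
      refine ⟨g, hg1, fun T hT => ?_⟩
      rw [hg2 T hT]
      change (if QQ P b T then comp f b T else 0) = _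
      rw [if_pos hT]
    · refine ⟨fun _ => 0, fun T h => absurd rfl h, fun T _ => ?_⟩
      rw [cd_zero]
      by_contra h
      exact hb (hdeg b T (fun h' => h h'.symm)).2
  choose G hG1 hG2 using hex
  let B : Finset (Fin n →₀ ℕ) := Finset.univ.biUnion (fun T => (f T).support.image (· + ind T))
  have hB : ∀ b, b ∉ B → ∀ T, comp f b T = 0 := by
    intro b hb T
    by_contra h
    apply hb
    unfold comp at h
    split_ifs at h with hle
    · exact Finset.mem_biUnion.mpr ⟨T, Finset.mem_univ _, Finset.mem_image.mpr ⟨b - ind T,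
        MvPolynomial.mem_support_iff.mpr h, tsub_add_cancel_of_le hle⟩⟩
    · exact absurd rfl h
  let g : Finset (Fin n) → MvPolynomial (Fin n) K :=
    fun T => ∑ b ∈ B, MvPolynomial.monomial (b - ind T) (G b T)
  have hg : ∀ b T, comp g b T = if b ∈ B then G b T else 0 := by
    intro b T
    have key : ∀ b' ∈ B, ind T ≤ b → (MvPolynomial.monomial (b' - ind T) (G b' T)).coeff (b - ind T) =
        if b' = b then G b T else 0 := by
      intro b' _ hle
      rw [MvPolynomial.coeff_monomial]
      by_cases h0 : G b' T = 0
      · by_cases h1 : b' = b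
        · subst h1; simp [h0]
        · rw [h0]; simp [h1]
      · have hle' := (hG1 b' T h0).1.1
        by_cases h1 : b' = b
        · subst h1; simp
        · rw [if_neg h1, if_neg]
          intro h2
          apply h1
          rw [← tsub_add_cancel_of_le hle', ← tsub_add_cancel_of_le hle, h2]
    unfold comp
    by_cases hle : ind T ≤ b
    · rw [if_pos hle]
      simp only [g]
      rw [MvPolynomial.coeff_sum, Finset.sum_congr rfl (fun b' hb' => key b' hb' hle)]
      rw [Finset.sum_ite_eq' B b]
    · rw [if_neg hle]
      split_ifs with hb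
      · by_contra h
        exact hle (hG1 b T (fun h' => h h'.symm)).1.1
      · rfl
  refine ⟨g, ?_, ?_⟩
  · intro T hT
    ext c
    rw [← comp_add_ind, hg, MvPolynomial.coeff_zero]
    split_ifs
    · by_contra h
      exact hT (hG1 _ _ h).2
    · rfl
  · intro T
    rw [hJ]
    intro c hc
    by_contra hPc
    rw [mem_support_iff, coeff_sub, ← comp_add_ind, ← comp_add_ind, comp_koszulD] at hc
    apply hc
    rw [sub_eq_zero]
    set b := c + ind T with hb
    have hQ : QQ P b T := ⟨by rw [hb]; simp, by rw [hb, add_tsub_cancel_right]; exact hPc⟩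
    have h1 : comp g b = fun T => if b ∈ B then G b T else 0 := by
      funext T; exact hg b T
    rw [h1]
    by_cases hbB : b ∈ B
    · simp only [if_pos hbB]
      exact (hG2 b T hQ).symm
    · simp only [if_neg hbB]
      rw [cd_zero, hB b hbB]

end Q14.QTor
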