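import Pool.Agent.Q14.StanDec

/-!
Certificates for nonzero multigraded Betti numbers.
-/

set_option autoImplicit false

namespace Pool.Agent.Q14.RelCert

open MvPolynomial Pool.Agent.Q14.PdColon Pool.Agent.Q14.PdKos Pool.Agent.Q14.StanDec
  Pool.Agent.Q14.Betti
open Pool.Agent.H677R3.EdgeReg (cd KK ind hv homotopy cd_zero cd_cd cd_sub sg TorNe lower_transfer)

universe u

/-- a relative cycle and a relative cocycle with nonzero pairing -/
lemma lower_rel {n : ℕ} {k : Type u} [Field k] (Kf : Finset (Fin n) → Prop) (i : ℕ) (v : Fin n)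
    (z0 φ : Finset (Fin n) → k)
    (hz0 : ∀ T, z0 T ≠ 0 → T.card = i + 1)
    (hcd : ∀ T, cd z0 T ≠ 0 → Kf T)
    (hφK : ∀ T, Kf T → φ T = 0)
    (hφ : ∀ T, ∑ j ∈ T, sg k j (T.erase j) * φ (T.erase j) = 0)
    (hp : ∑ T, φ T * z0 T ≠ 0) :
    ∃ a : Finset (Fin n) → k, (∀ T, a T ≠ 0 → Kf T ∧ T.card = i) ∧ (∀ T, cd a T = 0) ∧
      ¬ ∃ g : Finset (Fin n) → k, (∀ T, g T ≠ 0 → Kf T ∧ T.card = i + 1) ∧ ∀ T, cd g T = a T := by
  classical
  refine ⟨cd z0, fun T hT => ⟨hcd T hT, ?_⟩, fun T => cd_cd z0 T, ?_⟩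
  · unfold cd at hT
    obtain ⟨j, hj, hj2⟩ := Finset.exists_ne_zero_of_sum_ne_zero hT
    have h3 := hz0 _ (right_ne_zero_of_mul hj2)
    have hjT : j ∉ T := by simpa using hj
    rw [Finset.card_insert_of_notMem hjT] at h3
    omega
  · rintro ⟨g, hg1, hg2⟩
    let z : Finset (Fin n) → k := fun T => z0 T - g T
    have hz : ∀ T, cd z T = 0 := by
      intro T
      have : cd z T = cd z0 T - cd g T := cd_sub _ _ _
      rw [this, hg2, sub_self]
    let c := hv v z
    have hc2 : ∀ T, cd c T = z T := by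
      intro T
      have h5 := homotopy v z T
      have h6 : hv v (cd z) T = 0 := by
        unfold hv
        split_ifs with hvT
        · rw [hz, mul_zero]
        · rfl
      rw [h6, add_zero] at h5
      exact h5
    have hp1 : ∑ T, φ T * z T = ∑ T, φ T * z0 T := by
      refine Finset.sum_congr rfl fun T _ => ?_
      change φ T * (z0 T - g T) = _
      by_cases hKT : Kf T
      · rw [hφK T hKT, zero_mul, zero_mul]
      · have : g T = 0 := by
          by_contra h; exact hKT (hg1 _ h).1
        rw [this, sub_zero]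
    have hp2 : ∑ T, φ T * z T = ∑ T, c T * ∑ j ∈ T, sg k j (T.erase j) * φ (T.erase j) := by
      have e1 : ∀ T, φ T * z T = ∑ j ∈ Tᶜ, φ T * (sg k j T * c (insert j T)) := by
        intro T
        rw [← hc2 T]
        unfold cd
        rw [Finset.mul_sum]
      simp_rw [e1, Finset.mul_sum]
      rw [Finset.sum_sigma', Finset.sum_sigma']
      refine Finset.sum_bij' (fun x _ => ⟨insert x.2 x.1, x.2⟩) (fun x _ => ⟨x.1.erase x.2, x.2⟩) ?_ ?_ ?_ ?_ ?_
      · rintro ⟨T, j⟩ h
        simp only [Finset.mem_sigma, Finset.mem_univ, true_and]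
        exact Finset.mem_insert_self _ _
      · rintro ⟨T, j⟩ h
        simp
      · rintro ⟨T, j⟩ h
        have hjT : j ∉ T := by simpa using h
        simp only [Finset.erase_insert hjT]
      · rintro ⟨T, j⟩ h
        have hjT : j ∈ T := by simpa using h
        simp only [Finset.insert_erase hjT]
      · rintro ⟨T, j⟩ h
        have hjT : j ∉ T := by simpa using h
        simp only [Finset.erase_insert hjT]
        ring
    apply hp
    rw [← hp1, hp2]
    exact Finset.sum_eq_zero fun T _ => by rw [hφ T, mul_zero]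

section codes

variable {n : ℕ}

/-- bit mask of a finite set -/
def code (T : Finset (Fin n)) : ℕ := Nat.ofBits fun v : Fin n => decide (v ∈ T)

lemma code_lt (T : Finset (Fin n)) : code T < 2 ^ n := Nat.ofBits_lt_two_pow _

lemma testBit_code (T : Finset (Fin n)) (v : Fin n) : (code T).testBit v = decide (v ∈ T) := by
  unfold code
  rw [Nat.testBit_ofBits_lt _ _ v.2]

lemma testBit_code_ge (T : Finset (Fin n)) {i : ℕ} (hi : n ≤ i) : (code T).testBit i = false := by
  unfold code
  exact Nat.testBit_ofBits_ge _ _ hi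

lemma eq_code {m : ℕ} (T : Finset (Fin n)) (hm : ∀ i, n ≤ i → m.testBit i = false)
    (h : ∀ v : Fin n, m.testBit v = decide (v ∈ T)) : code T = m := by
  apply Nat.eq_of_testBit_eq
  intro i
  by_cases hi : i < n
  · have h1 := testBit_code T ⟨i, hi⟩
    have h2 := h ⟨i, hi⟩
    change (code T).testBit i = _ at h1
    change m.testBit i = _ at h2
    rw [h1, h2]
  · rw [testBit_code_ge T (by omega), hm i (by omega)]

lemma code_insert (T : Finset (Fin n)) (j : Fin n) : code (insert j T) = code T ||| 2 ^ j.1 := by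
  refine eq_code _ (fun i hi => ?_) fun v => ?_
  · rw [Nat.testBit_or, testBit_code_ge T hi, Nat.testBit_two_pow]
    have := j.2
    simp; omega
  · rw [Nat.testBit_or, testBit_code, Nat.testBit_two_pow]
    simp only [Finset.mem_insert]
    by_cases h1 : v = j
    · subst h1; simp
    · have h2 : ¬ j.1 = v.1 := fun h => h1 (Fin.ext h.symm)
      simp [h1, h2]

lemma code_erase (T : Finset (Fin n)) (j : Fin n) : code (T.erase j) = cln (2 ^ j.1) (code T) := by
  refine eq_code _ (fun i hi => ?_) fun v => ?_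
  · rw [testBit_cln, testBit_code_ge T hi, Bool.false_and]
  · rw [testBit_cln, testBit_code, Nat.testBit_two_pow]
    simp only [Finset.mem_erase]
    by_cases h1 : v = j
    · subst h1; simp
    · have h2 : ¬ j.1 = v.1 := fun h => h1 (Fin.ext h.symm)
      simp [h1, h2]

/-- number of bits below `j` -/
def lowc (m j : ℕ) : ℕ := ((List.range j).filter fun v => m.testBit v).length

lemma card_low (T : Finset (Fin n)) (j : ℕ) (hj : j ≤ n) :
    (T.filter fun v => v.1 < j).card = lowc (code T) j := by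
  unfold lowc
  have h1 : (T.filter fun v : Fin n => v.1 < j).card =
      ((Finset.range j).filter fun v => (code T).testBit v = true).card := by
    refine Finset.card_bij (fun v _ => v.1) ?_ ?_ ?_
    · intro v hv
      rw [Finset.mem_filter] at hv
      rw [Finset.mem_filter, Finset.mem_range, testBit_code]
      simp [hv.1, hv.2]
    · intro v _ w _ h; exact Fin.ext h
    · intro v hv
      rw [Finset.mem_filter, Finset.mem_range] at hv
      have h2 := testBit_code T ⟨v, by omega⟩
      change (code T).testBit v = _ at h2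
      rw [h2] at hv
      exact ⟨⟨v, by omega⟩, by simpa using ⟨by simpa using hv.2, hv.1⟩, rfl⟩
  rw [h1, Finset.card_def, Finset.filter_val, Finset.range_val, Multiset.range, Multiset.filter_coe,
    Multiset.coe_card]
  simp

/-- value of a chain given by a list -/
def val (Z : List (ℕ × ℤ)) (m : ℕ) : ℤ := ((Z.filter fun p => p.1 == m).map Prod.snd).sum

/-- the check of the certificates -/
def Cert (n i : ℕ) (L : List ℕ) (Z F : List (ℕ × ℤ)) (m0 : ℕ) : Prop :=
  (∀ m < 2 ^ n,
    (val Z m = 0 ∨ lowc m n = i + 1) ∧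
    ((∑ j : Fin n, if m.testBit j then 0 else (-1) ^ (lowc m j.1) * val Z (m ||| 2 ^ j.1)) = 0 ∨
      ∃ g ∈ L, g &&& m = 0) ∧
    (val F m = 0 ∨ ∀ g ∈ L, g &&& m ≠ 0) ∧
    ((∑ j : Fin n, if m.testBit j then (-1) ^ (lowc m j.1) * val F (cln (2 ^ j.1) m) else 0) = 0) ∧
    (m = m0 ∨ val F m * val Z m = 0)) ∧ (val F m0 * val Z m0 = 1 ∨ val F m0 * val Z m0 = -1) ∧
    m0 < 2 ^ n

instance (n i : ℕ) (L : List ℕ) (Z F : List (ℕ × ℤ)) (m0 : ℕ) : Decidable (Cert n i L Z F m0) := by
  unfold Cert; infer_instance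

lemma lowc_erase (T : Finset (Fin n)) (j : Fin n) :
    lowc (code (T.erase j)) j.1 = lowc (code T) j.1 := by
  rw [← card_low _ _ j.2.le, ← card_low _ _ j.2.le]
  congr 1
  ext v
  simp only [Finset.mem_filter, Finset.mem_erase]
  constructor
  · rintro ⟨⟨h1, h2⟩, h3⟩; exact ⟨h2, h3⟩
  · rintro ⟨h2, h3⟩
    exact ⟨⟨by rintro rfl; exact lt_irrefl _ h3, h2⟩, h3⟩

lemma sg_code {k : Type u} [Field k] (T : Finset (Fin n)) (j : Fin n) :
    sg k j T = (((-1 : ℤ) ^ lowc (code T) j.1 : ℤ) : k) := by
  unfold sg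
  rw [← card_low _ _ j.2.le]
  push_cast
  rfl

theorem torNe_of_cert {k : Type u} [Field k] (i : ℕ) (L : List ℕ)
    (Z F : List (ℕ × ℤ)) (m0 : ℕ) (h : Cert n i L Z F m0) (v : Fin n) (hin : i ≤ n) :
    TorNe (IL k n L) i (n - i) := by
  classical
  obtain ⟨h1, h2, h3⟩ := h
  let P : (Fin n → ℕ) → Prop := fun c => ∃ m ∈ L, ∀ v : Fin n, m.testBit v → c v ≠ 0
  have hP : ∀ p, p ∈ IL k n L ↔ ∀ c ∈ p.support, P ⇑c := by
    intro p
    rw [mem_IL]
    refine forall₂_congr fun c _ => ?_
    exact exists_congr fun m => and_congr_right fun _ => ex_le_iff m c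
  let b : Fin n →₀ ℕ := Finsupp.equivFunOnFinite.symm (fun _ => 1)
  have hb : ∀ w, b w = 1 := fun w => rfl
  have hKK : ∀ T, KK P b T ↔ ∃ g ∈ L, g &&& code T = 0 := by
    intro T
    have hle : ind T ≤ b := by
      intro w
      rw [hb, Pool.Agent.H677R3.EdgeReg.ind_apply]
      split_ifs <;> omega
    constructor
    · rintro ⟨-, m, hm, h4⟩
      refine ⟨m, hm, ?_⟩
      apply Nat.eq_of_testBit_eq
      intro l
      rw [Nat.testBit_and, Nat.zero_testBit]
      by_cases hl : l < n
      · by_cases hml : m.testBit l = true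
        · have h5 := h4 ⟨l, hl⟩ hml
          rw [Finsupp.coe_tsub, Pi.sub_apply, hb, Pool.Agent.H677R3.EdgeReg.ind_apply] at h5
          have h6 := testBit_code T ⟨l, hl⟩
          change (code T).testBit l = _ at h6
          rw [h6]
          by_cases h7 : (⟨l, hl⟩ : Fin n) ∈ T
          · rw [if_pos h7] at h5; exact absurd rfl h5
          · simp [h7]
        · rw [Bool.not_eq_true] at hml
          rw [hml, Bool.false_and]
      · rw [testBit_code_ge T (by omega), Bool.and_false]
    · rintro ⟨m, hm, h4⟩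
      refine ⟨hle, m, hm, fun w hw => ?_⟩
      have h5 := congrArg (fun x => x.testBit w) h4
      simp only [Nat.testBit_and, Nat.zero_testBit] at h5
      rw [hw, Bool.true_and, testBit_code] at h5
      have h6 : w ∉ T := by simpa using h5
      rw [Finsupp.coe_tsub, Pi.sub_apply, hb, Pool.Agent.H677R3.EdgeReg.ind_apply, if_neg h6]
      norm_num
  have hsumb : ∑ v, b v = (n - i) + i := by
    rw [Finset.sum_congr rfl fun w _ => hb w]
    simp
    omega
  suffices hex : ∃ a : Finset (Fin n) → k, (∀ T, a T ≠ 0 → KK P b T ∧ T.card = i) ∧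
      (∀ T, cd a T = 0) ∧ ¬ ∃ g : Finset (Fin n) → k, (∀ T, g T ≠ 0 → KK P b T ∧ T.card = i + 1) ∧
        ∀ T, cd g T = a T by
    obtain ⟨a, ha1, ha2, ha3⟩ := hex
    exact lower_transfer _ P hP i (n - i) b hsumb a ha1 ha2 ha3
  refine lower_rel (KK P b) i v (fun T => ((val Z (code T) : ℤ) : k))
    (fun T => ((val F (code T) : ℤ) : k)) ?_ ?_ ?_ ?_ ?_
  · intro T hT
    have h4 : val Z (code T) ≠ 0 := fun h => hT (by rw [h, Int.cast_zero])
    have h5 := ((h1 _ (code_lt T)).1).resolve_left h4
    rw [← card_low T n le_rfl] at h5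
    rw [← h5]
    congr 1
    ext w; simp
  · intro T hT
    rw [hKK]
    refine ((h1 _ (code_lt T)).2.1).resolve_left fun h4 => hT ?_
    unfold cd
    have h5 : ∀ j ∈ Tᶜ, sg k j T * ((val Z (code (insert j T)) : ℤ) : k) =
        (((-1 : ℤ) ^ lowc (code T) j.1 * val Z (code T ||| 2 ^ j.1) : ℤ) : k) := by
      intro j _
      rw [sg_code, code_insert]
      push_cast
      rfl
    rw [Finset.sum_congr rfl h5, ← Int.cast_sum]
    have h6 : ∑ j ∈ Tᶜ, (-1 : ℤ) ^ lowc (code T) j.1 * val Z (code T ||| 2 ^ j.1) =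
        ∑ j : Fin n, if (code T).testBit j then 0 else
          (-1) ^ (lowc (code T) j.1) * val Z (code T ||| 2 ^ j.1) := by
      rw [← Finset.sum_subset (Finset.subset_univ Tᶜ)]
      · refine Finset.sum_congr rfl fun j hj => ?_
        rw [testBit_code, if_neg (by simpa using hj)]
      · intro j _ hj
        rw [testBit_code, if_pos (by simpa using hj)]
    rw [h6, h4, Int.cast_zero]
  · intro T hT
    rw [hKK] at hT
    obtain ⟨g, hg, hg2⟩ := hT
    have h4 := ((h1 _ (code_lt T)).2.2.1).resolve_right (fun h => h g hg hg2)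
    rw [h4, Int.cast_zero]
  · intro T
    have h4 := (h1 _ (code_lt T)).2.2.2.1
    have h5 : ∀ j ∈ T, sg k j (T.erase j) * ((val F (code (T.erase j)) : ℤ) : k) =
        (((-1 : ℤ) ^ lowc (code T) j.1 * val F (cln (2 ^ j.1) (code T)) : ℤ) : k) := by
      intro j _
      rw [sg_code, lowc_erase, code_erase]
      push_cast
      rfl
    rw [Finset.sum_congr rfl h5, ← Int.cast_sum]
    have h6 : ∑ j ∈ T, (-1 : ℤ) ^ lowc (code T) j.1 * val F (cln (2 ^ j.1) (code T)) =
        ∑ j : Fin n, if (code T).testBit j then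
          (-1) ^ (lowc (code T) j.1) * val F (cln (2 ^ j.1) (code T)) else 0 := by
      rw [← Finset.sum_subset (Finset.subset_univ T)]
      · refine Finset.sum_congr rfl fun j hj => ?_
        rw [testBit_code, if_pos (by simpa using hj)]
      · intro j _ hj
        rw [testBit_code, if_neg (by simpa using hj)]
    rw [h6, h4, Int.cast_zero]
  · have hT0 : code (zs n m0) = m0 := by
      refine eq_code _ (fun i hi => ?_) fun v => ?_
      · exact Nat.testBit_lt_two_pow
          (lt_of_lt_of_le h3 (Nat.pow_le_pow_right (by norm_num) hi))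
      · by_cases h5 : m0.testBit v = true
        · rw [h5]; symm; rw [decide_eq_true_eq, mem_zs]; exact h5
        · rw [Bool.not_eq_true] at h5
          rw [h5]; symm; rw [decide_eq_false_iff_not, mem_zs, h5]; simp
    rw [Finset.sum_eq_single (zs n m0)]
    · rw [hT0, ← Int.cast_mul]
      rcases h2 with h2 | h2
      · rw [h2]; simp
      · rw [h2]; simp
    · intro T _ hT
      rw [← Int.cast_mul]
      have h4 := ((h1 _ (code_lt T)).2.2.2.2).resolve_left (fun h => hT (by
        ext w
        rw [mem_zs, ← h, testBit_code]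
        simp))
      rw [h4, Int.cast_zero]
    · intro h; exact absurd (Finset.mem_univ _) h

end codes

end Pool.Agent.Q14.RelCert
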