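import Mathlib

/-!
Ranks of integral vectors over different fields.
-/

set_option autoImplicit false

namespace Q14.Rk

variable {ι κ : Type*}

/-- The dimension of the span, over the field `K`, of a family of integral vectors. -/
noncomputable def rk (K : Type*) [Field K] (v : ι → κ → ℤ) : ℕ :=
  Module.finrank K (Submodule.span K (Set.range fun i => fun x => ((v i x : ℤ) : K)))

/-- The coordinatewise map to `K`. -/
def castL (K : Type*) [Field K] : (κ → ℤ) →ₗ[ℤ] (κ → K) where
  toFun z := fun x => ((z x : ℤ) : K)
  map_add' a b := by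
    funext x
    simp
  map_smul' r a := by
    funext x
    simp

lemma castL_apply (K : Type*) [Field K] (z : κ → ℤ) (x : κ) : castL K z x = ((z x : ℤ) : K) := rfl

/-- `p`-saturation of the lattice spanned by the family. -/
def Sat (p : ℤ) (v : ι → κ → ℤ) : Prop :=
  ∀ z : κ → ℤ, p • z ∈ Submodule.span ℤ (Set.range v) → z ∈ Submodule.span ℤ (Set.range v)

lemma span_castL (K : Type*) [Field K] (S : Set (κ → ℤ)) :
    Submodule.span K (castL K '' (Submodule.span ℤ S : Set (κ → ℤ))) =
      Submodule.span K (castL K '' S) := by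
  apply le_antisymm
  · rw [Submodule.span_le]
    rintro _ ⟨z, hz, rfl⟩
    have h1 : castL K z ∈ (Submodule.span ℤ S).map (castL K) := Submodule.mem_map_of_mem hz
    rw [Submodule.map_span] at h1
    exact Submodule.span_le_restrictScalars ℤ K _ h1
  · exact Submodule.span_mono (Set.image_mono Submodule.subset_span)

variable [Finite κ]

/-- A basis of the lattice. -/
noncomputable def bas (v : ι → κ → ℤ) :=
  Module.Free.chooseBasis ℤ (Submodule.span ℤ (Set.range v))

lemma rk_eq (K : Type*) [Field K] (v : ι → κ → ℤ) :
    rk K v = Module.finrank K (Submodule.span K (Set.range fun j => castL K (bas v j : κ → ℤ))) := by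
  have h1 : (Set.range fun i => fun x => ((v i x : ℤ) : K)) = castL K '' Set.range v := by
    rw [← Set.range_comp]
    rfl
  have h2 : (Set.range fun j => castL K (bas v j : κ → ℤ)) =
      castL K '' Set.range (fun j => (bas v j : κ → ℤ)) := by
    rw [← Set.range_comp]
    rfl
  have h3 : Submodule.span ℤ (Set.range (fun j => (bas v j : κ → ℤ))) =
      Submodule.span ℤ (Set.range v) := by
    have h4 := (bas v).span_eq
    have h5 := congrArg (Submodule.map (Submodule.span ℤ (Set.range v)).subtype) h4
    rw [Submodule.map_span, Submodule.map_top, Submodule.range_subtype, ← Set.range_comp] at h5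
    exact h5
  have h6 : Submodule.span K (castL K '' Set.range v) =
      Submodule.span K (castL K '' Set.range (fun j => (bas v j : κ → ℤ))) := by
    rw [← span_castL K (Set.range v), ← span_castL K (Set.range (fun j => (bas v j : κ → ℤ))), h3]
  rw [rk, h1, h2, h6]

lemma rk_le (K : Type*) [Field K] (v : ι → κ → ℤ) :
    rk K v ≤ Fintype.card (Module.Free.ChooseBasisIndex ℤ (Submodule.span ℤ (Set.range v))) := by
  rw [rk_eq]
  exact finrank_range_le_card _

lemma rk_eq_iff (K : Type*) [Field K] (v : ι → κ → ℤ) :
    rk K v = Fintype.card (Module.Free.ChooseBasisIndex ℤ (Submodule.span ℤ (Set.range v))) ↔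
      LinearIndependent K (fun j => castL K (bas v j : κ → ℤ)) := by
  rw [rk_eq, linearIndependent_iff_card_eq_finrank_span]
  exact eq_comm

lemma bas_indep (v : ι → κ → ℤ) : LinearIndependent ℤ (fun j => (bas v j : κ → ℤ)) := by
  have h := (bas v).linearIndependent
  exact h.map' (Submodule.span ℤ (Set.range v)).subtype (Submodule.ker_subtype _)

/-- In characteristic zero the rank is the rank of the lattice. -/
lemma rk_charZero (K : Type*) [Field K] [CharZero K] (v : ι → κ → ℤ) :
    rk K v = Fintype.card (Module.Free.ChooseBasisIndex ℤ (Submodule.span ℤ (Set.range v))) := by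
  rw [rk_eq_iff]
  have h := (linearIndependent_algebraMap_comp_iff (R := ℤ) (S := K)).mpr (bas_indep v)
  exact h

lemma rk_le_rat (K : Type*) [Field K] (v : ι → κ → ℤ) : rk K v ≤ rk ℚ v := by
  rw [rk_charZero ℚ v]
  exact rk_le K v

/-- In characteristic `p`, the rank is the one of characteristic zero if and only if the lattice
is `p`-saturated. -/
lemma rk_charP (K : Type*) [Field K] (p : ℕ) [hp : Fact p.Prime] [CharP K p] (v : ι → κ → ℤ) :
    rk K v = rk ℚ v ↔ Sat (p : ℤ) v := by
  classical
  rw [rk_charZero ℚ v, rk_eq_iff]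
  let : Algebra (ZMod p) K := ZMod.algebra K p
  have h1 : (fun j => castL K (bas v j : κ → ℤ)) =
      fun j => algebraMap (ZMod p) K ∘ (castL (ZMod p) (bas v j : κ → ℤ)) := by
    funext j x
    rw [Function.comp_apply, castL_apply, castL_apply, map_intCast]
  rw [h1, linearIndependent_algebraMap_comp_iff, Fintype.linearIndependent_iff]
  have hp0 : (p : ℤ) ≠ 0 := by exact_mod_cast hp.out.ne_zero
  constructor
  · intro h z hz
    have h2 := (bas v).sum_repr ⟨_, hz⟩
    have h3 : ∀ j, (((bas v).repr ⟨_, hz⟩ j : ℤ) : ZMod p) = 0 := by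
      apply h (fun j => (((bas v).repr ⟨_, hz⟩ j : ℤ) : ZMod p))
      funext x
      have h4 := congrFun (congrArg (Subtype.val) h2) x
      simp only [Submodule.coe_sum, Submodule.coe_smul, Finset.sum_apply, Pi.smul_apply,
        smul_eq_mul] at h4 ⊢
      simp only [castL_apply, Pi.zero_apply]
      have h5 := congrArg (fun t : ℤ => (t : ZMod p)) h4
      simp only [Int.cast_sum, Int.cast_mul, Int.cast_natCast, CharP.cast_eq_zero, zero_mul] at h5
      exact h5
    choose d hd using fun j => (ZMod.intCast_zmod_eq_zero_iff_dvd _ _).mp (h3 j)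
    have h6 : z = ((∑ j, d j • bas v j : Submodule.span ℤ (Set.range v)) : κ → ℤ) := by
      funext x
      have h4 := congrFun (congrArg (Subtype.val) h2) x
      simp only [Submodule.coe_sum, Submodule.coe_smul, Finset.sum_apply, Pi.smul_apply,
        smul_eq_mul] at h4 ⊢
      apply mul_left_cancel₀ hp0
      rw [← h4, Finset.mul_sum]
      refine Finset.sum_congr rfl fun j _ => ?_
      rw [hd j, mul_assoc]
    rw [h6]
    exact Subtype.property _
  · intro h g hg j
    have h2 : ∃ z : κ → ℤ, ((∑ j, ((g j).val : ℤ) • bas v j : Submodule.span ℤ (Set.range v)) :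
        κ → ℤ) = (p : ℤ) • z := by
      have h3 : ∀ x, (p : ℤ) ∣ ((∑ j, ((g j).val : ℤ) • bas v j :
          Submodule.span ℤ (Set.range v)) : κ → ℤ) x := by
        intro x
        rw [← ZMod.intCast_zmod_eq_zero_iff_dvd]
        have h4 := congrFun hg x
        simp only [Submodule.coe_sum, Submodule.coe_smul, Finset.sum_apply, Pi.smul_apply,
          smul_eq_mul, castL_apply, Pi.zero_apply, Int.cast_sum, Int.cast_mul, Int.cast_natCast,
          ZMod.natCast_zmod_val] at h4 ⊢
        exact h4
      choose z hz using h3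
      exact ⟨z, funext fun x => by rw [hz x]; rfl⟩
    obtain ⟨z, hz⟩ := h2
    have hzm : z ∈ Submodule.span ℤ (Set.range v) := by
      apply h
      rw [← hz]
      exact Subtype.property _
    have h3 : (∑ j, ((g j).val : ℤ) • bas v j : Submodule.span ℤ (Set.range v)) =
        (p : ℤ) • ⟨z, hzm⟩ := by
      apply Subtype.ext
      rw [hz]
      rfl
    have h4 := congrArg (fun x => (bas v).repr x j) h3
    simp only [map_sum, map_smul, Finsupp.coe_finsetSum, Finset.sum_apply, Finsupp.smul_apply,
      Module.Basis.repr_self, smul_eq_mul] at h4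
    rw [Finset.sum_eq_single j (fun i _ hi => by rw [Finsupp.single_eq_of_ne hi.symm, mul_zero])
      (fun h => absurd (Finset.mem_univ _) h), Finsupp.single_eq_same, mul_one] at h4
    have h5 : (p : ℤ) ∣ ((g j).val : ℤ) := ⟨_, h4⟩
    have h6 : p ∣ (g j).val := by exact_mod_cast h5
    have h7 := (ZMod.natCast_eq_zero_iff _ _).2 h6
    rwa [ZMod.natCast_zmod_val] at h7

end Q14.Rk
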