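import Pool.Agent.Q14.PdColon
import Pool.Agent.Q14.PdKos

/-!
Stanley decompositions of quotients by monomial ideals, and the Stanley depth.
-/

set_option autoImplicit false

namespace Pool.Agent.Q14.StanDec

open CategoryTheory MvPolynomial Pool.Agent.Q14.PdColon Pool.Agent.Q14.PdKos

universe u

section defs

variable {n : ℕ} {K : Type u} [Field K]

/-- `x^c` is one of the monomials of `x^a K[Z]` -/
def InBlock (a : Fin n →₀ ℕ) (Z : Finset (Fin n)) (c : Fin n →₀ ℕ) : Prop :=
  a ≤ c ∧ ∀ v, v ∉ Z → c v = a v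

/-- The family `(x^(a i), Z i)` is a Stanley decomposition of `S/J`, `J` a monomial ideal: the
monomials outside `J` are the disjoint union of the sets of monomials of the `x^(a i) K[Z i]`. -/
def IsStanley (J : Ideal (MvPolynomial (Fin n) K)) {r : ℕ} (a : Fin r → (Fin n →₀ ℕ))
    (Z : Fin r → Finset (Fin n)) : Prop :=
  ∀ c : Fin n →₀ ℕ, (monomial c (1 : K) ∉ J → ∃! i, InBlock (a i) (Z i) c) ∧
    (monomial c (1 : K) ∈ J → ∀ i, ¬ InBlock (a i) (Z i) c)

/-- The Stanley depth of `S/J`: the maximum over all Stanley decompositions of `min |Z i|`. -/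
noncomputable def sdepth (J : Ideal (MvPolynomial (Fin n) K)) : ℕ :=
  sSup {s | ∃ (r : ℕ) (a : Fin r → (Fin n →₀ ℕ)) (Z : Fin r → Finset (Fin n)),
    IsStanley J a Z ∧ ∀ i, s ≤ (Z i).card}

/-- The Stanley projective dimension of `S/J`. -/
noncomputable def spdim (J : Ideal (MvPolynomial (Fin n) K)) : ℕ := n - sdepth J

/-- The projective dimension of the `S`-module `S/J`. -/
noncomputable def pdim (J : Ideal (MvPolynomial (Fin n) K)) : WithBot ℕ∞ :=
  projectiveDimension (ModuleCat.of (MvPolynomial (Fin n) K) (MvPolynomial (Fin n) K ⧸ J))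

end defs

section lemmas

variable {n : ℕ} {K : Type u} [Field K]

lemma bound {J : Ideal (MvPolynomial (Fin n) K)} (c : Fin n →₀ ℕ)
    (hc : monomial c (1 : K) ∉ J) (b : ℕ)
    (hb : ∀ (Z : Finset (Fin n)), (∀ v ∈ Z, monomial (c + Finsupp.single v 1) (1 : K) ∉ J) →
      Z.card ≤ b) :
    BddAbove {s | ∃ (r : ℕ) (a : Fin r → (Fin n →₀ ℕ)) (Z : Fin r → Finset (Fin n)),
      IsStanley J a Z ∧ ∀ i, s ≤ (Z i).card} ∧ sdepth J ≤ b := by
  have key : ∀ s ∈ {s | ∃ (r : ℕ) (a : Fin r → (Fin n →₀ ℕ)) (Z : Fin r → Finset (Fin n)),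
      IsStanley J a Z ∧ ∀ i, s ≤ (Z i).card}, s ≤ b := by
    rintro s ⟨r, a, Z, hS, hs⟩
    obtain ⟨i, hi, -⟩ := (hS c).1 hc
    refine (hs i).trans (hb (Z i) ?_)
    intro v hv hJ
    refine (hS _).2 hJ i ⟨hi.1.trans le_self_add, fun w hw => ?_⟩
    have hne : v ≠ w := by rintro rfl; exact hw hv
    rw [Finsupp.add_apply, Finsupp.single_eq_of_ne (Ne.symm hne), add_zero]
    exact hi.2 w hw
  refine ⟨⟨b, key⟩, ?_⟩
  unfold sdepth
  rcases Set.eq_empty_or_nonempty {s | ∃ (r : ℕ) (a : Fin r → (Fin n →₀ ℕ))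
    (Z : Fin r → Finset (Fin n)), IsStanley J a Z ∧ ∀ i, s ≤ (Z i).card} with h | h
  · rw [h]; simp
  · exact csSup_le h key

lemma existsUnique_of_filter {α : Type*} (p : α → Bool) (D : List α)
    (h : (D.filter p).length = 1) : ∃! i : Fin D.length, p D[i] = true := by
  induction D with
  | nil => simp at h
  | cons a D ih =>
    rw [List.filter_cons] at h
    by_cases ha : p a = true
    · rw [if_pos ha, List.length_cons] at h
      have h0 : D.filter p = [] := List.length_eq_zero_iff.1 (by omega)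
      refine ⟨⟨0, by simp⟩, ha, ?_⟩
      rintro ⟨i, hi⟩ hpi
      rcases i with _ | i
      · rfl
      · exfalso
        have h1 : p (D[i]'(by simpa using hi)) = true := hpi
        have h2 := List.filter_eq_nil_iff.1 h0 _ (List.getElem_mem (by simpa using hi))
        exact h2 h1
    · rw [if_neg ha] at h
      obtain ⟨⟨i, hi⟩, hpi, huniq⟩ := ih h
      refine ⟨⟨i + 1, by simpa using hi⟩, hpi, ?_⟩
      rintro ⟨j, hj⟩ hpj
      rcases j with _ | j
      · exact absurd hpj ha
      · have h1 := huniq ⟨j, by simpa using hj⟩ hpj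
        rw [Fin.mk.injEq] at h1 ⊢
        omega

/-- the bit mask of the support of an exponent -/
def mask (c : Fin n →₀ ℕ) : ℕ := Nat.ofBits fun v : Fin n => decide (c v ≠ 0)

lemma mask_lt (c : Fin n →₀ ℕ) : mask c < 2 ^ n := Nat.ofBits_lt_two_pow _

lemma testBit_mask (c : Fin n →₀ ℕ) (v : Fin n) : (mask c).testBit v = decide (c v ≠ 0) := by
  unfold mask
  rw [Nat.testBit_ofBits_lt _ _ v.2]

lemma testBit_mask_ge (c : Fin n →₀ ℕ) {i : ℕ} (hi : n ≤ i) : (mask c).testBit i = false := by
  unfold mask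
  exact Nat.testBit_ofBits_ge _ _ hi

lemma ex_le_mask (m : ℕ) (hm : m < 2 ^ n) (c : Fin n →₀ ℕ) :
    ex n m ≤ c ↔ m &&& mask c = m := by
  rw [ex_le_iff]
  constructor
  · intro h
    apply Nat.eq_of_testBit_eq
    intro i
    rw [Nat.testBit_and]
    by_cases hi : i < n
    · by_cases hmi : m.testBit i = true
      · have h1 := h ⟨i, hi⟩ hmi
        have h2 := testBit_mask c ⟨i, hi⟩
        change (mask c).testBit i = _ at h2
        rw [h2, hmi]
        simp [h1]
      · rw [Bool.not_eq_true] at hmi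
        rw [hmi, Bool.false_and]
    · have h3 : m.testBit i = false := Nat.testBit_lt_two_pow
        (lt_of_lt_of_le hm (Nat.pow_le_pow_right (by norm_num) (by omega)))
      rw [h3, Bool.false_and]
  · intro h v hv
    have h1 := congrArg (fun x => x.testBit v) h
    simp only [Nat.testBit_and] at h1
    rw [hv, Bool.true_and, testBit_mask] at h1
    simpa using h1

/-- the set of a bit mask -/
def zs (n m : ℕ) : Finset (Fin n) := Finset.univ.filter fun v => m.testBit v

lemma mem_zs (m : ℕ) (v : Fin n) : v ∈ zs n m ↔ m.testBit v = true := by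
  simp [zs]

/-- test of a block -/
def tst (s : ℕ) (p : ℕ × ℕ) : Bool := p.1 &&& s == p.1 && s &&& p.2 == s

lemma inBlock_iff (p : ℕ × ℕ) (h1 : p.1 &&& p.2 = p.1) (h2 : p.1 < 2 ^ n) (c : Fin n →₀ ℕ) :
    InBlock (ex n p.1) (zs n p.2) c ↔ tst (mask c) p = true := by
  unfold InBlock tst
  rw [ex_le_mask p.1 h2, Bool.and_eq_true, beq_iff_eq, beq_iff_eq]
  refine and_congr_right fun _ => ?_
  have hz : ∀ v : Fin n, p.2.testBit v = false → p.1.testBit v = false := by
    intro v hv
    have h3 := congrArg (fun x => x.testBit v) h1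
    simp only [Nat.testBit_and] at h3
    rw [hv, Bool.and_false] at h3
    exact h3.symm
  constructor
  · intro h
    apply Nat.eq_of_testBit_eq
    intro i
    rw [Nat.testBit_and]
    by_cases hi : i < n
    · by_cases hb : p.2.testBit i = true
      · rw [hb, Bool.and_true]
      · rw [Bool.not_eq_true] at hb
        have h4 := h ⟨i, hi⟩ (by rw [mem_zs]; simpa using hb)
        rw [ex_apply, if_neg (by have := hz ⟨i, hi⟩ hb; simpa using this)] at h4
        have h5 := testBit_mask c ⟨i, hi⟩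
        change (mask c).testBit i = _ at h5
        rw [h5, hb]
        simp [h4]
    · rw [testBit_mask_ge c (by omega), Bool.false_and]
  · intro h v hv
    rw [mem_zs, Bool.not_eq_true] at hv
    rw [ex_apply, if_neg (by rw [hz v hv]; simp)]
    have h3 := congrArg (fun x => x.testBit v) h
    simp only [Nat.testBit_and] at h3
    rw [hv, Bool.and_false, testBit_mask] at h3
    simpa using h3.symm

/-- the check of a Stanley decomposition -/
def chk (n s : ℕ) (L : List ℕ) (D : List (ℕ × ℕ)) : Bool :=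
  (List.range (2 ^ n)).all (fun m =>
    if L.any (fun g => g &&& m == g) then (D.filter (tst m)).length == 0
      else (D.filter (tst m)).length == 1) &&
  D.all (fun p => p.1 &&& p.2 == p.1 && decide (p.1 < 2 ^ n) &&
    decide (s ≤ ((List.range n).filter fun v => p.2.testBit v).length)) &&
  L.all (fun g => decide (g < 2 ^ n))

lemma card_zs (m : ℕ) : (zs n m).card = ((List.range n).filter fun v => m.testBit v).length := by
  unfold zs
  have h1 : (Finset.univ.filter fun v : Fin n => m.testBit v = true).card =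
      ((Finset.range n).filter fun v => m.testBit v = true).card := by
    refine Finset.card_bij (fun v _ => v.1) ?_ ?_ ?_
    · intro v hv
      simp only [Finset.mem_filter, Finset.mem_univ, true_and] at hv
      simp [hv]
    · intro v _ w _ h; exact Fin.ext h
    · intro v hv
      simp only [Finset.mem_filter, Finset.mem_range] at hv
      exact ⟨⟨v, hv.1⟩, by simp [hv.2], rfl⟩
  rw [h1, Finset.card_def, Finset.filter_val, Finset.range_val, Multiset.range, Multiset.filter_coe,
    Multiset.coe_card]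
  simp

lemma mono_mem_IL (L : List ℕ) (hL : ∀ g ∈ L, g < 2 ^ n) (c : Fin n →₀ ℕ) :
    monomial c (1 : K) ∈ IL K n L ↔ (L.any fun g => g &&& mask c == g) = true := by
  classical
  rw [mem_IL, support_monomial, if_neg one_ne_zero]
  simp only [Finset.mem_singleton, forall_eq]
  rw [List.any_eq_true]
  constructor
  · rintro ⟨m, hm, h⟩
    exact ⟨m, hm, by rw [beq_iff_eq]; exact (ex_le_mask m (hL m hm) c).1 h⟩
  · rintro ⟨m, hm, h⟩
    exact ⟨m, hm, (ex_le_mask m (hL m hm) c).2 (by simpa using h)⟩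

theorem sdepth_ge (s : ℕ) (L : List ℕ) (D : List (ℕ × ℕ)) (h : chk n s L D = true)
    (hb : BddAbove {s | ∃ (r : ℕ) (a : Fin r → (Fin n →₀ ℕ)) (Z : Fin r → Finset (Fin n)),
      IsStanley (IL K n L) a Z ∧ ∀ i, s ≤ (Z i).card}) : s ≤ sdepth (IL K n L) := by
  unfold chk at h
  rw [Bool.and_eq_true, Bool.and_eq_true] at h
  obtain ⟨⟨h1, h2⟩, h3⟩ := h
  rw [List.all_eq_true] at h1 h2 h3
  have hL : ∀ g ∈ L, g < 2 ^ n := fun g hg => by simpa using h3 g hg
  have hD : ∀ p ∈ D, (p.1 &&& p.2 = p.1 ∧ p.1 < 2 ^ n) ∧ s ≤ (zs n p.2).card := by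
    intro p hp
    have h4 := h2 p hp
    rw [Bool.and_eq_true, Bool.and_eq_true, beq_iff_eq, decide_eq_true_eq, decide_eq_true_eq] at h4
    rw [card_zs]
    exact h4
  refine le_csSup hb ⟨D.length, fun i => ex n D[i].1, fun i => zs n D[i].2, ?_, fun i => ?_⟩
  · intro c
    have h5 := h1 (mask c) (List.mem_range.2 (mask_lt c))
    have hiff : ∀ i : Fin D.length, InBlock (ex n D[i].1) (zs n D[i].2) c ↔
        tst (mask c) D[i] = true := by
      intro i
      have h6 := hD D[i] (List.getElem_mem i.2)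
      exact inBlock_iff D[i] h6.1.1 h6.1.2 c
    constructor
    · intro hc
      rw [mono_mem_IL L hL] at hc
      rw [if_neg hc, beq_iff_eq] at h5
      obtain ⟨i, hi, huniq⟩ := existsUnique_of_filter _ D h5
      exact ⟨i, (hiff i).2 hi, fun j hj => huniq j ((hiff j).1 hj)⟩
    · intro hc i hi
      rw [mono_mem_IL L hL] at hc
      rw [if_pos hc, beq_iff_eq] at h5
      have h7 := List.filter_eq_nil_iff.1 (List.length_eq_zero_iff.1 h5) D[i] (List.getElem_mem i.2)
      exact h7 ((hiff i).1 hi)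
  · exact (hD D[i] (List.getElem_mem i.2)).2

end lemmas

end Pool.Agent.Q14.StanDec
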