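import Mathlib
import Pool.Agent.H677R3.RegKoszul
import Pool.Agent.Q14.Rk

/-!
Graded Betti numbers of monomial ideals (by Koszul homology), their decomposition into multigraded
strands, and the comparison of the strands over different fields.
-/

set_option autoImplicit false

namespace Q14.Strand

open MvPolynomial Finset Pool.Agent.H677R3.EdgeReg

variable {n : ℕ}

/-! ### Strands over a commutative ring -/

section Ring

variable (R : Type*) [CommRing R]

/-- The combinatorial differential as a linear map. -/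
def cdL : (Finset (Fin n) → R) →ₗ[R] (Finset (Fin n) → R) where
  toFun a := fun T => cd a T
  map_add' a b := funext fun T => cd_add a b T
  map_smul' r a := funext fun T => cd_smul r a T

lemma cdL_apply (a : Finset (Fin n) → R) (T : Finset (Fin n)) : cdL R a T = cd a T := rfl

/-- Chains of degree `i` supported on the family `Q`. -/
def Cs (Q : Finset (Fin n) → Prop) (i : ℕ) : Submodule R (Finset (Fin n) → R) where
  carrier := {a | ∀ T, a T ≠ 0 → Q T ∧ T.card = i}
  add_mem' {a b} ha hb T hT := by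
    by_cases h : a T = 0
    · apply hb
      intro h'
      apply hT
      rw [Pi.add_apply, h, h', add_zero]
    · exact ha T h
  zero_mem' T hT := absurd rfl hT
  smul_mem' r a ha T hT := by
    apply ha
    intro h'
    apply hT
    rw [Pi.smul_apply, h', smul_zero]

variable {R}

lemma mem_Cs {Q : Finset (Fin n) → Prop} {i : ℕ} {a : Finset (Fin n) → R} :
    a ∈ Cs R Q i ↔ ∀ T, a T ≠ 0 → Q T ∧ T.card = i := Iff.rfl

lemma Cs_eq_span (Q : Finset (Fin n) → Prop) (i : ℕ) :
    Cs R Q i = Submodule.span R (Set.range fun T : {T // Q T ∧ T.card = i} =>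
      (Pi.single T.1 1 : Finset (Fin n) → R)) := by
  classical
  apply le_antisymm
  · intro a ha
    have h1 : a = ∑ T, a T • (Pi.single T 1 : Finset (Fin n) → R) := by
      funext S
      simp [Finset.sum_apply, Pi.single_apply]
    rw [h1]
    refine Submodule.sum_mem _ fun T _ => ?_
    by_cases h : a T = 0
    · rw [h, zero_smul]
      exact Submodule.zero_mem _
    · exact Submodule.smul_mem _ _ (Submodule.subset_span ⟨⟨T, ha T h⟩, rfl⟩)
  · rw [Submodule.span_le]
    rintro _ ⟨T, rfl⟩ S hS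
    change (Pi.single T.1 1 : Finset (Fin n) → R) S ≠ 0 at hS
    rw [Pi.single_apply] at hS
    split_ifs at hS with h
    · rw [h]
      exact T.2
    · exact absurd rfl hS

/-- The boundaries of the basis chains. -/
def vec (Q : Finset (Fin n) → Prop) (i : ℕ) (T : {T // Q T ∧ T.card = i}) : Finset (Fin n) → ℤ :=
  fun S => cd (Pi.single T.1 1 : Finset (Fin n) → ℤ) S

lemma cd_cast (a : Finset (Fin n) → ℤ) (T : Finset (Fin n)) :
    cd (fun S => ((a S : ℤ) : R)) T = ((cd a T : ℤ) : R) := by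
  unfold cd sg
  push_cast
  rfl

lemma map_Cs (Q : Finset (Fin n) → Prop) (i : ℕ) :
    (Cs R Q i).map (cdL R) =
      Submodule.span R (Set.range fun T : {T // Q T ∧ T.card = i} => fun S =>
        ((vec Q i T S : ℤ) : R)) := by
  rw [Cs_eq_span, Submodule.map_span, ← Set.range_comp]
  congr 2
  funext T S
  rw [Function.comp_apply, cdL_apply, vec, ← cd_cast]
  congr 1
  funext S'
  rw [Pi.single_apply, Pi.single_apply]
  split_ifs <;> simp

/-- The homology of the strand `Q` in degree `i` has no `p`-torsion. -/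
def SatS (p : ℤ) (Q : Finset (Fin n) → Prop) (i : ℕ) : Prop :=
  ∀ z w : Finset (Fin n) → ℤ, (∀ T, w T ≠ 0 → Q T ∧ T.card = i + 1) → (∀ T, p * z T = cd w T) →
    ∃ w' : Finset (Fin n) → ℤ, (∀ T, w' T ≠ 0 → Q T ∧ T.card = i + 1) ∧ ∀ T, z T = cd w' T

lemma satS_iff (p : ℤ) (Q : Finset (Fin n) → Prop) (i : ℕ) :
    SatS p Q i ↔ Rk.Sat p (vec Q (i + 1)) := by
  have h1 : Submodule.span ℤ (Set.range (vec Q (i + 1))) = (Cs ℤ Q (i + 1)).map (cdL ℤ) := by
    rw [map_Cs]
    rfl
  unfold SatS Rk.Sat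
  rw [h1]
  constructor
  · intro h z hz
    obtain ⟨w, hw, hwz⟩ := hz
    obtain ⟨w', hw', hwz'⟩ := h z w hw (fun T => by
      have := congrFun hwz T
      rw [cdL_apply] at this
      rw [this]
      rfl)
    exact ⟨w', hw', funext fun T => (hwz' T).symm⟩
  · intro h z w hw hz
    obtain ⟨w', hw', hwz'⟩ := h z ⟨w, hw, funext fun T => (hz T).symm⟩
    exact ⟨w', hw', fun T => (congrFun hwz' T).symm⟩

end Ring

/-! ### Strands over a field -/

section Fields

variable (K : Type*) [Field K]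

/-- The cycles of the strand. -/
def Zs (Q : Finset (Fin n) → Prop) (i : ℕ) : Submodule K (Finset (Fin n) → K) :=
  Cs K Q i ⊓ LinearMap.ker (cdL K)

/-- The boundaries of the strand. -/
def Bs (Q : Finset (Fin n) → Prop) (i : ℕ) : Submodule K (Finset (Fin n) → K) :=
  (Cs K Q (i + 1)).map (cdL K)

/-- The dimension of the homology of the strand. -/
noncomputable def sb (Q : Finset (Fin n) → Prop) (i : ℕ) : ℕ :=
  Module.finrank K (Zs K Q i ⧸ (Bs K Q i).comap (Zs K Q i).subtype)

lemma Bs_le_Zs {Q : Finset (Fin n) → Prop} (hQ : ∀ T j, j ∉ T → Q (insert j T) → Q T) (i : ℕ) :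
    Bs K Q i ≤ Zs K Q i := by
  rintro _ ⟨w, hw, rfl⟩
  refine ⟨fun T hT => ?_, ?_⟩
  · rw [cdL_apply] at hT
    unfold cd at hT
    obtain ⟨j, hj, hj2⟩ := Finset.exists_ne_zero_of_sum_ne_zero hT
    have hj' : j ∉ T := by simpa using hj
    have h3 : w (insert j T) ≠ 0 := fun h => hj2 (by rw [h, mul_zero])
    obtain ⟨h4, h5⟩ := hw _ h3
    rw [card_insert_of_notMem hj'] at h5
    exact ⟨hQ T j hj' h4, by omega⟩
  · apply LinearMap.mem_ker.mpr
    funext T
    exact cd_cd w T

open Classical in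
lemma finrank_Cs (Q : Finset (Fin n) → Prop) (i : ℕ) :
    Module.finrank K (Cs K Q i) = Fintype.card {T : Finset (Fin n) // Q T ∧ T.card = i} := by
  rw [Cs_eq_span]
  apply finrank_span_eq_card
  have h := (Pi.basisFun K (Finset (Fin n))).linearIndependent
  have h2 := h.comp (fun T : {T : Finset (Fin n) // Q T ∧ T.card = i} => T.1)
    Subtype.val_injective
  have h3 : (⇑(Pi.basisFun K (Finset (Fin n))) ∘
      fun T : {T : Finset (Fin n) // Q T ∧ T.card = i} => T.1) =
      fun T => (Pi.single T.1 1 : Finset (Fin n) → K) := by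
    funext T
    rw [Function.comp_apply, Pi.basisFun_apply]
  rw [h3] at h2
  exact h2

open Classical in
/-- The dimension of the homology in terms of ranks. -/
theorem sb_add {Q : Finset (Fin n) → Prop} (hQ : ∀ T j, j ∉ T → Q (insert j T) → Q T) (i : ℕ) :
    sb K Q i + Rk.rk K (vec Q i) + Rk.rk K (vec Q (i + 1)) =
      Fintype.card {T : Finset (Fin n) // Q T ∧ T.card = i} := by
  have h1 : Module.finrank K (Zs K Q i) + Rk.rk K (vec Q i) = Module.finrank K (Cs K Q i) := by
    have h2 := LinearMap.finrank_range_add_finrank_ker ((cdL K).domRestrict (Cs K Q i))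
    rw [LinearMap.range_domRestrict, map_Cs, LinearMap.ker_domRestrict] at h2
    have h3 : Module.finrank K ((LinearMap.ker (cdL K)).comap (Cs K Q i).subtype) =
        Module.finrank K (Zs K Q i) := by
      rw [Zs, ← Submodule.map_comap_subtype, Submodule.finrank_map_subtype_eq]
    rw [h3] at h2
    unfold Rk.rk
    omega
  have h4 : sb K Q i + Rk.rk K (vec Q (i + 1)) = Module.finrank K (Zs K Q i) := by
    have h5 := Submodule.finrank_quotient_add_finrank ((Bs K Q i).comap (Zs K Q i).subtype)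
    have h6 : Module.finrank K ((Bs K Q i).comap (Zs K Q i).subtype) =
        Rk.rk K (vec Q (i + 1)) := by
      rw [← Submodule.finrank_map_subtype_eq, Submodule.map_comap_subtype,
        inf_eq_right.mpr (Bs_le_Zs K hQ i), Bs, map_Cs]
      rfl
    rw [h6] at h5
    exact h5
  rw [← finrank_Cs K Q i, ← h1, ← h4]
  ring

/-- Semicontinuity. -/
theorem sb_rat_le {Q : Finset (Fin n) → Prop} (hQ : ∀ T j, j ∉ T → Q (insert j T) → Q T) (i : ℕ) :
    sb ℚ Q i ≤ sb K Q i := by
  have h1 := sb_add K hQ i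
  have h2 := sb_add ℚ hQ i
  have h3 := Rk.rk_le_rat K (vec Q i)
  have h4 := Rk.rk_le_rat K (vec Q (i + 1))
  omega

theorem satS_of_sb_eq {Q : Finset (Fin n) → Prop} (hQ : ∀ T j, j ∉ T → Q (insert j T) → Q T)
    {i : ℕ} (p : ℕ) [Fact p.Prime] [CharP K p] (h : sb K Q i = sb ℚ Q i) : SatS p Q i := by
  have h1 := sb_add K hQ i
  have h2 := sb_add ℚ hQ i
  have h3 := Rk.rk_le_rat K (vec Q i)
  have h4 := Rk.rk_le_rat K (vec Q (i + 1))
  rw [satS_iff, ← Rk.rk_charP K p]
  omega

lemma rk_vec_zero (Q : Finset (Fin n) → Prop) : Rk.rk K (vec Q 0) = 0 := by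
  have h : ∀ T : {T : Finset (Fin n) // Q T ∧ T.card = 0}, ∀ S, vec Q 0 T S = 0 := by
    intro T S
    unfold vec cd
    refine Finset.sum_eq_zero fun j _ => ?_
    rw [Pi.single_apply, if_neg, mul_zero]
    intro h
    have h1 := T.2.2
    rw [← h, Finset.card_eq_zero] at h1
    exact Finset.insert_ne_empty _ _ h1
  unfold Rk.rk
  have h2 : Submodule.span K (Set.range fun (i : {T : Finset (Fin n) // Q T ∧ T.card = 0}) =>
      fun x => ((vec Q 0 i x : ℤ) : K)) = ⊥ := by
    rw [Submodule.span_eq_bot]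
    rintro _ ⟨T, rfl⟩
    funext S
    change ((vec Q 0 T S : ℤ) : K) = 0
    rw [h T S, Int.cast_zero]
  rw [h2, finrank_bot]

theorem sb_eq_of_satS {Q : Finset (Fin n) → Prop} (hQ : ∀ T j, j ∉ T → Q (insert j T) → Q T)
    (p : ℕ) [Fact p.Prime] [CharP K p] (h : ∀ i, SatS p Q i) (i : ℕ) : sb K Q i = sb ℚ Q i := by
  have h1 := sb_add K hQ i
  have h2 := sb_add ℚ hQ i
  have h3 : ∀ i, Rk.rk K (vec Q i) = Rk.rk ℚ (vec Q i) := by
    intro i
    cases i with
    | zero => rw [rk_vec_zero, rk_vec_zero]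
    | succ i => exact (Rk.rk_charP K p _).mpr ((satS_iff _ _ _).mp (h i))
  rw [h3, h3] at h1
  omega

theorem sb_charZero [CharZero K] {Q : Finset (Fin n) → Prop}
    (hQ : ∀ T j, j ∉ T → Q (insert j T) → Q T) (i : ℕ) : sb K Q i = sb ℚ Q i := by
  have h1 := sb_add K hQ i
  have h2 := sb_add ℚ hQ i
  rw [Rk.rk_charZero, Rk.rk_charZero] at h1 h2
  omega

end Fields

/-! ### Graded Betti numbers -/

section Graded

variable {K : Type*} [Field K]

lemma koszulD_add (f g : Finset (Fin n) → MvPolynomial (Fin n) K) (T : Finset (Fin n)) :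
    koszulD (f + g) T = koszulD f T + koszulD g T := by
  unfold koszulD
  rw [← Finset.sum_add_distrib]
  refine Finset.sum_congr rfl fun j _ => ?_
  rw [Pi.add_apply]
  ring

lemma koszulD_zero (T : Finset (Fin n)) :
    koszulD (0 : Finset (Fin n) → MvPolynomial (Fin n) K) T = 0 := by
  unfold koszulD
  simp

lemma koszulD_smul (c : K) (f : Finset (Fin n) → MvPolynomial (Fin n) K) (T : Finset (Fin n)) :
    koszulD (c • f) T = c • koszulD f T := by
  unfold koszulD
  rw [Finset.smul_sum]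
  refine Finset.sum_congr rfl fun j _ => ?_
  rw [Pi.smul_apply, mul_smul_comm, mul_smul_comm]

/-- The cycles of homological degree `i` and coefficient degree `e` of the Koszul complex
`K(x_1, …, x_n; J)`. -/
noncomputable def gcycles (J : Ideal (MvPolynomial (Fin n) K)) (i e : ℕ) :
    Submodule K (Finset (Fin n) → MvPolynomial (Fin n) K) where
  carrier := {f | (∀ T, f T ∈ J) ∧ (∀ T, (f T).IsHomogeneous e) ∧ (∀ T, T.card ≠ i → f T = 0) ∧
    ∀ T, koszulD f T = 0}
  add_mem' {f g} hf hg := ⟨fun T => J.add_mem (hf.1 T) (hg.1 T),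
    fun T => (hf.2.1 T).add (hg.2.1 T),
    fun T hT => by rw [Pi.add_apply, hf.2.2.1 T hT, hg.2.2.1 T hT, add_zero],
    fun T => by rw [koszulD_add, hf.2.2.2 T, hg.2.2.2 T, add_zero]⟩
  zero_mem' := ⟨fun _ => J.zero_mem, fun _ => isHomogeneous_zero _ _ _, fun _ _ => rfl,
    fun T => koszulD_zero T⟩
  smul_mem' c f hf := ⟨fun T => by
      rw [Pi.smul_apply, smul_eq_C_mul]
      exact J.mul_mem_left _ (hf.1 T),
    fun T => (homogeneousSubmodule (Fin n) K e).smul_mem c (hf.2.1 T),
    fun T hT => by rw [Pi.smul_apply, hf.2.2.1 T hT, smul_zero],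
    fun T => by rw [koszulD_smul, hf.2.2.2 T, smul_zero]⟩

/-- The boundaries of homological degree `i` and coefficient degree `e` of the Koszul complex
`K(x_1, …, x_n; J)`. -/
noncomputable def gboundaries (J : Ideal (MvPolynomial (Fin n) K)) (i e : ℕ) :
    Submodule K (Finset (Fin n) → MvPolynomial (Fin n) K) where
  carrier := {f | (∀ T, (f T).IsHomogeneous e) ∧
    ∃ g : Finset (Fin n) → MvPolynomial (Fin n) K, (∀ T, g T ∈ J) ∧
      (∀ T, T.card ≠ i + 1 → g T = 0) ∧ ∀ T, koszulD g T = f T}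
  add_mem' := by
    rintro f f' ⟨h0, g, h1, h2, h3⟩ ⟨h0', g', h1', h2', h3'⟩
    exact ⟨fun T => (h0 T).add (h0' T), g + g', fun T => J.add_mem (h1 T) (h1' T),
      fun T hT => by rw [Pi.add_apply, h2 T hT, h2' T hT, add_zero],
      fun T => by rw [koszulD_add, h3, h3', Pi.add_apply]⟩
  zero_mem' := ⟨fun _ => isHomogeneous_zero _ _ _, 0, fun _ => J.zero_mem, fun _ _ => rfl,
    fun T => koszulD_zero T⟩
  smul_mem' := by
    rintro c f ⟨h0, g, h1, h2, h3⟩
    exact ⟨fun T => (homogeneousSubmodule (Fin n) K e).smul_mem c (h0 T), c • g, fun T => by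
        rw [Pi.smul_apply, smul_eq_C_mul]
        exact J.mul_mem_left _ (h1 T),
      fun T hT => by rw [Pi.smul_apply, h2 T hT, smul_zero],
      fun T => by rw [koszulD_smul, h3, Pi.smul_apply]⟩

/-- The graded Betti number `β_{i,i+e}(J) = dim_K Tor_i^S(J, K)_{i+e}`, computed by the Koszul
complex of `x_1, …, x_n` with coefficients in `J`. -/
noncomputable def gbetti (J : Ideal (MvPolynomial (Fin n) K)) (i e : ℕ) : ℕ :=
  Module.finrank K (gcycles J i e ⧸ (gboundaries J i e).comap (gcycles J i e).subtype)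

/-- Two chains with the same multigraded components are equal. -/
lemma comp_ext {f g : Finset (Fin n) → MvPolynomial (Fin n) K}
    (h : ∀ b T, comp f b T = comp g b T) (T : Finset (Fin n)) : f T = g T := by
  ext c
  rw [← comp_add_ind, ← comp_add_ind, h]

/-- Assembling a chain from multigraded components. -/
noncomputable def asm (B : Finset (Fin n →₀ ℕ)) (G : (Fin n →₀ ℕ) → Finset (Fin n) → K) :
    Finset (Fin n) → MvPolynomial (Fin n) K :=
  fun T => ∑ b ∈ B, MvPolynomial.monomial (b - ind T) (G b T)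

open Classical in
lemma comp_asm (B : Finset (Fin n →₀ ℕ)) (G : (Fin n →₀ ℕ) → Finset (Fin n) → K)
    (hG : ∀ b T, G b T ≠ 0 → ind T ≤ b) (b : Fin n →₀ ℕ) (T : Finset (Fin n)) :
    comp (asm B G) b T = if b ∈ B then G b T else 0 := by
  have key : ∀ b' ∈ B, ind T ≤ b → (MvPolynomial.monomial (b' - ind T) (G b' T)).coeff (b - ind T) =
      if b' = b then G b T else 0 := by
    intro b' _ hle
    rw [MvPolynomial.coeff_monomial]
    by_cases h0 : G b' T = 0
    · by_cases h1 : b' = b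
      · subst h1; simp [h0]
      · rw [h0]; simp [h1]
    · have hle' := hG b' T h0
      by_cases h1 : b' = b
      · subst h1; simp
      · rw [if_neg h1, if_neg]
        intro h2
        apply h1
        rw [← tsub_add_cancel_of_le hle', ← tsub_add_cancel_of_le hle, h2]
  unfold comp
  by_cases hle : ind T ≤ b
  · rw [if_pos hle]
    unfold asm
    rw [MvPolynomial.coeff_sum, Finset.sum_congr rfl (fun b' hb' => key b' hb' hle)]
    rw [Finset.sum_ite_eq' B b]
  · rw [if_neg hle]
    split_ifs with hb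
    · by_contra h
      exact hle (hG b T (fun h' => h h'.symm))
    · rfl

variable {J : Ideal (MvPolynomial (Fin n) K)} {P : (Fin n → ℕ) → Prop}

lemma comp_ne_zero {f : Finset (Fin n) → MvPolynomial (Fin n) K} {b : Fin n →₀ ℕ}
    {T : Finset (Fin n)} (h : comp f b T ≠ 0) : ind T ≤ b ∧ b - ind T ∈ (f T).support := by
  unfold comp at h
  split_ifs at h with hle
  · exact ⟨hle, MvPolynomial.mem_support_iff.mpr h⟩
  · exact absurd rfl h

lemma sum_sub_ind {b : Fin n →₀ ℕ} {T : Finset (Fin n)} (h : ind T ≤ b) :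
    ∑ v, b v = ∑ v, (b - ind T) v + T.card := by
  have h3 : ∑ v, b v = ∑ v, (b - ind T) v + ∑ v, ind T v := by
    rw [← Finset.sum_add_distrib]
    refine Finset.sum_congr rfl fun v _ => ?_
    have := h v
    simp only [Finsupp.coe_tsub, Pi.sub_apply]
    omega
  rw [h3, sum_ind]

lemma deg_of_homog {f : MvPolynomial (Fin n) K} {e : ℕ} (hf : f.IsHomogeneous e)
    {c : Fin n →₀ ℕ} (hc : c ∈ f.support) : ∑ v, c v = e := by
  have h1 := hf (MvPolynomial.mem_support_iff.mp hc)
  rw [Finsupp.weight_apply, Finsupp.sum_fintype _ _ (by simp)] at h1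
  simpa using h1

lemma homog_of_deg {f : MvPolynomial (Fin n) K} {e : ℕ} (hf : ∀ c ∈ f.support, ∑ v, c v = e) :
    f.IsHomogeneous e := by
  intro c hc
  rw [Finsupp.weight_apply, Finsupp.sum_fintype _ _ (by simp)]
  simpa using hf c (MvPolynomial.mem_support_iff.mpr hc)

lemma KK_down (hP : ∀ u v : Fin n →₀ ℕ, u ≤ v → P ⇑u → P ⇑v) (b : Fin n →₀ ℕ) :
    ∀ T j, j ∉ T → KK P b (insert j T) → KK P b T := by
  intro T j hj ⟨h1, h2⟩
  have h3 : ind T ≤ ind (insert j T) := by
    rw [ind_insert hj]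
    exact le_self_add
  refine ⟨h3.trans h1, hP _ _ ?_ h2⟩
  intro v
  have := h3 v
  simp only [Finsupp.coe_tsub, Pi.sub_apply]
  omega

/-- Components of a cycle are cycles of the strands. -/
lemma comp_mem_Zs (hJ : ∀ p, p ∈ J ↔ ∀ c ∈ p.support, P ⇑c) {i e : ℕ}
    {f : Finset (Fin n) → MvPolynomial (Fin n) K} (hf : f ∈ gcycles J i e) (b : Fin n →₀ ℕ) :
    comp f b ∈ Zs K (KK P b) i := by
  obtain ⟨h1, h2, h3, h4⟩ := hf
  refine ⟨fun T hT => ?_, ?_⟩
  · obtain ⟨h5, h6⟩ := comp_ne_zero hT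
    refine ⟨⟨h5, (hJ _).mp (h1 T) _ h6⟩, ?_⟩
    by_contra h7
    rw [h3 T h7] at h6
    simp at h6
  · apply LinearMap.mem_ker.mpr
    funext T
    rw [cdL_apply, ← comp_koszulD]
    unfold comp
    rw [h4]
    simp

/-- the total degree of the occurring multidegrees -/
lemma sum_of_comp_ne_zero {i e : ℕ} {f : Finset (Fin n) → MvPolynomial (Fin n) K}
    (hf2 : ∀ T, (f T).IsHomogeneous e) (hf3 : ∀ T, T.card ≠ i → f T = 0)
    {b : Fin n →₀ ℕ} {T : Finset (Fin n)} (h : comp f b T ≠ 0) : ∑ v, b v = e + i := by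
  obtain ⟨h5, h6⟩ := comp_ne_zero h
  rw [sum_sub_ind h5, deg_of_homog (hf2 T) h6]
  congr 1
  by_contra h7
  rw [hf3 T h7] at h6
  simp at h6

/-- The component map on cycles. -/
noncomputable def compL (hJ : ∀ p, p ∈ J ↔ ∀ c ∈ p.support, P ⇑c) (i e : ℕ) (b : Fin n →₀ ℕ) :
    gcycles J i e →ₗ[K] Zs K (KK P b) i where
  toFun f := ⟨comp f.1 b, comp_mem_Zs hJ f.2 b⟩
  map_add' f g := by
    apply Subtype.ext
    funext T
    change comp (f.1 + g.1) b T = comp f.1 b T + comp g.1 b T
    unfold comp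
    split_ifs
    · rw [Pi.add_apply, coeff_add]
    · rw [add_zero]
  map_smul' c f := by
    apply Subtype.ext
    funext T
    change comp (c • f.1) b T = c • comp f.1 b T
    unfold comp
    split_ifs
    · rw [Pi.smul_apply, coeff_smul]
    · rw [smul_zero]

/-- The set of multidegrees of total degree `d`. -/
noncomputable def degs (n d : ℕ) : Finset (Fin n →₀ ℕ) :=
  (Finset.univ : Finset (Fin n)).finsuppAntidiag d

lemma mem_degs {d : ℕ} {b : Fin n →₀ ℕ} : b ∈ degs n d ↔ ∑ v, b v = d := by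
  unfold degs
  rw [Finset.mem_finsuppAntidiag]
  simp

/-- Dimension of a quotient that is a direct sum. -/
lemma finrank_quot_eq_sum {β : Type*} [Fintype β] {Z : Type*} [AddCommGroup Z] [Module K Z]
    (B : Submodule K Z) {W : β → Type*} [∀ b, AddCommGroup (W b)] [∀ b, Module K (W b)]
    [∀ b, Module.Finite K (W b)] (C : ∀ b, Submodule K (W b)) (c : ∀ b, Z →ₗ[K] W b)
    (h1 : ∀ f, f ∈ B ↔ ∀ b, c b f ∈ C b) (h2 : ∀ G : ∀ b, W b, ∃ f, ∀ b, c b f = G b) :
    Module.finrank K (Z ⧸ B) = ∑ b, Module.finrank K (W b ⧸ C b) := by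
  let Φ : Z →ₗ[K] (∀ b, W b ⧸ C b) := LinearMap.pi fun b => (Submodule.mkQ (C b)).comp (c b)
  have hker : LinearMap.ker Φ = B := by
    ext f
    rw [LinearMap.mem_ker, h1]
    constructor
    · intro h b
      have h3 := congrFun h b
      rwa [LinearMap.pi_apply, LinearMap.comp_apply, Pi.zero_apply, Submodule.mkQ_apply,
        Submodule.Quotient.mk_eq_zero] at h3
    · intro h
      funext b
      rw [LinearMap.pi_apply, LinearMap.comp_apply, Pi.zero_apply, Submodule.mkQ_apply,
        Submodule.Quotient.mk_eq_zero]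
      exact h b
  have hsurj : Function.Surjective Φ := by
    intro y
    choose a ha using fun b => Submodule.mkQ_surjective _ (y b)
    obtain ⟨f, hf⟩ := h2 a
    refine ⟨f, funext fun b => ?_⟩
    rw [LinearMap.pi_apply, LinearMap.comp_apply, hf, ha]
  have e1 := (Submodule.quotEquivOfEq _ _ hker.symm).trans (Φ.quotKerEquivOfSurjective hsurj)
  rw [LinearEquiv.finrank_eq e1, Module.finrank_pi_fintype]

lemma mem_gboundaries_iff (hJ : ∀ p, p ∈ J ↔ ∀ c ∈ p.support, P ⇑c) {i e : ℕ}
    {f : Finset (Fin n) → MvPolynomial (Fin n) K} (hf2 : ∀ T, (f T).IsHomogeneous e)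
    (hf3 : ∀ T, T.card ≠ i → f T = 0) :
    f ∈ gboundaries J i e ↔ ∀ b ∈ degs n (e + i), comp f b ∈ Bs K (KK P b) i := by
  classical
  constructor
  · rintro ⟨-, g, hg1, hg2, hg3⟩ b _
    refine ⟨comp g b, ?_, ?_⟩
    · intro T hT
      obtain ⟨h5, h6⟩ := comp_ne_zero hT
      refine ⟨⟨h5, (hJ _).mp (hg1 T) _ h6⟩, ?_⟩
      by_contra h7
      rw [hg2 T h7] at h6
      simp at h6
    · funext T
      rw [cdL_apply, ← comp_koszulD]
      unfold comp
      rw [hg3]
  · intro h
    have h2 : ∀ b, ∃ g ∈ Cs K (KK P b) (i + 1), b ∈ degs n (e + i) → cdL K g = comp f b := by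
      intro b
      by_cases hb : b ∈ degs n (e + i)
      · obtain ⟨g, hg1, hg2⟩ := h b hb
        exact ⟨g, hg1, fun _ => hg2⟩
      · exact ⟨0, Submodule.zero_mem _, fun h => absurd h hb⟩
    choose G hG1 hG2 using h2
    have hG : ∀ b T, G b T ≠ 0 → ind T ≤ b := fun b T hT => (hG1 b T hT).1.1
    refine ⟨hf2, asm (degs n (e + i)) G, ?_, ?_, ?_⟩
    · intro T
      rw [hJ]
      intro c hc
      rw [MvPolynomial.mem_support_iff, ← comp_add_ind, comp_asm _ _ hG] at hc
      split_ifs at hc with h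
      · have := (hG1 _ _ hc).1.2
        rwa [add_tsub_cancel_right] at this
      · exact absurd rfl hc
    · intro T hT
      ext c
      rw [← comp_add_ind, comp_asm _ _ hG, MvPolynomial.coeff_zero]
      split_ifs
      · by_contra h
        exact hT (hG1 _ _ h).2
      · rfl
    · apply comp_ext (g := f)
      intro b T
      rw [comp_koszulD]
      have h3 : comp (asm (degs n (e + i)) G) b =
          fun T => if b ∈ degs n (e + i) then G b T else 0 := by
        funext T
        exact comp_asm _ _ hG b T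
      rw [h3]
      by_cases hb : b ∈ degs n (e + i)
      · simp only [if_pos hb]
        exact congrFun (hG2 b hb) T
      · simp only [if_neg hb]
        rw [cd_zero]
        by_contra h4
        exact hb (mem_degs.mpr (sum_of_comp_ne_zero hf2 hf3 (fun h5 => h4 h5.symm)))

lemma exists_gcycle (hJ : ∀ p, p ∈ J ↔ ∀ c ∈ p.support, P ⇑c) {i e : ℕ}
    (G : (Fin n →₀ ℕ) → Finset (Fin n) → K) (hG0 : ∀ b, G b ∈ Zs K (KK P b) i) :
    ∃ f ∈ gcycles J i e, ∀ b ∈ degs n (e + i), comp f b = G b := by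
  classical
  have hG : ∀ b T, G b T ≠ 0 → ind T ≤ b := fun b T hT => ((hG0 b).1 T hT).1.1
  refine ⟨asm (degs n (e + i)) G, ⟨?_, ?_, ?_, ?_⟩, ?_⟩
  · intro T
    rw [hJ]
    intro c hc
    rw [MvPolynomial.mem_support_iff, ← comp_add_ind, comp_asm _ _ hG] at hc
    split_ifs at hc with h
    · have := ((hG0 _).1 _ hc).1.2
      rwa [add_tsub_cancel_right] at this
    · exact absurd rfl hc
  · intro T
    apply homog_of_deg
    intro c hc
    rw [MvPolynomial.mem_support_iff, ← comp_add_ind, comp_asm _ _ hG] at hc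
    split_ifs at hc with h
    · have h1 := ((hG0 _).1 _ hc).2
      rw [mem_degs] at h
      have h2 : ∑ v, (c + ind T) v = ∑ v, c v + T.card := by
        rw [← sum_ind T, ← Finset.sum_add_distrib]
        rfl
      omega
    · exact absurd rfl hc
  · intro T hT
    ext c
    rw [← comp_add_ind, comp_asm _ _ hG, MvPolynomial.coeff_zero]
    split_ifs
    · by_contra h
      exact hT ((hG0 _).1 _ h).2
    · rfl
  · apply comp_ext (g := (fun _ => 0 : Finset (Fin n) → MvPolynomial (Fin n) K))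
    intro b T
    rw [comp_koszulD]
    have h3 : comp (asm (degs n (e + i)) G) b =
        fun T => if b ∈ degs n (e + i) then G b T else 0 := by
      funext T
      exact comp_asm _ _ hG b T
    have h4 : comp (fun _ => 0 : Finset (Fin n) → MvPolynomial (Fin n) K) b T = 0 := by
      unfold comp
      simp
    rw [h3, h4]
    by_cases hb : b ∈ degs n (e + i)
    · simp only [if_pos hb]
      exact congrFun (LinearMap.mem_ker.mp (hG0 b).2) T
    · simp only [if_neg hb]
      rw [cd_zero]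
  · intro b hb
    funext T
    rw [comp_asm _ _ hG, if_pos hb]

/-- Graded Betti numbers are sums of the dimensions of the homology of the strands. -/
theorem gbetti_eq_sum (hJ : ∀ p, p ∈ J ↔ ∀ c ∈ p.support, P ⇑c) (i e : ℕ) :
    gbetti J i e = ∑ b ∈ degs n (e + i), sb K (KK P b) i := by
  classical
  unfold gbetti
  rw [finrank_quot_eq_sum (β := degs n (e + i)) (W := fun b => Zs K (KK P b.1) i)
    ((gboundaries J i e).comap (gcycles J i e).subtype)
    (fun b => (Bs K (KK P b.1) i).comap (Zs K (KK P b.1) i).subtype)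
    (fun b => compL hJ i e b.1)]
  · exact Finset.sum_coe_sort (degs n (e + i)) (fun b => sb K (KK P b) i)
  · intro f
    rw [Submodule.mem_comap, Submodule.subtype_apply, mem_gboundaries_iff hJ f.2.2.1 f.2.2.2.1]
    constructor
    · intro h b
      exact h b.1 b.2
    · intro h b hb
      exact h ⟨b, hb⟩
  · intro G
    obtain ⟨f, hf, hfG⟩ := exists_gcycle (e := e) hJ
      (fun b => if hb : b ∈ degs n (e + i) then (G ⟨b, hb⟩).1 else 0) (by
        intro b
        split_ifs with hb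
        · exact (G ⟨b, hb⟩).2
        · exact Submodule.zero_mem _)
    refine ⟨⟨f, hf⟩, fun b => ?_⟩
    apply Subtype.ext
    change comp f b.1 = _
    rw [hfG b.1 b.2, dif_pos b.2]

/-- The graded Betti numbers can only go up modulo `p`, and if one of them does not then the
strands in this degree have no `p`-torsion. -/
theorem gbetti_rat_le {J' : Ideal (MvPolynomial (Fin n) ℚ)}
    (hJ : ∀ p, p ∈ J ↔ ∀ c ∈ p.support, P ⇑c) (hJ' : ∀ p, p ∈ J' ↔ ∀ c ∈ p.support, P ⇑c)
    (hP : ∀ u v : Fin n →₀ ℕ, u ≤ v → P ⇑u → P ⇑v) (i e : ℕ) :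
    gbetti J' i e ≤ gbetti J i e := by
  rw [gbetti_eq_sum hJ, gbetti_eq_sum hJ']
  exact Finset.sum_le_sum fun b _ => sb_rat_le K (KK_down hP b) i

theorem satS_of_gbetti_eq {J' : Ideal (MvPolynomial (Fin n) ℚ)}
    (hJ : ∀ p, p ∈ J ↔ ∀ c ∈ p.support, P ⇑c) (hJ' : ∀ p, p ∈ J' ↔ ∀ c ∈ p.support, P ⇑c)
    (hP : ∀ u v : Fin n →₀ ℕ, u ≤ v → P ⇑u → P ⇑v) (p : ℕ) [Fact p.Prime] [CharP K p] {i e : ℕ}
    (h : gbetti J i e = gbetti J' i e) (b : Fin n →₀ ℕ) (hb : ∑ v, b v = e + i) :
    SatS p (KK P b) i := by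
  rw [gbetti_eq_sum hJ, gbetti_eq_sum hJ'] at h
  have h1 := (Finset.sum_eq_sum_iff_of_le fun b _ => sb_rat_le K (KK_down hP b) i).mp h.symm b
    (mem_degs.mpr hb)
  exact satS_of_sb_eq K (KK_down hP b) p h1.symm

theorem gbetti_eq_of_satS {J' : Ideal (MvPolynomial (Fin n) ℚ)}
    (hJ : ∀ p, p ∈ J ↔ ∀ c ∈ p.support, P ⇑c) (hJ' : ∀ p, p ∈ J' ↔ ∀ c ∈ p.support, P ⇑c)
    (hP : ∀ u v : Fin n →₀ ℕ, u ≤ v → P ⇑u → P ⇑v) (p : ℕ) [Fact p.Prime] [CharP K p]
    (h : ∀ b i, SatS p (KK P b) i) (i e : ℕ) : gbetti J i e = gbetti J' i e := by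
  rw [gbetti_eq_sum hJ, gbetti_eq_sum hJ']
  exact Finset.sum_congr rfl fun b _ => sb_eq_of_satS K (KK_down hP b) p (h b) i

theorem gbetti_charZero [CharZero K] {J' : Ideal (MvPolynomial (Fin n) ℚ)}
    (hJ : ∀ p, p ∈ J ↔ ∀ c ∈ p.support, P ⇑c) (hJ' : ∀ p, p ∈ J' ↔ ∀ c ∈ p.support, P ⇑c)
    (hP : ∀ u v : Fin n →₀ ℕ, u ≤ v → P ⇑u → P ⇑v) (i e : ℕ) : gbetti J i e = gbetti J' i e := by
  rw [gbetti_eq_sum hJ, gbetti_eq_sum hJ']
  exact Finset.sum_congr rfl fun b _ => sb_charZero K (KK_down hP b) i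

end Graded

end Q14.Strand
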