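import Pool.Agent.Q14.PowV

/-!
Symbolic powers of squarefree monomial ideals.
-/

set_option autoImplicit false

namespace Q14.Mono

open MvPolynomial

variable {n : ℕ} {K : Type*} [Field K]

/-- The ideal generated by the monomials `∏ v ∈ F, x_v`, `F ∈ H`. -/
noncomputable def sqf (K : Type*) [Field K] (H : Set (Finset (Fin n))) :
    Ideal (MvPolynomial (Fin n) K) :=
  Ideal.span {f | ∃ F ∈ H, f = ∏ v ∈ F, X v}

/-- The symbolic power `P_1^m ∩ … ∩ P_r^m`, `P_1, …, P_r` the minimal primes of `I`. -/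
noncomputable def symbPow (I : Ideal (MvPolynomial (Fin n) K)) (m : ℕ) :
    Ideal (MvPolynomial (Fin n) K) := ⨅ P ∈ I.minimalPrimes, P ^ m

/-- `C` is a vertex cover of `H`. -/
def Cover (H : Set (Finset (Fin n))) (C : Set (Fin n)) : Prop := ∀ F ∈ H, ∃ v ∈ F, v ∈ C

lemma sqf_le_iff (H : Set (Finset (Fin n))) {P : Ideal (MvPolynomial (Fin n) K)} [hP : P.IsPrime] :
    sqf K H ≤ P ↔ Cover H {v | (X v : MvPolynomial (Fin n) K) ∈ P} := by
  unfold sqf
  rw [Ideal.span_le]
  constructor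
  · intro h F hF
    have h1 : (∏ v ∈ F, (X v : MvPolynomial (Fin n) K)) ∈ P := h ⟨F, hF, rfl⟩
    obtain ⟨v, hv, hvP⟩ := (hP.prod_mem_iff).mp h1
    exact ⟨v, hv, hvP⟩
  · rintro h _ ⟨F, hF, rfl⟩
    obtain ⟨v, hv, hvP⟩ := h F hF
    exact (hP.prod_mem_iff).mpr ⟨v, hv, hvP⟩

lemma sqf_le_PV (H : Set (Finset (Fin n))) (C : Set (Fin n)) :
    sqf K H ≤ PV K C ↔ Cover H C := by
  have := PV_isPrime (K := K) C
  rw [sqf_le_iff]
  simp only [X_mem_PV, Set.ofPred_mem_eq]

lemma PV_le_of_prime (P : Ideal (MvPolynomial (Fin n) K)) :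
    PV K {v | (X v : MvPolynomial (Fin n) K) ∈ P} ≤ P := by
  unfold PV
  rw [Ideal.span_le]
  rintro _ ⟨v, hv, rfl⟩
  exact hv

/-- The minimal primes are generated by variables. -/
lemma exists_PV_of_minimalPrime (H : Set (Finset (Fin n))) {P : Ideal (MvPolynomial (Fin n) K)}
    (hP : P ∈ (sqf K H).minimalPrimes) : ∃ C : Set (Fin n), Cover H C ∧ P = PV K C := by
  have : P.IsPrime := hP.1.1
  have h1 : Cover H {v | (X v : MvPolynomial (Fin n) K) ∈ P} := (sqf_le_iff H).mp hP.1.2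
  refine ⟨_, h1, ?_⟩
  have := PV_isPrime (K := K) {v | (X v : MvPolynomial (Fin n) K) ∈ P}
  refine le_antisymm ?_ (PV_le_of_prime P)
  exact hP.2 ⟨this, (sqf_le_PV H _).mpr h1⟩ (PV_le_of_prime P)

lemma PV_mono {C D : Set (Fin n)} (h : C ⊆ D) : PV K C ≤ PV K D :=
  Ideal.span_mono (Set.image_mono h)

lemma PV_le_iff {C D : Set (Fin n)} : PV K C ≤ PV K D ↔ C ⊆ D := by
  constructor
  · intro h v hv
    exact X_mem_PV.mp (h (X_mem_PV.mpr hv))
  · exact PV_mono

lemma isMon_iInf {ι : Sort*} {J : ι → Ideal (MvPolynomial (Fin n) K)} (h : ∀ i, IsMon (J i)) :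
    IsMon (⨅ i, J i) := by
  intro f hf u hu
  rw [Ideal.mem_iInf] at hf ⊢
  exact fun i => h i f (hf i) u hu

lemma isMon_symbPow (H : Set (Finset (Fin n))) (m : ℕ) : IsMon (symbPow (sqf K H) m) := by
  unfold symbPow
  refine isMon_iInf fun P => isMon_iInf fun hP => ?_
  obtain ⟨C, -, rfl⟩ := exists_PV_of_minimalPrime H hP
  exact (isMon_PV C).pow m

open Classical in
/-- Monomials in the symbolic powers. -/
theorem monomial_mem_symbPow (H : Set (Finset (Fin n))) (m : ℕ) (u : Fin n →₀ ℕ) :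
    monomial u (1 : K) ∈ symbPow (sqf K H) m ↔
      ∀ C : Set (Fin n), Cover H C → m ≤ ∑ i, if i ∈ C then u i else 0 := by
  unfold symbPow
  simp only [Ideal.mem_iInf]
  constructor
  · intro h C hC
    have := PV_isPrime (K := K) C
    obtain ⟨P, hP, hPC⟩ := Ideal.exists_minimalPrimes_le ((sqf_le_PV (K := K) H C).mpr hC)
    have h1 := h P hP
    obtain ⟨D, hD, rfl⟩ := exists_PV_of_minimalPrime H hP
    rw [monomial_mem_PV_pow] at h1
    have hDC := PV_le_iff.mp hPC
    refine h1.trans (Finset.sum_le_sum fun i _ => ?_)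
    split_ifs with h2 h3
    · exact le_rfl
    · exact absurd (hDC h2) h3
    · exact Nat.zero_le _
    · exact le_rfl
  · intro h P hP
    obtain ⟨D, hD, rfl⟩ := exists_PV_of_minimalPrime H hP
    rw [monomial_mem_PV_pow]
    exact h D hD

/-- Monomials in the symbolic powers, in terms of the sets `D` containing no generator. -/
theorem monomial_mem_symbPow' (H : Set (Finset (Fin n))) (m : ℕ) (u : Fin n →₀ ℕ) :
    monomial u (1 : K) ∈ symbPow (sqf K H) m ↔
      ∀ D : Finset (Fin n), (∀ F ∈ H, ¬ F ⊆ D) → m + ∑ i ∈ D, u i ≤ ∑ i, u i := by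
  classical
  rw [monomial_mem_symbPow]
  constructor
  · intro h D hD
    have h1 := h {v | v ∉ D} (by
      intro F hF
      obtain ⟨v, hv, hvD⟩ := Finset.not_subset.mp (hD F hF)
      exact ⟨v, hv, hvD⟩)
    have h2 : (∑ i, if i ∈ ({v | v ∉ D} : Set (Fin n)) then u i else 0) + ∑ i ∈ D, u i =
        ∑ i, u i := by
      rw [← Finset.sum_filter_add_sum_filter_not Finset.univ (fun i => i ∉ D) (fun i => u i)]
      congr 1
      · rw [Finset.sum_filter]
        exact Finset.sum_congr rfl fun i _ => by simp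
      · refine Finset.sum_congr ?_ fun i _ => rfl
        ext i; simp
    rw [← h2, add_comm m]
    rw [add_comm _ (∑ i ∈ D, u i)]
    refine Nat.add_le_add_left (h1.trans (le_of_eq ?_)) _
    exact Finset.sum_congr rfl fun i _ => by congr
  · intro h C hC
    have h1 := h (Finset.univ.filter fun v => v ∉ C) (by
      intro F hF hsub
      obtain ⟨v, hv, hvC⟩ := hC F hF
      exact (Finset.mem_filter.mp (hsub hv)).2 hvC)
    have h2 : (∑ i, if i ∈ C then u i else 0) +
        ∑ i ∈ (Finset.univ.filter fun v => v ∉ C), u i = ∑ i, u i := by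
      rw [← Finset.sum_filter_add_sum_filter_not Finset.univ (fun i => i ∈ C) (fun i => u i)]
      congr 1
      rw [Finset.sum_filter]
    omega

lemma pow_le_symbPow (I : Ideal (MvPolynomial (Fin n) K)) (m : ℕ) : I ^ m ≤ symbPow I m := by
  unfold symbPow
  refine le_iInf₂ fun P hP => Ideal.pow_right_mono hP.1.2 m

lemma isMon_sqf (H : Set (Finset (Fin n))) : IsMon (sqf K H) := by
  have : sqf K H = Ideal.span ((fun u => monomial u (1 : K)) ''
      {u | ∃ F ∈ H, u = ∑ v ∈ F, Finsupp.single v 1}) := by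
    unfold sqf
    congr 1
    ext f
    constructor
    · rintro ⟨F, hF, rfl⟩
      refine ⟨_, ⟨F, hF, rfl⟩, ?_⟩
      simp only
      rw [monomial_sum_one]
      rfl
    · rintro ⟨_, ⟨F, hF, rfl⟩, rfl⟩
      refine ⟨F, hF, ?_⟩
      simp only
      rw [monomial_sum_one]
      rfl
  rw [this]
  exact isMon_span _

lemma prod_X_eq (F : Finset (Fin n)) :
    (∏ v ∈ F, (X v : MvPolynomial (Fin n) K)) = monomial (∑ v ∈ F, Finsupp.single v 1) 1 := by
  rw [monomial_sum_one]
  rfl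

lemma sqf_le_WtGE (H : Set (Finset (Fin n))) (d : ℕ) (h : ∀ F ∈ H, F.card = d) :
    sqf K H ≤ WtGE K 1 d := by
  unfold sqf
  rw [Ideal.span_le]
  rintro _ ⟨F, hF, rfl⟩
  rw [prod_X_eq, SetLike.mem_coe, monomial_mem_WtGE, map_sum]
  simp [h F hF, Finsupp.weight_single]

lemma weight_one (u : Fin n →₀ ℕ) : Finsupp.weight (1 : Fin n → ℕ) u = ∑ i, u i := by
  rw [Finsupp.weight_apply, Finsupp.sum_fintype _ _ (by simp)]
  simp

/-- Degrees of the monomials in the ordinary powers. -/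
lemma le_degree_of_mem_sqf_pow (H : Set (Finset (Fin n))) (d m : ℕ) (h : ∀ F ∈ H, F.card = d)
    {u : Fin n →₀ ℕ} (hu : monomial u (1 : K) ∈ sqf K H ^ m) : m * d ≤ ∑ i, u i := by
  have h1 := pow_le_WtGE (sqf_le_WtGE (K := K) H d h) m hu
  rw [monomial_mem_WtGE, weight_one] at h1
  exact h1

end Q14.Mono
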