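import Pool.Agent.Q256.UI.Stm

/-! # Project UI (helper256), job CM: the modification principle -/

set_option autoImplicit false

namespace Pool.Agent.Q14.UI

open Finset MvPolynomial Pool.Agent.Q256.UI
open Pool.Agent.Q256.UP (PBox dig dig_mem dig_eval dig_inj)

theorem dig_abs_le (P : Fin 2 → ℤ) (k : Fin 2) (m H : ℕ) (hP : 1 ≤ |P k|)
    (p : (Fin m → Fin (H + 1)) × Fin (H + 1)) :
    |eval P (dig k 0 m (H + 1) H p)| ≤ (m + 1) * H * |P k| ^ m := by
  rw [dig_eval, pow_zero, one_mul]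
  refine (abs_add_le _ _).trans ?_
  have h1 : |∑ j : Fin m, P k ^ (j : ℕ) * ((p.1 j : ℕ) : ℤ)| ≤ m * (|P k| ^ m * H) := by
    refine (abs_sum_le_sum_abs _ _).trans ?_
    calc ∑ j : Fin m, |P k ^ (j : ℕ) * ((p.1 j : ℕ) : ℤ)| ≤ ∑ _j : Fin m, |P k| ^ m * (H : ℤ) := by
          refine sum_le_sum ?_
          intro j _
          rw [abs_mul, abs_pow, Nat.abs_cast]
          have h2 : |P k| ^ (j : ℕ) ≤ |P k| ^ m := pow_le_pow_right₀ hP j.2.le
          have h3 : (((p.1 j : ℕ) : ℤ)) ≤ H := by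
            have := (p.1 j).2
            omega
          exact mul_le_mul h2 h3 (by positivity) (by positivity)
      _ = m * (|P k| ^ m * H) := by
          rw [sum_const, card_univ, Fintype.card_fin, nsmul_eq_mul]
  have h4 : |P k ^ m * ((p.2 : ℕ) : ℤ)| ≤ |P k| ^ m * H := by
    rw [abs_mul, abs_pow, Nat.abs_cast]
    refine mul_le_mul_of_nonneg_left ?_ (by positivity)
    have := p.2.2
    omega
  calc _ ≤ m * (|P k| ^ m * H) + |P k| ^ m * H := add_le_add h1 h4
    _ = _ := by ring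

/-- Job `CM` (helper256). -/
theorem cm : S_CM := by
  classical
  intro d H m M Φ Reg V B hReg hV hB hz hmod hcount
  have hVfin : V.Finite := by
    refine hB.subset ?_
    intro F hF
    have h1 := hmod F hF 0 ⟨by simp, fun α => by simp⟩
    rwa [add_zero] at h1
  choose! P hP using hz
  have hinj : ∀ F ∈ V, ∀ F' ∈ V, ∀ δ δ' : (Fin m → Fin (H + 1)) × Fin (H + 1),
      F + dig 0 0 m (H + 1) H δ = F' + dig 0 0 m (H + 1) H δ' → P F = P F' → F = F' ∧ δ = δ' := by
    intro F hF F' hF' δ δ' h1 h2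
    have h3 := congrArg (eval ![(P F).1, (P F).2]) h1
    rw [map_add, map_add, (hP F hF).2] at h3
    have h4 : eval ![(P F).1, (P F).2] F' = 0 := by
      rw [h2]
      exact (hP F' hF').2
    rw [h4, zero_add, zero_add] at h3
    have h5 := hReg _ (hP F hF).1
    rw [Int.abs_eq_natAbs] at h5
    have h6 : δ = δ' := dig_inj ![(P F).1, (P F).2] 0 0 m H (P F).1.natAbs (by
      rw [Int.natCast_natAbs]
      rfl) (by omega) (H + 1) (by omega) δ δ' h3
    subst h6
    exact ⟨add_right_cancel h1, rfl⟩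
  obtain ⟨S, hS⟩ : ∃ S : MvPolynomial (Fin 2) ℤ → Finset (ℤ × ℤ), ∀ F ∈ B, #(S F) ≤ M ∧
      ∀ p : ℤ × ℤ, p ∈ S F ↔ (p ∈ Reg ∧ |eval ![p.1, p.2] F| ≤ (m + 1) * H * |p.1| ^ m) := by
    refine ⟨fun F => if h : F ∈ B then (hcount F h).1.toFinset else ∅, ?_⟩
    intro F hF
    simp only [dif_pos hF]
    constructor
    · rw [← Set.ncard_eq_toFinset_card _ (hcount F hF).1]
      exact (hcount F hF).2
    · intro p
      rw [Set.Finite.mem_toFinset]
      rfl
  obtain ⟨t, ht⟩ : ∃ t : Finset (Σ _ : MvPolynomial (Fin 2) ℤ, ℤ × ℤ), t = hB.toFinset.sigma S :=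
    ⟨_, rfl⟩
  obtain ⟨s, hs⟩ : ∃ s : Finset (MvPolynomial (Fin 2) ℤ × ((Fin m → Fin (H + 1)) × Fin (H + 1))),
      s = hVfin.toFinset ×ˢ univ := ⟨_, rfl⟩
  have hsc : #s = Nat.card V * (H + 1) ^ (m + 1) := by
    rw [hs, card_product, card_univ, Fintype.card_prod, Fintype.card_fun, Fintype.card_fin,
      Fintype.card_fin, ← pow_succ, Nat.card_coe_set_eq, Set.ncard_eq_toFinset_card _ hVfin]
  have htc : #t ≤ M * Nat.card B := by
    rw [ht, card_sigma, Nat.card_coe_set_eq, Set.ncard_eq_toFinset_card _ hB, mul_comm, ← smul_eq_mul]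
    refine sum_le_card_nsmul _ _ _ ?_
    intro F hF
    exact (hS F ((Set.Finite.mem_toFinset hB).1 hF)).1
  rw [← hsc]
  refine le_trans ?_ htc
  refine card_le_card_of_injOn (fun q => ⟨q.1 + dig 0 0 m (H + 1) H q.2, P q.1⟩) ?_ ?_
  · intro q hq
    have hq1 : q.1 ∈ V := by
      have := mem_coe.1 hq
      rw [hs, mem_product, Set.Finite.mem_toFinset] at this
      exact this.1
    have hb := hmod q.1 hq1 _ (dig_mem (d := m) 0 0 m (H + 1) H (by omega) le_rfl q.2)
    rw [mem_coe, ht, mem_sigma, Set.Finite.mem_toFinset]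
    refine ⟨hb, ?_⟩
    rw [(hS _ hb).2]
    refine ⟨(hP _ hq1).1, ?_⟩
    rw [map_add, (hP _ hq1).2, zero_add]
    have h5 := hReg _ (hP _ hq1).1
    exact dig_abs_le ![(P q.1).1, (P q.1).2] 0 m H (by
      change 1 ≤ |(P q.1).1|
      omega) q.2
  · intro q hq q' hq' hqq
    have hq1 : q.1 ∈ V := by
      have := mem_coe.1 hq
      rw [hs, mem_product, Set.Finite.mem_toFinset] at this
      exact this.1
    have hq1' : q'.1 ∈ V := by
      have := mem_coe.1 hq'
      rw [hs, mem_product, Set.Finite.mem_toFinset] at this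
      exact this.1
    simp only [Sigma.mk.injEq, heq_eq_eq] at hqq
    obtain ⟨h1, h2⟩ := hinj q.1 hq1 q'.1 hq1' q.2 q'.2 hqq.1 hqq.2
    exact Prod.ext h1 h2

end Pool.Agent.Q14.UI
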