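import Pool.Agent.Q256.UI.Stm

/-! # Project UI (helper256), job SML: small points -/

set_option autoImplicit false

namespace Pool.Agent.Q14.UI

open Finset MvPolynomial Pool.Agent.Q256.UI
open Pool.Agent.Q256.UP (PBox dig dig_mem dig_eval dig_inj modify finite_pbox)

theorem fam_finite (Φ : MvPolynomial (Fin 2) ℤ) (d H : ℕ) : (Fam Φ d H).Finite := by
  refine ((finite_pbox (d - 1) H).image (fun G => Φ + G)).subset ?_
  rintro F ⟨G, hG, rfl⟩
  exact ⟨G, hG, rfl⟩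

theorem count_fam_pt (d H : ℕ) (hd : 1 ≤ d) (Φ : MvPolynomial (Fin 2) ℤ) (P : Fin 2 → ℤ) (k : Fin 2)
    (q : ℕ) (hq : |P k| = q) (hq1 : 1 ≤ q) :
    Nat.card {F | F ∈ Fam Φ d H ∧ eval P F = 0} * (min (H + 1) q ^ (d - 1) * (H + 1)) ≤
      (2 * ((d + 1) * H) + 1) ^ NN d := by
  have h := modify (d := d - 1) (H := H) (K := d - 1 + 1)
    {G | G ∈ PBox (d - 1) H ∧ eval P (Φ + G) = 0}
    (fun F hF => hF.1) (dig k 0 (d - 1) (min (H + 1) q) H)
    (dig_mem k 0 (d - 1) _ H (by omega) (min_le_left _ _)) (by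
      intro F hF F' hF' m m' h
      apply dig_inj P k 0 (d - 1) H q hq hq1 _ (min_le_right _ _)
      have h1 := congrArg (eval P) h
      have e1 := hF.2
      have e2 := hF'.2
      rw [map_add] at e1 e2
      rw [map_add, map_add] at h1
      linarith)
  rw [Nat.card_prod, Nat.card_fun, Nat.card_fin, Nat.card_fin, Nat.card_fin] at h
  have h2 : Nat.card {F | F ∈ Fam Φ d H ∧ eval P F = 0} =
      Nat.card {G | G ∈ PBox (d - 1) H ∧ eval P (Φ + G) = 0} := by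
    rw [Nat.card_coe_set_eq, Nat.card_coe_set_eq]
    rw [← Set.ncard_image_of_injective {G | G ∈ PBox (d - 1) H ∧ eval P (Φ + G) = 0}
      (add_right_injective Φ)]
    congr 1
    ext F
    constructor
    · rintro ⟨⟨G, hG, rfl⟩, h2⟩
      exact ⟨G, ⟨hG, h2⟩, rfl⟩
    · rintro ⟨G, ⟨hG, h2⟩, rfl⟩
      exact ⟨⟨G, hG, rfl⟩, h2⟩
  rw [h2]
  refine h.trans (le_of_eq ?_)
  unfold NN
  have e1 : d - 1 + 1 = d := by omega
  have e2 : d - 1 + 2 = d + 1 := by omega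
  rw [e1, e2]

/-- points of size `q` -/
noncomputable def ptS (q : ℕ) : Finset (ℤ × ℤ) :=
  (({-(q : ℤ), (q : ℤ)} : Finset ℤ) ×ˢ Finset.Icc (-(q : ℤ)) q) ∪
    (Finset.Icc (-(q : ℤ)) q ×ˢ ({-(q : ℤ), (q : ℤ)} : Finset ℤ))

theorem card_ptS (q : ℕ) (hq : 1 ≤ q) : #(ptS q) ≤ 12 * q := by
  unfold ptS
  refine (card_union_le _ _).trans ?_
  rw [card_product, card_product, Int.card_Icc]
  have h1 : #({-(q : ℤ), (q : ℤ)} : Finset ℤ) ≤ 2 := card_le_two
  have h2 : ((q : ℤ) + 1 - -(q : ℤ)).toNat = 2 * q + 1 := by omega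
  rw [h2]
  calc _ ≤ 2 * (2 * q + 1) + (2 * q + 1) * 2 :=
        add_le_add (Nat.mul_le_mul_right _ h1) (Nat.mul_le_mul_left _ h1)
    _ ≤ _ := by omega

theorem mem_ptS {q : ℕ} {x y : ℤ} (h : max |x| |y| = q) : (x, y) ∈ ptS q := by
  unfold ptS
  have hx : |x| ≤ q := by
    rw [← h]
    exact le_max_left _ _
  have hy : |y| ≤ q := by
    rw [← h]
    exact le_max_right _ _
  have hx' := abs_le.1 hx
  have hy' := abs_le.1 hy
  rw [mem_union, mem_product, mem_product]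
  simp only [mem_insert, mem_singleton, mem_Icc]
  rcases max_choice |x| |y| with h1 | h1
  · left
    rw [h1] at h
    refine ⟨?_, hy'⟩
    rcases abs_choice x with h2 | h2
    · right
      omega
    · left
      omega
  · right
    rw [h1] at h
    refine ⟨hx', ?_⟩
    rcases abs_choice y with h2 | h2
    · right
      omega
    · left
      omega

theorem of_mem_ptS {q : ℕ} {p : ℤ × ℤ} (h : p ∈ ptS q) : |p.1| = q ∨ |p.2| = q := by
  unfold ptS at h
  rw [mem_union, mem_product, mem_product] at h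
  simp only [mem_insert, mem_singleton, mem_Icc] at h
  rcases h with ⟨h1, _⟩ | ⟨_, h1⟩
  · left
    rcases h1 with h1 | h1
    · rw [h1, abs_neg, Nat.abs_cast]
    · rw [h1, Nat.abs_cast]
  · right
    rcases h1 with h1 | h1
    · rw [h1, abs_neg, Nat.abs_cast]
    · rw [h1, Nat.abs_cast]

theorem count_fam_le (d K H : ℕ) (hd : 1 ≤ d) (hH : 1 ≤ H) (hK : 1 ≤ K) (Φ : MvPolynomial (Fin 2) ℤ)
    (q : ℕ) (hq1 : 1 ≤ q) (hqK : q ≤ K * H) (p : ℤ × ℤ) (hp : p ∈ ptS q) :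
    (Nat.card {F | F ∈ Fam Φ d H ∧ eval ![p.1, p.2] F = 0} : ℝ) ≤
      ((K : ℝ) ^ (d - 1) * (2 * (d + 1) + 1) ^ NN d) * (H : ℝ) ^ ((NN d : ℝ) - 1) *
        (1 / (q : ℝ) ^ (d - 1)) := by
  have hc : Nat.card {F | F ∈ Fam Φ d H ∧ eval ![p.1, p.2] F = 0} *
      (min (H + 1) q ^ (d - 1) * (H + 1)) ≤ (2 * ((d + 1) * H) + 1) ^ NN d := by
    rcases of_mem_ptS hp with h1 | h1
    · exact count_fam_pt d H hd Φ ![p.1, p.2] 0 q h1 hq1
    · exact count_fam_pt d H hd Φ ![p.1, p.2] 1 q h1 hq1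
  obtain ⟨N, hN⟩ : ∃ N : ℕ, N = Nat.card {F | F ∈ Fam Φ d H ∧ eval ![p.1, p.2] F = 0} := ⟨_, rfl⟩
  rw [← hN] at hc ⊢
  have hmin : q ≤ K * min (H + 1) q := by
    rcases le_total (H + 1) q with h1 | h1
    · rw [min_eq_left h1]
      exact hqK.trans (Nat.mul_le_mul_left _ (by omega))
    · rw [min_eq_right h1]
      exact Nat.le_mul_of_pos_left q hK
  have h2 : N * (q ^ (d - 1) * H) ≤ K ^ (d - 1) * ((2 * (d + 1) + 1) ^ NN d * H ^ NN d) := by
    calc N * (q ^ (d - 1) * H) ≤ N * ((K * min (H + 1) q) ^ (d - 1) * (H + 1)) :=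
          Nat.mul_le_mul_left _ (Nat.mul_le_mul (Nat.pow_le_pow_left hmin _) (by omega))
      _ = K ^ (d - 1) * (N * (min (H + 1) q ^ (d - 1) * (H + 1))) := by
          rw [mul_pow]
          ring
      _ ≤ K ^ (d - 1) * (2 * ((d + 1) * H) + 1) ^ NN d := Nat.mul_le_mul_left _ hc
      _ ≤ K ^ (d - 1) * ((2 * (d + 1) + 1) * H) ^ NN d := by
          refine Nat.mul_le_mul_left _ (Nat.pow_le_pow_left ?_ _)
          calc 2 * ((d + 1) * H) + 1 ≤ 2 * ((d + 1) * H) + H := by omega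
            _ = _ := by ring
      _ = _ := by rw [mul_pow]
  have h3 : (N : ℝ) * ((q : ℝ) ^ (d - 1) * H) ≤
      (K : ℝ) ^ (d - 1) * ((2 * (d + 1) + 1) ^ NN d * (H : ℝ) ^ NN d) := by exact_mod_cast h2
  have hHp : (0 : ℝ) < H := by exact_mod_cast hH
  have hqp : (0 : ℝ) < q := by exact_mod_cast hq1
  have h4 : (H : ℝ) ^ ((NN d : ℝ) - 1) = (H : ℝ) ^ NN d / H := by
    rw [Real.rpow_sub_one hHp.ne', Real.rpow_natCast]
  rw [h4, mul_one_div, le_div_iff₀ (by positivity), ← mul_div_assoc, le_div_iff₀ hHp]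
  calc (N : ℝ) * (q : ℝ) ^ (d - 1) * H = (N : ℝ) * ((q : ℝ) ^ (d - 1) * H) := by ring
    _ ≤ _ := h3
    _ = _ := by ring

/-- Job `SML` (helper256). -/
theorem sml : S_SML := by
  classical
  intro d K Φ hd
  obtain ⟨C1, hC1⟩ : ∃ C1 : ℝ, C1 = (K : ℝ) ^ (d - 1) * (2 * (d + 1) + 1) ^ NN d := ⟨_, rfl⟩
  have hC10 : 0 ≤ C1 := by
    rw [hC1]
    positivity
  refine ⟨24 * C1 + 1, by linarith, ?_⟩
  intro H R hH
  have hHp : (0 : ℝ) < H := by exact_mod_cast hH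
  have hHr : (0 : ℝ) ≤ (H : ℝ) ^ ((NN d : ℝ) - 1) := Real.rpow_nonneg hHp.le _
  have hfin : ∀ p : ℤ × ℤ, {F | F ∈ Fam Φ d H ∧ eval ![p.1, p.2] F = 0}.Finite := by
    intro p
    exact (fam_finite Φ d H).subset fun F hF => hF.1
  obtain ⟨V, hV⟩ : ∃ V : Set (MvPolynomial (Fin 2) ℤ), V = {F | F ∈ Fam Φ d H ∧ ∃ x y : ℤ,
      (R : ℤ) < max |x| |y| ∧ max |x| |y| ≤ K * H ∧ eval ![x, y] F = 0} := ⟨_, rfl⟩
  rw [← hV]
  have hVfin : V.Finite := by
    rw [hV]
    exact (fam_finite Φ d H).subset fun F hF => hF.1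
  have hcard : (Nat.card V : ℝ) ≤ ∑ q ∈ Finset.Ioo R (K * H + 1), ∑ p ∈ ptS q,
      (Nat.card {F | F ∈ Fam Φ d H ∧ eval ![p.1, p.2] F = 0} : ℝ) := by
    have h1 : hVfin.toFinset ⊆ (Finset.Ioo R (K * H + 1)).biUnion
        (fun q => (ptS q).biUnion (fun p => (hfin p).toFinset)) := by
      intro F hF
      rw [Set.Finite.mem_toFinset, hV] at hF
      obtain ⟨hF1, x, y, h2, h3, h4⟩ := hF
      rw [mem_biUnion]
      obtain ⟨q, hq⟩ : ∃ q : ℕ, max |x| |y| = q :=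
        ⟨(max |x| |y|).toNat, (Int.toNat_of_nonneg (le_max_of_le_left (abs_nonneg x))).symm⟩
      refine ⟨q, ?_, ?_⟩
      · rw [mem_Ioo]
        rw [hq] at h2 h3
        constructor
        · exact_mod_cast h2
        · have : q ≤ K * H := by exact_mod_cast h3
          omega
      · rw [mem_biUnion]
        refine ⟨(x, y), mem_ptS hq, ?_⟩
        rw [Set.Finite.mem_toFinset]
        exact ⟨hF1, h4⟩
    have h2 := (card_le_card h1).trans (card_biUnion_le.trans (sum_le_sum fun q _ => card_biUnion_le))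
    rw [Nat.card_coe_set_eq, Set.ncard_eq_toFinset_card _ hVfin]
    have h3 : ∀ p : ℤ × ℤ, #(hfin p).toFinset =
        Nat.card {F | F ∈ Fam Φ d H ∧ eval ![p.1, p.2] F = 0} := by
      intro p
      rw [Nat.card_coe_set_eq, Set.ncard_eq_toFinset_card _ (hfin p)]
    simp only [h3] at h2
    exact_mod_cast h2
  rcases Nat.eq_zero_or_pos K with hK | hK
  · have h0 : Nat.card V = 0 := by
      rw [Nat.card_coe_set_eq]
      have : V = ∅ := by
        rw [Set.eq_empty_iff_forall_notMem]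
        intro F hF
        rw [hV] at hF
        obtain ⟨_, x, y, h2, h3, _⟩ := hF
        rw [hK] at h3
        have hR : (0 : ℤ) ≤ R := Int.natCast_nonneg R
        push_cast at h3
        rw [zero_mul] at h3
        omega
      rw [this, Set.ncard_empty]
    rw [h0, Nat.cast_zero]
    positivity
  refine hcard.trans ?_
  have hR1 : (0 : ℝ) < (R : ℝ) + 1 := by positivity
  have hterm : ∀ q ∈ Finset.Ioo R (K * H + 1), ∑ p ∈ ptS q,
      (Nat.card {F | F ∈ Fam Φ d H ∧ eval ![p.1, p.2] F = 0} : ℝ) ≤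
      (12 * C1 * (H : ℝ) ^ ((NN d : ℝ) - 1) * (1 / ((R : ℝ) + 1) ^ (d - 4))) * ((q : ℝ) ^ 2)⁻¹ := by
    intro q hq
    rw [mem_Ioo] at hq
    have hq1 : 1 ≤ q := by omega
    have hqp : (0 : ℝ) < q := by exact_mod_cast hq1
    calc ∑ p ∈ ptS q, (Nat.card {F | F ∈ Fam Φ d H ∧ eval ![p.1, p.2] F = 0} : ℝ)
        ≤ #(ptS q) • (C1 * (H : ℝ) ^ ((NN d : ℝ) - 1) * (1 / (q : ℝ) ^ (d - 1))) := by
          refine sum_le_card_nsmul _ _ _ ?_
          intro p hp
          rw [hC1]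
          exact count_fam_le d K H (by omega) hH hK Φ q hq1 (by omega) p hp
      _ ≤ (12 * q) * (C1 * (H : ℝ) ^ ((NN d : ℝ) - 1) * (1 / (q : ℝ) ^ (d - 1))) := by
          rw [nsmul_eq_mul]
          refine mul_le_mul_of_nonneg_right ?_ (by positivity)
          exact_mod_cast card_ptS q hq1
      _ = 12 * C1 * (H : ℝ) ^ ((NN d : ℝ) - 1) * (1 / (q : ℝ) ^ (d - 4)) * ((q : ℝ) ^ 2)⁻¹ := by
          have e1 : (q : ℝ) ^ (d - 1) = q * ((q : ℝ) ^ (d - 4) * (q : ℝ) ^ 2) := by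
            rw [← pow_add, ← pow_succ']
            congr 1
            omega
          rw [e1]
          field_simp
      _ ≤ _ := by
          refine mul_le_mul_of_nonneg_right ?_ (by positivity)
          refine mul_le_mul_of_nonneg_left ?_ (by positivity)
          refine one_div_le_one_div_of_le (by positivity) ?_
          refine pow_le_pow_left₀ hR1.le ?_ _
          have : R + 1 ≤ q := by omega
          exact_mod_cast this
  calc _ ≤ ∑ q ∈ Finset.Ioo R (K * H + 1),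
        (12 * C1 * (H : ℝ) ^ ((NN d : ℝ) - 1) * (1 / ((R : ℝ) + 1) ^ (d - 4))) * ((q : ℝ) ^ 2)⁻¹ :=
        sum_le_sum hterm
    _ = (12 * C1 * (H : ℝ) ^ ((NN d : ℝ) - 1) * (1 / ((R : ℝ) + 1) ^ (d - 4))) *
        ∑ q ∈ Finset.Ioo R (K * H + 1), ((q : ℝ) ^ 2)⁻¹ := by rw [mul_sum]
    _ ≤ (12 * C1 * (H : ℝ) ^ ((NN d : ℝ) - 1) * (1 / ((R : ℝ) + 1) ^ (d - 4))) * (2 / ((R : ℝ) + 1)) :=
        mul_le_mul_of_nonneg_left (sum_Ioo_inv_sq_le R (K * H + 1)) (by positivity)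
    _ = 24 * C1 * (H : ℝ) ^ ((NN d : ℝ) - 1) * (1 / ((R : ℝ) + 1) ^ (d - 3)) := by
        have e1 : ((R : ℝ) + 1) ^ (d - 3) = ((R : ℝ) + 1) * ((R : ℝ) + 1) ^ (d - 4) := by
          rw [← pow_succ']
          congr 1
          omega
        rw [e1]
        field_simp
        ring
    _ ≤ _ := by
        refine mul_le_mul_of_nonneg_right ?_ (by positivity)
        refine mul_le_mul_of_nonneg_right ?_ hHr
        linarith

end Pool.Agent.Q14.UI
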