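import Pool.Agent.Q14.Mono

/-!
Weights as valuations, and dimensions of quotients of monomial ideals.
-/

set_option autoImplicit false

namespace Q14.Mono

open MvPolynomial

variable {σ : Type*} {K : Type*} [Field K]

/-- `x_i ↦ x_i T^{w_i}` -/
noncomputable def gradeMap (K : Type*) [Field K] (w : σ → ℕ) :
    MvPolynomial σ K →ₐ[K] Polynomial (MvPolynomial σ K) :=
  aeval (fun i => Polynomial.C (X i) * Polynomial.X ^ w i)

lemma gradeMap_monomial (w : σ → ℕ) (u : σ →₀ ℕ) (a : K) :
    gradeMap K w (monomial u a) = Polynomial.monomial (Finsupp.weight w u) (monomial u a) := by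
  unfold gradeMap
  rw [aeval_monomial, ← Polynomial.C_mul_X_pow_eq_monomial]
  have h1 : (u.prod fun i k => (Polynomial.C (X i : MvPolynomial σ K) * Polynomial.X ^ w i) ^ k) =
      Polynomial.C (u.prod fun i k => (X i : MvPolynomial σ K) ^ k) *
        Polynomial.X ^ (Finsupp.weight w u) := by
    rw [Finsupp.prod, Finsupp.prod, map_prod, Finsupp.weight_apply, Finsupp.sum,
      ← Finset.prod_pow_eq_pow_sum, ← Finset.prod_mul_distrib]
    refine Finset.prod_congr rfl fun i _ => ?_
    rw [mul_pow, ← pow_mul, smul_eq_mul, mul_comm (w i), map_pow]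
  rw [h1, ← mul_assoc, monomial_eq, map_mul]
  rfl

open Classical in
lemma coeff_coeff_gradeMap (w : σ → ℕ) (f : MvPolynomial σ K) (j : ℕ) (u : σ →₀ ℕ) :
    coeff u ((gradeMap K w f).coeff j) = if Finsupp.weight w u = j then coeff u f else 0 := by
  induction f using MvPolynomial.induction_on' with
  | monomial v a =>
    rw [gradeMap_monomial, Polynomial.coeff_monomial]
    by_cases h : Finsupp.weight w v = j
    · rw [if_pos h]
      by_cases hvu : v = u
      · subst hvu; rw [if_pos h]
      · rw [coeff_monomial, if_neg hvu]; simp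
    · rw [if_neg h, coeff_zero]
      split_ifs with h1
      · rw [coeff_monomial, if_neg]
        rintro rfl
        exact h h1
      · rfl
  | add p q hp hq =>
    rw [map_add, Polynomial.coeff_add, coeff_add, hp, hq]
    split_ifs <;> simp

lemma mem_WtGE_iff_dvd (w : σ → ℕ) (d : ℕ) (f : MvPolynomial σ K) :
    f ∈ WtGE K w d ↔ Polynomial.X ^ d ∣ gradeMap K w f := by
  classical
  rw [Polynomial.X_pow_dvd_iff, mem_WtGE]
  constructor
  · intro h j hj
    ext u
    rw [coeff_coeff_gradeMap, coeff_zero]
    split_ifs with h1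
    · by_contra h2
      have := h u (mem_support_iff.mpr h2)
      omega
    · rfl
  · intro h u hu
    by_contra hcon
    push Not at hcon
    have h1 := coeff_coeff_gradeMap w f (Finsupp.weight w u) u
    rw [h _ hcon, coeff_zero, if_pos rfl] at h1
    exact (mem_support_iff.mp hu) h1.symm

/-- The weights are valuations with centre generated by the variables of positive weight. -/
lemma mem_WtGE_of_mul_mem (w : σ → ℕ) (d : ℕ) {f g : MvPolynomial σ K}
    (h : g * f ∈ WtGE K w d) (hg : g ∉ PV K {i | w i ≠ 0}) : f ∈ WtGE K w d := by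
  rw [mem_WtGE_iff_dvd] at h ⊢
  rw [map_mul] at h
  refine Prime.pow_dvd_of_dvd_mul_left Polynomial.prime_X d (fun h1 => hg ?_) h
  rw [← pow_one (Polynomial.X : Polynomial (MvPolynomial σ K)), ← mem_WtGE_iff_dvd, mem_WtGE] at h1
  rw [mem_PV]
  intro u hu
  have h2 := h1 u hu
  rw [Finsupp.weight_apply, Finsupp.sum] at h2
  obtain ⟨i, -, hi⟩ := Finset.exists_ne_zero_of_sum_ne_zero (f := fun i => u i • w i)
    (s := u.support) (by omega)
  rw [smul_eq_mul] at hi
  exact ⟨i, right_ne_zero_of_mul hi, left_ne_zero_of_mul hi⟩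

lemma isMon_WtGE (w : σ → ℕ) (d : ℕ) : IsMon (WtGE K w d) := by
  intro f hf u hu
  rw [monomial_mem_WtGE]
  exact hf u hu

lemma IsMon.inf {I J : Ideal (MvPolynomial σ K)} (hI : IsMon I) (hJ : IsMon J) :
    IsMon (I ⊓ J) := fun f hf u hu => ⟨hI f hf.1 u hu, hJ f hf.2 u hu⟩

/-- Membership of a monomial in a sum of monomial ideals. -/
lemma IsMon.monomial_mem_sup {I J : Ideal (MvPolynomial σ K)} (hI : IsMon I) (hJ : IsMon J)
    {u : σ →₀ ℕ} : monomial u (1 : K) ∈ I ⊔ J ↔
      monomial u (1 : K) ∈ I ∨ monomial u (1 : K) ∈ J := by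
  classical
  constructor
  · intro h
    obtain ⟨f, hf, g, hg, hfg⟩ := Submodule.mem_sup.mp h
    have h1 : coeff u f + coeff u g = 1 := by
      rw [← coeff_add, hfg, coeff_monomial, if_pos rfl]
    by_cases hf0 : coeff u f = 0
    · right
      refine hJ g hg u (mem_support_iff.mpr ?_)
      intro h0
      rw [hf0, h0, add_zero] at h1
      exact zero_ne_one h1
    · left
      exact hI f hf u (mem_support_iff.mpr hf0)
  · rintro (h | h)
    · exact Ideal.mem_sup_left h
    · exact Ideal.mem_sup_right h

lemma IsMon.sup {I J : Ideal (MvPolynomial σ K)} (hI : IsMon I) (hJ : IsMon J) :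
    IsMon (I ⊔ J) := by
  classical
  intro f hf u hu
  obtain ⟨g, hg, h, hh, rfl⟩ := Submodule.mem_sup.mp hf
  rcases Finset.mem_union.mp (support_add hu) with h1 | h1
  · exact Ideal.mem_sup_left (hI g hg u h1)
  · exact Ideal.mem_sup_right (hJ h hh u h1)

lemma isMon_PV (C : Set σ) : IsMon (PV K C) := by
  intro f hf u hu
  rw [mem_PV] at hf ⊢
  intro v hv
  have : v = u := by simpa using support_monomial_subset hv
  rw [this]; exact hf u hu

/-- Membership of a monomial in `𝔪 J`. -/
lemma IsMon.monomial_mem_max_mul {J : Ideal (MvPolynomial σ K)} (hJ : IsMon J) {u : σ →₀ ℕ} :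
    monomial u (1 : K) ∈ PV K Set.univ * J ↔
      ∃ i v, u = Finsupp.single i 1 + v ∧ monomial v (1 : K) ∈ J := by
  classical
  constructor
  · intro h
    obtain ⟨v, w, hv, hw, rfl⟩ := (isMon_PV Set.univ).monomial_mem_mul hJ h
    obtain ⟨i, -, hi⟩ := mem_PV.mp hv v (by
      rw [support_monomial, if_neg one_ne_zero]; exact Finset.mem_singleton_self _)
    have hle : Finsupp.single i 1 ≤ v := by rw [Finsupp.single_le_iff]; omega
    obtain ⟨z, rfl⟩ := exists_add_of_le hle
    exact ⟨i, z + w, by rw [add_assoc], monomial_mem_of_le (by simp) hw⟩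
  · rintro ⟨i, v, rfl, hv⟩
    have : (monomial (Finsupp.single i 1 + v) (1 : K)) = X i * monomial v 1 := by
      rw [X, monomial_mul, one_mul]
    rw [this]
    exact Ideal.mul_mem_mul (X_mem_PV.mpr (Set.mem_univ i)) hv

/-- The dimension of `J/(L ∩ J)` for monomial ideals: the number of monomials in `J` and not
in `L`. -/
lemma finrank_quotient {J L : Ideal (MvPolynomial σ K)} (hJ : IsMon J) (hL : IsMon L)
    (T : Finset (σ →₀ ℕ))
    (hT : ∀ u, u ∈ T ↔ (monomial u (1 : K) ∈ J ∧ monomial u (1 : K) ∉ L)) :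
    Module.finrank K (↥J ⧸ L.submoduleOf J) = T.card := by
  classical
  let φ : ↥J →ₗ[K] (T → K) :=
    { toFun := fun f u => coeff u.1 f.1
      map_add' := by intro f g; funext u; simp
      map_smul' := by intro c f; funext u; simp }
  have hsurj : Function.Surjective φ := by
    intro c
    refine ⟨⟨∑ u : T, monomial u.1 (c u), J.sum_mem fun u _ => ?_⟩, ?_⟩
    · have : (monomial u.1 (c u) : MvPolynomial σ K) = C (c u) * monomial u.1 1 := by
        rw [C_mul_monomial, mul_one]
      rw [this]
      exact J.mul_mem_left _ ((hT u.1).mp u.2).1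
    · funext v
      show coeff v.1 (∑ u : T, monomial u.1 (c u)) = c v
      rw [coeff_sum, Finset.sum_eq_single v]
      · rw [coeff_monomial, if_pos rfl]
      · intro u _ huv
        rw [coeff_monomial, if_neg (fun h => huv (Subtype.ext h))]
      · intro h; exact absurd (Finset.mem_univ v) h
  have hker : LinearMap.ker φ = (L.submoduleOf J).restrictScalars K := by
    ext f
    rw [LinearMap.mem_ker]
    constructor
    · intro h
      show f.1 ∈ L
      refine mem_of_forall fun u hu => ?_
      by_contra hcon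
      have h1 : u ∈ T := (hT u).mpr ⟨hJ f.1 f.2 u hu, hcon⟩
      have h2 : coeff u f.1 = 0 := congrFun h ⟨u, h1⟩
      exact (mem_support_iff.mp hu) h2
    · intro h
      funext u
      show coeff u.1 f.1 = 0
      by_contra hcon
      exact ((hT u.1).mp u.2).2 (hL f.1 h u.1 (mem_support_iff.mpr hcon))
  have e := LinearMap.quotKerEquivOfSurjective φ hsurj
  have h1 : Module.finrank K (↥J ⧸ LinearMap.ker φ) = T.card := by
    rw [e.finrank_eq, Module.finrank_pi, Fintype.card_coe]
  rw [← h1, hker]
  rfl

end Q14.Mono
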